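import Mathlib

/-!
# Piece CORD: ordinal functions for the complexity (about 120 lines)

`fO a b = (max a b + 1) * (max a b + 1) + min a b`. Write `m = max a b`.
* `lt_fO_left`, `lt_fO_right`: `a ≤ m < m + 1 ≤ (m + 1) * (m + 1) ≤ fO a b`.
* `fO_le`: monotone in both arguments. `fO_lt`: if `max a b < max a' b'` then
  `fO a b < (m + 1) * (m + 1) + (m + 1) = (m + 1) * (m + 2) ≤ (m' + 1) * (m' + 1)` (`min a b ≤ m < m + 1`,
  `m + 1 ≤ m'`); if the maxima are equal then `min a b ≤ min a' b'`, and if the minima are equal as well then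
  `{a, b} = {a', b'}` as pairs, which with `a ≤ a'`, `b ≤ b'` gives `a = a'`, `b = b'`; so
  `min a b < min a' b'` and the ordinal addition is strictly monotone on the right.
* `exists_closed`: for every `x` there is `κ > x` closed under `φ` (`a, b < κ → φ a b < κ`): the
  supremum of the sequence `u 0 = x + 1`, `u (n + 1) =` an ordinal larger than `u n` and all `φ a b`,
  `a, b < u n` (a small family: `Ordinal.bddAbove_of_small`, `Ordinal.lt_iSup_iff` or `Ordinal.lsub`); then
  define `G` by well-founded recursion: `G i =` the least closed `κ` with `i < κ` and `G j < κ` for all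
  `j < i` (exists since the family is small).
-/

namespace SingerBO

/-- A strictly monotone function of two ordinals, larger than both arguments. -/
noncomputable def fO (a b : Ordinal.{0}) : Ordinal.{0} :=
  (max a b + 1) * (max a b + 1) + min a b

private theorem max_lt_fO (a b : Ordinal.{0}) : max a b < fO a b := by
  have h1 : max a b < max a b + 1 := Order.lt_succ _
  have h2 : max a b + 1 ≤ (max a b + 1) * (max a b + 1) := by
    calc max a b + 1 = (max a b + 1) * 1 := (mul_one _).symm
      _ ≤ (max a b + 1) * (max a b + 1) := by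
          gcongr
          exact le_add_self
  have h3 : (max a b + 1) * (max a b + 1) ≤ fO a b := by
    unfold fO
    exact le_self_add
  exact lt_of_lt_of_le h1 (h2.trans h3)

theorem lt_fO_left (a b : Ordinal.{0}) : a < fO a b :=
  lt_of_le_of_lt (le_max_left a b) (max_lt_fO a b)

theorem lt_fO_right (a b : Ordinal.{0}) : b < fO a b :=
  lt_of_le_of_lt (le_max_right a b) (max_lt_fO a b)

private theorem max_lt_or_min_lt {a b a' b' : Ordinal.{0}} (h1 : a ≤ a') (h2 : b ≤ b')
    (h : a < a' ∨ b < b') : max a b < max a' b' ∨ (max a b = max a' b' ∧ min a b < min a' b') := by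
  rcases lt_or_eq_of_le (max_le_max h1 h2) with hm | hm
  · exact Or.inl hm
  · right
    refine ⟨hm, ?_⟩
    rcases h with h | h
    · rcases le_total a b with hab | hab
      · rw [max_eq_right hab] at hm
        have ha' : a' ≤ b := by rw [hm]; exact le_max_left _ _
        rw [min_eq_left hab]
        exact lt_min h (lt_of_lt_of_le h (ha'.trans h2))
      · rw [max_eq_left hab] at hm
        exact absurd (lt_of_lt_of_le h (le_max_left a' b')) (by rw [← hm]; exact lt_irrefl _)
    · rcases le_total a b with hab | hab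
      · rw [max_eq_right hab] at hm
        exact absurd (lt_of_lt_of_le h (le_max_right a' b')) (by rw [← hm]; exact lt_irrefl _)
      · rw [max_eq_left hab] at hm
        have hb' : b' ≤ a := by rw [hm]; exact le_max_right _ _
        rw [min_eq_right hab]
        exact lt_min (lt_of_lt_of_le h (hb'.trans h1)) h

theorem fO_lt {a b a' b' : Ordinal.{0}} (h1 : a ≤ a') (h2 : b ≤ b') (h : a < a' ∨ b < b') :
    fO a b < fO a' b' := by
  rcases max_lt_or_min_lt h1 h2 h with hm | ⟨hm, hn⟩
  · unfold fO
    have hmin : min a b < max a b + 1 := lt_of_le_of_lt min_le_max (Order.lt_succ _)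
    calc (max a b + 1) * (max a b + 1) + min a b
        < (max a b + 1) * (max a b + 1) + (max a b + 1) := by
          exact (add_lt_add_iff_left _).mpr hmin
      _ = (max a b + 1) * ((max a b + 1) + 1) := (mul_add_one _ _).symm
      _ ≤ (max a' b' + 1) * (max a' b' + 1) := by
          have h3 : max a b + 1 ≤ max a' b' := Order.succ_le_of_lt hm
          have h4 : max a b + 1 ≤ max a' b' + 1 := h3.trans (Order.le_succ _)
          have h5 : max a b + 1 + 1 ≤ max a' b' + 1 := by gcongr
          exact mul_le_mul' h4 h5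
      _ ≤ (max a' b' + 1) * (max a' b' + 1) + min a' b' := le_self_add
  · unfold fO
    rw [hm]
    exact (add_lt_add_iff_left _).mpr hn

theorem fO_le {a b a' b' : Ordinal.{0}} (h1 : a ≤ a') (h2 : b ≤ b') : fO a b ≤ fO a' b' := by
  by_cases h : a < a' ∨ b < b'
  · exact (fO_lt h1 h2 h).le
  · rw [not_or, not_lt, not_lt] at h
    rw [le_antisymm h1 h.1, le_antisymm h2 h.2]

private theorem exists_closed_gt (φ : Ordinal.{0} → Ordinal.{0} → Ordinal.{0})
    (x : Ordinal.{0}) : ∃ κ : Ordinal.{0}, x < κ ∧ ∀ a b, a < κ → b < κ → φ a b < κ := by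
  classical
  let f : Ordinal.{0} → Ordinal.{0} := fun y =>
    max (y + 1) (⨆ p : Set.Iio y × Set.Iio y, (φ p.1 p.2 + 1))
  have hf : ∀ y, y < f y := fun y => lt_of_lt_of_le (Order.lt_succ y) (le_max_left _ _)
  have hφ : ∀ y a b, a < y → b < y → φ a b < f y := by
    intro y a b ha hb
    have h1 : φ a b + 1 ≤ ⨆ p : Set.Iio y × Set.Iio y, (φ p.1 p.2 + 1) :=
      Ordinal.le_iSup (fun p : Set.Iio y × Set.Iio y => (φ p.1 p.2 + 1)) (⟨a, ha⟩, ⟨b, hb⟩)
    exact lt_of_lt_of_le (Order.lt_succ _) (h1.trans (le_max_right _ _))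
  let u : ℕ → Ordinal.{0} := fun n => f^[n] (x + 1)
  have hu : ∀ n, u (n + 1) = f (u n) := fun n => Function.iterate_succ_apply' f n (x + 1)
  have hmono : StrictMono u := strictMono_nat_of_lt_succ fun n => by rw [hu]; exact hf _
  have hle : ∀ n, u n ≤ ⨆ n, u n := fun n => Ordinal.le_iSup u n
  refine ⟨⨆ n, u n, ?_, ?_⟩
  · exact lt_of_lt_of_le (Order.lt_succ x) (hle 0)
  · intro a b ha hb
    rw [Ordinal.lt_iSup_iff] at ha hb
    obtain ⟨n, hn⟩ := ha
    obtain ⟨m, hm⟩ := hb
    have h1 : a < u (max n m) := lt_of_lt_of_le hn (hmono.monotone (le_max_left n m))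
    have h2 : b < u (max n m) := lt_of_lt_of_le hm (hmono.monotone (le_max_right n m))
    have h3 := hφ _ a b h1 h2
    rw [← hu] at h3
    exact lt_of_lt_of_le h3 (hle _)

theorem exists_closed (φ : Ordinal.{0} → Ordinal.{0} → Ordinal.{0}) :
    ∃ G : Ordinal.{0} → Ordinal.{0}, StrictMono G ∧ (∀ i, i < G i) ∧
      ∀ i x y, x < G i → y < G i → φ x y < G i := by
  let C : Set Ordinal.{0} := {κ | ∀ a b, a < κ → b < κ → φ a b < κ}
  have hC : ¬ BddAbove C := by
    rintro ⟨B, hB⟩
    obtain ⟨κ, h1, h2⟩ := exists_closed_gt φ B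
    exact absurd (hB (show κ ∈ C from h2)) (not_le.mpr h1)
  have hs : StrictMono (Ordinal.enumOrd C) := Ordinal.enumOrd_strictMono hC
  refine ⟨fun i => Ordinal.enumOrd C (i + 1), ?_, ?_, ?_⟩
  · intro i j hij
    exact hs (by
      have h : i + 1 ≤ j := Order.succ_le_of_lt hij
      exact lt_of_le_of_lt h (Order.lt_succ j))
  · intro i
    exact lt_of_lt_of_le (Order.lt_succ i) (hs.le_apply)
  · intro i x y hx hy
    exact Ordinal.enumOrd_mem hC (i + 1) x y hx hy

/-- An increasing function whose values are closed under `fO`. -/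
noncomputable def gG : Ordinal.{0} → Ordinal.{0} := (exists_closed fO).choose

theorem gG_mono : StrictMono gG := (exists_closed fO).choose_spec.1

theorem lt_gG (i : Ordinal.{0}) : i < gG i := (exists_closed fO).choose_spec.2.1 i

theorem gG_closed {i x y : Ordinal.{0}} (hx : x < gG i) (hy : y < gG i) : fO x y < gG i :=
  (exists_closed fO).choose_spec.2.2 i x y hx hy

/-- The complexity of a product. -/
noncomputable def gO (a b : Ordinal.{0}) : Ordinal.{0} := gG (fO a b)

theorem gO_closed {a b x y : Ordinal.{0}} (hx : x < gO a b) (hy : y < gO a b) :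
    fO x y < gO a b := gG_closed hx hy

theorem gO_lt {a b a' b' : Ordinal.{0}} (h1 : a ≤ a') (h2 : b ≤ b') (h : a < a' ∨ b < b') :
    gO a b < gO a' b' := gG_mono (fO_lt h1 h2 h)

theorem gO_le {a b a' b' : Ordinal.{0}} (h1 : a ≤ a') (h2 : b ≤ b') : gO a b ≤ gO a' b' :=
  gG_mono.monotone (fO_le h1 h2)

/-- The complexity of an inverse: a strictly increasing function whose values are closed under
`fO` and `gO`. -/
noncomputable def hO : Ordinal.{0} → Ordinal.{0} :=
  (exists_closed fun x y => max (fO x y) (gO x y)).choose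

theorem hO_mono : StrictMono hO :=
  (exists_closed fun x y => max (fO x y) (gO x y)).choose_spec.1

theorem lt_hO (i : Ordinal.{0}) : i < hO i :=
  (exists_closed fun x y => max (fO x y) (gO x y)).choose_spec.2.1 i

theorem hO_closed_f {i x y : Ordinal.{0}} (hx : x < hO i) (hy : y < hO i) : fO x y < hO i :=
  lt_of_le_of_lt (le_max_left _ _)
    ((exists_closed fun x y => max (fO x y) (gO x y)).choose_spec.2.2 i x y hx hy)

theorem hO_closed_g {i x y : Ordinal.{0}} (hx : x < hO i) (hy : y < hO i) : gO x y < hO i :=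
  lt_of_le_of_lt (le_max_right _ _)
    ((exists_closed fun x y => max (fO x y) (gO x y)).choose_spec.2.2 i x y hx hy)

end SingerBO
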