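import Mathlib
import Pool.Agent.Lib_MP_394d50_bo.COrd

/-!
# MP_394d50_gt, virtually bi-orderable groups: definitions

Part 1: the classes of groups. Part 2: free embeddings of a group in a division ring.
Part 3: rational expressions and their complexity.
-/

namespace SingerBO

/-! ## Part 1: the classes of groups -/

/-- `r` is a strict total order on `A`, invariant under the multiplications on both sides. -/
structure BOrd {A : Type} [Group A] (r : A → A → Prop) : Prop where
  irrefl : ∀ x, ¬ r x x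
  trans : ∀ x y z, r x y → r y z → r x z
  total : ∀ x y, x ≠ y → r x y ∨ r y x
  left : ∀ g x y, r x y → r (g * x) (g * y)
  right : ∀ g x y, r x y → r (x * g) (y * g)

/-- `Γ` is virtually bi-orderable. -/
def VirtBO (Γ : Type) [Group Γ] : Prop :=
  ∃ K : Subgroup Γ, K.FiniteIndex ∧ ∃ r : K → K → Prop, BOrd r

/-- `χ` restricts to a homomorphism `H → ℤ` with kernel `N`, and `χ s = 1`. -/
structure Chi {G : Type} [Group G] (H N : Subgroup G) (χ : G → ℤ) (s : G) : Prop where
  mul : ∀ x ∈ H, ∀ y ∈ H, χ (x * y) = χ x + χ y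
  ker : ∀ x, x ∈ N ↔ x ∈ H ∧ χ x = 0
  mem : s ∈ H
  one : χ s = 1

/-- `G` is locally indicable. -/
def LocInd (G : Type) [Group G] : Prop :=
  ∀ H : Subgroup G, H.FG → H ≠ ⊥ → ∃ (N : Subgroup G) (χ : G → ℤ) (s : G), Chi H N χ s

section

variable {G : Type} [Group G] {H N : Subgroup G} {χ : G → ℤ} {s : G}

theorem Chi.map_one (h : Chi H N χ s) : χ 1 = 0 := by
  have h1 := h.mul 1 H.one_mem 1 H.one_mem
  rw [one_mul] at h1
  omega

theorem Chi.map_inv (h : Chi H N χ s) {x : G} (hx : x ∈ H) : χ x⁻¹ = - χ x := by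
  have h1 := h.mul x hx x⁻¹ (H.inv_mem hx)
  rw [mul_inv_cancel, h.map_one] at h1
  omega

theorem Chi.le (h : Chi H N χ s) : N ≤ H := fun x hx => ((h.ker x).mp hx).1

theorem Chi.zero (h : Chi H N χ s) {x : G} (hx : x ∈ N) : χ x = 0 := ((h.ker x).mp hx).2

theorem Chi.zpow_mem (h : Chi H N χ s) (n : ℤ) : s ^ n ∈ H := H.zpow_mem h.mem n

theorem Chi.map_zpow (h : Chi H N χ s) (n : ℤ) : χ (s ^ n) = n := by
  have h0 : ∀ m : ℕ, χ (s ^ m) = m := by
    intro m
    induction m with
    | zero => rw [pow_zero, h.map_one]; rfl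
    | succ m ih =>
      rw [pow_succ, h.mul _ (H.pow_mem h.mem m) _ h.mem, ih, h.one]
      push_cast
      rfl
  cases n with
  | ofNat m =>
    rw [Int.ofNat_eq_natCast, zpow_natCast, h0]
  | negSucc m =>
    rw [zpow_negSucc, h.map_inv (H.pow_mem h.mem _), h0]
    rfl

/-- The opposite homomorphism. -/
theorem Chi.neg (h : Chi H N χ s) : Chi H N (fun x => - χ x) s⁻¹ where
  mul := fun x hx y hy => by rw [h.mul x hx y hy]; ring
  ker := fun x => by rw [h.ker x, neg_eq_zero]
  mem := H.inv_mem h.mem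
  one := by rw [h.map_inv h.mem, h.one]; rfl

/-- `N` is normal in `H`. -/
theorem Chi.conj (h : Chi H N χ s) {x k : G} (hx : x ∈ N) (hk : k ∈ H) : k * x * k⁻¹ ∈ N := by
  have hxH := h.le hx
  rw [h.ker]
  refine ⟨H.mul_mem (H.mul_mem hk hxH) (H.inv_mem hk), ?_⟩
  rw [h.mul _ (H.mul_mem hk hxH) _ (H.inv_mem hk), h.mul _ hk _ hxH, h.map_inv hk, h.zero hx]
  ring

/-- The shift of an element of `H` into `N`. -/
theorem Chi.mul_zpow_mem (h : Chi H N χ s) {x : G} (hx : x ∈ H) : x * s ^ (- χ x) ∈ N := by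
  rw [h.ker]
  refine ⟨H.mul_mem hx (h.zpow_mem _), ?_⟩
  rw [h.mul _ hx _ (h.zpow_mem _), h.map_zpow]
  ring

end

/-! ## Part 2: free embeddings in a division ring -/

section

variable {G D : Type} [Group G] [DivisionRing D]

/-- The division subring generated by `H`. -/
def DH (t : G →* Dˣ) (H : Subgroup G) : Subfield D :=
  Subfield.closure {x | ∃ h ∈ H, x = ((t h : Dˣ) : D)}

theorem mem_DH (t : G →* Dˣ) {H : Subgroup G} {h : G} (hh : h ∈ H) :
    ((t h : Dˣ) : D) ∈ DH t H := Subfield.subset_closure ⟨h, hh, rfl⟩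

theorem DH_mono (t : G →* Dˣ) {H K : Subgroup G} (h : H ≤ K) : DH t H ≤ DH t K := by
  unfold DH
  rw [Subfield.closure_le]
  rintro x ⟨g, hg, rfl⟩
  exact Subfield.subset_closure ⟨g, h hg, rfl⟩

/-- The left and right cosets of every subgroup `H` are independent over the division subring
generated by `H`. -/
structure FEb (t : G →* Dˣ) : Prop where
  left : ∀ (H : Subgroup G) (F : Finset G) (d : G → D),
    (∀ g ∈ F, ∀ g' ∈ F, g⁻¹ * g' ∈ H → g = g') → (∀ g ∈ F, d g ∈ DH t H) →
    ∑ g ∈ F, ((t g : Dˣ) : D) * d g = 0 → ∀ g ∈ F, d g = 0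
  right : ∀ (H : Subgroup G) (F : Finset G) (d : G → D),
    (∀ g ∈ F, ∀ g' ∈ F, g' * g⁻¹ ∈ H → g = g') → (∀ g ∈ F, d g ∈ DH t H) →
    ∑ g ∈ F, d g * ((t g : Dˣ) : D) = 0 → ∀ g ∈ F, d g = 0

/-- A free embedding: in addition `D` is generated by `G`. -/
structure FE (t : G →* Dˣ) : Prop extends FEb t where
  gen : ∀ x : D, x ∈ DH t ⊤

/-- Conjugation by `t k`. -/
theorem DH_conj (t : G →* Dˣ) {H : Subgroup G} {k : G} (hk : ∀ h ∈ H, k * h * k⁻¹ ∈ H) {x : D}
    (hx : x ∈ DH t H) : ((t k : Dˣ) : D) * x * (((t k)⁻¹ : Dˣ) : D) ∈ DH t H := by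
  induction hx using Subfield.closure_induction with
  | mem x hx =>
    obtain ⟨h, hh, rfl⟩ := hx
    rw [← Units.val_mul, ← Units.val_mul, ← map_mul, ← map_inv, ← map_mul]
    exact mem_DH t (hk h hh)
  | one =>
    rw [mul_one, ← Units.val_mul, mul_inv_cancel, Units.val_one]
    exact one_mem _
  | add x y _ _ hx hy =>
    rw [mul_add, add_mul]
    exact add_mem hx hy
  | neg x _ hx =>
    rw [mul_neg, neg_mul]
    exact neg_mem hx
  | inv x _ hx =>
    have h1 : ((t k : Dˣ) : D) * x⁻¹ * (((t k)⁻¹ : Dˣ) : D) =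
        (((t k : Dˣ) : D) * x * (((t k)⁻¹ : Dˣ) : D))⁻¹ := by
      rw [mul_inv_rev, mul_inv_rev, Units.val_inv_eq_inv_val, inv_inv, mul_assoc]
    rw [h1]
    exact inv_mem hx
  | mul x y _ _ hx hy =>
    have h1 : ((t k : Dˣ) : D) * (x * y) * (((t k)⁻¹ : Dˣ) : D) =
        (((t k : Dˣ) : D) * x * (((t k)⁻¹ : Dˣ) : D)) *
          (((t k : Dˣ) : D) * y * (((t k)⁻¹ : Dˣ) : D)) := by
      have h2 : (((t k)⁻¹ : Dˣ) : D) * ((t k : Dˣ) : D) = 1 := by
        rw [← Units.val_mul, inv_mul_cancel, Units.val_one]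
      calc ((t k : Dˣ) : D) * (x * y) * (((t k)⁻¹ : Dˣ) : D)
          = ((t k : Dˣ) : D) * x * 1 * y * (((t k)⁻¹ : Dˣ) : D) := by
            rw [mul_one, mul_assoc (((t k : Dˣ) : D)) x y]
        _ = _ := by rw [← h2]; simp only [mul_assoc]
    rw [h1]
    exact mul_mem hx hy

end

/-! ## Part 3: rational expressions -/

/-- Rational expressions: `add p g q` stands for `p + g q`. -/
inductive PE (G : Type) : Type where
  | zero : PE G
  | one : PE G
  | neg (p : PE G) : PE G
  | add (p : PE G) (g : G) (q : PE G) : PE G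
  | mul (p q : PE G) : PE G
  | inv (p : PE G) : PE G

namespace PE

variable {G D : Type}

/-- The group elements which occur in an expression. -/
def lv : PE G → List G
  | zero => []
  | one => []
  | neg p => p.lv
  | add p g q => p.lv ++ g :: q.lv
  | mul p q => p.lv ++ q.lv
  | inv p => p.lv

/-- The complexity. -/
noncomputable def cx : PE G → Ordinal.{0}
  | zero => 0
  | one => 0
  | neg p => p.cx
  | add p _ q => fO p.cx q.cx
  | mul p q => gO p.cx q.cx
  | inv p => hO p.cx

variable [Group G]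

/-- The expression involves only elements of `S`. -/
def In (S : Subgroup G) (p : PE G) : Prop := ∀ g ∈ p.lv, g ∈ S

/-- The conjugate by `k`. -/
def conj (k : G) : PE G → PE G
  | zero => zero
  | one => one
  | neg p => neg (conj k p)
  | add p g q => add (conj k p) (k * g * k⁻¹) (conj k q)
  | mul p q => mul (conj k p) (conj k q)
  | inv p => inv (conj k p)

/-- The value of an expression. -/
def val [DivisionRing D] (t : G →* Dˣ) : PE G → D
  | zero => 0
  | one => 1
  | neg p => - val t p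
  | add p g q => val t p + ((t g : Dˣ) : D) * val t q
  | mul p q => val t p * val t q
  | inv p => (val t p)⁻¹

theorem in_zero (S : Subgroup G) : In S zero := fun _ h => absurd h List.not_mem_nil

theorem in_one (S : Subgroup G) : In S one := fun _ h => absurd h List.not_mem_nil

theorem in_neg {S : Subgroup G} {p : PE G} : In S (neg p) ↔ In S p := Iff.rfl

theorem in_inv {S : Subgroup G} {p : PE G} : In S (inv p) ↔ In S p := Iff.rfl

theorem in_mul {S : Subgroup G} {p q : PE G} : In S (mul p q) ↔ In S p ∧ In S q := by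
  unfold In
  constructor
  · intro h
    exact ⟨fun g hg => h g (List.mem_append_left _ hg),
      fun g hg => h g (List.mem_append_right _ hg)⟩
  · rintro ⟨h1, h2⟩ g hg
    exact (List.mem_append.mp hg).elim (h1 g) (h2 g)

theorem in_add {S : Subgroup G} {p q : PE G} {g : G} :
    In S (add p g q) ↔ In S p ∧ g ∈ S ∧ In S q := by
  unfold In
  constructor
  · intro h
    refine ⟨fun x hx => h x (List.mem_append_left _ hx),
      h g (List.mem_append_right _ (List.mem_cons_self)),
      fun x hx => h x (List.mem_append_right _ (List.mem_cons_of_mem _ hx))⟩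
  · rintro ⟨h1, h2, h3⟩ x hx
    rcases List.mem_append.mp hx with h | h
    · exact h1 x h
    · rcases List.mem_cons.mp h with h | h
      · rw [h]
        exact h2
      · exact h3 x h

theorem In.mono {S T : Subgroup G} (h : S ≤ T) {p : PE G} (hp : p.In S) : p.In T :=
  fun g hg => h (hp g hg)

theorem cx_conj (k : G) (p : PE G) : (conj k p).cx = p.cx := by
  induction p with
  | zero => rfl
  | one => rfl
  | neg p ih => exact ih
  | add p g q ih1 ih2 =>
    show fO (conj k p).cx (conj k q).cx = fO p.cx q.cx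
    rw [ih1, ih2]
  | mul p q ih1 ih2 =>
    show gO (conj k p).cx (conj k q).cx = gO p.cx q.cx
    rw [ih1, ih2]
  | inv p ih =>
    show hO (conj k p).cx = hO p.cx
    rw [ih]

theorem in_conj {S : Subgroup G} {k : G} (hk : ∀ x ∈ S, k * x * k⁻¹ ∈ S) {p : PE G}
    (hp : p.In S) : (conj k p).In S := by
  induction p with
  | zero => exact in_zero S
  | one => exact in_one S
  | neg p ih => exact ih hp
  | add p g q ih1 ih2 =>
    rw [in_add] at hp
    exact in_add.mpr ⟨ih1 hp.1, hk g hp.2.1, ih2 hp.2.2⟩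
  | mul p q ih1 ih2 =>
    rw [in_mul] at hp
    exact in_mul.mpr ⟨ih1 hp.1, ih2 hp.2⟩
  | inv p ih => exact ih hp

theorem val_conj [DivisionRing D] (t : G →* Dˣ) (k : G) (p : PE G) :
    (conj k p).val t = ((t k : Dˣ) : D) * p.val t * (((t k)⁻¹ : Dˣ) : D) := by
  have h2 : (((t k)⁻¹ : Dˣ) : D) * ((t k : Dˣ) : D) = 1 := by
    rw [← Units.val_mul, inv_mul_cancel, Units.val_one]
  have h3 : ((t k : Dˣ) : D) * (((t k)⁻¹ : Dˣ) : D) = 1 := by
    rw [← Units.val_mul, mul_inv_cancel, Units.val_one]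
  have h4 : ∀ x y : D, ((t k : Dˣ) : D) * (x * y) * (((t k)⁻¹ : Dˣ) : D) =
      (((t k : Dˣ) : D) * x * (((t k)⁻¹ : Dˣ) : D)) *
        (((t k : Dˣ) : D) * y * (((t k)⁻¹ : Dˣ) : D)) := by
    intro x y
    calc ((t k : Dˣ) : D) * (x * y) * (((t k)⁻¹ : Dˣ) : D)
        = ((t k : Dˣ) : D) * x * 1 * y * (((t k)⁻¹ : Dˣ) : D) := by
          rw [mul_one, mul_assoc (((t k : Dˣ) : D)) x y]
      _ = _ := by rw [← h2]; simp only [mul_assoc]
  induction p with
  | zero =>
    show (0 : D) = _ * 0 * _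
    rw [mul_zero, zero_mul]
  | one =>
    show (1 : D) = _ * 1 * _
    rw [mul_one, h3]
  | neg p ih =>
    show - (conj k p).val t = _ * (- p.val t) * _
    rw [ih, mul_neg, neg_mul]
  | add p g q ih1 ih2 =>
    show (conj k p).val t + ((t (k * g * k⁻¹) : Dˣ) : D) * (conj k q).val t =
      _ * (p.val t + ((t g : Dˣ) : D) * q.val t) * _
    rw [ih1, ih2, mul_add, add_mul, h4, map_mul, map_mul, map_inv, Units.val_mul, Units.val_mul]
  | mul p q ih1 ih2 =>
    show (conj k p).val t * (conj k q).val t = _ * (p.val t * q.val t) * _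
    rw [ih1, ih2, h4]
  | inv p ih =>
    show ((conj k p).val t)⁻¹ = _ * (p.val t)⁻¹ * _
    rw [ih, mul_inv_rev, mul_inv_rev, Units.val_inv_eq_inv_val, inv_inv, mul_assoc]

theorem val_mem [DivisionRing D] (t : G →* Dˣ) {S : Subgroup G} {p : PE G} (hp : p.In S) :
    p.val t ∈ DH t S := by
  induction p with
  | zero => exact zero_mem _
  | one => exact one_mem _
  | neg p ih => exact neg_mem (ih hp)
  | add p g q ih1 ih2 =>
    rw [in_add] at hp
    exact add_mem (ih1 hp.1) (mul_mem (mem_DH t hp.2.1) (ih2 hp.2.2))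
  | mul p q ih1 ih2 =>
    rw [in_mul] at hp
    exact mul_mem (ih1 hp.1) (ih2 hp.2)
  | inv p ih => exact inv_mem (ih hp)

theorem cx_pos {S : Subgroup G} {p : PE G} (hp : ¬ p.In S) : 0 < p.cx := by
  induction p with
  | zero => exact absurd (in_zero S) hp
  | one => exact absurd (in_one S) hp
  | neg p ih => exact ih hp
  | add p g q _ _ => exact lt_of_le_of_lt zero_le (lt_fO_left p.cx q.cx)
  | mul p q _ _ =>
    exact lt_of_le_of_lt zero_le ((lt_fO_left p.cx q.cx).trans (lt_gG _))
  | inv p _ => exact lt_of_le_of_lt zero_le (lt_hO p.cx)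

/-- The subgroup generated by the elements which occur in a list of expressions. -/
def clo (L : List (PE G)) : Subgroup G := Subgroup.closure {g | ∃ p ∈ L, g ∈ p.lv}

theorem clo_fg (L : List (PE G)) : (clo L).FG := by
  classical
  refine (Subgroup.fg_iff _).mpr ⟨{g | ∃ p ∈ L, g ∈ p.lv}, rfl, ?_⟩
  have h : {g | ∃ p ∈ L, g ∈ p.lv} = ⋃ p ∈ L.toFinset, {g | g ∈ p.lv} := by
    ext g
    simp
  rw [h]
  exact Set.Finite.biUnion L.toFinset.finite_toSet fun p _ => p.lv.finite_toSet

theorem in_clo {L : List (PE G)} {p : PE G} (hp : p ∈ L) : p.In (clo L) :=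
  fun _ hg => Subgroup.subset_closure ⟨p, hp, hg⟩

theorem clo_le {L : List (PE G)} {H : Subgroup G} (h : ∀ p ∈ L, p.In H) : clo L ≤ H := by
  unfold clo
  rw [Subgroup.closure_le]
  rintro g ⟨p, hp, hg⟩
  exact h p hp g hg

/-- If the elements of `L` generate `H` then some expression does not lie in the kernel. -/
theorem exists_not_in {L : List (PE G)} {N : Subgroup G} {χ : G → ℤ} {s : G}
    (h : Chi (clo L) N χ s) : ∃ p ∈ L, ¬ p.In N := by
  by_contra hn
  push Not at hn
  have h1 := h.zero (clo_le hn h.mem)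
  rw [h.one] at h1
  exact one_ne_zero h1

end PE

/-- The homogeneous elements of degree `n` and complexity less than `B`. -/
def Hm {G D : Type} [Group G] [DivisionRing D] (t : G →* Dˣ) (H N : Subgroup G) (χ : G → ℤ)
    (n : ℤ) (B : Ordinal.{0}) (x : D) : Prop :=
  ∃ γ ∈ H, χ γ = n ∧ ∃ q : PE G, q.In N ∧ q.cx < B ∧ x = ((t γ : Dˣ) : D) * q.val t

end SingerBO
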