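import Mathlib
import Pool.Agent.Lib_MP_394d50_bo.FDefs

/-!
# Piece BIND: bi-ordered groups are locally indicable (about 250 lines)

Let `H` be generated by a finite set, `H ≠ ⊥`. Let `a` be the maximum of the `x`, `x⁻¹`, `x` in the generating set; `1 < a`, `a ∈ H`.
(1) For `x ∈ H` there is `n : ℕ` with `a ^ (-n) ≤ x ≤ a ^ n` (`Subgroup.closure_induction`, `mul_le_mul'`).
(2) So for `x ∈ H` there is a greatest `p : ℤ` with `a ^ p ≤ x` (`Int.exists_greatest_of_bdd`); call it `fl x`: `a ^ fl x ≤ x < a ^ (fl x + 1)`.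
(3) `fl x + fl y ≤ fl (x * y) ≤ fl x + fl y + 1` (`mul_le_mul'`, `mul_lt_mul'`-like lemmas), `x ≤ y → fl x ≤ fl y`, `fl (a ^ n) = n`.
(4) `u n = - fl (x ^ n)` is subadditive (`Subadditive`), `u n / n` is bounded below by `- (fl x + 1)` (`fl (x ^ n) ≤ n * (fl x + 1)` by
induction). So `fl (x ^ n) / n` converges (`Subadditive.tendsto_lim`) to a number `ph x`.
(5) `ph (x * y) = ph x + ph y`. If `x * y ≤ y * x` then `x ^ n * y ≤ y * x ^ n` and `x * y ^ n ≤ y ^ n * x` (induction), so
`x ^ n * y ^ n ≤ (x * y) ^ n ≤ y ^ n * x ^ n` (induction: `(x y)^(n+1) = (x y)^n x y ≥ x^n y^n x y ≥ x^n x y^n y`,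
`(x y)^(n+1) ≤ y^n x^n x y ≤ y^n y x^n x`), and by (3) `|fl ((x * y) ^ n) - fl (x ^ n) - fl (y ^ n)| ≤ 1`. If `y * x ≤ x * y` the same with
`y ^ n * x ^ n ≤ (x * y) ^ n ≤ x ^ n * y ^ n` (apply the first statement to the pair `y, x` for `(y x)^n`... or directly: with
`y x ≤ x y`: `(x y)^n ≤ x^n y^n` and `y^n x^n ≤ (x y)^n`, by the same induction). Divide by `n` and pass to the limit.
(6) `ph a = 1`. The image `A` of `ph : H → ℝ` is a finitely generated non-zero subgroup of `ℝ`, a finitely generated torsion-free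
`ℤ`-module, so it is free (`Module.Free` of a finite torsion-free module over a principal ideal domain) with a non-empty basis `b`; let
`c : A → ℤ` be the coordinate of `b i₀`, `χ x = c (ph x)` for `x ∈ H` (and `0` otherwise), `N = {x ∈ H | χ x = 0}`, `s ∈ H` with
`ph s = b i₀`.
-/

namespace SingerBO

section BIndAux

variable {V : Type} [Group V] [LinearOrder V] [MulLeftMono V] [MulRightMono V]

private lemma bi_zs {a : V} (ha : 1 < a) : StrictMono (fun n : ℤ => a ^ n) := by
  refine strictMono_int_of_lt_succ fun n => ?_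
  show a ^ n < a ^ (n + 1)
  rw [zpow_add_one]
  exact lt_mul_of_one_lt_right' (a ^ n) ha

/-- powers commute with the order: first lemma. -/
private lemma bi_A {x y : V} (h : x * y ≤ y * x) (n : ℕ) : x ^ n * y ≤ y * x ^ n := by
  induction n with
  | zero => simp
  | succ n ih =>
    calc x ^ (n + 1) * y = x ^ n * (x * y) := by rw [pow_succ, mul_assoc]
      _ ≤ x ^ n * (y * x) := mul_le_mul_right h _
      _ = (x ^ n * y) * x := by rw [mul_assoc]
      _ ≤ (y * x ^ n) * x := mul_le_mul_left ih _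
      _ = y * x ^ (n + 1) := by rw [mul_assoc, ← pow_succ]

private lemma bi_B {x y : V} (h : x * y ≤ y * x) (n : ℕ) : x * y ^ n ≤ y ^ n * x := by
  induction n with
  | zero => simp
  | succ n ih =>
    calc x * y ^ (n + 1) = (x * y ^ n) * y := by rw [pow_succ, mul_assoc]
      _ ≤ (y ^ n * x) * y := mul_le_mul_left ih _
      _ = y ^ n * (x * y) := by rw [mul_assoc]
      _ ≤ y ^ n * (y * x) := mul_le_mul_right h _
      _ = y ^ (n + 1) * x := by rw [← mul_assoc, ← pow_succ]

private lemma bi_lo {x y : V} (h : x * y ≤ y * x) (n : ℕ) : x ^ n * y ^ n ≤ (x * y) ^ n := by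
  induction n with
  | zero => simp
  | succ n ih =>
    calc x ^ (n + 1) * y ^ (n + 1) = x ^ n * (x * y ^ n) * y := by
          rw [pow_succ x, pow_succ y]; simp only [mul_assoc]
      _ ≤ x ^ n * (y ^ n * x) * y := mul_le_mul_left (mul_le_mul_right (bi_B h n) _) _
      _ = (x ^ n * y ^ n) * (x * y) := by simp only [mul_assoc]
      _ ≤ (x * y) ^ n * (x * y) := mul_le_mul_left ih _
      _ = (x * y) ^ (n + 1) := by rw [← pow_succ]

private lemma bi_hi {x y : V} (h : x * y ≤ y * x) (n : ℕ) : (x * y) ^ n ≤ y ^ n * x ^ n := by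
  induction n with
  | zero => simp
  | succ n ih =>
    calc (x * y) ^ (n + 1) = (x * y) ^ n * (x * y) := by rw [← pow_succ]
      _ ≤ (y ^ n * x ^ n) * (x * y) := mul_le_mul_left ih _
      _ = y ^ n * (x ^ (n + 1) * y) := by rw [pow_succ x]; simp only [mul_assoc]
      _ ≤ y ^ n * (y * x ^ (n + 1)) := mul_le_mul_right (bi_A h (n + 1)) _
      _ = y ^ (n + 1) * x ^ (n + 1) := by rw [pow_succ y]; simp only [mul_assoc]

private lemma bi_lo' {x y : V} (h : y * x ≤ x * y) (n : ℕ) : y ^ n * x ^ n ≤ (x * y) ^ n := by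
  induction n with
  | zero => simp
  | succ n ih =>
    calc y ^ (n + 1) * x ^ (n + 1) = y ^ n * (y * x ^ (n + 1)) := by
          rw [pow_succ y]; simp only [mul_assoc]
      _ ≤ y ^ n * (x ^ (n + 1) * y) := mul_le_mul_right (bi_B h (n + 1)) _
      _ = (y ^ n * x ^ n) * (x * y) := by rw [pow_succ x]; simp only [mul_assoc]
      _ ≤ (x * y) ^ n * (x * y) := mul_le_mul_left ih _
      _ = (x * y) ^ (n + 1) := by rw [← pow_succ]

private lemma bi_hi' {x y : V} (h : y * x ≤ x * y) (n : ℕ) : (x * y) ^ n ≤ x ^ n * y ^ n := by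
  induction n with
  | zero => simp
  | succ n ih =>
    calc (x * y) ^ (n + 1) = (x * y) ^ n * (x * y) := by rw [← pow_succ]
      _ ≤ (x ^ n * y ^ n) * (x * y) := mul_le_mul_left ih _
      _ = x ^ n * (y ^ n * x) * y := by simp only [mul_assoc]
      _ ≤ x ^ n * (x * y ^ n) * y := mul_le_mul_left (mul_le_mul_right (bi_A h n) _) _
      _ = x ^ (n + 1) * y ^ (n + 1) := by rw [pow_succ x, pow_succ y]; simp only [mul_assoc]

/-- `p` is the floor of `x` with respect to `a`. -/
private def IsFl (a x : V) (p : ℤ) : Prop := a ^ p ≤ x ∧ x < a ^ (p + 1)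

private lemma isFl_lt {a x : V} (ha : 1 < a) {p q : ℤ} (hp : IsFl a x p) (h : x < a ^ q) :
    p < q := (bi_zs ha).lt_iff_lt.1 (lt_of_le_of_lt hp.1 h)

private lemma isFl_ge {a x : V} (ha : 1 < a) {p q : ℤ} (hp : IsFl a x p) (h : a ^ q ≤ x) :
    q ≤ p := by
  have h1 : q < p + 1 := (bi_zs ha).lt_iff_lt.1 (lt_of_le_of_lt h hp.2)
  omega

private lemma isFl_mono {a x y : V} (ha : 1 < a) {p q : ℤ} (hp : IsFl a x p) (hq : IsFl a y q)
    (h : x ≤ y) : p ≤ q := isFl_ge ha hq (hp.1.trans h)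

private lemma isFl_mul {a x y : V} (ha : 1 < a) {p q r : ℤ} (hp : IsFl a x p) (hq : IsFl a y q)
    (hr : IsFl a (x * y) r) : p + q ≤ r ∧ r ≤ p + q + 1 := by
  constructor
  · apply isFl_ge ha hr
    rw [zpow_add]
    exact mul_le_mul' hp.1 hq.1
  · have h1 : x * y < a ^ (p + q + 2) := by
      have h2 : a ^ (p + q + 2) = a ^ (p + 1) * a ^ (q + 1) := by
        rw [← zpow_add]; congr 1; ring
      rw [h2]
      exact mul_lt_mul_of_lt_of_lt hp.2 hq.2
    have h3 := isFl_lt ha hr h1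
    omega

private lemma isFl_exists {a x : V} (ha : 1 < a) {n : ℕ} (h1 : (a ^ n)⁻¹ ≤ x) (h2 : x ≤ a ^ n) :
    ∃ p, IsFl a x p := by
  classical
  obtain ⟨p, hp1, hp2⟩ := Int.exists_greatest_of_bdd (P := fun p : ℤ => a ^ p ≤ x)
    ⟨n, fun z hz => (bi_zs ha).le_iff_le.1 (by
      show a ^ z ≤ a ^ (n : ℤ)
      rw [zpow_natCast]
      exact le_trans hz h2)⟩ ⟨-(n : ℤ), by rw [zpow_neg, zpow_natCast]; exact h1⟩
  refine ⟨p, hp1, ?_⟩
  by_contra hcon
  have := hp2 (p + 1) (not_lt.1 hcon)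
  omega

end BIndAux

section BIndMain

variable {V : Type} [Group V] [LinearOrder V] [MulLeftMono V] [MulRightMono V]

private lemma isFl_unique {a x : V} (ha : 1 < a) {p q : ℤ} (hp : IsFl a x p) (hq : IsFl a x q) :
    p = q := le_antisymm (isFl_mono ha hp hq le_rfl) (isFl_mono ha hq hp le_rfl)

private lemma isFl_one {a : V} (ha : 1 < a) : IsFl a 1 0 := by
  constructor
  · rw [zpow_zero]
  · rw [zero_add, zpow_one]; exact ha

private lemma isFl_pow {a : V} (ha : 1 < a) (n : ℕ) : IsFl a (a ^ n) n := by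
  constructor
  · rw [zpow_natCast]
  · rw [← zpow_natCast]
    exact bi_zs ha (lt_add_one (n : ℤ))

/-- the limit of `fl (x ^ n) / n` exists. -/
private lemma ph_exists {a : V} (ha : 1 < a) (H : Subgroup V) (fl : V → ℤ)
    (hfl : ∀ x ∈ H, IsFl a x (fl x)) {x : V} (hx : x ∈ H) :
    ∃ l : ℝ, Filter.Tendsto (fun n : ℕ => (fl (x ^ n) : ℝ) / n) Filter.atTop (nhds l) := by
  have hpow : ∀ n : ℕ, x ^ n ∈ H := fun n => H.pow_mem hx n
  have hsub : Subadditive (fun n : ℕ => -(fl (x ^ n) : ℝ)) := by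
    intro m n
    have h1 : IsFl a (x ^ m * x ^ n) (fl (x ^ (m + n))) := by
      rw [← pow_add]; exact hfl _ (hpow _)
    have h2 := (isFl_mul ha (hfl _ (hpow m)) (hfl _ (hpow n)) h1).1
    have h3 : (fl (x ^ m) : ℝ) + fl (x ^ n) ≤ fl (x ^ (m + n)) := by exact_mod_cast h2
    show -(fl (x ^ (m + n)) : ℝ) ≤ -(fl (x ^ m) : ℝ) + -(fl (x ^ n) : ℝ)
    linarith
  have hup : ∀ n : ℕ, fl (x ^ n) ≤ n * (fl x + 1) := by
    intro n
    induction n with
    | zero =>
      have h1 : fl (x ^ 0) = 0 := by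
        apply isFl_unique ha (hfl _ (hpow 0))
        rw [pow_zero]
        exact isFl_one ha
      rw [h1]; simp
    | succ n ih =>
      have h1 : IsFl a (x ^ n * x) (fl (x ^ (n + 1))) := by
        rw [← pow_succ]; exact hfl _ (hpow _)
      have h2 := (isFl_mul ha (hfl _ (hpow n)) (hfl _ hx) h1).2
      push_cast
      linarith
  have hbdd : BddBelow (Set.range fun n : ℕ => (-(fl (x ^ n) : ℝ)) / n) := by
    refine ⟨-|(fl x : ℝ) + 1|, ?_⟩
    rintro _ ⟨n, rfl⟩
    show -|(fl x : ℝ) + 1| ≤ (-(fl (x ^ n) : ℝ)) / n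
    rcases Nat.eq_zero_or_pos n with rfl | hn
    · simp
    · have hn' : (0 : ℝ) < n := by exact_mod_cast hn
      rw [le_div_iff₀ hn']
      have h1 : (fl (x ^ n) : ℝ) ≤ n * (fl x + 1) := by exact_mod_cast hup n
      have h2 : (n : ℝ) * ((fl x : ℝ) + 1) ≤ n * |(fl x : ℝ) + 1| :=
        mul_le_mul_of_nonneg_left (le_abs_self _) hn'.le
      linarith
  refine ⟨-hsub.lim, ?_⟩
  have h1 := (hsub.tendsto_lim hbdd).neg
  refine h1.congr fun n => ?_
  rw [neg_div, neg_neg]

private lemma ph_add {a : V} (ha : 1 < a) (H : Subgroup V) (fl : V → ℤ)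
    (hfl : ∀ x ∈ H, IsFl a x (fl x)) {x y : V} (hx : x ∈ H) (hy : y ∈ H) {l m k : ℝ}
    (hl : Filter.Tendsto (fun n : ℕ => (fl (x ^ n) : ℝ) / n) Filter.atTop (nhds l))
    (hm : Filter.Tendsto (fun n : ℕ => (fl (y ^ n) : ℝ) / n) Filter.atTop (nhds m))
    (hk : Filter.Tendsto (fun n : ℕ => (fl ((x * y) ^ n) : ℝ) / n) Filter.atTop (nhds k)) :
    k = l + m := by
  have hxy : x * y ∈ H := H.mul_mem hx hy
  have hb : ∀ n : ℕ, fl (x ^ n) + fl (y ^ n) ≤ fl ((x * y) ^ n) ∧
      fl ((x * y) ^ n) ≤ fl (x ^ n) + fl (y ^ n) + 1 := by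
    intro n
    have e1 := hfl _ (H.pow_mem hx n)
    have e2 := hfl _ (H.pow_mem hy n)
    have e3 := hfl _ (H.pow_mem hxy n)
    have e12 := hfl _ (H.mul_mem (H.pow_mem hx n) (H.pow_mem hy n))
    have e21 := hfl _ (H.mul_mem (H.pow_mem hy n) (H.pow_mem hx n))
    have m12 := isFl_mul ha e1 e2 e12
    have m21 := isFl_mul ha e2 e1 e21
    rcases le_total (x * y) (y * x) with h | h
    · have h1 := isFl_mono ha e12 e3 (bi_lo h n)
      have h2 := isFl_mono ha e3 e21 (bi_hi h n)
      constructor <;> linarith [m12.1, m21.2]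
    · have h1 := isFl_mono ha e21 e3 (bi_lo' h n)
      have h2 := isFl_mono ha e3 e12 (bi_hi' h n)
      constructor <;> linarith [m21.1, m12.2]
  have hdiff : Filter.Tendsto (fun n : ℕ => (fl ((x * y) ^ n) : ℝ) / n -
      ((fl (x ^ n) : ℝ) / n + (fl (y ^ n) : ℝ) / n)) Filter.atTop (nhds (k - (l + m))) :=
    hk.sub (hl.add hm)
  have hzero : Filter.Tendsto (fun n : ℕ => (fl ((x * y) ^ n) : ℝ) / n -
      ((fl (x ^ n) : ℝ) / n + (fl (y ^ n) : ℝ) / n)) Filter.atTop (nhds 0) := by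
    refine squeeze_zero (fun n => ?_) (fun n => ?_) (tendsto_one_div_atTop_nhds_zero_nat (𝕜 := ℝ))
    · have h1 : (fl (x ^ n) : ℝ) + fl (y ^ n) ≤ fl ((x * y) ^ n) := by exact_mod_cast (hb n).1
      rw [← add_div, ← sub_div]
      exact div_nonneg (by linarith) (Nat.cast_nonneg n)
    · have h1 : (fl ((x * y) ^ n) : ℝ) ≤ (fl (x ^ n) : ℝ) + fl (y ^ n) + 1 := by
        exact_mod_cast (hb n).2
      rw [← add_div, ← sub_div]
      exact div_le_div_of_nonneg_right (by linarith) (Nat.cast_nonneg n)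
  have := tendsto_nhds_unique hdiff hzero
  linarith

private lemma locInd_aux (H : Subgroup V) (S : Finset V)
    (hS : Subgroup.closure (S : Set V) = H) (hne : H ≠ ⊥) :
    ∃ a : V, a ∈ H ∧ 1 < a ∧ ∀ x ∈ H, ∃ p, IsFl a x p := by
  classical
  set T : Finset V := insert 1 (S ∪ S.image (fun x => x⁻¹)) with hT
  have hTne : T.Nonempty := ⟨1, Finset.mem_insert_self _ _⟩
  have hTH : ∀ x ∈ T, x ∈ H := by
    intro x hx
    rw [hT, Finset.mem_insert, Finset.mem_union, Finset.mem_image] at hx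
    rcases hx with rfl | hx | ⟨y, hy, rfl⟩
    · exact H.one_mem
    · rw [← hS]; exact Subgroup.subset_closure (Finset.mem_coe.2 hx)
    · apply H.inv_mem; rw [← hS]; exact Subgroup.subset_closure (Finset.mem_coe.2 hy)
  set a := T.max' hTne with ha
  have haT : a ∈ T := T.max'_mem hTne
  have hle : ∀ x ∈ T, x ≤ a := fun x hx => T.le_max' x hx
  have h1a : 1 ≤ a := hle 1 (Finset.mem_insert_self _ _)
  have hSx : ∀ x ∈ S, x ≤ a := fun x hx => hle x (by
    rw [hT]; exact Finset.mem_insert_of_mem (Finset.mem_union_left _ hx))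
  have hSi : ∀ x ∈ S, x⁻¹ ≤ a := fun x hx => hle _ (by
    rw [hT]; exact Finset.mem_insert_of_mem (Finset.mem_union_right _ (Finset.mem_image_of_mem _ hx)))
  have h1 : 1 < a := by
    rcases lt_or_eq_of_le h1a with h | h
    · exact h
    · exfalso
      apply hne
      rw [← hS, Subgroup.closure_eq_bot_iff]
      intro x hx
      have h2 := hSx x hx
      have h3 := hSi x hx
      rw [← h] at h2 h3
      have h4 : 1 ≤ x := by
        have := inv_le_one'.1 h3
        exact this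
      exact le_antisymm h2 h4
  refine ⟨a, hTH a haT, h1, fun x hx => ?_⟩
  have key : ∀ x ∈ Subgroup.closure (S : Set V), ∃ n : ℕ, (a ^ n)⁻¹ ≤ x ∧ x ≤ a ^ n := by
    intro x hx
    induction hx using Subgroup.closure_induction with
    | mem x hx =>
      refine ⟨1, ?_, ?_⟩
      · rw [pow_one]
        exact inv_le_of_inv_le' (hSi x hx)
      · rw [pow_one]; exact hSx x hx
    | one => exact ⟨0, by simp, by simp⟩
    | mul x y _ _ ihx ihy =>
      obtain ⟨n, hn1, hn2⟩ := ihx
      obtain ⟨m, hm1, hm2⟩ := ihy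
      refine ⟨n + m, ?_, ?_⟩
      · rw [add_comm n m, pow_add, mul_inv_rev]
        exact mul_le_mul' hn1 hm1
      · rw [pow_add]
        exact mul_le_mul' hn2 hm2
    | inv x _ ihx =>
      obtain ⟨n, hn1, hn2⟩ := ihx
      exact ⟨n, inv_le_inv_iff.2 hn2, inv_le_of_inv_le' hn1⟩
  rw [← hS] at hx
  obtain ⟨n, hn1, hn2⟩ := key x hx
  exact isFl_exists h1 hn1 hn2

end BIndMain

theorem locInd_ord (V : Type) [Group V] [LinearOrder V] [MulLeftMono V] [MulRightMono V] :
    LocInd V := by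
  classical
  intro H hFG hne
  obtain ⟨S, hS⟩ := hFG
  obtain ⟨a, haH, ha, hex⟩ := locInd_aux H S hS hne
  choose! fl hfl using hex
  have hph : ∀ x ∈ H, ∃ l : ℝ, Filter.Tendsto (fun n : ℕ => (fl (x ^ n) : ℝ) / n)
      Filter.atTop (nhds l) := fun x hx => ph_exists ha H fl hfl hx
  choose! ph hph using hph
  have hadd : ∀ x ∈ H, ∀ y ∈ H, ph (x * y) = ph x + ph y := fun x hx y hy =>
    ph_add ha H fl hfl hx hy (hph x hx) (hph y hy) (hph _ (H.mul_mem hx hy))
  have hone : ph 1 = 0 := by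
    have := hadd 1 H.one_mem 1 H.one_mem
    rw [one_mul] at this
    linarith
  have hinv : ∀ x ∈ H, ph x⁻¹ = - ph x := by
    intro x hx
    have := hadd x hx x⁻¹ (H.inv_mem hx)
    rw [mul_inv_cancel, hone] at this
    linarith
  have hpa : ph a = 1 := by
    have h1 := hph a haH
    have h2 : Filter.Tendsto (fun n : ℕ => (fl (a ^ n) : ℝ) / n) Filter.atTop (nhds 1) := by
      refine tendsto_const_nhds.congr' ?_
      filter_upwards [Filter.eventually_gt_atTop 0] with n hn
      have h3 : fl (a ^ n) = n := isFl_unique ha (hfl _ (H.pow_mem haH n)) (isFl_pow ha n)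
      rw [h3]
      have hn' : (n : ℝ) ≠ 0 := by exact_mod_cast hn.ne'
      push_cast
      rw [div_self hn']
    exact tendsto_nhds_unique h1 h2
  set A : Submodule ℤ ℝ := Submodule.span ℤ ((S.image ph : Finset ℝ) : Set ℝ) with hA
  have hSH : ∀ x ∈ S, x ∈ H := fun x hx => by
    rw [← hS]; exact Subgroup.subset_closure (Finset.mem_coe.2 hx)
  have hphA : ∀ x ∈ H, ph x ∈ A := by
    intro x hx
    have hx' : x ∈ Subgroup.closure (S : Set V) := by rw [hS]; exact hx
    clear hx
    induction hx' using Subgroup.closure_induction with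
    | mem x hx =>
      exact Submodule.subset_span (Finset.mem_coe.2 (Finset.mem_image_of_mem _ (Finset.mem_coe.1 hx)))
    | one => rw [hone]; exact A.zero_mem
    | mul x y hx hy ihx ihy =>
      rw [hS] at hx hy
      rw [hadd x hx y hy]
      exact A.add_mem ihx ihy
    | inv x hx ihx =>
      rw [hS] at hx
      rw [hinv x hx]
      exact A.neg_mem ihx
  have hAph : ∀ r ∈ A, ∃ x ∈ H, ph x = r := by
    intro r hr
    rw [hA] at hr
    induction hr using Submodule.span_induction with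
    | mem r hr =>
      obtain ⟨x, hx, rfl⟩ := Finset.mem_image.1 (Finset.mem_coe.1 hr)
      exact ⟨x, hSH x hx, rfl⟩
    | zero => exact ⟨1, H.one_mem, hone⟩
    | add r t _ _ ihr iht =>
      obtain ⟨x, hx, rfl⟩ := ihr
      obtain ⟨y, hy, rfl⟩ := iht
      exact ⟨x * y, H.mul_mem hx hy, hadd x hx y hy⟩
    | smul n r _ ihr =>
      obtain ⟨x, hx, rfl⟩ := ihr
      refine ⟨x ^ n, H.zpow_mem hx n, ?_⟩
      have hnat : ∀ m : ℕ, ph (x ^ m) = m * ph x := by
        intro m
        induction m with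
        | zero => rw [pow_zero, hone]; simp
        | succ m ih =>
          rw [pow_succ, hadd _ (H.pow_mem hx m) _ hx, ih]
          push_cast
          ring
      cases n with
      | ofNat m =>
        rw [Int.ofNat_eq_natCast, zpow_natCast, hnat]
        simp
      | negSucc m =>
        rw [zpow_negSucc, hinv _ (H.pow_mem hx _), hnat, zsmul_eq_mul]
        push_cast [Int.negSucc_eq]
        ring
  haveI hfin : Module.Finite ℤ A := Module.Finite.span_finset ℤ _
  haveI htf : Module.IsTorsionFree ℤ A := inferInstance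
  haveI hfree : Module.Free ℤ A := Module.free_of_finite_type_torsion_free'
  let b := Module.Free.chooseBasis ℤ A
  have hne' : Nonempty (Module.Free.ChooseBasisIndex ℤ A) := by
    by_contra hcon
    rw [not_nonempty_iff] at hcon
    have h1 : (⟨ph a, hphA a haH⟩ : A) = 0 := by
      have h2 : b.repr ⟨ph a, hphA a haH⟩ = b.repr 0 := by
        ext i
        exact (hcon.false i).elim
      exact b.repr.injective h2
    have h3 : ph a = 0 := congrArg Subtype.val h1
    rw [hpa] at h3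
    exact one_ne_zero h3
  obtain ⟨i₀⟩ := hne'
  obtain ⟨s, hsH, hs⟩ := hAph (b i₀ : ℝ) (b i₀).2
  let χ : V → ℤ := fun x => if hx : x ∈ H then b.repr ⟨ph x, hphA x hx⟩ i₀ else 0
  have hχ : ∀ x (hx : x ∈ H), χ x = b.repr ⟨ph x, hphA x hx⟩ i₀ := fun x hx => dif_pos hx
  have hmul : ∀ x ∈ H, ∀ y ∈ H, χ (x * y) = χ x + χ y := by
    intro x hx y hy
    rw [hχ x hx, hχ y hy, hχ _ (H.mul_mem hx hy)]
    have h1 : (⟨ph (x * y), hphA _ (H.mul_mem hx hy)⟩ : A) =
        ⟨ph x, hphA x hx⟩ + ⟨ph y, hphA y hy⟩ := Subtype.ext (hadd x hx y hy)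
    rw [h1, map_add]
    rfl
  have hχ1 : χ 1 = 0 := by
    have := hmul 1 H.one_mem 1 H.one_mem
    rw [one_mul] at this
    omega
  have hχi : ∀ x ∈ H, χ x⁻¹ = - χ x := by
    intro x hx
    have := hmul x hx x⁻¹ (H.inv_mem hx)
    rw [mul_inv_cancel, hχ1] at this
    omega
  let N : Subgroup V :=
    { carrier := {x | x ∈ H ∧ χ x = 0}
      mul_mem' := by
        rintro x y ⟨hx, hx0⟩ ⟨hy, hy0⟩
        exact ⟨H.mul_mem hx hy, by rw [hmul x hx y hy, hx0, hy0, add_zero]⟩
      one_mem' := ⟨H.one_mem, hχ1⟩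
      inv_mem' := by
        rintro x ⟨hx, hx0⟩
        exact ⟨H.inv_mem hx, by rw [hχi x hx, hx0, neg_zero]⟩ }
  refine ⟨N, χ, s, hmul, fun x => Iff.rfl, hsH, ?_⟩
  rw [hχ s hsH]
  have h1 : (⟨ph s, hphA s hsH⟩ : A) = b i₀ := Subtype.ext hs
  rw [h1, b.repr_self, Finsupp.single_eq_same]

/-- The linear order of a bi-orderable group. -/
noncomputable abbrev BOrd.lin {V : Type} [Group V] {r : V → V → Prop} (hr : BOrd r) :
    LinearOrder V where
  le := fun x y => x = y ∨ r x y
  lt := r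
  le_refl := fun x => Or.inl rfl
  le_trans := by
    rintro x y z (rfl | h1) (rfl | h2)
    · exact Or.inl rfl
    · exact Or.inr h2
    · exact Or.inr h1
    · exact Or.inr (hr.trans _ _ _ h1 h2)
  lt_iff_le_not_ge := by
    intro x y
    constructor
    · intro h
      refine ⟨Or.inr h, ?_⟩
      rintro (rfl | h2)
      · exact hr.irrefl _ h
      · exact hr.irrefl _ (hr.trans _ _ _ h h2)
    · rintro ⟨rfl | h, h2⟩
      · exact absurd (Or.inl rfl) h2
      · exact h
  le_antisymm := by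
    rintro x y (rfl | h1) (h | h2)
    · rfl
    · rfl
    · exact h.symm
    · exact absurd (hr.trans _ _ _ h1 h2) (hr.irrefl _)
  le_total := by
    intro x y
    by_cases h : x = y
    · exact Or.inl (Or.inl h)
    · rcases hr.total x y h with h1 | h1
      · exact Or.inl (Or.inr h1)
      · exact Or.inr (Or.inr h1)
  toDecidableLE := Classical.decRel _

theorem locInd_bord {V : Type} [Group V] {r : V → V → Prop} (hr : BOrd r) : LocInd V := by
  let lo : LinearOrder V := hr.lin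
  have : MulLeftMono V := ⟨by
    rintro g x y (rfl | h)
    · exact Or.inl rfl
    · exact Or.inr (hr.left g _ _ h)⟩
  have : MulRightMono V := ⟨by
    rintro g x y (rfl | h)
    · exact Or.inl rfl
    · exact Or.inr (hr.right g _ _ h)⟩
  exact locInd_ord V

end SingerBO
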