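import Mathlib
import Pool.Agent.Lib_MP_394d50_vs.VBase
import Pool.Agent.Lib_MP_394d50_bo.BInd

/-!
# Piece BPORD: an order of the vertices which is invariant on the simplices (about 100 lines)

For `p` with `{p} ∈ X` let `el p : K` be the unique element with `p = el p • out p`, `out p = Quotient.out` of the orbit of `p` in
`MulAction.orbitRel.Quotient K P` (unique by `FreeCx.vfree`), and `el p = 1` for the other `p`. Choose linear orders on
`MulAction.orbitRel.Quotient K P` and on `P` (`linearOrderOfSTO WellOrderingRel`), and `hr.lin` on `K`. The map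
`P → Quotient ×ₗ (K ×ₗ P)`, `p ↦ (orbit p, el p, p)` is injective; `LinearOrder.lift'` gives the order (or define `lt` explicitly).
If `x, y ∈ σ ∈ X`, `x < y`, then `{x}, {y} ∈ X` (`FreeCx.single_mem`), the orbits of `h • x`, `h • y` are those of `x`, `y`, and
`el (h • x) = h * el x`. If the orbits are different, the order of the orbits decides; if they are the same then `el x ≠ el y`
(otherwise `x = y`), so `r (el x) (el y)` and `r (h * el x) (h * el y)` (`hr.left`).
-/

namespace SingerBO

open SingerVS
open scoped Pointwise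

theorem exists_ordInv {K P : Type} [Group K] [DecidableEq P] [MulAction K P]
    {X : Set (Finset P)} (hX : FreeCx K X) {r : K → K → Prop} (hr : BOrd r) :
    ∃ lo : LinearOrder P, ∀ h : K, ∀ σ ∈ X, ∀ x ∈ σ, ∀ y ∈ σ, lo.lt x y → lo.lt (h • x) (h • y) := by
  classical
  have hex : ∀ p : P, ∃ g : K,
      g • (Quotient.out (Quotient.mk (MulAction.orbitRel K P) p)) = p := by
    intro p
    have h1 : (MulAction.orbitRel K P).r
        (Quotient.out (Quotient.mk (MulAction.orbitRel K P) p)) p :=
      Quotient.mk_out (s := MulAction.orbitRel K P) p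
    obtain ⟨g, hg⟩ := (MulAction.orbitRel K P).symm' h1
    exact ⟨g, hg⟩
  choose el hel using hex
  -- the class of a translate
  have hcl : ∀ (h : K) (p : P), Quotient.mk (MulAction.orbitRel K P) (h • p) =
      Quotient.mk (MulAction.orbitRel K P) p := by
    intro h p
    exact Quotient.sound ⟨h, rfl⟩
  have helm : ∀ (h : K) (p : P), {p} ∈ X → el (h • p) = h * el p := by
    intro h p hp
    have h1 := hel (h • p)
    rw [hcl h p] at h1
    have h2 : {Quotient.out (Quotient.mk (MulAction.orbitRel K P) p)} ∈ X := by
      have h3 := hX.inv (el p)⁻¹ _ hp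
      rw [Finset.smul_finset_singleton] at h3
      have h4 : (el p)⁻¹ • p = Quotient.out (Quotient.mk (MulAction.orbitRel K P) p) := by
        rw [inv_smul_eq_iff]
        exact (hel p).symm
      rwa [h4] at h3
    refine hX.vfree h2 ?_
    rw [h1, mul_smul, hel p]
  let _ : LinearOrder K := hr.lin
  let _ : LinearOrder (Quotient (MulAction.orbitRel K P)) := linearOrderOfSTO WellOrderingRel
  let f : P → Quotient (MulAction.orbitRel K P) ×ₗ K := fun p =>
    toLex (Quotient.mk (MulAction.orbitRel K P) p, el p)
  have hf : Function.Injective f := by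
    intro x y hxy
    have h1 : (Quotient.mk (MulAction.orbitRel K P) x, el x) =
        (Quotient.mk (MulAction.orbitRel K P) y, el y) := hxy
    have h2 := congrArg Prod.fst h1
    have h3 : el x = el y := congrArg Prod.snd h1
    rw [← hel x, ← hel y, h3]
    exact congrArg (fun z => el y • Quotient.out z) h2
  refine ⟨LinearOrder.lift' f hf, ?_⟩
  intro h σ hσ x hx y hy hxy
  have hx1 := hX.single_mem hσ hx
  have hy1 := hX.single_mem hσ hy
  have h1 : f x < f y := hxy
  show f (h • x) < f (h • y)
  rw [Prod.Lex.lt_iff] at h1 ⊢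
  show Quotient.mk (MulAction.orbitRel K P) (h • x) < Quotient.mk (MulAction.orbitRel K P) (h • y) ∨
    Quotient.mk (MulAction.orbitRel K P) (h • x) = Quotient.mk (MulAction.orbitRel K P) (h • y) ∧
      el (h • x) < el (h • y)
  rw [hcl, hcl, helm h x hx1, helm h y hy1]
  rcases h1 with h1 | ⟨h1, h2⟩
  · exact Or.inl h1
  · exact Or.inr ⟨h1, hr.left _ _ _ h2⟩

end SingerBO
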