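import Mathlib

/-!
# Malcev-Neumann series: definitions

`MN R V`: the functions `V → R` with partially well-ordered support, `V` a bi-ordered group.
-/

namespace SingerBO

/-- Malcev-Neumann series. -/
@[ext] structure MN (R V : Type) [Zero R] [LinearOrder V] where
  /-- the coefficients -/
  cf : V → R
  /-- the support -/
  pwo : (Function.support cf).IsPWO

namespace MN

section add

variable {R V : Type} [Ring R] [LinearOrder V]

instance : Zero (MN R V) := ⟨⟨fun _ => 0, by
  rw [show Function.support (fun _ : V => (0 : R)) = ∅ from Function.support_zero]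
  exact Set.isPWO_empty⟩⟩

instance : Add (MN R V) := ⟨fun f g => ⟨fun v => f.cf v + g.cf v,
  (f.pwo.union g.pwo).mono (Function.support_add _ _)⟩⟩

instance : Neg (MN R V) := ⟨fun f => ⟨fun v => - f.cf v, by
  rw [Function.support_fun_neg]
  exact f.pwo⟩⟩

theorem zero_cf (v : V) : (0 : MN R V).cf v = 0 := rfl

theorem add_cf (f g : MN R V) (v : V) : (f + g).cf v = f.cf v + g.cf v := rfl

theorem neg_cf (f : MN R V) (v : V) : (-f).cf v = - f.cf v := rfl

noncomputable instance : AddCommGroup (MN R V) where
  add_assoc f g h := MN.ext (funext fun v => add_assoc _ _ _)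
  zero_add f := MN.ext (funext fun v => zero_add _)
  add_zero f := MN.ext (funext fun v => add_zero _)
  neg_add_cancel f := MN.ext (funext fun v => neg_add_cancel _)
  add_comm f g := MN.ext (funext fun v => add_comm _ _)
  nsmul := nsmulRec
  zsmul := zsmulRec

/-- The coefficient as a homomorphism. -/
def cfHom (v : V) : MN R V →+ R where
  toFun f := f.cf v
  map_zero' := rfl
  map_add' _ _ := rfl

theorem sub_cf (f g : MN R V) (v : V) : (f - g).cf v = f.cf v - g.cf v :=
  map_sub (cfHom (R := R) v) f g

theorem sum_cf {ι : Type} (s : Finset ι) (f : ι → MN R V) (v : V) :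
    (∑ i ∈ s, f i).cf v = ∑ i ∈ s, (f i).cf v := map_sum (cfHom (R := R) v) f s

/-- The series `r v`. -/
def single (v : V) (r : R) : MN R V := ⟨fun x => if x = v then r else 0, by
  refine (Set.isPWO_singleton v).mono ?_
  intro x hx
  rw [Function.mem_support] at hx
  by_contra h
  exact hx (if_neg h)⟩

theorem single_cf (v : V) (r : R) (x : V) : (single v r).cf x = if x = v then r else 0 := rfl

theorem single_self (v : V) (r : R) : (single v r).cf v = r := if_pos rfl

theorem single_ne {v x : V} (h : x ≠ v) (r : R) : (single v r).cf x = 0 := if_neg h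

theorem single_add (v : V) (r r' : R) : single v (r + r') = single v r + single v r' := by
  refine MN.ext (funext fun x => ?_)
  rw [add_cf, single_cf, single_cf, single_cf]
  split_ifs
  · rfl
  · rw [add_zero]

theorem single_zero (v : V) : single v (0 : R) = 0 := by
  refine MN.ext (funext fun x => ?_)
  rw [single_cf, ite_self]
  rfl

/-- The restriction of a series to a set of exponents. -/
noncomputable def rst (S : Set V) (f : MN R V) : MN R V := ⟨S.indicator f.cf, by
  refine f.pwo.mono fun x hx => ?_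
  rw [Function.mem_support] at hx ⊢
  intro h
  apply hx
  rw [Set.indicator_apply_eq_zero]
  exact fun _ => h⟩

theorem rst_cf (S : Set V) (f : MN R V) (v : V) : (rst S f).cf v = S.indicator f.cf v := rfl

end add

section mul

variable {R V : Type} [Ring R] [Group V] [LinearOrder V] [MulLeftMono V] [MulRightMono V]

/-- The finitely many factorizations of `v` with factors in well-ordered sets. -/
theorem pair_finite {S T : Set V} (hS : S.IsPWO) (hT : T.IsPWO) (v : V) :
    {x | x ∈ S ∧ x⁻¹ * v ∈ T}.Finite := by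
  have h1 : (S ×ˢ T).IsPWO := hS.prod hT
  have h2 : {p : V × V | p ∈ S ×ˢ T ∧ p.1 * p.2 = v}.Finite := by
    refine IsAntichain.finite_of_partiallyWellOrderedOn (r := (· ≤ ·)) ?_
      (h1.mono fun p hp => hp.1)
    rintro ⟨x, y⟩ ⟨_, h3⟩ ⟨x', y'⟩ ⟨_, h4⟩ hne hle
    apply hne
    obtain ⟨h5, h6⟩ := Prod.mk_le_mk.mp hle
    simp only at h3 h4
    have h7 : x = x' := by
      rcases h5.lt_or_eq with h | h
      · exfalso
        have h8 : x * y < x' * y' := mul_lt_mul_of_lt_of_le h h6
        rw [h3, h4] at h8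
        exact lt_irrefl _ h8
      · exact h
    subst h7
    rw [← h4] at h3
    rw [mul_left_cancel h3]
  refine (h2.image Prod.fst).subset ?_
  rintro x ⟨hx1, hx2⟩
  exact ⟨(x, x⁻¹ * v), ⟨⟨hx1, hx2⟩, mul_inv_cancel_left x v⟩, rfl⟩

/-- The products of the elements of well-ordered sets. -/
theorem image_pwo {S T : Set V} (hS : S.IsPWO) (hT : T.IsPWO) :
    ((fun p : V × V => p.1 * p.2) '' (S ×ˢ T)).IsPWO :=
  (hS.prod hT).image_of_monotone fun _ _ h => mul_le_mul' h.1 h.2

noncomputable instance : Mul (MN R V) := ⟨fun f g =>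
  ⟨fun v => ∑ᶠ x, f.cf x * g.cf (x⁻¹ * v), by
    refine (image_pwo f.pwo g.pwo).mono fun v hv => ?_
    rw [Function.mem_support] at hv
    obtain ⟨x, hx⟩ : ∃ x, f.cf x * g.cf (x⁻¹ * v) ≠ 0 := by
      by_contra hn
      push Not at hn
      exact hv (finsum_eq_zero_of_forall_eq_zero hn)
    refine ⟨(x, x⁻¹ * v), ⟨?_, ?_⟩, mul_inv_cancel_left x v⟩
    · exact left_ne_zero_of_mul hx
    · exact right_ne_zero_of_mul hx⟩⟩

instance : One (MN R V) := ⟨single 1 1⟩

omit [MulLeftMono V] [MulRightMono V] in
theorem one_def : (1 : MN R V) = single 1 1 := rfl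

theorem mul_cf (f g : MN R V) (v : V) : (f * g).cf v = ∑ᶠ x, f.cf x * g.cf (x⁻¹ * v) := rfl

theorem mul_supp_finite (f g : MN R V) (v : V) :
    (Function.support fun x => f.cf x * g.cf (x⁻¹ * v)).Finite := by
  refine (pair_finite f.pwo g.pwo v).subset fun x hx => ?_
  exact ⟨left_ne_zero_of_mul hx, right_ne_zero_of_mul hx⟩

/-- The coefficient of a product as a finite sum. -/
theorem mul_cf_sum (f g : MN R V) (v : V) (s : Finset V)
    (hs : ∀ x, f.cf x ≠ 0 → g.cf (x⁻¹ * v) ≠ 0 → x ∈ s) :
    (f * g).cf v = ∑ x ∈ s, f.cf x * g.cf (x⁻¹ * v) := by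
  rw [mul_cf]
  refine finsum_eq_sum_of_support_subset _ fun x hx => ?_
  exact hs x (left_ne_zero_of_mul hx) (right_ne_zero_of_mul hx)

end mul

end MN

end SingerBO
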