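import Mathlib
import Pool.Agent.Lib_MP_394d50_bo.MDefs

/-!
# Piece MRING: the ring of Malcev-Neumann series (about 250 lines)

`mul_cf_sum` (MDefs) turns every coefficient of a product into a finite sum over any finite set which
contains the relevant exponents (`mul_supp_finite`, `pair_finite`).
* `mul_assoc'`: fix `v`. Let `P` be the finite set of the `x` in `image_pwo f.pwo g.pwo` with
  `h.cf (x⁻¹ * v) ≠ 0`, and `Q` the finite set of the `y` with `f.cf y ≠ 0`, `y⁻¹ * v` in
  `image_pwo g.pwo h.pwo`. Both sides are the sum over the finite set of the pairs `(y, z)` with `f.cf y ≠ 0`,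
  `g.cf z ≠ 0`, `h.cf (z⁻¹ * y⁻¹ * v) ≠ 0` of `f.cf y * g.cf z * h.cf (z⁻¹ * y⁻¹ * v)`: on the left
  `x = y * z`. (Possible route: `((f * g) * h).cf v = ∑ x ∈ P, ∑ y ∈ Q', f.cf y * g.cf (y⁻¹ * x) * h.cf (x⁻¹ * v)`
  with one finite set `Q'` containing all relevant `y`; exchange the sums; for fixed `y` substitute
  `x = y * z` (`Finset.sum_bij` or `Finset.sum_image` with the injective map `y * ·`), and compare with
  `(g * h).cf (y⁻¹ * v)` by `mul_cf_sum`.)
* the distributive laws: a common finite set for the three sums, `mul_add`, `add_mul`.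
* `one_mul'`, `mul_one'`: special cases of `single_mul_cf`, `mul_single_cf`; these two: the finite set
  `{v}` resp. `{x * v⁻¹}`.
* `rst_mul`: for `x ∈ S`: in `(f * g).cf x = ∑ f.cf y * g.cf (y⁻¹ * x)` only `y ∈ S` matter and then
  `y⁻¹ * x ∈ S`; for `x ∉ S` and `y ∈ S` we have `y⁻¹ * x ∉ S`. `rst_mul'` is symmetric
  (`g.cf (y⁻¹ * x) ≠ 0` gives `y⁻¹ * x ∈ S`, so `y ∈ S ↔ x ∈ S`).
* `mapR`: apply `φ` to the coefficients; multiplicative by `mul_cf_sum` for the support of the
  source product (a finite set which works for both products).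
-/

namespace SingerBO

namespace MN

variable {R V : Type} [Ring R] [Group V] [LinearOrder V] [MulLeftMono V] [MulRightMono V]

omit [MulLeftMono V] [MulRightMono V] in
private theorem mem_image_of_mul {f g : MN R V} {x y : V} (h1 : f.cf x ≠ 0) (h2 : g.cf y ≠ 0) :
    x * y ∈ (fun p : V × V => p.1 * p.2) '' (Function.support f.cf ×ˢ Function.support g.cf) :=
  ⟨(x, y), ⟨h1, h2⟩, rfl⟩

private theorem mul_ne_mem {f g : MN R V} {x : V} (h : (f * g).cf x ≠ 0) :
    x ∈ (fun p : V × V => p.1 * p.2) '' (Function.support f.cf ×ˢ Function.support g.cf) := by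
  rw [mul_cf] at h
  obtain ⟨y, hy⟩ : ∃ y, f.cf y * g.cf (y⁻¹ * x) ≠ 0 := by
    by_contra hn
    push Not at hn
    exact h (finsum_eq_zero_of_forall_eq_zero hn)
  exact ⟨(y, y⁻¹ * x), ⟨left_ne_zero_of_mul hy, right_ne_zero_of_mul hy⟩,
    mul_inv_cancel_left y x⟩

theorem mul_assoc' (f g h : MN R V) : f * g * h = f * (g * h) := by
  classical
  refine MN.ext (funext fun v => ?_)
  have hP := pair_finite (image_pwo f.pwo g.pwo) h.pwo v
  have hQ := pair_finite f.pwo (image_pwo g.pwo h.pwo) v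
  rw [mul_cf_sum (f * g) h v hP.toFinset fun x h1 h2 => hP.mem_toFinset.mpr ⟨mul_ne_mem h1, h2⟩,
    mul_cf_sum f (g * h) v hQ.toFinset fun y h1 h2 => hQ.mem_toFinset.mpr ⟨h1, mul_ne_mem h2⟩]
  have h1 : ∀ x ∈ hP.toFinset, (f * g).cf x * h.cf (x⁻¹ * v) =
      ∑ y ∈ hQ.toFinset, f.cf y * (g.cf (y⁻¹ * x) * h.cf (x⁻¹ * v)) := by
    intro x hx
    rw [hP.mem_toFinset] at hx
    rw [mul_cf_sum f g x hQ.toFinset ?_, Finset.sum_mul]
    · exact Finset.sum_congr rfl fun y _ => mul_assoc _ _ _
    · intro y h2 h3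
      rw [hQ.mem_toFinset]
      refine ⟨h2, ?_⟩
      have h4 := mem_image_of_mul (f := g) (g := h) h3 hx.2
      rwa [show y⁻¹ * x * (x⁻¹ * v) = y⁻¹ * v by group] at h4
  have h2 : ∀ y ∈ hQ.toFinset, f.cf y * (g * h).cf (y⁻¹ * v) =
      ∑ x ∈ hP.toFinset, f.cf y * (g.cf (y⁻¹ * x) * h.cf (x⁻¹ * v)) := by
    intro y hy
    rw [hQ.mem_toFinset] at hy
    rw [mul_cf_sum g h (y⁻¹ * v) (hP.toFinset.image fun x => y⁻¹ * x) ?_,
      Finset.sum_image (fun a _ b _ hab => mul_left_cancel hab), Finset.mul_sum]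
    · refine Finset.sum_congr rfl fun x _ => ?_
      rw [show (y⁻¹ * x)⁻¹ * (y⁻¹ * v) = x⁻¹ * v by group]
    · intro z h3 h4
      rw [Finset.mem_image]
      refine ⟨y * z, ?_, inv_mul_cancel_left y z⟩
      rw [hP.mem_toFinset]
      refine ⟨mem_image_of_mul hy.1 h3, ?_⟩
      rw [Function.mem_support, mul_inv_rev, mul_assoc]
      exact h4
  rw [Finset.sum_congr rfl h1, Finset.sum_congr rfl h2, Finset.sum_comm]

theorem left_distrib' (f g h : MN R V) : f * (g + h) = f * g + f * h := by
  classical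
  refine MN.ext (funext fun v => ?_)
  have hP := pair_finite f.pwo g.pwo v
  have hQ := pair_finite f.pwo h.pwo v
  rw [add_cf, mul_cf_sum f (g + h) v (hP.toFinset ∪ hQ.toFinset) ?_,
    mul_cf_sum f g v (hP.toFinset ∪ hQ.toFinset) ?_,
    mul_cf_sum f h v (hP.toFinset ∪ hQ.toFinset) ?_, ← Finset.sum_add_distrib]
  · exact Finset.sum_congr rfl fun x _ => by rw [add_cf, mul_add]
  · intro x h1 h2
    exact Finset.mem_union_right _ (hQ.mem_toFinset.mpr ⟨h1, h2⟩)
  · intro x h1 h2
    exact Finset.mem_union_left _ (hP.mem_toFinset.mpr ⟨h1, h2⟩)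
  · intro x h1 h2
    by_cases h3 : g.cf (x⁻¹ * v) = 0
    · refine Finset.mem_union_right _ (hQ.mem_toFinset.mpr ⟨h1, fun h4 => h2 ?_⟩)
      rw [add_cf, h3, h4, add_zero]
    · exact Finset.mem_union_left _ (hP.mem_toFinset.mpr ⟨h1, h3⟩)

theorem right_distrib' (f g h : MN R V) : (f + g) * h = f * h + g * h := by
  classical
  refine MN.ext (funext fun v => ?_)
  have hP := pair_finite f.pwo h.pwo v
  have hQ := pair_finite g.pwo h.pwo v
  rw [add_cf, mul_cf_sum (f + g) h v (hP.toFinset ∪ hQ.toFinset) ?_,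
    mul_cf_sum f h v (hP.toFinset ∪ hQ.toFinset) ?_,
    mul_cf_sum g h v (hP.toFinset ∪ hQ.toFinset) ?_, ← Finset.sum_add_distrib]
  · exact Finset.sum_congr rfl fun x _ => by rw [add_cf, add_mul]
  · intro x h1 h2
    exact Finset.mem_union_right _ (hQ.mem_toFinset.mpr ⟨h1, h2⟩)
  · intro x h1 h2
    exact Finset.mem_union_left _ (hP.mem_toFinset.mpr ⟨h1, h2⟩)
  · intro x h1 h2
    by_cases h3 : f.cf x = 0
    · refine Finset.mem_union_right _ (hQ.mem_toFinset.mpr ⟨fun h4 => h1 ?_, h2⟩)
      rw [add_cf, h3, h4, add_zero]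
    · exact Finset.mem_union_left _ (hP.mem_toFinset.mpr ⟨h3, h2⟩)

theorem single_mul_cf (v : V) (r : R) (f : MN R V) (x : V) :
    (single v r * f).cf x = r * f.cf (v⁻¹ * x) := by
  rw [mul_cf_sum (single v r) f x {v} ?_, Finset.sum_singleton, single_self]
  intro y h1 _
  rw [Finset.mem_singleton]
  by_contra h2
  exact h1 (single_ne h2 r)

theorem mul_single_cf (v : V) (r : R) (f : MN R V) (x : V) :
    (f * single v r).cf x = f.cf (x * v⁻¹) * r := by
  rw [mul_cf_sum f (single v r) x {x * v⁻¹} ?_, Finset.sum_singleton,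
    show (x * v⁻¹)⁻¹ * x = v by group, single_self]
  intro y _ h1
  rw [Finset.mem_singleton]
  have h3 : y⁻¹ * x = v := by
    by_contra h2
    exact h1 (single_ne h2 r)
  rw [← h3]
  group

theorem one_mul' (f : MN R V) : 1 * f = f := by
  refine MN.ext (funext fun x => ?_)
  rw [one_def, single_mul_cf, inv_one, one_mul, one_mul]

theorem mul_one' (f : MN R V) : f * 1 = f := by
  refine MN.ext (funext fun x => ?_)
  rw [one_def, mul_single_cf, inv_one, mul_one, mul_one]

theorem zero_mul' (f : MN R V) : 0 * f = 0 := by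
  refine MN.ext (funext fun x => ?_)
  rw [mul_cf]
  refine finsum_eq_zero_of_forall_eq_zero fun y => ?_
  rw [zero_cf, zero_mul]

theorem mul_zero' (f : MN R V) : f * 0 = 0 := by
  refine MN.ext (funext fun x => ?_)
  rw [mul_cf]
  refine finsum_eq_zero_of_forall_eq_zero fun y => ?_
  rw [zero_cf, mul_zero]

noncomputable instance : Ring (MN R V) where
  left_distrib := left_distrib'
  right_distrib := right_distrib'
  zero_mul := zero_mul'
  mul_zero := mul_zero'
  mul_assoc := mul_assoc'
  one_mul := one_mul'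
  mul_one := mul_one'
  neg_add_cancel := neg_add_cancel
  zsmul := zsmulRec

omit [MulLeftMono V] [MulRightMono V] in
theorem one_cf (x : V) : (1 : MN R V).cf x = if x = 1 then 1 else 0 := rfl

omit [MulLeftMono V] [MulRightMono V] in
theorem single_one_one : single (1 : V) (1 : R) = 1 := rfl

theorem single_mul_single (v w : V) (r q : R) : single v r * single w q = single (v * w) (r * q) := by
  refine MN.ext (funext fun x => ?_)
  rw [single_mul_cf, single_cf, single_cf]
  by_cases h : x = v * w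
  · rw [if_pos h, if_pos (by rw [h, inv_mul_cancel_left])]
  · rw [if_neg h, if_neg (fun h' => h (by rw [← h', mul_inv_cancel_left])), mul_zero]

theorem rst_mul (S : Subgroup V) {f : MN R V} (hf : ∀ x, f.cf x ≠ 0 → x ∈ S) (g : MN R V) :
    rst (S : Set V) (f * g) = f * rst (S : Set V) g := by
  classical
  refine MN.ext (funext fun x => ?_)
  have hP := pair_finite f.pwo g.pwo x
  have h0 : (f * rst (S : Set V) g).cf x =
      ∑ y ∈ hP.toFinset, f.cf y * (S : Set V).indicator g.cf (y⁻¹ * x) := by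
    rw [mul_cf_sum f (rst (S : Set V) g) x hP.toFinset ?_]
    · exact Finset.sum_congr rfl fun y _ => by rw [rst_cf]
    · intro y h1 h2
      refine hP.mem_toFinset.mpr ⟨h1, fun h3 => h2 ?_⟩
      rw [rst_cf, Set.indicator_apply_eq_zero]
      exact fun _ => h3
  rw [rst_cf, h0]
  by_cases hx : x ∈ (S : Set V)
  · rw [Set.indicator_of_mem hx, mul_cf_sum f g x hP.toFinset
      fun y h1 h2 => hP.mem_toFinset.mpr ⟨h1, h2⟩]
    refine Finset.sum_congr rfl fun y hy => ?_
    have hy' := hP.mem_toFinset.mp hy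
    have h1 : y⁻¹ * x ∈ (S : Set V) := S.mul_mem (S.inv_mem (hf y hy'.1)) hx
    rw [Set.indicator_of_mem h1]
  · rw [Set.indicator_of_notMem hx]
    refine (Finset.sum_eq_zero fun y hy => ?_).symm
    have hy' := hP.mem_toFinset.mp hy
    have h1 : y⁻¹ * x ∉ (S : Set V) := fun h2 => hx (by
      have h3 := S.mul_mem (hf y hy'.1) h2
      rwa [mul_inv_cancel_left] at h3)
    rw [Set.indicator_of_notMem h1, mul_zero]

theorem rst_mul' (S : Subgroup V) (f : MN R V) {g : MN R V} (hg : ∀ x, g.cf x ≠ 0 → x ∈ S) :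
    rst (S : Set V) (f * g) = rst (S : Set V) f * g := by
  classical
  refine MN.ext (funext fun x => ?_)
  have hP := pair_finite f.pwo g.pwo x
  have h0 : (rst (S : Set V) f * g).cf x =
      ∑ y ∈ hP.toFinset, (S : Set V).indicator f.cf y * g.cf (y⁻¹ * x) := by
    rw [mul_cf_sum (rst (S : Set V) f) g x hP.toFinset ?_]
    · exact Finset.sum_congr rfl fun y _ => by rw [rst_cf]
    · intro y h1 h2
      refine hP.mem_toFinset.mpr ⟨fun h3 => h1 ?_, h2⟩
      rw [rst_cf, Set.indicator_apply_eq_zero]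
      exact fun _ => h3
  rw [rst_cf, h0]
  by_cases hx : x ∈ (S : Set V)
  · rw [Set.indicator_of_mem hx, mul_cf_sum f g x hP.toFinset
      fun y h1 h2 => hP.mem_toFinset.mpr ⟨h1, h2⟩]
    refine Finset.sum_congr rfl fun y hy => ?_
    have hy' := hP.mem_toFinset.mp hy
    have h1 : y ∈ (S : Set V) := by
      have h2 := S.mul_mem hx (S.inv_mem (hg _ hy'.2))
      rwa [show x * (y⁻¹ * x)⁻¹ = y by group] at h2
    rw [Set.indicator_of_mem h1]
  · rw [Set.indicator_of_notMem hx]
    refine (Finset.sum_eq_zero fun y hy => ?_).symm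
    have hy' := hP.mem_toFinset.mp hy
    have h1 : y ∉ (S : Set V) := fun h2 => hx (by
      have h3 := S.mul_mem h2 (hg _ hy'.2)
      rwa [mul_inv_cancel_left] at h3)
    rw [Set.indicator_of_notMem h1, zero_mul]

/-- The series with support in the subgroup `S`. -/
def sub (R : Type) [Ring R] (S : Subgroup V) : Subring (MN R V) where
  carrier := {f | ∀ x, f.cf x ≠ 0 → x ∈ S}
  mul_mem' := by
    intro f g hf hg x hx
    rw [mul_cf] at hx
    obtain ⟨y, hy⟩ : ∃ y, f.cf y * g.cf (y⁻¹ * x) ≠ 0 := by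
      by_contra hn
      push Not at hn
      exact hx (finsum_eq_zero_of_forall_eq_zero hn)
    have h1 := hf y (left_ne_zero_of_mul hy)
    have h2 := hg _ (right_ne_zero_of_mul hy)
    have h3 := S.mul_mem h1 h2
    rwa [mul_inv_cancel_left] at h3
  one_mem' := by
    intro x hx
    rw [one_cf] at hx
    by_cases h : x = 1
    · rw [h]
      exact S.one_mem
    · rw [if_neg h] at hx
      exact absurd rfl hx
  add_mem' := by
    intro f g hf hg x hx
    rw [add_cf] at hx
    by_cases h : f.cf x = 0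
    · refine hg x fun h' => hx ?_
      rw [h, h', add_zero]
    · exact hf x h
  zero_mem' := fun x hx => absurd rfl hx
  neg_mem' := by
    intro f hf x hx
    rw [neg_cf] at hx
    exact hf x (neg_ne_zero.mp hx)

theorem mem_sub {S : Subgroup V} {f : MN R V} : f ∈ sub R S ↔ ∀ x, f.cf x ≠ 0 → x ∈ S := Iff.rfl

theorem rst_eq_self {S : Subgroup V} {f : MN R V} : rst (S : Set V) f = f ↔ f ∈ sub R S := by
  rw [mem_sub]
  constructor
  · intro h x hx
    by_contra hn
    apply hx
    rw [← h, rst_cf, Set.indicator_of_notMem hn]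
  · intro h
    refine MN.ext (funext fun x => ?_)
    rw [rst_cf]
    by_cases hx : x ∈ (S : Set V)
    · rw [Set.indicator_of_mem hx]
    · rw [Set.indicator_of_notMem hx]
      by_contra h2
      exact hx (h x fun h3 => h2 h3.symm)

/-- The inverse of a series with support in `S` has support in `S`. -/
theorem inv_mem_sub {S : Subgroup V} {f g : MN R V} (hf : f ∈ sub R S) (h1 : f * g = 1)
    (h2 : g * f = 1) : g ∈ sub R S := by
  rw [← rst_eq_self]
  have h3 := rst_mul S hf g
  rw [h1, rst_eq_self.mpr (one_mem (sub R S))] at h3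
  have h4 : g * (f * rst (S : Set V) g) = g * 1 := by rw [← h3]
  rwa [← mul_assoc, h2, one_mul, mul_one] at h4

/-- The change of coefficients. -/
noncomputable def mapR {R' : Type} [Ring R'] (φ : R →+* R') : MN R V →+* MN R' V where
  toFun f := ⟨fun v => φ (f.cf v), f.pwo.mono fun v hv h => hv (by
    show φ (f.cf v) = 0
    rw [h, map_zero])⟩
  map_zero' := MN.ext (funext fun v => map_zero φ)
  map_one' := by
    refine MN.ext (funext fun v => ?_)
    show φ ((1 : MN R V).cf v) = (1 : MN R' V).cf v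
    rw [one_cf, one_cf]
    split_ifs
    · exact map_one φ
    · exact map_zero φ
  map_add' f g := MN.ext (funext fun v => map_add φ _ _)
  map_mul' f g := by
    refine MN.ext (funext fun v => ?_)
    have hP := pair_finite f.pwo g.pwo v
    rw [mul_cf_sum _ _ v hP.toFinset ?_]
    · show φ ((f * g).cf v) = ∑ x ∈ hP.toFinset, φ (f.cf x) * φ (g.cf (x⁻¹ * v))
      rw [mul_cf_sum f g v hP.toFinset fun y h1 h2 => hP.mem_toFinset.mpr ⟨h1, h2⟩, map_sum]
      exact Finset.sum_congr rfl fun x _ => map_mul φ _ _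
    · intro x h1 h2
      refine hP.mem_toFinset.mpr ⟨fun h3 => h1 ?_, fun h3 => h2 ?_⟩
      · show φ (f.cf x) = 0
        rw [h3, map_zero]
      · show φ (g.cf (x⁻¹ * v)) = 0
        rw [h3, map_zero]

theorem mapR_cf {R' : Type} [Ring R'] (φ : R →+* R') (f : MN R V) (v : V) :
    (mapR φ f).cf v = φ (f.cf v) := rfl

theorem mapR_single {R' : Type} [Ring R'] (φ : R →+* R') (v : V) (r : R) :
    mapR φ (single v r) = single v (φ r) := by
  refine MN.ext (funext fun x => ?_)
  rw [mapR_cf, single_cf, single_cf]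
  split_ifs
  · rfl
  · exact map_zero φ

end MN

end SingerBO
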