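import Mathlib
import Pool.Agent.Lib_MP_394d50_bo.MRing

/-!
# Piece MINV: inverses of Malcev-Neumann series (about 250 lines)

Let `S` be partially well-ordered with `1 < x` for `x ∈ S` (`S = Function.support g.cf`).

`lists_finite`: the set `A` of the lists with entries in `S` and product `v` is finite. By Higman's lemma
(`Set.PartiallyWellOrderedOn.partiallyWellOrderedOn_sublistForall₂ (· ≤ ·)`) the lists with entries in `S` are
partially well-ordered by `List.SublistForall₂ (· ≤ ·)`, and `A` is an antichain: let `l, l' ∈ A` with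
`SublistForall₂ (· ≤ ·) l l'`; by `List.sublistForall₂_iff` there is a sublist `m` of `l'` with
`Forall₂ (· ≤ ·) l m`, so `l.prod ≤ m.prod ≤ l'.prod`, and all three are `v`. If `m ≠ l'` then `m.prod < l'.prod`
(removing an entry `> 1` makes the product smaller: induction on the sublist), so `m = l'`; and
`Forall₂ (· ≤ ·) l l'` with equal products gives `l = l'` (induction: otherwise one inequality is strict and the
product is strictly smaller, `mul_lt_mul_of_lt_of_le`, `mul_lt_mul_of_le_of_lt`). Then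
`IsAntichain.finite_of_partiallyWellOrderedOn`.

`lists_pwo`: the set of the products of the lists with entries in `S` is partially well-ordered: the image of a
partially well-ordered set under a monotone map (`List.SublistForall₂.prod_le_prod'`,
`Set.PartiallyWellOrderedOn.image_of_monotone_on`).

`isUnit_one_sub'`: if `(g ^ n).cf v ≠ 0` then `v` is the product of a list of length `n` with entries in the
support of `g` (induction, `mul_cf`). So for every `v` there is `n₀` with: no list with entries in `S` of length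
`≥ n₀` has product `v` (`lists_finite`). Let `s.cf v = ∑ᶠ n, (g ^ n).cf v`; its support is contained in the set of
`lists_pwo`. For `x ∈ S` no list of length `≥ n₀` has product `x⁻¹ * v` (otherwise there is one of length `≥ n₀ + 1`
for `v`), so `s.cf (x⁻¹ * v) = (∑ n ∈ range n₀, g ^ n).cf (x⁻¹ * v)` and
`(g * s).cf v = (g * ∑ n ∈ range n₀, g ^ n).cf v = (∑ n ∈ range n₀, g ^ (n + 1)).cf v = s.cf v - (1 : MN R V).cf v`
(`(g ^ n₀).cf v = 0`). So `(1 - g) * s = 1`. The same on the other side (`v * x⁻¹` instead of `x⁻¹ * v`; use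
`(s * g).cf v` with `mul_cf_sum`, only the `y` with `y⁻¹ * v ∈ S` matter). Then `isUnit` from the two inverses.

`isUnit_of_lead`: let `u` be the inverse of `f.cf v₀`; `single v₀⁻¹ u * f = 1 - g` with `1 < v` for
`g.cf v ≠ 0`: coefficient `u * f.cf (v₀ * v)` (`single_mul_cf`), `1` at `v = 1`, and non-zero only if `v₀ ≤ v₀ * v`,
i.e. `1 ≤ v`. `single v₀⁻¹ u` is a unit (`single_mul_single`).
-/

namespace SingerBO

namespace MN

variable {V : Type} [Group V] [LinearOrder V] [MulLeftMono V] [MulRightMono V]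

private theorem mi_le {l m : List V} (h : List.Forall₂ (· ≤ ·) l m) : l.prod ≤ m.prod := by
  induction h with
  | nil => exact le_rfl
  | cons h1 _ ih =>
    rw [List.prod_cons, List.prod_cons]
    exact mul_le_mul' h1 ih

private theorem mi_eq {l m : List V} (h : List.Forall₂ (· ≤ ·) l m) (he : l.prod = m.prod) :
    l = m := by
  induction h with
  | nil => rfl
  | cons h1 h2 ih =>
    rw [List.prod_cons, List.prod_cons] at he
    have h3 := mi_le h2
    rcases h1.lt_or_eq with h | h
    · exact absurd he (mul_lt_mul_of_lt_of_le h h3).ne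
    · subst h
      rw [ih (mul_left_cancel he)]

omit [MulRightMono V] in
private theorem mi_one_le {l : List V} (h : ∀ x ∈ l, 1 < x) : 1 ≤ l.prod := by
  induction l with
  | nil => exact le_rfl
  | cons a l ih =>
    rw [List.prod_cons]
    exact one_le_mul (h a List.mem_cons_self).le (ih fun x hx => h x (List.mem_cons_of_mem a hx))

private theorem mi_one_lt {l : List V} (h : ∀ x ∈ l, 1 < x) (hl : l ≠ []) : 1 < l.prod := by
  cases l with
  | nil => exact absurd rfl hl
  | cons a l =>
    rw [List.prod_cons]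
    exact one_lt_mul_of_lt_of_le' (h a List.mem_cons_self)
      (mi_one_le fun x hx => h x (List.mem_cons_of_mem a hx))

private theorem mi_sub_le {m l : List V} (h : m.Sublist l) (hl : ∀ x ∈ l, 1 < x) :
    m.prod ≤ l.prod := by
  induction h with
  | slnil => exact le_rfl
  | cons a _ ih =>
    rw [List.prod_cons]
    exact (ih fun x hx => hl x (List.mem_cons_of_mem a hx)).trans
      (le_mul_of_one_le_left' (hl a List.mem_cons_self).le)
  | cons_cons a _ ih =>
    rw [List.prod_cons, List.prod_cons]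
    exact mul_le_mul_right (ih fun x hx => hl x (List.mem_cons_of_mem a hx)) a

private theorem mi_sub_eq {m l : List V} (h : m.Sublist l) (hl : ∀ x ∈ l, 1 < x)
    (he : m.prod = l.prod) : m = l := by
  induction h with
  | slnil => rfl
  | cons a h1 _ =>
    exfalso
    rw [List.prod_cons] at he
    have h2 := mi_sub_le h1 fun x hx => hl x (List.mem_cons_of_mem a hx)
    rw [he] at h2
    exact absurd h2 (not_le.mpr (lt_mul_of_one_lt_left' _ (hl a List.mem_cons_self)))
  | cons_cons a _ ih =>
    rw [List.prod_cons, List.prod_cons] at he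
    rw [ih (fun x hx => hl x (List.mem_cons_of_mem a hx)) (mul_left_cancel he)]

theorem lists_finite {S : Set V} (hS : S.IsPWO) (h1 : ∀ x ∈ S, 1 < x) (v : V) :
    {l : List V | (∀ x ∈ l, x ∈ S) ∧ l.prod = v}.Finite := by
  have h2 : {l : List V | ∀ x, x ∈ l → x ∈ S}.PartiallyWellOrderedOn
      (List.SublistForall₂ (· ≤ ·)) :=
    Set.PartiallyWellOrderedOn.partiallyWellOrderedOn_sublistForall₂ (· ≤ ·) hS
  refine IsAntichain.finite_of_partiallyWellOrderedOn (r := List.SublistForall₂ (· ≤ ·)) ?_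
    (h2.mono fun l hl => hl.1)
  rintro l ⟨_, h4⟩ l' ⟨h5, h6⟩ hne hle
  apply hne
  obtain ⟨m, h7, h8⟩ := List.sublistForall₂_iff.mp hle
  have h9 : ∀ x ∈ l', 1 < x := fun x hx => h1 x (h5 x hx)
  have h10 := mi_le h7
  have h11 := mi_sub_le h8 h9
  have h12 : m.prod = v := le_antisymm (h6 ▸ h11) (h4 ▸ h10)
  rw [mi_eq h7 (h4.trans h12.symm), mi_sub_eq h8 h9 (h12.trans h6.symm)]

theorem lists_pwo {S : Set V} (hS : S.IsPWO) (h1 : ∀ x ∈ S, 1 < x) :
    {v : V | ∃ l : List V, (∀ x ∈ l, x ∈ S) ∧ l.prod = v}.IsPWO := by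
  have h2 : {l : List V | ∀ x, x ∈ l → x ∈ S}.PartiallyWellOrderedOn
      (List.SublistForall₂ (· ≤ ·)) :=
    Set.PartiallyWellOrderedOn.partiallyWellOrderedOn_sublistForall₂ (· ≤ ·) hS
  have h3 : (List.prod '' {l : List V | ∀ x, x ∈ l → x ∈ S}).IsPWO := by
    refine h2.image_of_monotone_on (r' := (· ≤ ·)) ?_
    intro l _ l' hl' hle
    obtain ⟨m, h7, h8⟩ := List.sublistForall₂_iff.mp hle
    exact (mi_le h7).trans (mi_sub_le h8 fun x hx => h1 x (hl' x hx))
  exact h3.mono fun v ⟨l, hl, hv⟩ => ⟨l, hl, hv⟩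

variable {R : Type} [Ring R]

/-- The exponents of the powers. -/
private theorem mi_list (g : MN R V) (n : ℕ) : ∀ v, (g ^ n).cf v ≠ 0 →
    ∃ l : List V, l.length = n ∧ (∀ x ∈ l, x ∈ Function.support g.cf) ∧ l.prod = v := by
  induction n with
  | zero =>
    intro v hv
    rw [pow_zero, one_cf] at hv
    have h1 : v = 1 := by
      by_contra h
      exact hv (if_neg h)
    exact ⟨[], rfl, fun x hx => absurd hx List.not_mem_nil, h1 ▸ rfl⟩
  | succ n ih =>
    intro v hv
    rw [pow_succ', mul_cf] at hv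
    obtain ⟨x, hx⟩ : ∃ x, g.cf x * (g ^ n).cf (x⁻¹ * v) ≠ 0 := by
      by_contra hn
      push Not at hn
      exact hv (finsum_eq_zero_of_forall_eq_zero hn)
    obtain ⟨l, h1, h2, h3⟩ := ih _ (right_ne_zero_of_mul hx)
    refine ⟨x :: l, by rw [List.length_cons, h1], ?_, ?_⟩
    · intro y hy
      rcases List.mem_cons.mp hy with h | h
      · rw [h]
        exact left_ne_zero_of_mul hx
      · exact h2 y h
    · rw [List.prod_cons, h3, mul_inv_cancel_left]

/-- A right inverse, which is again `1` plus larger terms. -/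
private theorem mi_right {g : MN R V} (hg : ∀ v, g.cf v ≠ 0 → 1 < v) :
    ∃ s : MN R V, (1 - g) * s = 1 ∧ ∀ v, (1 - s).cf v ≠ 0 → 1 < v := by
  classical
  have hb : ∀ v, ∃ n₀ : ℕ, ∀ l : List V, (∀ x ∈ l, x ∈ Function.support g.cf) → l.prod = v →
      l.length < n₀ := by
    intro v
    have h1 := lists_finite g.pwo hg v
    refine ⟨(h1.toFinset.sup List.length) + 1, fun l hl1 hl2 => ?_⟩
    exact Nat.lt_succ_of_le (Finset.le_sup (f := List.length) (h1.mem_toFinset.mpr ⟨hl1, hl2⟩))
  choose b hb using hb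
  have hz : ∀ v n, b v ≤ n → (g ^ n).cf v = 0 := by
    intro v n hn
    by_contra h
    obtain ⟨l, h1, h2, h3⟩ := mi_list g n v h
    have h4 := hb v l h2 h3
    omega
  obtain ⟨s, hs⟩ : ∃ s : MN R V, ∀ v, s.cf v = ∑ n ∈ Finset.range (b v), (g ^ n).cf v := by
    refine ⟨⟨fun v => ∑ n ∈ Finset.range (b v), (g ^ n).cf v, ?_⟩, fun v => rfl⟩
    refine (lists_pwo g.pwo hg).mono fun v hv => ?_
    rw [Function.mem_support] at hv
    obtain ⟨n, _, hn⟩ := Finset.exists_ne_zero_of_sum_ne_zero hv
    obtain ⟨l, _, h2, h3⟩ := mi_list g n v hn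
    exact ⟨l, h2, h3⟩
  have hs' : ∀ v n₀, b v ≤ n₀ → s.cf v = ∑ n ∈ Finset.range n₀, (g ^ n).cf v := by
    intro v n₀ hn
    rw [hs]
    refine Finset.sum_subset (Finset.range_mono hn) fun n _ h => ?_
    rw [Finset.mem_range, not_lt] at h
    exact hz v n h
  have hx : ∀ v x, g.cf x ≠ 0 → s.cf (x⁻¹ * v) =
      ∑ n ∈ Finset.range (b v), (g ^ n).cf (x⁻¹ * v) := by
    intro v x hx
    rcases le_total (b (x⁻¹ * v)) (b v) with h | h
    · exact hs' _ _ h
    · rw [hs]
      symm
      refine Finset.sum_subset (Finset.range_mono h) fun n _ h' => ?_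
      rw [Finset.mem_range, not_lt] at h'
      by_contra hc
      obtain ⟨l, h1, h2, h3⟩ := mi_list g n _ hc
      have h4 := hb v (x :: l) (fun y hy => by
        rcases List.mem_cons.mp hy with h5 | h5
        · rw [h5]
          exact hx
        · exact h2 y h5) (by rw [List.prod_cons, h3, mul_inv_cancel_left])
      rw [List.length_cons] at h4
      omega
  refine ⟨s, ?_, ?_⟩
  · rw [sub_mul, one_mul]
    refine MN.ext (funext fun v => ?_)
    have h1 : (g * s).cf v = (g * ∑ n ∈ Finset.range (b v), g ^ n).cf v := by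
      rw [mul_cf, mul_cf]
      refine finsum_congr fun x => ?_
      by_cases h0 : g.cf x = 0
      · rw [h0, zero_mul, zero_mul]
      · rw [hx v x h0, sum_cf]
    rw [sub_cf, h1, hs' v (b v + 1) (Nat.le_succ _), Finset.sum_range_succ', pow_zero,
      Finset.mul_sum, sum_cf]
    have h2 : ∀ n ∈ Finset.range (b v), (g * g ^ n).cf v = (g ^ (n + 1)).cf v := fun n _ => by
      rw [pow_succ']
    rw [Finset.sum_congr rfl h2, add_sub_cancel_left]
  · intro v hv
    rw [sub_cf, one_cf] at hv
    have h5 : s.cf v = if v = 1 then 1 else s.cf v := by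
      split_ifs with h
      · subst h
        rw [hs' 1 (b 1 + 1) (Nat.le_succ _), Finset.sum_range_succ', pow_zero, one_cf, if_pos rfl,
          Finset.sum_eq_zero, zero_add]
        intro n _
        by_contra hc
        obtain ⟨l, h1, h2, h3⟩ := mi_list g (n + 1) 1 hc
        have h4 := mi_one_lt (fun x hx => hg x (h2 x hx)) (fun h => by
          rw [h] at h1
          exact absurd h1 (by simp))
        rw [h3] at h4
        exact lt_irrefl _ h4
      · rfl
    by_cases h : v = 1
    · exfalso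
      rw [h5, if_pos h, if_pos h, sub_self] at hv
      exact hv rfl
    · rw [if_neg h, zero_sub, neg_ne_zero, hs] at hv
      obtain ⟨n, _, hn⟩ := Finset.exists_ne_zero_of_sum_ne_zero hv
      obtain ⟨l, _, h2, h3⟩ := mi_list g n v hn
      rw [← h3]
      refine mi_one_lt (fun x hx => hg x (h2 x hx)) fun h6 => h ?_
      rw [← h3, h6, List.prod_nil]

theorem isUnit_one_sub' {g : MN R V} (hg : ∀ v, g.cf v ≠ 0 → 1 < v) : IsUnit (1 - g) := by
  obtain ⟨s, h1, h2⟩ := mi_right hg
  obtain ⟨s', h3, _⟩ := mi_right h2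
  rw [sub_sub_cancel] at h3
  have h4 : 1 - g = s' := by
    calc 1 - g = (1 - g) * (s * s') := by rw [h3, mul_one]
      _ = s' := by rw [← mul_assoc, h1, one_mul]
  rw [← h4] at h3
  exact ⟨⟨1 - g, s, h1, h3⟩, rfl⟩

theorem isUnit_of_lead {f : MN R V} {v₀ : V} (h0 : IsUnit (f.cf v₀))
    (hmin : ∀ v, f.cf v ≠ 0 → v₀ ≤ v) : IsUnit f := by
  obtain ⟨w, hw⟩ := h0
  have h1 : ∀ x, (single v₀⁻¹ ((w⁻¹ : Rˣ) : R) * f).cf x = ((w⁻¹ : Rˣ) : R) * f.cf (v₀ * x) :=
    fun x => by rw [single_mul_cf, inv_inv]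
  have h2 : IsUnit (1 - (1 - single v₀⁻¹ ((w⁻¹ : Rˣ) : R) * f)) := by
    refine isUnit_one_sub' fun v hv => ?_
    rw [sub_cf, one_cf, h1] at hv
    by_cases h : v = 1
    · exfalso
      rw [if_pos h, h, mul_one, ← hw, Units.inv_mul, sub_self] at hv
      exact hv rfl
    · rw [if_neg h, zero_sub, neg_ne_zero] at hv
      have h3 := hmin _ (right_ne_zero_of_mul hv)
      rw [le_mul_iff_one_le_right'] at h3
      exact lt_of_le_of_ne h3 (Ne.symm h)
  rw [sub_sub_cancel] at h2
  have h4 : IsUnit (single v₀ (w : R)) := by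
    refine ⟨⟨single v₀ (w : R), single v₀⁻¹ ((w⁻¹ : Rˣ) : R), ?_, ?_⟩, rfl⟩
    · rw [single_mul_single, mul_inv_cancel, Units.mul_inv, single_one_one]
    · rw [single_mul_single, inv_mul_cancel, Units.inv_mul, single_one_one]
  have h5 : f = single v₀ (w : R) * (single v₀⁻¹ ((w⁻¹ : Rˣ) : R) * f) := by
    rw [← mul_assoc, single_mul_single, mul_inv_cancel, Units.mul_inv, single_one_one, one_mul]
  rw [h5]
  exact h4.mul h2

omit [MulLeftMono V] [MulRightMono V] [Group V] in
theorem exists_lead {f : MN R V} (hf : f ≠ 0) :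
    ∃ v₀, f.cf v₀ ≠ 0 ∧ ∀ v, f.cf v ≠ 0 → v₀ ≤ v := by
  have h1 : (Function.support f.cf).Nonempty := by
    by_contra hn
    rw [Set.not_nonempty_iff_eq_empty, Function.support_eq_empty_iff] at hn
    exact hf (MN.ext hn)
  exact ⟨f.pwo.isWF.min h1, f.pwo.isWF.min_mem h1, fun v hv => f.pwo.isWF.min_le h1 hv⟩

instance [Nontrivial R] : Nontrivial (MN R V) := by
  refine ⟨0, 1, fun h => ?_⟩
  have h1 := congrArg (fun f : MN R V => f.cf 1) h
  have h2 : (0 : R) = 1 := by
    have h3 : (1 : MN R V).cf 1 = 1 := by rw [one_cf, if_pos rfl]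
    rw [← h3, ← h1]
    rfl
  exact zero_ne_one h2

end MN

section

variable {V : Type} [Group V] [LinearOrder V] [MulLeftMono V] [MulRightMono V]
  {R : Type} [DivisionRing R]

noncomputable instance : DivisionRing (MN R V) :=
  DivisionRing.ofIsUnitOrEqZero fun f => by
    by_cases h : f = 0
    · exact Or.inr h
    · obtain ⟨v₀, h1, h2⟩ := MN.exists_lead h
      exact Or.inl (MN.isUnit_of_lead (isUnit_iff_ne_zero.mpr h1) h2)

end

end SingerBO
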