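import Mathlib
import Pool.Agent.Lib_MP_394d50_bo.MInv
import Pool.Agent.Lib_MP_394d50_bo.FDefs

/-!
# Piece OFEB: free embeddings by Malcev-Neumann series; right inverses of matrices (about 180 lines)

* `feb_mn`: `MN.sub R S` is closed under inverses by `MN.inv_mem_sub`, so `DH (mnU R V) S` is contained in it
  (`Subfield.closure_induction`). `left`: the coefficient at `g * h`, `h ∈ S`, of `∑ single g' 1 * d g'` is
  `(d g).cf h` (`single_mul_cf`, `sum_cf`; for `g' ≠ g` the exponent `g'⁻¹ * g * h` is not in `S`); for `h ∉ S`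
  `(d g).cf h = 0` anyway. `right`: the coefficient at `h * g` (`mul_single_cf`).
* `fe_sub`: `D = DH t ⊤` (as a type), `t' g = t g`. The image of `DH t' H` in `E` is `DH t H` (only `≤` is needed:
  `x ∈ DH t' H → (x : E) ∈ DH t H`, by `Subfield.closure_induction`); `left` and `right` follow by applying the
  inclusion. `gen`: every `x ∈ DH t ⊤` lies in the image of `DH t' ⊤` (`Subfield.closure_induction` for the
  statement `∀ hx : x ∈ DH t ⊤, (⟨x, hx⟩ : D) ∈ DH t' ⊤`).
* `right_inverse`: a matrix `A : Matrix I J E` over a division ring such that `c ᵥ* A = 0 → c = 0` has a right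
  inverse: `A.vecMulLinear` is injective, so it has a linear left inverse
  (`LinearMap.exists_leftInverse_of_injective`), whose matrix `B` (rows `l (Pi.single j 1)`) satisfies
  `A * B = 1` (see `exMat_split` in Lib_MP_394d50_vs.VRank for such a computation).
-/

namespace SingerBO

open MN

section

variable {V R : Type} [Group V] [LinearOrder V] [MulLeftMono V] [MulRightMono V] [DivisionRing R]

/-- The embedding of the group in the units. -/
noncomputable def mnU (R V : Type) [Group V] [LinearOrder V] [MulLeftMono V] [MulRightMono V]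
    [DivisionRing R] : V →* (MN R V)ˣ where
  toFun v := ⟨single v 1, single v⁻¹ 1,
    by rw [single_mul_single, mul_inv_cancel, mul_one]; rfl,
    by rw [single_mul_single, inv_mul_cancel, mul_one]; rfl⟩
  map_one' := Units.ext rfl
  map_mul' v w := Units.ext (by
    show single (v * w) 1 = single v 1 * single w 1
    rw [single_mul_single, mul_one])

private theorem mnU_val (v : V) : ((mnU R V v : (MN R V)ˣ) : MN R V) = single v 1 := rfl

private theorem dh_le_sub (H : Subgroup V) {x : MN R V} (hx : x ∈ DH (mnU R V) H) :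
    x ∈ MN.sub R H := by
  unfold DH at hx
  induction hx using Subfield.closure_induction with
  | mem x hx =>
    obtain ⟨h, hh, rfl⟩ := hx
    rw [mnU_val, mem_sub]
    intro y hy
    have h1 : y = h := by
      by_contra hn
      exact hy (single_ne hn 1)
    rw [h1]
    exact hh
  | one => exact one_mem (MN.sub R H)
  | add x y _ _ hx hy => exact add_mem (S := Subring (MN R V)) hx hy
  | neg x _ hx => exact (MN.sub R H).neg_mem hx
  | inv x _ hx =>
    by_cases h0 : x = 0
    · rw [h0, inv_zero]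
      exact (MN.sub R H).zero_mem
    · exact inv_mem_sub hx (mul_inv_cancel₀ h0) (inv_mul_cancel₀ h0)
  | mul x y _ _ hx hy => exact (MN.sub R H).mul_mem hx hy

theorem feb_mn : FEb (mnU R V) where
  left := by
    intro H F d hF hd hs g hg
    refine MN.ext (funext fun v => ?_)
    rw [zero_cf]
    by_cases hv : v ∈ H
    · have h1 : (∑ g ∈ F, ((mnU R V g : (MN R V)ˣ) : MN R V) * d g).cf (g * v) =
          (0 : MN R V).cf (g * v) := by rw [hs]
      rw [sum_cf, zero_cf, Finset.sum_eq_single g] at h1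
      · rw [mnU_val, single_mul_cf, one_mul, inv_mul_cancel_left] at h1
        exact h1
      · intro g' hg' hne
        rw [mnU_val, single_mul_cf, one_mul]
        by_contra hn
        have h2 := dh_le_sub H (hd g' hg') _ hn
        have h3 : g'⁻¹ * g ∈ H := by
          have h4 := H.mul_mem h2 (H.inv_mem hv)
          rwa [show g'⁻¹ * (g * v) * v⁻¹ = g'⁻¹ * g by group] at h4
        exact hne (hF g' hg' g hg h3)
      · intro hn
        exact absurd hg hn
    · by_contra hn
      exact hv (dh_le_sub H (hd g hg) v hn)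
  right := by
    intro H F d hF hd hs g hg
    refine MN.ext (funext fun v => ?_)
    rw [zero_cf]
    by_cases hv : v ∈ H
    · have h1 : (∑ g ∈ F, d g * ((mnU R V g : (MN R V)ˣ) : MN R V)).cf (v * g) =
          (0 : MN R V).cf (v * g) := by rw [hs]
      rw [sum_cf, zero_cf, Finset.sum_eq_single g] at h1
      · rw [mnU_val, mul_single_cf, mul_one, mul_inv_cancel_right] at h1
        exact h1
      · intro g' hg' hne
        rw [mnU_val, mul_single_cf, mul_one]
        by_contra hn
        have h2 := dh_le_sub H (hd g' hg') _ hn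
        have h3 : g * g'⁻¹ ∈ H := by
          have h4 := H.mul_mem (H.inv_mem hv) h2
          rwa [show v⁻¹ * (v * g * g'⁻¹) = g * g'⁻¹ by group] at h4
        exact hne (hF g' hg' g hg h3)
      · intro hn
        exact absurd hg hn
    · by_contra hn
      exact hv (dh_le_sub H (hd g hg) v hn)

end

theorem fe_sub {G E : Type} [Group G] [DivisionRing E] (t : G →* Eˣ) (h : FEb t) :
    ∃ t' : G →* (DH t ⊤)ˣ, (∀ g, (((t' g : (DH t ⊤)ˣ) : DH t ⊤) : E) = ((t g : Eˣ) : E)) ∧
      FE t' := by
  let t' : G →* (DH t ⊤)ˣ :=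
    { toFun := fun g => ⟨⟨((t g : Eˣ) : E), mem_DH t (Subgroup.mem_top g)⟩,
        ⟨((t g⁻¹ : Eˣ) : E), mem_DH t (Subgroup.mem_top g⁻¹)⟩,
        Subtype.ext (by
          show ((t g : Eˣ) : E) * ((t g⁻¹ : Eˣ) : E) = 1
          rw [← Units.val_mul, ← map_mul, mul_inv_cancel, map_one, Units.val_one]),
        Subtype.ext (by
          show ((t g⁻¹ : Eˣ) : E) * ((t g : Eˣ) : E) = 1
          rw [← Units.val_mul, ← map_mul, inv_mul_cancel, map_one, Units.val_one])⟩
      map_one' := Units.ext (Subtype.ext (by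
        show ((t 1 : Eˣ) : E) = 1
        rw [map_one, Units.val_one]))
      map_mul' := fun g g' => Units.ext (Subtype.ext (by
        show ((t (g * g') : Eˣ) : E) = ((t g : Eˣ) : E) * ((t g' : Eˣ) : E)
        rw [map_mul, Units.val_mul])) }
  have ht' : ∀ g, (((t' g : (DH t ⊤)ˣ) : DH t ⊤) : E) = ((t g : Eˣ) : E) := fun g => rfl
  have hin : ∀ (H : Subgroup G) (x : DH t ⊤), x ∈ DH t' H → (x : E) ∈ DH t H := by
    intro H x hx
    refine Subfield.closure_induction (p := fun (x : DH t ⊤) _ => (x : E) ∈ DH t H)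
      ?_ ?_ ?_ ?_ ?_ ?_ hx
    · rintro x ⟨g, hg, rfl⟩
      exact mem_DH t hg
    · exact (DH t H).one_mem
    · exact fun x y _ _ hx hy => (DH t H).add_mem hx hy
    · exact fun x _ hx => (DH t H).neg_mem hx
    · exact fun x _ hx => (DH t H).inv_mem hx
    · exact fun x y _ _ hx hy => (DH t H).mul_mem hx hy
  have hgen : ∀ (y : E) (hy : y ∈ DH t ⊤), (⟨y, hy⟩ : DH t ⊤) ∈ DH t' ⊤ := by
    intro y hy
    refine Subfield.closure_induction
      (p := fun (y : E) (hy : y ∈ DH t ⊤) => (⟨y, hy⟩ : DH t ⊤) ∈ DH t' ⊤)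
      ?_ ?_ ?_ ?_ ?_ ?_ hy
    · rintro x ⟨g, hg, rfl⟩
      exact mem_DH t' (Subgroup.mem_top g)
    · exact (DH t' ⊤).one_mem
    · exact fun x y _ _ hx hy => (DH t' ⊤).add_mem hx hy
    · exact fun x _ hx => (DH t' ⊤).neg_mem hx
    · exact fun x _ hx => (DH t' ⊤).inv_mem hx
    · exact fun x y _ _ hx hy => (DH t' ⊤).mul_mem hx hy
  refine ⟨t', ht', ⟨⟨?_, ?_⟩, fun x => hgen x.1 x.2⟩⟩
  · intro H F d hF hd hs g hg
    apply Subtype.ext
    refine h.left H F (fun g => (d g : E)) hF (fun g hg => hin H _ (hd g hg)) ?_ g hg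
    have h2 : ((∑ g ∈ F, ((t' g : (DH t ⊤)ˣ) : DH t ⊤) * d g : DH t ⊤) : E) =
        ∑ g ∈ F, (((t' g : (DH t ⊤)ˣ) : DH t ⊤) : E) * (d g : E) :=
      map_sum (DH t ⊤).subtype _ F
    exact h2.symm.trans (congrArg Subtype.val hs)
  · intro H F d hF hd hs g hg
    apply Subtype.ext
    refine h.right H F (fun g => (d g : E)) hF (fun g hg => hin H _ (hd g hg)) ?_ g hg
    have h2 : ((∑ g ∈ F, d g * ((t' g : (DH t ⊤)ˣ) : DH t ⊤) : DH t ⊤) : E) =
        ∑ g ∈ F, (d g : E) * (((t' g : (DH t ⊤)ˣ) : DH t ⊤) : E) :=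
      map_sum (DH t ⊤).subtype _ F
    exact h2.symm.trans (congrArg Subtype.val hs)

theorem right_inverse {E I J : Type} [DivisionRing E] [Fintype I] [Fintype J] [DecidableEq I]
    (A : Matrix I J E) (h : ∀ c : I → E, Matrix.vecMul c A = 0 → c = 0) :
    ∃ B : Matrix J I E, A * B = 1 := by
  classical
  have hinj : LinearMap.ker A.vecMulLinear = ⊥ := by
    rw [LinearMap.ker_eq_bot']
    intro c hc
    exact h c hc
  obtain ⟨l, hl⟩ := LinearMap.exists_leftInverse_of_injective A.vecMulLinear hinj
  have hZ : ∀ w : J → E, l w = Matrix.vecMul w (Matrix.of fun j => l (Pi.single j 1)) := by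
    intro w
    have hw : w = ∑ j, w j • (Pi.single j 1 : J → E) := pi_eq_sum_univ' w
    conv_lhs => rw [hw]
    rw [map_sum]
    funext j
    rw [Finset.sum_apply, Matrix.vecMul, dotProduct]
    refine Finset.sum_congr rfl fun i _ => ?_
    rw [map_smul, Pi.smul_apply, smul_eq_mul]
    rfl
  refine ⟨Matrix.of fun j => l (Pi.single j 1), ?_⟩
  apply Matrix.ext
  intro i k
  have h8 : (A * (Matrix.of fun j => l (Pi.single j 1))) i =
      Matrix.vecMul (Matrix.vecMul (Pi.single i 1 : I → E) A)
        (Matrix.of fun j => l (Pi.single j 1)) := by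
    rw [Matrix.single_one_vecMul]
    funext j
    rw [Matrix.mul_apply, Matrix.vecMul, dotProduct]
    rfl
  have h9 : l (Matrix.vecMul (Pi.single i 1 : I → E) A) = Pi.single i 1 :=
    LinearMap.congr_fun hl (Pi.single i 1)
  rw [h8, ← hZ, h9, Matrix.one_apply, Pi.single_apply]
  exact if_congr eq_comm rfl rfl

end SingerBO
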