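import Mathlib
import Pool.Agent.Lib_MP_394d50_bo.MInv

/-!
# Piece OUNIT: the 2-adic Malcev-Neumann series (about 250 lines)

`Ob V`: the inverse limit of the rings `MN (ZMod (2 ^ k)) V`. `res : Ob V →+* MN (ZMod 2) V`, the reduction modulo `2`.

* `isUnit_zmod`: let `f : MN (ZMod (2 ^ k)) V`, `1 ≤ k`, with `mapR (castHom _ (ZMod 2)) f ≠ 0`. There is
  `g : MN (ZMod (2 ^ k)) V` with reduction the inverse of the reduction of `f` (lift the coefficients, `0` to `0`:
  `c ↦ if c = 0 then 0 else 1`, so that the support is the same; `MN (ZMod 2) V` is a division ring). `h = 1 - f * g`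
  has zero reduction: every coefficient `c` of `h` has `castHom c = 0`, that is `c = 2 * c'`. By induction every
  coefficient of `h ^ j` is a multiple of `2 ^ j` (`mul_cf_sum`), so `h ^ k = 0` and `f * g = 1 - h` is a unit
  (`IsNilpotent.isUnit_one_sub`). In the same way `g * f` is a unit; so `f` is a unit (right and left inverse).
* `ob_isUnit`: each component `f.1 k`, `1 ≤ k`, is a unit by `isUnit_zmod` (the reduction of `f.1 k` modulo `2` is
  `res f`: `res_eq`), and `MN (ZMod (2 ^ 0)) V` is the zero ring (`ZMod 1` is a subsingleton). The inverses are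
  compatible since ring homomorphisms map inverses to inverses.
* `ob_factor`: let `j` be the largest number with `f.1 j = 0` (`f.1 0 = 0`; if `f.1 k = 0` for all `k` then `f = 0`; if
  `f.1 k = 0` then `f.1 i = 0` for `i ≤ k`). So `f.1 (j + 1) ≠ 0`. For `i` every coefficient of `f.1 (i + j)` maps to
  `0` in `ZMod (2 ^ j)`, so it is a multiple of `2 ^ j`; let `g i` have the coefficients `c'` with
  `2 ^ j * c' = c`, reduced modulo `2 ^ i` (well-defined modulo `2 ^ i`; choose `c' = 0` for `c = 0`). For example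
  with representatives in `ℕ`: `c' = (ZMod.val c) / 2 ^ j`. Then `g` is compatible, `2 ^ j * g = f`
  (`(2 ^ j * g).1 (i + j)` reduces to..., compare the components of index `i`: both are the reductions of
  `f.1 (i + j)`), and `res g ≠ 0` since `f.1 (j + 1) ≠ 0` is `2 ^ j` times a lift of `g.1 1`.
* `ob_two`: `2 * f = 0 → f = 0`: the coefficients `c` of `f.1 (k + 1)` have `2 * c = 0` in `ZMod (2 ^ (k + 1))`, so they
  map to `0` in `ZMod (2 ^ k)`.
-/

namespace SingerBO

open MN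

variable (V : Type) [Group V] [LinearOrder V] [MulLeftMono V] [MulRightMono V]

/-- The reduction `ZMod (2 ^ (k + 1)) → ZMod (2 ^ k)`. -/
def redZ (k : ℕ) : ZMod (2 ^ (k + 1)) →+* ZMod (2 ^ k) :=
  ZMod.castHom (pow_dvd_pow 2 (Nat.le_succ k)) (ZMod (2 ^ k))

/-- The reduction `ZMod (2 ^ (k + 1)) → ZMod 2`. -/
def redT (k : ℕ) : ZMod (2 ^ (k + 1)) →+* ZMod 2 :=
  ZMod.castHom (dvd_pow_self 2 (Nat.succ_ne_zero k)) (ZMod 2)

/-- The 2-adic Malcev-Neumann series. -/
noncomputable def Ob : Subring (∀ k : ℕ, MN (ZMod (2 ^ k)) V) where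
  carrier := {f | ∀ k, mapR (redZ k) (f (k + 1)) = f k}
  mul_mem' := fun {f g} hf hg k => by
    show mapR (redZ k) (f (k + 1) * g (k + 1)) = f k * g k
    rw [map_mul, hf, hg]
  one_mem' := fun k => by
    show mapR (redZ k) 1 = 1
    rw [map_one]
  add_mem' := fun {f g} hf hg k => by
    show mapR (redZ k) (f (k + 1) + g (k + 1)) = f k + g k
    rw [map_add, hf, hg]
  zero_mem' := fun k => by
    show mapR (redZ k) 0 = 0
    rw [map_zero]
  neg_mem' := fun {f} hf k => by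
    show mapR (redZ k) (- f (k + 1)) = - f k
    rw [map_neg, hf]

variable {V}

/-- The reduction modulo 2. -/
noncomputable def res : Ob V →+* MN (ZMod 2) V :=
  (mapR (redT 0)).comp ((Pi.evalRingHom (fun k : ℕ => MN (ZMod (2 ^ k)) V) 1).comp (Ob V).subtype)

theorem res_eq (f : Ob V) (k : ℕ) : mapR (redT k) (f.1 (k + 1)) = res f := by
  induction k with
  | zero => rfl
  | succ k ih =>
    rw [← ih, ← f.2 (k + 1)]
    refine MN.ext (funext fun v => ?_)
    rw [mapR_cf, mapR_cf, mapR_cf]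
    have h : (redT k).comp (redZ (k + 1)) = redT (k + 1) := Subsingleton.elim _ _
    rw [← h]
    rfl

/-- The series with one term. -/
noncomputable def obS (v : V) (c : ℤ) : Ob V :=
  ⟨fun _ => single v (c : ZMod (2 ^ _)), fun k => by
    show mapR (redZ k) (single v ((c : ℤ) : ZMod (2 ^ (k + 1)))) = single v ((c : ℤ) : ZMod (2 ^ k))
    rw [mapR_single, map_intCast]⟩

theorem obS_mul (v w : V) (c d : ℤ) : obS v c * obS w d = obS (v * w) (c * d) := by
  refine Subtype.ext (funext fun k => ?_)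
  show single v ((c : ℤ) : ZMod (2 ^ k)) * single w ((d : ℤ) : ZMod (2 ^ k)) =
    single (v * w) (((c * d : ℤ)) : ZMod (2 ^ k))
  rw [single_mul_single, Int.cast_mul]

theorem obS_one : obS (1 : V) 1 = 1 := by
  refine Subtype.ext (funext fun k => ?_)
  show single (1 : V) ((1 : ℤ) : ZMod (2 ^ k)) = 1
  rw [Int.cast_one]
  rfl

theorem res_obS (v : V) (c : ℤ) : res (obS v c) = single v (c : ZMod 2) := by
  show mapR (redT 0) (single v ((c : ℤ) : ZMod (2 ^ 1))) = _
  rw [mapR_single, map_intCast]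

private theorem redZ_val (k : ℕ) (c : ZMod (2 ^ (k + 1))) :
    redZ k c = ((c.val : ℕ) : ZMod (2 ^ k)) := by
  have : NeZero (2 ^ (k + 1)) := ⟨pow_ne_zero _ two_ne_zero⟩
  conv_lhs => rw [← ZMod.natCast_zmod_val c]
  rw [map_natCast]

private theorem redT_val (k : ℕ) (c : ZMod (2 ^ (k + 1))) :
    redT k c = ((c.val : ℕ) : ZMod 2) := by
  have : NeZero (2 ^ (k + 1)) := ⟨pow_ne_zero _ two_ne_zero⟩
  conv_lhs => rw [← ZMod.natCast_zmod_val c]
  rw [map_natCast]

private theorem redT_dvd (k : ℕ) (c : ZMod (2 ^ (k + 1))) (h : redT k c = 0) :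
    2 ∣ c.val := by
  rw [redT_val, ZMod.natCast_eq_zero_iff] at h
  exact h

private theorem redT_dvd' (k : ℕ) (c : ZMod (2 ^ (k + 1))) (h : redT k c = 0) :
    (2 : ZMod (2 ^ (k + 1))) ∣ c := by
  have : NeZero (2 ^ (k + 1)) := ⟨pow_ne_zero _ two_ne_zero⟩
  obtain ⟨q, hq⟩ := redT_dvd k c h
  refine ⟨(q : ZMod (2 ^ (k + 1))), ?_⟩
  rw [← ZMod.natCast_zmod_val c, hq, Nat.cast_mul, Nat.cast_ofNat]

private theorem two_pow_zmod (n : ℕ) : (2 : ZMod (2 ^ n)) ^ n = 0 := by
  have h : ((2 ^ n : ℕ) : ZMod (2 ^ n)) = 0 := ZMod.natCast_self _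
  rwa [Nat.cast_pow, Nat.cast_ofNat] at h

private theorem mul_dvd_cf {R : Type} [CommRing R] {f g : MN R V} {a b : R}
    (hf : ∀ v, a ∣ f.cf v) (hg : ∀ v, b ∣ g.cf v) (v : V) : a * b ∣ (f * g).cf v := by
  rw [mul_cf_sum f g v (pair_finite f.pwo g.pwo v).toFinset (fun x h1 h2 => by
    rw [Set.Finite.mem_toFinset]
    exact ⟨h1, h2⟩)]
  exact Finset.dvd_sum fun x _ => mul_dvd_mul (hf x) (hg _)

private theorem pow_dvd_cf {R : Type} [CommRing R] {f : MN R V} {a : R}
    (hf : ∀ v, a ∣ f.cf v) (n : ℕ) (v : V) : a ^ n ∣ (f ^ n).cf v := by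
  induction n generalizing v with
  | zero =>
    rw [pow_zero]
    exact one_dvd _
  | succ n ih =>
    rw [pow_succ, pow_succ]
    exact mul_dvd_cf ih hf v

/-- A series with reduction `0` is nilpotent. -/
private theorem nilp (k : ℕ) (f : MN (ZMod (2 ^ (k + 1))) V) (hf : mapR (redT k) f = 0) :
    IsNilpotent f := by
  refine ⟨k + 1, MN.ext (funext fun v => ?_)⟩
  have h1 : ∀ v, (2 : ZMod (2 ^ (k + 1))) ∣ f.cf v := by
    intro v
    refine redT_dvd' k _ ?_
    have := congrArg (fun g : MN (ZMod 2) V => g.cf v) hf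
    exact this
  have h2 := pow_dvd_cf h1 (k + 1) v
  rw [two_pow_zmod] at h2
  rw [zero_dvd_iff.mp h2]
  rfl

/-- The lift of a series. -/
private noncomputable def lift (k : ℕ) (g : MN (ZMod 2) V) : MN (ZMod (2 ^ (k + 1))) V :=
  ⟨fun v => if g.cf v = 0 then 0 else 1, g.pwo.mono fun _ hv h => hv (if_pos h)⟩

private theorem mapR_lift (k : ℕ) (g : MN (ZMod 2) V) : mapR (redT k) (lift k g) = g := by
  refine MN.ext (funext fun v => ?_)
  rw [mapR_cf]
  show redT k (if g.cf v = 0 then 0 else 1) = g.cf v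
  by_cases h : g.cf v = 0
  · rw [if_pos h, map_zero, h]
  · rw [if_neg h, map_one]
    have h2 : ∀ a : ZMod 2, a ≠ 0 → 1 = a := by decide
    exact h2 _ h

theorem isUnit_zmod (k : ℕ) (f : MN (ZMod (2 ^ (k + 1))) V) (hf : mapR (redT k) f ≠ 0) :
    IsUnit f := by
  have hu : IsUnit (mapR (redT k) f) := isUnit_iff_ne_zero.mpr hf
  obtain ⟨g, hg1, hg2⟩ : ∃ g : MN (ZMod 2) V, mapR (redT k) f * g = 1 ∧
      g * mapR (redT k) f = 1 := by
    obtain ⟨u, hu⟩ := hu
    refine ⟨(u⁻¹ : (MN (ZMod 2) V)ˣ), ?_, ?_⟩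
    · rw [← hu]
      exact u.mul_inv
    · rw [← hu]
      exact u.inv_mul
  have h1 : IsUnit (f * lift k g) := by
    have h := (nilp k (1 - f * lift k g) (by
      rw [map_sub, map_one, map_mul, mapR_lift, hg1, sub_self])).isUnit_one_sub
    rwa [sub_sub_cancel] at h
  have h2 : IsUnit (lift k g * f) := by
    have h := (nilp k (1 - lift k g * f) (by
      rw [map_sub, map_one, map_mul, mapR_lift, hg2, sub_self])).isUnit_one_sub
    rwa [sub_sub_cancel] at h
  obtain ⟨u, hu⟩ := h1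
  obtain ⟨w, hw⟩ := h2
  have h3 : f * (lift k g * ↑u⁻¹) = 1 := by
    rw [← mul_assoc, ← hu, Units.mul_inv]
  have h4 : (↑w⁻¹ * lift k g) * f = 1 := by
    rw [mul_assoc, ← hw, Units.inv_mul]
  have h5 : (↑w⁻¹ * lift k g) = lift k g * ↑u⁻¹ := left_inv_eq_right_inv h4 h3
  exact ⟨⟨f, lift k g * ↑u⁻¹, h3, by rw [← h5]; exact h4⟩, rfl⟩

theorem ob_isUnit (f : Ob V) (hf : res f ≠ 0) : IsUnit f := by
  have hu : ∀ k, IsUnit (f.1 k) := by
    intro k
    cases k with
    | zero =>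
      have hs : Subsingleton (ZMod (2 ^ 0)) := inferInstanceAs (Subsingleton (ZMod 1))
      have h : f.1 0 = 1 := MN.ext (funext fun v => Subsingleton.elim _ _)
      rw [h]
      exact isUnit_one
    | succ k => exact isUnit_zmod k _ (by rwa [res_eq])
  have hc : ∀ k, mapR (redZ k) (↑((hu (k + 1)).unit⁻¹) : MN (ZMod (2 ^ (k + 1))) V) =
      (↑((hu k).unit⁻¹) : MN (ZMod (2 ^ k)) V) := by
    intro k
    have h1 : mapR (redZ k) (↑((hu (k + 1)).unit⁻¹) : MN (ZMod (2 ^ (k + 1))) V) * f.1 k = 1 := by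
      have h := congrArg (mapR (redZ k)) (hu (k + 1)).val_inv_mul
      rw [map_mul, map_one, f.2 k] at h
      exact h
    exact left_inv_eq_right_inv h1 (hu k).mul_val_inv
  refine ⟨⟨f, ⟨fun k => (↑((hu k).unit⁻¹) : MN (ZMod (2 ^ k)) V), hc⟩, ?_, ?_⟩, rfl⟩
  · exact Subtype.ext (funext fun k => (hu k).mul_val_inv)
  · exact Subtype.ext (funext fun k => (hu k).val_inv_mul)

private theorem two_mul_cf {R : Type} [Ring R] (g : MN R V) (v : V) :
    (2 * g).cf v = 2 * g.cf v := by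
  rw [two_mul, two_mul, add_cf]

/-- Half of a series with reduction `0`. -/
private theorem half (f : Ob V) (hf : res f = 0) : ∃ g : Ob V, f = 2 * g := by
  have hev : ∀ k v, 2 ∣ ((f.1 (k + 1)).cf v).val := by
    intro k v
    refine redT_dvd k _ ?_
    have := congrArg (fun g : MN (ZMod 2) V => g.cf v) ((res_eq f k).trans hf)
    exact this
  have hred : ∀ k v, (f.1 k).cf v = ((((f.1 (k + 1)).cf v).val : ℕ) : ZMod (2 ^ k)) := by
    intro k v
    rw [← redZ_val, ← mapR_cf, f.2 k]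
  let g : ∀ k : ℕ, MN (ZMod (2 ^ k)) V := fun k =>
    ⟨fun v => (((((f.1 (k + 1)).cf v).val / 2 : ℕ)) : ZMod (2 ^ k)),
      (f.1 (k + 1)).pwo.mono fun v hv h => hv (by
        show (((((f.1 (k + 1)).cf v).val / 2 : ℕ)) : ZMod (2 ^ k)) = 0
        rw [h, ZMod.val_zero, Nat.zero_div, Nat.cast_zero])⟩
  have hg : ∀ k v, (g k).cf v = (((((f.1 (k + 1)).cf v).val / 2 : ℕ)) : ZMod (2 ^ k)) :=
    fun _ _ => rfl
  have hc : ∀ k, mapR (redZ k) (g (k + 1)) = g k := by
    intro k
    refine MN.ext (funext fun v => ?_)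
    rw [mapR_cf, hg, hg, map_natCast]
    have h1 : ((f.1 (k + 1)).cf v).val = ((f.1 (k + 1 + 1)).cf v).val % (2 * 2 ^ k) := by
      rw [hred (k + 1) v, ZMod.val_natCast]
      generalize ((f.1 (k + 1 + 1)).cf v).val = m
      rw [pow_succ, mul_comm]
    rw [h1, Nat.mod_mul_right_div_self, ZMod.natCast_mod]
  refine ⟨⟨g, hc⟩, Subtype.ext (funext fun k => MN.ext (funext fun v => ?_))⟩
  show (f.1 k).cf v = (2 * g k).cf v
  rw [two_mul_cf, hg, hred]
  have h2 : (2 : ZMod (2 ^ k)) = ((2 : ℕ) : ZMod (2 ^ k)) := by norm_num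
  rw [h2, ← Nat.cast_mul, Nat.mul_div_cancel' (hev k v)]

theorem ob_factor (f : Ob V) (hf : f ≠ 0) : ∃ (j : ℕ) (g : Ob V), res g ≠ 0 ∧ f = 2 ^ j * g := by
  have key : ∀ (n : ℕ) (f : Ob V), f.1 n ≠ 0 →
      ∃ (j : ℕ) (g : Ob V), res g ≠ 0 ∧ f = 2 ^ j * g := by
    intro n
    induction n with
    | zero =>
      intro f h0
      exfalso
      apply h0
      have hs : Subsingleton (ZMod (2 ^ 0)) := inferInstanceAs (Subsingleton (ZMod 1))
      exact MN.ext (funext fun v => Subsingleton.elim _ _)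
    | succ n ih =>
      intro f hn
      by_cases hr : res f = 0
      · obtain ⟨g, hg⟩ := half f hr
        have hgn : g.1 n ≠ 0 := by
          intro h0
          apply hn
          have h1 : f.1 (n + 1) = 2 * g.1 (n + 1) := by rw [hg]; rfl
          rw [h1]
          refine MN.ext (funext fun v => ?_)
          rw [two_mul_cf, zero_cf]
          have h2 : redZ n ((g.1 (n + 1)).cf v) = 0 := by
            rw [← mapR_cf, g.2 n, h0, zero_cf]
          rw [redZ_val, ZMod.natCast_eq_zero_iff] at h2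
          obtain ⟨q, hq⟩ := h2
          have : NeZero (2 ^ (n + 1)) := ⟨pow_ne_zero _ two_ne_zero⟩
          rw [← ZMod.natCast_zmod_val ((g.1 (n + 1)).cf v), hq, Nat.cast_mul, Nat.cast_pow,
            Nat.cast_ofNat, ← mul_assoc, ← pow_succ', two_pow_zmod, zero_mul]
        obtain ⟨j, g', h1, h2⟩ := ih g hgn
        refine ⟨j + 1, g', h1, ?_⟩
        rw [hg, h2, ← mul_assoc, ← pow_succ']
      · exact ⟨0, f, hr, by rw [pow_zero, one_mul]⟩
  obtain ⟨n, hn⟩ : ∃ n, f.1 n ≠ 0 := by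
    by_contra h
    push Not at h
    exact hf (Subtype.ext (funext h))
  exact key n f hn

theorem ob_two (f : Ob V) (h : 2 * f = 0) : f = 0 := by
  refine Subtype.ext (funext fun k => MN.ext (funext fun v => ?_))
  show (f.1 k).cf v = 0
  have h1 : (2 * f.1 (k + 1)).cf v = 0 := by
    have h2 := congrArg (fun g : Ob V => (g.1 (k + 1)).cf v) h
    exact h2
  rw [two_mul_cf] at h1
  have : NeZero (2 ^ (k + 1)) := ⟨pow_ne_zero _ two_ne_zero⟩
  have h3 : ((2 * ((f.1 (k + 1)).cf v).val : ℕ) : ZMod (2 ^ (k + 1))) = 0 := by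
    rw [Nat.cast_mul, ZMod.natCast_zmod_val, Nat.cast_ofNat, h1]
  rw [ZMod.natCast_eq_zero_iff] at h3
  have h4 : ∀ m : ℕ, 2 ^ (k + 1) ∣ 2 * m → 2 ^ k ∣ m := fun m hm => by
    rwa [pow_succ', Nat.mul_dvd_mul_iff_left two_pos] at hm
  rw [← f.2 k, mapR_cf, redZ_val, ZMod.natCast_eq_zero_iff]
  exact h4 _ h3

end SingerBO
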