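import Mathlib
import Pool.Agent.Lib_MP_394d50_bo.OUnit
import Pool.Agent.Lib_MP_394d50_bo.FDefs

/-!
# Piece OFIELD: the division ring of the 2-adic Malcev-Neumann series (about 250 lines)

* `NoZeroDivisors (Ob V)`: `f = 2 ^ i * f'`, `g = 2 ^ j * g'` with units `f'`, `g'` (`ob_factor`, `ob_isUnit`); `2` is
  central (`2 = 1 + 1`, `Commute`), so `f * g = 2 ^ (i + j) * (f' * g')`, and by `ob_two` this is not `0`.
* The Ore condition: for `r` and `s ≠ 0`, `s = 2 ^ j * u` with a unit `u`: `2 ^ j * r = (r * u⁻¹) * s`. So there is an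
  instance of `OreLocalization.OreSet (nonZeroDivisors (Ob V))` (`OreLocalization.oreSetOfNoZeroDivisors`), and
  `OreLocalization (nonZeroDivisors (Ob V)) (Ob V)` is a division ring in Mathlib. `exists_K0` packages this:
  `ι = OreLocalization.numeratorHom` (injective: `OreLocalization.numeratorHom_inj`); every element is
  `(ι s)⁻¹ * ι r` with `s = 2 ^ j * u`, so `2 ^ j * x = ι (u⁻¹ * r)`.
* `feb_K0`: let `E S` be the set of the `x` with `2 ^ j * x = ι f` for some `j` and some `f` with all components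
  in `MN.sub _ S`. It is a division subring: `0`, `1`, sums (common `j`), products (`2` is central in `K0`, as
  `(2 : K0) = 1 + 1`), inverses: `2 ^ j * x = ι f`, `f = 2 ^ i * g` with `g` a unit (if `f ≠ 0`); the components
  of `g` lie in `MN.sub _ S`: as `f = 2 ^ i * g`, use instead `f' = rst S g` (componentwise; it is
  an element of `Ob V`), `2 ^ i * rst S g = rst S f = f = 2 ^ i * g`, so `rst S g = g` (`ob_two`); the inverse
  `g'` of `g` has components in `MN.sub _ S` by `MN.inv_mem_sub`. Then `x⁻¹ = 2 ^ j * 2 ^ (-i) * ι g'`, that is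
  `2 ^ i * x⁻¹ = ι (2 ^ j * g')`. It contains `ι (obS h 1)`, `h ∈ S`. So `DH t S ≤ E S`
  (`Subfield.closure_induction`). `left`: multiply by a common power of `2`: `∑ ι (obS g 1) * ι (f g) = 0`, so
  `∑ obS g 1 * f g = 0`; look at component `k` and at the coefficient at `g * h`, `h ∈ S`: by `single_mul_cf` the
  term of `g'` is `(f g').cf (g'⁻¹ * g * h)`, zero for `g' ≠ g` since `g'⁻¹ * g ∉ S`; so `(f g).cf h = 0` for
  `h ∈ S`, and for `h ∉ S` as well. `right` is symmetric.
-/

namespace SingerBO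

open MN

variable (V : Type) [Group V] [LinearOrder V] [MulLeftMono V] [MulRightMono V]

private theorem of_two_pow {R : Type} [Ring R] (h2 : ∀ f : R, 2 * f = 0 → f = 0) (j : ℕ) :
    ∀ f : R, 2 ^ j * f = 0 → f = 0 := by
  induction j with
  | zero => intro f h; rwa [pow_zero, one_mul] at h
  | succ j ih =>
    intro f h
    rw [pow_succ, mul_assoc] at h
    exact h2 f (ih _ h)

private theorem of_comm {R : Type} [Ring R] (j : ℕ) (f : R) : 2 ^ j * f = f * 2 ^ j :=
  ((Commute.ofNat_left 2 f).pow_left j).eq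

private theorem of_abs {R : Type} [Ring R] [Nontrivial R] [CharZero R]
    (h2 : ∀ f : R, 2 * f = 0 → f = 0)
    (hf : ∀ f : R, f ≠ 0 → ∃ (j : ℕ) (g : R), IsUnit g ∧ f = 2 ^ j * g) :
    ∃ (E : Type) (_ : DivisionRing E) (_ : CharZero E) (ι : R →+* E),
      Function.Injective ι ∧ ∀ x : E, ∃ (j : ℕ) (f : R), 2 ^ j * x = ι f := by
  have hnz : NoZeroDivisors R := by
    refine ⟨fun {a b} hab => ?_⟩
    by_contra hn
    push Not at hn
    obtain ⟨i, f, hfu, hfe⟩ := hf a hn.1
    obtain ⟨j, g, hgu, hge⟩ := hf b hn.2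
    have h1 : 2 ^ i * (2 ^ j * (f * g)) = 0 := by
      rw [← hab, hfe, hge, mul_assoc, ← mul_assoc f, ← of_comm j f, mul_assoc]
    have h3 : f * g = 0 := of_two_pow h2 j _ (of_two_pow h2 i _ h1)
    exact (hfu.mul hgu).ne_zero h3
  have h2j : ∀ j : ℕ, (2 : R) ^ j ∈ nonZeroDivisors R := by
    intro j
    refine mem_nonZeroDivisors_of_ne_zero fun h => ?_
    have h1 : (2 : R) ^ j * 1 = 0 := by rw [mul_one, h]
    exact one_ne_zero (of_two_pow h2 j 1 h1)
  have hore : Nonempty (OreLocalization.OreSet (nonZeroDivisors R)) := by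
    rw [OreLocalization.nonempty_oreSet_iff_of_noZeroDivisors]
    intro r s
    obtain ⟨j, g, hgu, hge⟩ := hf s.1 (nonZeroDivisors.ne_zero s.2)
    obtain ⟨u, rfl⟩ := hgu
    refine ⟨r * ((u⁻¹ : Rˣ) : R), ⟨2 ^ j, h2j j⟩, ?_⟩
    show 2 ^ j * r = r * ((u⁻¹ : Rˣ) : R) * s.1
    rw [hge, of_comm j (u : R), ← mul_assoc, mul_assoc r, Units.inv_mul, mul_one, of_comm]
  obtain ⟨hore'⟩ := hore
  have hinj : Function.Injective
      (OreLocalization.numeratorRingHom : R →+* OreLocalization (nonZeroDivisors R) R) :=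
    OreLocalization.numeratorHom_inj (R := R) (S := nonZeroDivisors R) inf_le_left
  refine ⟨OreLocalization (nonZeroDivisors R) R, inferInstance, ?_,
    OreLocalization.numeratorRingHom, hinj, ?_⟩
  · refine ⟨fun m n hmn => ?_⟩
    have h1 : (OreLocalization.numeratorRingHom : R →+* OreLocalization (nonZeroDivisors R) R)
        (m : R) = OreLocalization.numeratorRingHom (n : R) := by
      rw [map_natCast, map_natCast]
      exact hmn
    exact Nat.cast_injective (hinj h1)
  · intro x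
    induction x using OreLocalization.ind with
    | _ r s =>
      obtain ⟨j, g, hgu, hge⟩ := hf s.1 (nonZeroDivisors.ne_zero s.2)
      obtain ⟨u, rfl⟩ := hgu
      refine ⟨j, ((u⁻¹ : Rˣ) : R) * r, ?_⟩
      have h1 : (OreLocalization.numeratorRingHom : R →+* OreLocalization (nonZeroDivisors R) R)
          s.1 * (OreLocalization.oreDiv r s) = OreLocalization.numeratorRingHom r :=
        OreLocalization.mul_cancel (r := r) (s := s) (t := 1)
      rw [hge, map_mul, map_pow, map_ofNat] at h1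
      rw [map_mul, ← h1, of_comm j (OreLocalization.numeratorRingHom (u : R)),
        mul_assoc (OreLocalization.numeratorRingHom (u : R)),
        ← mul_assoc (OreLocalization.numeratorRingHom ((u⁻¹ : Rˣ) : R)), ← map_mul,
        Units.inv_mul, map_one, one_mul]

private theorem of_nontrivial : Nontrivial (Ob V) := (res (V := V)).domain_nontrivial

private theorem of_charZero : CharZero (Ob V) := by
  refine charZero_of_inj_zero fun n hn => ?_
  by_contra h0
  have h1 : ∀ k : ℕ, ((n : Ob V)).1 k = (n : MN (ZMod (2 ^ k)) V) := fun k => rfl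
  have h2 := h1 n
  rw [hn] at h2
  have h3 : ((n : MN (ZMod (2 ^ n)) V)).cf 1 = (n : ZMod (2 ^ n)) := by
    have h4 := map_nsmul (cfHom (R := ZMod (2 ^ n)) (1 : V)) n 1
    have h5 : cfHom (R := ZMod (2 ^ n)) (1 : V) 1 = 1 := by
      show (1 : MN (ZMod (2 ^ n)) V).cf 1 = 1
      rw [one_cf, if_pos rfl]
    rw [h5, nsmul_one, nsmul_one] at h4
    exact h4
  rw [← h2] at h3
  have h6 : ((n : ℕ) : ZMod (2 ^ n)) = 0 := h3.symm
  rw [ZMod.natCast_eq_zero_iff] at h6
  exact absurd (Nat.le_of_dvd (Nat.pos_of_ne_zero h0) h6) (not_le.mpr Nat.lt_two_pow_self)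

/-- A division ring with an embedding of `Ob V`, in which every element is `2 ^ (-j) f`. -/
theorem exists_K0 : ∃ (E : Type) (_ : DivisionRing E) (_ : CharZero E) (ι : Ob V →+* E),
    Function.Injective ι ∧ ∀ x : E, ∃ (j : ℕ) (f : Ob V), 2 ^ j * x = ι f := by
  have h1 := of_nontrivial V
  have h2 := of_charZero V
  refine of_abs (fun f => ob_two f) fun f hf => ?_
  obtain ⟨j, g, hg, hfg⟩ := ob_factor f hf
  exact ⟨j, g, ob_isUnit g hg, hfg⟩

variable {V}

/-- The embedding of the group in the units. -/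
noncomputable def obU {E : Type} [DivisionRing E] (ι : Ob V →+* E) : V →* Eˣ where
  toFun v := ⟨ι (obS v 1), ι (obS v⁻¹ 1),
    by rw [← map_mul, obS_mul, mul_inv_cancel, mul_one, obS_one, map_one],
    by rw [← map_mul, obS_mul, inv_mul_cancel, mul_one, obS_one, map_one]⟩
  map_one' := Units.ext (by
    show ι (obS 1 1) = 1
    rw [obS_one, map_one])
  map_mul' v w := Units.ext (by
    show ι (obS (v * w) 1) = ι (obS v 1) * ι (obS w 1)
    rw [← map_mul, obS_mul, mul_one])

/-- all components of `f` have support in `S` -/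
private def OfP (S : Subgroup V) (f : Ob V) : Prop := ∀ k, f.1 k ∈ MN.sub (ZMod (2 ^ k)) S

private theorem ofP_pow (S : Subgroup V) (j : ℕ) : OfP S (2 ^ j : Ob V) := by
  intro k
  have h1 : ((2 ^ j : Ob V)).1 k = (2 : MN (ZMod (2 ^ k)) V) ^ j := rfl
  rw [h1]
  exact pow_mem (by exact_mod_cast natCast_mem (MN.sub (ZMod (2 ^ k)) S) 2) j

private theorem ofP_mul {S : Subgroup V} {f g : Ob V} (hf : OfP S f) (hg : OfP S g) :
    OfP S (f * g) := fun k => mul_mem (hf k) (hg k)

private theorem ofP_add {S : Subgroup V} {f g : Ob V} (hf : OfP S f) (hg : OfP S g) :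
    OfP S (f + g) := fun k => add_mem (hf k) (hg k)

private theorem ofP_neg {S : Subgroup V} {f : Ob V} (hf : OfP S f) :
    OfP S (-f) := fun k => neg_mem (hf k)

private theorem ofP_inv {S : Subgroup V} {f g : Ob V} (hf : OfP S f) (h1 : f * g = 1)
    (h2 : g * f = 1) : OfP S g := fun k =>
  MN.inv_mem_sub (hf k) (congrArg (fun x : Ob V => x.1 k) h1) (congrArg (fun x : Ob V => x.1 k) h2)

/-- componentwise restriction -/
private noncomputable def ofR (S : Subgroup V) (f : Ob V) : Ob V :=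
  ⟨fun k => rst (S : Set V) (f.1 k), fun k => by
    show mapR (redZ k) (rst (S : Set V) (f.1 (k + 1))) = rst (S : Set V) (f.1 k)
    rw [← f.2 k]
    refine MN.ext (funext fun v => ?_)
    rw [mapR_cf, rst_cf, rst_cf]
    by_cases hv : v ∈ (S : Set V)
    · rw [Set.indicator_of_mem hv, Set.indicator_of_mem hv, mapR_cf]
    · rw [Set.indicator_of_notMem hv, Set.indicator_of_notMem hv, map_zero]⟩

private theorem ofP_div {S : Subgroup V} {g : Ob V} (j : ℕ) (h : OfP S (2 ^ j * g)) : OfP S g := by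
  have h1 : 2 ^ j * ofR S g = 2 ^ j * g := by
    refine Subtype.ext (funext fun k => ?_)
    show (2 ^ j : Ob V).1 k * rst (S : Set V) (g.1 k) = (2 ^ j * g : Ob V).1 k
    rw [← rst_mul S (ofP_pow S j k) (g.1 k)]
    exact rst_eq_self.mpr (h k)
  have h2 : 2 ^ j * (ofR S g - g) = 0 := by rw [mul_sub, h1, sub_self]
  have h3 : ofR S g = g := sub_eq_zero.mp (of_two_pow (fun f => ob_two f) j _ h2)
  intro k
  rw [← rst_eq_self]
  exact congrArg (fun x : Ob V => x.1 k) h3

private theorem of_two_ne {E : Type} [DivisionRing E] (ι : Ob V →+* E)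
    (hι : Function.Injective ι) (j : ℕ) : (2 : E) ^ j ≠ 0 := by
  have hn := of_nontrivial V
  intro h
  have h1 : ι (2 ^ j) = ι 0 := by rw [map_pow, map_ofNat, map_zero, h]
  have h2 := hι h1
  have h3 : (2 : Ob V) ^ j * 1 = 0 := by rw [mul_one, h2]
  exact one_ne_zero (of_two_pow (fun f => ob_two f) j 1 h3)

/-- the division subring of the elements with support in `S` -/
private def ofE {E : Type} [DivisionRing E] (ι : Ob V →+* E) (hι : Function.Injective ι)
    (S : Subgroup V) : Subfield E where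
  carrier := {x | ∃ (j : ℕ) (f : Ob V), OfP S f ∧ 2 ^ j * x = ι f}
  mul_mem' := by
    rintro x y ⟨j, f, hf, hx⟩ ⟨l, g, hg, hy⟩
    refine ⟨j + l, f * g, ofP_mul hf hg, ?_⟩
    rw [map_mul, ← hx, ← hy, pow_add, mul_assoc (2 ^ j), mul_assoc (2 ^ j), ← mul_assoc x,
      ← of_comm l x, mul_assoc]
  one_mem' := ⟨0, 1, by
    have h1 := ofP_pow S 0
    rwa [pow_zero] at h1, by rw [pow_zero, one_mul, map_one]⟩
  add_mem' := by
    rintro x y ⟨j, f, hf, hx⟩ ⟨l, g, hg, hy⟩
    refine ⟨j + l, 2 ^ l * f + 2 ^ j * g, ofP_add (ofP_mul (ofP_pow S l) hf)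
      (ofP_mul (ofP_pow S j) hg), ?_⟩
    rw [map_add, map_mul, map_mul, map_pow, map_pow, map_ofNat, ← hx, ← hy, mul_add,
      ← mul_assoc, ← mul_assoc, ← pow_add, ← pow_add, add_comm l j]
  zero_mem' := ⟨0, 0, fun k => zero_mem _, by rw [mul_zero, map_zero]⟩
  neg_mem' := by
    rintro x ⟨j, f, hf, hx⟩
    exact ⟨j, -f, ofP_neg hf, by rw [mul_neg, hx, map_neg]⟩
  inv_mem' := by
    rintro x ⟨j, f, hf, hx⟩
    by_cases hx0 : x = 0
    · rw [hx0, inv_zero]
      exact ⟨0, 0, fun k => zero_mem _, by rw [mul_zero, map_zero]⟩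
    · have hf0 : f ≠ 0 := by
        intro h0
        rw [h0, map_zero] at hx
        exact (mul_ne_zero (of_two_ne ι hι j) hx0) hx
      obtain ⟨i, g, hg, hfg⟩ := ob_factor f hf0
      obtain ⟨u, hu⟩ := ob_isUnit g hg
      have hPg : OfP S g := ofP_div i (by rw [← hfg]; exact hf)
      have hu1 : g * ((u⁻¹ : (Ob V)ˣ) : Ob V) = 1 := by rw [← hu, Units.mul_inv]
      have hu2 : ((u⁻¹ : (Ob V)ˣ) : Ob V) * g = 1 := by rw [← hu, Units.inv_mul]
      have hPu : OfP S ((u⁻¹ : (Ob V)ˣ) : Ob V) := ofP_inv hPg hu1 hu2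
      refine ⟨i, 2 ^ j * ((u⁻¹ : (Ob V)ˣ) : Ob V), ofP_mul (ofP_pow S j) hPu, ?_⟩
      have h1 : x * ι (2 ^ j * ((u⁻¹ : (Ob V)ˣ) : Ob V)) = 2 ^ i := by
        rw [map_mul, map_pow, map_ofNat, ← mul_assoc, ← of_comm j x, hx, ← map_mul, hfg,
          mul_assoc, hu1, mul_one, map_pow, map_ofNat]
      rw [of_comm i, ← h1, ← mul_assoc, inv_mul_cancel₀ hx0, one_mul]

private theorem of_DH {E : Type} [DivisionRing E] (ι : Ob V →+* E) (hι : Function.Injective ι)
    (S : Subgroup V) {x : E} (hx : x ∈ DH (obU ι) S) :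
    ∃ (j : ℕ) (f : Ob V), OfP S f ∧ 2 ^ j * x = ι f := by
  have h1 : DH (obU ι) S ≤ ofE ι hι S := by
    unfold DH
    rw [Subfield.closure_le]
    rintro y ⟨v, hv, rfl⟩
    refine ⟨0, obS v 1, ?_, by rw [pow_zero, one_mul]; rfl⟩
    intro k x hx
    show x ∈ S
    by_contra hn
    apply hx
    show (single v (((1 : ℤ)) : ZMod (2 ^ k))).cf x = 0
    exact single_ne (fun h : x = v => hn (by rw [h]; exact hv)) _
  exact h1 hx

/-- a common power of `2` -/
private theorem of_common {E : Type} [DivisionRing E] (ι : Ob V →+* E)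
    (hι : Function.Injective ι) (S : Subgroup V) (F : Finset V) (d : V → E)
    (hd : ∀ g ∈ F, d g ∈ DH (obU ι) S) :
    ∃ (J : ℕ) (f : V → Ob V), ∀ g ∈ F, OfP S (f g) ∧ 2 ^ J * d g = ι (f g) := by
  have h1 : ∀ g : V, ∃ (j : ℕ) (f : Ob V), g ∈ F → OfP S f ∧ 2 ^ j * d g = ι f := by
    intro g
    by_cases hg : g ∈ F
    · obtain ⟨j, f, h1, h2⟩ := of_DH ι hι S (hd g hg)
      exact ⟨j, f, fun _ => ⟨h1, h2⟩⟩
    · exact ⟨0, 0, fun h => absurd h hg⟩
  choose j f hf using h1
  refine ⟨F.sum j, fun g => 2 ^ (F.sum j - j g) * f g, fun g hg => ?_⟩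
  obtain ⟨h1, h2⟩ := hf g hg
  refine ⟨ofP_mul (ofP_pow S _) h1, ?_⟩
  have h3 : j g ≤ F.sum j := Finset.single_le_sum (fun _ _ => Nat.zero_le _) hg
  rw [map_mul, map_pow, map_ofNat, ← h2, ← mul_assoc, ← pow_add, Nat.sub_add_cancel h3]

theorem feb_K0 {E : Type} [DivisionRing E] (ι : Ob V →+* E) (hι : Function.Injective ι)
    (h : ∀ x : E, ∃ (j : ℕ) (f : Ob V), 2 ^ j * x = ι f) : FEb (obU ι) := by
  constructor
  · intro S F d hF hd hsum g₀ hg₀
    obtain ⟨J, f, hf⟩ := of_common ι hι S F d hd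
    have h1 : ι (∑ g ∈ F, obS g 1 * f g) = ι 0 := by
      rw [map_zero, map_sum]
      have h2 : ∀ g ∈ F, ι (obS g 1 * f g) = 2 ^ J * (((obU ι g : Eˣ) : E) * d g) := by
        intro g hg
        rw [map_mul, ← (hf g hg).2, ← mul_assoc, ← mul_assoc, of_comm J ((obU ι g : Eˣ) : E)]
        rfl
      rw [Finset.sum_congr rfl h2, ← Finset.mul_sum, hsum, mul_zero]
    have h2 := hι h1
    have h3 : f g₀ = 0 := by
      refine Subtype.ext (funext fun k => MN.ext (funext fun v => ?_))
      show ((f g₀).1 k).cf v = 0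
      by_contra hne
      have hv : v ∈ S := (hf g₀ hg₀).1 k v hne
      have h4 : (∑ g ∈ F, obS g 1 * f g : Ob V).1 k = ∑ g ∈ F, (obS g 1).1 k * (f g).1 k := by
        have h5 : ((Ob V).subtype (∑ g ∈ F, obS g 1 * f g)) k =
            ∑ g ∈ F, ((Ob V).subtype (obS g 1 * f g)) k := by
          rw [map_sum, Finset.sum_apply]
        exact h5
      rw [h2] at h4
      have h5 := congrArg (fun x : MN (ZMod (2 ^ k)) V => x.cf (g₀ * v)) h4
      rw [sum_cf] at h5
      have h6 : ∀ g ∈ F, g ≠ g₀ → ((obS g 1).1 k * (f g).1 k).cf (g₀ * v) = 0 := by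
        intro g hg hgn
        show (single g (((1 : ℤ)) : ZMod (2 ^ k)) * (f g).1 k).cf (g₀ * v) = 0
        rw [single_mul_cf]
        have h7 : ((f g).1 k).cf (g⁻¹ * (g₀ * v)) = 0 := by
          by_contra h8
          have h9 : g⁻¹ * (g₀ * v) ∈ S := (hf g hg).1 k _ h8
          rw [← mul_assoc] at h9
          exact hgn (hF g hg g₀ hg₀ ((S.mul_mem_cancel_right hv).mp h9))
        rw [h7, mul_zero]
      rw [Finset.sum_eq_single_of_mem g₀ hg₀ h6] at h5
      have h7 : ((obS g₀ 1).1 k * (f g₀).1 k).cf (g₀ * v) = ((f g₀).1 k).cf v := by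
        show (single g₀ (((1 : ℤ)) : ZMod (2 ^ k)) * (f g₀).1 k).cf (g₀ * v) = _
        rw [single_mul_cf, inv_mul_cancel_left, Int.cast_one, one_mul]
      rw [h7] at h5
      exact hne h5.symm
    have h4 := (hf g₀ hg₀).2
    rw [h3, map_zero] at h4
    exact (mul_eq_zero.mp h4).resolve_left (of_two_ne ι hι J)
  · intro S F d hF hd hsum g₀ hg₀
    obtain ⟨J, f, hf⟩ := of_common ι hι S F d hd
    have h1 : ι (∑ g ∈ F, f g * obS g 1) = ι 0 := by
      rw [map_zero, map_sum]
      have h2 : ∀ g ∈ F, ι (f g * obS g 1) = 2 ^ J * (d g * ((obU ι g : Eˣ) : E)) := by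
        intro g hg
        rw [map_mul, ← (hf g hg).2, mul_assoc]
        rfl
      rw [Finset.sum_congr rfl h2, ← Finset.mul_sum, hsum, mul_zero]
    have h2 := hι h1
    have h3 : f g₀ = 0 := by
      refine Subtype.ext (funext fun k => MN.ext (funext fun v => ?_))
      show ((f g₀).1 k).cf v = 0
      by_contra hne
      have hv : v ∈ S := (hf g₀ hg₀).1 k v hne
      have h4 : (∑ g ∈ F, f g * obS g 1 : Ob V).1 k = ∑ g ∈ F, (f g).1 k * (obS g 1).1 k := by
        have h5 : ((Ob V).subtype (∑ g ∈ F, f g * obS g 1)) k =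
            ∑ g ∈ F, ((Ob V).subtype (f g * obS g 1)) k := by
          rw [map_sum, Finset.sum_apply]
        exact h5
      rw [h2] at h4
      have h5 := congrArg (fun x : MN (ZMod (2 ^ k)) V => x.cf (v * g₀)) h4
      rw [sum_cf] at h5
      have h6 : ∀ g ∈ F, g ≠ g₀ → ((f g).1 k * (obS g 1).1 k).cf (v * g₀) = 0 := by
        intro g hg hgn
        show ((f g).1 k * single g (((1 : ℤ)) : ZMod (2 ^ k))).cf (v * g₀) = 0
        rw [mul_single_cf]
        have h7 : ((f g).1 k).cf (v * g₀ * g⁻¹) = 0 := by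
          by_contra h8
          have h9 : v * g₀ * g⁻¹ ∈ S := (hf g hg).1 k _ h8
          rw [mul_assoc] at h9
          exact hgn (hF g hg g₀ hg₀ ((S.mul_mem_cancel_left hv).mp h9))
        rw [h7, zero_mul]
      rw [Finset.sum_eq_single_of_mem g₀ hg₀ h6] at h5
      have h7 : ((f g₀).1 k * (obS g₀ 1).1 k).cf (v * g₀) = ((f g₀).1 k).cf v := by
        show ((f g₀).1 k * single g₀ (((1 : ℤ)) : ZMod (2 ^ k))).cf (v * g₀) = _
        rw [mul_single_cf, mul_inv_cancel_right, Int.cast_one, mul_one]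
      rw [h7] at h5
      exact hne h5.symm
    have h4 := (hf g₀ hg₀).2
    rw [h3, map_zero] at h4
    exact (mul_eq_zero.mp h4).resolve_left (of_two_ne ι hι J)

end SingerBO
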