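import Mathlib
import Pool.Agent.Lib_MP_394d50_bo.OField
import Pool.Agent.Lib_MP_394d50_bo.OFeb

/-!
# Piece OPAIR: the two free embeddings of a bi-ordered group, in characteristic 2 and 0 (about 200 lines)

`exists_pair_ord`: `D1` from `feb_mn` for `R = ZMod 2` and `fe_sub`; `D0` from `exists_K0`, `feb_K0`, `fe_sub`
(`CharP`, `CharZero` of the subfields: `1` and the natural numbers are the same as in the big ring). The lifting
property: let `Y` be a right inverse of `ev t1 T` over `D1 ⊆ MN (ZMod 2) V`. By `right_inverse` over `D0` it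
suffices: `c : I → D0` with `∑ i, c i * ev t0 (T i j) = 0` for all `j` is zero. Suppose not. In `E0` multiply `c` by
a power of `2` (positive or negative): by `exists_K0` there are `j₀` and `f i : Ob V` with `2 ^ j₀ * c i = ι (f i)`
(first `j₀` depending on `i`, then the sum of all of them), and by `ob_factor` `f i = 0` or
`f i = 2 ^ (j i) * g i` with `res (g i) ≠ 0`; divide by `2 ^ (min j i)`: there are
`f' i : Ob V` with `∑ i, ι (f' i) * ev t0 (T i j) = 0` (`2` is central) and `res (f' i) ≠ 0` for some `i`. (Or: choose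
`(j₀, f)` with `f ≠ 0` and the sum of the exponents minimal; or divide by `2` as long as possible.) Here
`ev t0 (T i j) = ι (∑ x ∈ (T i j).support, obS x (T i j x))` (as `obS x n = n * obS x 1`), so by the injectivity of
`ι` the sum `∑ i, f' i * (∑ x, obS x (T i j x))` is zero; apply `res`: `∑ i, res (f' i) * ev t1 (T i j) = 0` in
`MN (ZMod 2) V` (`res_obS`). Multiply by `Y j i'` on the right and sum over `j`: `res (f' i') = 0` for all `i'`.
-/

namespace SingerBO

open MN

/-- The value of an element of the integral group ring. -/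
def ev {G D : Type} [Group G] [DivisionRing D] (t : G →* Dˣ) (f : G →₀ ℤ) : D :=
  f.sum fun x n => (n : D) * ((t x : Dˣ) : D)

/-- Right invertible integral matrices for `t1` are right invertible for `t0`. -/
def LiftP {G D1 D0 : Type} [Group G] [DivisionRing D1] [DivisionRing D0] (t1 : G →* D1ˣ)
    (t0 : G →* D0ˣ) : Prop :=
  ∀ (I J : Type) [Fintype I] [Fintype J] [DecidableEq I] (T : I → J → G →₀ ℤ),
    (∃ Y : J → I → D1, ∀ i i', ∑ j, ev t1 (T i j) * Y j i' = if i = i' then 1 else 0) →
    ∃ Y : J → I → D0, ∀ i i', ∑ j, ev t0 (T i j) * Y j i' = if i = i' then 1 else 0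

/-- The integers in the 2-adic series. -/
private noncomputable def intHom (V : Type) [Group V] [LinearOrder V] [MulLeftMono V]
    [MulRightMono V] : ℤ →+* Ob V where
  toFun c := obS 1 c
  map_one' := obS_one
  map_mul' c d := by
    show obS 1 (c * d) = obS 1 c * obS 1 d
    rw [obS_mul, one_mul]
  map_zero' := by
    refine Subtype.ext (funext fun k => ?_)
    show single (1 : V) (((0 : ℤ)) : ZMod (2 ^ k)) = 0
    rw [Int.cast_zero, single_zero]
  map_add' c d := by
    refine Subtype.ext (funext fun k => ?_)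
    show single (1 : V) (((c + d : ℤ)) : ZMod (2 ^ k)) =
      single (1 : V) ((c : ℤ) : ZMod (2 ^ k)) + single (1 : V) ((d : ℤ) : ZMod (2 ^ k))
    rw [Int.cast_add, single_add]

section

variable {V : Type} [Group V] [LinearOrder V] [MulLeftMono V] [MulRightMono V]

private theorem obS_int (v : V) (n : ℤ) : obS v n = (n : Ob V) * obS v 1 := by
  rw [← eq_intCast (intHom V) n]
  show obS v n = obS 1 n * obS v 1
  rw [obS_mul, one_mul, mul_one]

/-- The value in the ring of the 2-adic series. -/
private noncomputable def evO (f : V →₀ ℤ) : Ob V := f.sum fun x n => obS x n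

private theorem ev_obU {E : Type} [DivisionRing E] (ι : Ob V →+* E) (f : V →₀ ℤ) :
    ev (obU ι) f = ι (evO f) := by
  unfold ev evO
  rw [Finsupp.sum, Finsupp.sum, map_sum]
  refine Finset.sum_congr rfl fun x _ => ?_
  rw [obS_int, map_mul, map_intCast]
  rfl

private theorem ev_mnU (f : V →₀ ℤ) : ev (mnU (ZMod 2) V) f = res (evO f) := by
  unfold ev evO
  rw [Finsupp.sum, Finsupp.sum, map_sum]
  refine Finset.sum_congr rfl fun x _ => ?_
  rw [obS_int, map_mul, map_intCast, res_obS, Int.cast_one]
  rfl

private theorem two_mn {R : Type} [DivisionRing R] (h : (1 + 1 : R) = 0) :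
    (2 : MN R V) = 0 := by
  rw [← one_add_one_eq_two, ← single_one_one, ← single_add, h, single_zero]

private theorem ob_two_pow (k : ℕ) (f : Ob V) (h : 2 ^ k * f = 0) : f = 0 := by
  induction k with
  | zero => rwa [pow_zero, one_mul] at h
  | succ k ih =>
    refine ih (ob_two _ ?_)
    rw [← mul_assoc, ← pow_succ']
    exact h

/-- The value in the division subring. -/
private theorem ev_sub {G E : Type} [Group G] [DivisionRing E] (t : G →* Eˣ)
    (t' : G →* (DH t ⊤)ˣ)
    (ht : ∀ g, (((t' g : (DH t ⊤)ˣ) : DH t ⊤) : E) = ((t g : Eˣ) : E)) (f : G →₀ ℤ) :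
    ((ev t' f : DH t ⊤) : E) = ev t f := by
  unfold ev
  rw [Finsupp.sum, Finsupp.sum]
  show (DH t ⊤).subtype _ = _
  rw [map_sum]
  refine Finset.sum_congr rfl fun x _ => ?_
  rw [map_mul, map_intCast]
  show _ * (((t' x : (DH t ⊤)ˣ) : DH t ⊤) : E) = _
  rw [ht]

/-- Common denominators. -/
private theorem common_den {E I : Type} [DivisionRing E] [Fintype I] (ι : Ob V →+* E)
    (hE : ∀ x : E, ∃ (j : ℕ) (f : Ob V), 2 ^ j * x = ι f) (c : I → E) :
    ∃ (j : ℕ) (f : I → Ob V), ∀ i, 2 ^ j * c i = ι (f i) := by
  choose j f hf using fun i => hE (c i)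
  refine ⟨∑ i, j i, fun i => 2 ^ ((∑ i, j i) - j i) * f i, fun i => ?_⟩
  rw [map_mul, ← hf, map_pow, map_ofNat, ← mul_assoc, ← pow_add]
  congr 2
  exact (Nat.sub_add_cancel (Finset.single_le_sum (fun _ _ => Nat.zero_le _)
    (Finset.mem_univ i))).symm

/-- Division by the largest common power of 2. -/
private theorem common_fac {I : Type} [Fintype I] (f : I → Ob V) (hf : f ≠ 0) :
    ∃ (k : ℕ) (f' : I → Ob V) (i₀ : I), res (f' i₀) ≠ 0 ∧ ∀ i, f i = 2 ^ k * f' i := by
  classical
  obtain ⟨i₁, hi₁⟩ : ∃ i, f i ≠ 0 := by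
    by_contra hn
    push Not at hn
    exact hf (funext hn)
  have hex : ∀ i, ∃ (j : ℕ) (g : Ob V), (f i ≠ 0 → res g ≠ 0) ∧ f i = 2 ^ j * g := by
    intro i
    by_cases h : f i = 0
    · exact ⟨0, 0, fun h' => absurd h h', by rw [h, mul_zero]⟩
    · obtain ⟨j, g, h1, h2⟩ := ob_factor (f i) h
      exact ⟨j, g, fun _ => h1, h2⟩
  choose j g h1 h2 using hex
  obtain ⟨i₀, hi₀, hmin⟩ := Finset.exists_min_image (Finset.univ.filter fun i => f i ≠ 0) j
    ⟨i₁, Finset.mem_filter.mpr ⟨Finset.mem_univ _, hi₁⟩⟩
  rw [Finset.mem_filter] at hi₀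
  refine ⟨j i₀, fun i => if f i = 0 then 0 else 2 ^ (j i - j i₀) * g i, i₀, ?_, ?_⟩
  · show res (if f i₀ = 0 then 0 else 2 ^ (j i₀ - j i₀) * g i₀) ≠ 0
    rw [if_neg hi₀.2, Nat.sub_self, pow_zero, one_mul]
    exact h1 i₀ hi₀.2
  · intro i
    show f i = 2 ^ j i₀ * (if f i = 0 then 0 else 2 ^ (j i - j i₀) * g i)
    by_cases h : f i = 0
    · rw [if_pos h, mul_zero]
      exact h
    · rw [if_neg h, ← mul_assoc, ← pow_add, Nat.add_sub_cancel'
        (hmin i (Finset.mem_filter.mpr ⟨Finset.mem_univ _, h⟩))]
      exact h2 i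

end

theorem exists_pair_ord (V : Type) [Group V] [LinearOrder V] [MulLeftMono V] [MulRightMono V] :
    ∃ (D1 : Type) (_ : DivisionRing D1) (_ : CharP D1 2) (t1 : V →* D1ˣ)
      (D0 : Type) (_ : DivisionRing D0) (_ : CharZero D0) (t0 : V →* D0ˣ),
      FE t1 ∧ FE t0 ∧ LiftP t1 t0 := by
  classical
  obtain ⟨t1, ht1, hF1⟩ := fe_sub (mnU (ZMod 2) V) feb_mn
  obtain ⟨E, iE, iC, ι, hι, hE⟩ := exists_K0 V
  obtain ⟨t0, ht0, hF0⟩ := fe_sub (obU ι) (feb_K0 ι hι hE)
  refine ⟨DH (mnU (ZMod 2) V) ⊤, inferInstance, ?_, t1, DH (obU ι) ⊤, inferInstance, ?_, t0,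
    hF1, hF0, ?_⟩
  · refine CharTwo.of_one_ne_zero_of_two_eq_zero one_ne_zero (Subtype.ext ?_)
    exact two_mn (V := V) (R := ZMod 2) rfl
  · refine ⟨fun m n h => ?_⟩
    have h1 := congrArg (DH (obU ι) ⊤).subtype h
    rw [map_natCast, map_natCast] at h1
    exact Nat.cast_injective h1
  · intro I J _ _ _ T hT
    obtain ⟨Y, hY⟩ := hT
    obtain ⟨B, hB⟩ := right_inverse (Matrix.of fun i j => ev t0 (T i j)) (by
      intro c hc
      by_contra hn
      obtain ⟨j₀, f, hf⟩ := common_den ι hE (fun i => (c i : E))
      have hf0 : f ≠ 0 := by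
        intro h0
        apply hn
        refine funext fun i => Subtype.ext ?_
        have h1 := hf i
        rw [h0] at h1
        have h2 : (2 : E) ^ j₀ * (c i : E) = 0 := by
          rw [h1]
          exact map_zero ι
        rcases mul_eq_zero.mp h2 with h3 | h3
        · exact absurd h3 (pow_ne_zero _ two_ne_zero)
        · exact h3
      have hs : ∀ j, ∑ i, f i * evO (T i j) = 0 := by
        intro j
        apply hι
        rw [map_zero, map_sum]
        have h1 : ∑ i, (c i : E) * ev (obU ι) (T i j) = 0 := by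
          have h2 := congrArg (DH (obU ι) ⊤).subtype (congrFun hc j)
          rw [Matrix.vecMul, dotProduct, map_sum] at h2
          rw [← h2.trans (map_zero _)]
          refine Finset.sum_congr rfl fun i _ => ?_
          rw [map_mul, ← ev_sub (obU ι) t0 ht0]
          rfl
        calc ∑ i, ι (f i * evO (T i j)) = ∑ i, 2 ^ j₀ * ((c i : E) * ev (obU ι) (T i j)) := by
              refine Finset.sum_congr rfl fun i _ => ?_
              rw [map_mul, ← hf, ev_obU, mul_assoc]
          _ = 0 := by rw [← Finset.mul_sum, h1, mul_zero]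
      obtain ⟨k, f', i₀, hi₀, hf'⟩ := common_fac f hf0
      have hs' : ∀ j, ∑ i, f' i * evO (T i j) = 0 := by
        intro j
        refine ob_two_pow k _ ?_
        rw [Finset.mul_sum, ← hs j]
        refine Finset.sum_congr rfl fun i _ => ?_
        rw [hf' i, mul_assoc]
      have hr : ∀ j, ∑ i, res (f' i) * ev (mnU (ZMod 2) V) (T i j) = 0 := by
        intro j
        have h1 := congrArg res (hs' j)
        rw [map_sum, map_zero] at h1
        rw [← h1]
        refine Finset.sum_congr rfl fun i _ => ?_
        rw [map_mul, ev_mnU]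
      have hYE : ∀ i i', ∑ j, ev (mnU (ZMod 2) V) (T i j) * (Y j i' : MN (ZMod 2) V) =
          if i = i' then 1 else 0 := by
        intro i i'
        have h1 := congrArg (DH (mnU (ZMod 2) V) ⊤).subtype (hY i i')
        rw [map_sum] at h1
        have h2 : (DH (mnU (ZMod 2) V) ⊤).subtype (if i = i' then 1 else 0) =
            if i = i' then 1 else 0 := by
          split_ifs
          · exact map_one _
          · exact map_zero _
        rw [h2] at h1
        rw [← h1]
        refine Finset.sum_congr rfl fun j _ => ?_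
        rw [map_mul, ← ev_sub (mnU (ZMod 2) V) t1 ht1]
        rfl
      apply hi₀
      calc res (f' i₀) = ∑ i, res (f' i) * (if i = i₀ then 1 else 0) := by
            rw [Finset.sum_eq_single i₀]
            · rw [if_pos rfl, mul_one]
            · intro i _ hi
              rw [if_neg hi, mul_zero]
            · intro h
              exact absurd (Finset.mem_univ _) h
        _ = ∑ i, ∑ j, res (f' i) * (ev (mnU (ZMod 2) V) (T i j) *
              (Y j i₀ : MN (ZMod 2) V)) := by
            refine Finset.sum_congr rfl fun i _ => ?_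
            rw [← hYE i i₀, Finset.mul_sum]
        _ = ∑ j, (∑ i, res (f' i) * ev (mnU (ZMod 2) V) (T i j)) *
              (Y j i₀ : MN (ZMod 2) V) := by
            rw [Finset.sum_comm]
            refine Finset.sum_congr rfl fun j _ => ?_
            rw [Finset.sum_mul]
            refine Finset.sum_congr rfl fun i _ => ?_
            rw [mul_assoc]
        _ = 0 := by
            refine Finset.sum_eq_zero fun j _ => ?_
            rw [hr j, zero_mul])
    refine ⟨B, fun i i' => ?_⟩
    have h1 := congrFun (congrFun hB i) i'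
    rw [Matrix.mul_apply, Matrix.one_apply] at h1
    exact h1

/-- The two free embeddings of a bi-orderable group. -/
theorem exists_pair {V : Type} [Group V] {r : V → V → Prop} (hr : BOrd r) :
    ∃ (D1 : Type) (_ : DivisionRing D1) (_ : CharP D1 2) (t1 : V →* D1ˣ)
      (D0 : Type) (_ : DivisionRing D0) (_ : CharZero D0) (t0 : V →* D0ˣ),
      FE t1 ∧ FE t0 ∧ LiftP t1 t0 := by
  classical
  let lo : LinearOrder V :=
    { le := fun x y => x = y ∨ r x y
      lt := r
      le_refl := fun x => Or.inl rfl
      le_trans := by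
        rintro x y z (rfl | h1) (rfl | h2)
        · exact Or.inl rfl
        · exact Or.inr h2
        · exact Or.inr h1
        · exact Or.inr (hr.trans _ _ _ h1 h2)
      lt_iff_le_not_ge := by
        intro x y
        constructor
        · intro h
          refine ⟨Or.inr h, ?_⟩
          rintro (rfl | h2)
          · exact hr.irrefl _ h
          · exact hr.irrefl _ (hr.trans _ _ _ h h2)
        · rintro ⟨rfl | h, h2⟩
          · exact absurd (Or.inl rfl) h2
          · exact h
      le_antisymm := by
        rintro x y (rfl | h1) (h | h2)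
        · rfl
        · rfl
        · exact h.symm
        · exact absurd (hr.trans _ _ _ h1 h2) (hr.irrefl _)
      le_total := by
        intro x y
        by_cases h : x = y
        · exact Or.inl (Or.inl h)
        · rcases hr.total x y h with h1 | h1
          · exact Or.inl (Or.inr h1)
          · exact Or.inr (Or.inr h1)
      toDecidableLE := Classical.decRel _ }
  have : MulLeftMono V := ⟨by
    rintro g x y (rfl | h)
    · exact Or.inl rfl
    · exact Or.inr (hr.left g _ _ h)⟩
  have : MulRightMono V := ⟨by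
    rintro g x y (rfl | h)
    · exact Or.inl rfl
    · exact Or.inr (hr.right g _ _ h)⟩
  exact exists_pair_ord V

end SingerBO
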