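import Mathlib
import Pool.Agent.Lib_MP_394d50_cub.Defs
import Pool.Agent.Lib_MP_394d50_cub.ETr
import Pool.Agent.Lib_MP_394d50_cub.ERk
import Pool.Agent.Lib_MP_394d50_bo.OPair

/-!
# Square summable functions on `G × I` and the right multiplication by matrices over `ℤ[G]`
-/

namespace SingerBO

open SingerVS SingerCub

/-! ## Pull back and push forward along injective maps -/

section

variable {C C' : Type}

theorem memlp_comp (f : C → C') (hf : Function.Injective f) (z : L2 C') :
    Memℓp (fun c => z (f c)) 2 := by
  have h0 : (0 : ℝ) < (2 : ENNReal).toReal := by norm_num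
  rw [memℓp_gen_iff h0]
  have h1 := (memℓp_gen_iff h0).mp z.2
  exact h1.comp_injective hf

theorem norm_comp_le (f : C → C') (hf : Function.Injective f) (z : L2 C') :
    ‖(⟨fun c => z (f c), memlp_comp f hf z⟩ : L2 C)‖ ≤ ‖z‖ := by
  have h0 : (0 : ℝ) < (2 : ENNReal).toReal := by norm_num
  rw [lp.norm_eq_tsum_rpow h0, lp.norm_eq_tsum_rpow h0]
  refine Real.rpow_le_rpow (tsum_nonneg fun c => by positivity) ?_ (by positivity)
  have h1 := (memℓp_gen_iff h0).mp z.2
  exact tsum_comp_le_tsum_of_inj h1 (fun c => by positivity) hf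

/-- `(pull f z) c = z (f c)`. -/
noncomputable def pull (f : C → C') (hf : Function.Injective f) : L2 C' →L[ℝ] L2 C :=
  LinearMap.mkContinuous
    { toFun := fun z => ⟨fun c => z (f c), memlp_comp f hf z⟩
      map_add' := fun a b => rfl
      map_smul' := fun r a => rfl } 1 fun z => by
    rw [one_mul]
    exact norm_comp_le f hf z

theorem pull_apply (f : C → C') (hf : Function.Injective f) (z : L2 C') (c : C) :
    (pull f hf z) c = z (f c) := rfl

theorem pull_delta (f : C → C') (hf : Function.Injective f) (c : C) :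
    pull f hf (delta (f c)) = delta c := by
  apply l2_ext
  intro c'
  rw [pull_apply]
  by_cases h : c' = c
  · rw [h, delta_self, delta_self]
  · rw [delta_ne h, delta_ne fun e => h (hf e)]

theorem pull_delta_ne (f : C → C') (hf : Function.Injective f) {c' : C'} (h : ∀ c, f c ≠ c') :
    pull f hf (delta c') = 0 := by
  apply l2_ext
  intro c
  rw [pull_apply, delta_ne (h c)]
  rfl

/-- `(push f w) (f c) = w c`, and `0` outside the image of `f`. -/
noncomputable def push (f : C → C') (hf : Function.Injective f) : L2 C →L[ℝ] L2 C' :=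
  ContinuousLinearMap.adjoint (pull f hf)

theorem push_apply (f : C → C') (hf : Function.Injective f) (w : L2 C) (c : C) :
    (push f hf w) (f c) = w c := by
  rw [← delta_inner (f c), push, ContinuousLinearMap.adjoint_inner_right, pull_delta, delta_inner]

theorem push_apply_ne (f : C → C') (hf : Function.Injective f) (w : L2 C) {c' : C'}
    (h : ∀ c, f c ≠ c') : (push f hf w) c' = 0 := by
  rw [← delta_inner c', push, ContinuousLinearMap.adjoint_inner_right, pull_delta_ne f hf h,
    inner_zero_left]

theorem pull_push (f : C → C') (hf : Function.Injective f) (w : L2 C) :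
    pull f hf (push f hf w) = w := by
  apply l2_ext
  intro c
  rw [pull_apply, push_apply]

theorem push_pull (f : C → C') (hf : Function.Injective f) (z : L2 C')
    (hz : ∀ c', (∀ c, f c ≠ c') → z c' = 0) : push f hf (pull f hf z) = z := by
  apply l2_ext
  intro c'
  by_cases h : ∀ c, f c ≠ c'
  · rw [push_apply_ne f hf _ h, hz c' h]
  · push Not at h
    obtain ⟨c, rfl⟩ := h
    rw [push_apply, pull_apply]

theorem push_delta (f : C → C') (hf : Function.Injective f) (c : C) :
    push f hf (delta c) = delta (f c) := by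
  apply l2_ext
  intro c'
  by_cases h : ∀ d, f d ≠ c'
  · rw [push_apply_ne f hf _ h, delta_ne (h c).symm]
  · push Not at h
    obtain ⟨d, rfl⟩ := h
    rw [push_apply]
    by_cases h2 : d = c
    · rw [h2, delta_self, delta_self]
    · rw [delta_ne h2, delta_ne fun e => h2 (hf e)]

theorem adjoint_push (f : C → C') (hf : Function.Injective f) :
    ContinuousLinearMap.adjoint (push f hf) = pull f hf := by
  unfold push
  rw [ContinuousLinearMap.adjoint_adjoint]

end

/-- The operator commutes with the action. -/
def Eqv2 (H : Type) [Group H] {C C' : Type} [MulAction H C] [MulAction H C']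
    (T : L2 C →L[ℝ] L2 C') : Prop :=
  ∀ (h : H) (z : L2 C), T (shift h z) = shift h (T z)

theorem eqv2_pull {H C C' : Type} [Group H] [MulAction H C] [MulAction H C'] (f : C → C')
    (hf : Function.Injective f) (he : ∀ (h : H) c, f (h • c) = h • f c) :
    Eqv2 H (pull f hf) := by
  intro h z
  apply l2_ext
  intro c
  rw [pull_apply, shift_apply, shift_apply, pull_apply, he]

theorem shift_inner {H C : Type} [Group H] [MulAction H C] (h : H) (x y : L2 C) :
    inner ℝ (shift h x) y = inner ℝ x (shift h⁻¹ y) := by
  have e : shift h (shift h⁻¹ y) = y := by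
    apply l2_ext
    intro c
    rw [shift_apply, shift_apply, inv_inv, smul_inv_smul]
  conv_lhs => rw [← e]
  exact (shift h).inner_map_map x (shift h⁻¹ y)

theorem Eqv2.adjoint {H C C' : Type} [Group H] [MulAction H C] [MulAction H C']
    {T : L2 C →L[ℝ] L2 C'} (hT : Eqv2 H T) : Eqv2 H (ContinuousLinearMap.adjoint T) := by
  intro h z
  refine ext_inner_right ℝ fun w => ?_
  rw [ContinuousLinearMap.adjoint_inner_left, shift_inner, shift_inner,
    ContinuousLinearMap.adjoint_inner_left, hT]

theorem eqv2_push {H C C' : Type} [Group H] [MulAction H C] [MulAction H C'] (f : C → C')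
    (hf : Function.Injective f) (he : ∀ (h : H) c, f (h • c) = h • f c) :
    Eqv2 H (push f hf) := (eqv2_pull f hf he).adjoint

theorem Eqv2.comp {H C C' C'' : Type} [Group H] [MulAction H C] [MulAction H C']
    [MulAction H C''] {S : L2 C' →L[ℝ] L2 C''} {T : L2 C →L[ℝ] L2 C'} (hS : Eqv2 H S)
    (hT : Eqv2 H T) : Eqv2 H (S.comp T) := fun h z => by
  show S (T (shift h z)) = shift h (S (T z))
  rw [hT, hS]

/-! ## Right multiplication by matrices over the integral group ring -/

section

variable {G : Type} [Group G]

/-- The product of a row vector on `G × I` with a matrix over `ℤ[G]`. -/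
def rm {I J : Type} [Fintype I] (w : G × I → ℝ) (T : I → J → G →₀ ℤ) (c : G × J) : ℝ :=
  ∑ i, (T i c.2).sum fun x n => (n : ℝ) * w (c.1 * x⁻¹, i)

/-- `w * T = 0 → w * u = 0`, for the square summable `w` with support in `S`. -/
def KerLe {I J : Type} [Fintype I] (S : Set G) (T : I → J → G →₀ ℤ) (u : I → G →₀ ℤ) : Prop :=
  ∀ w : L2 (G × I), (∀ c, c.1 ∉ S → w c = 0) → (∀ c, rm (w : G × I → ℝ) T c = 0) →
    ∀ g, rm (w : G × I → ℝ) (fun i (_ : Unit) => u i) (g, ()) = 0

end

/-! ## The actions on `K × I` and on the levels -/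

/-- The action on the first factor. -/
abbrev actL (K I : Type) [Group K] : MulAction K (K × I) where
  smul g c := (g * c.1, c.2)
  one_smul _ := Prod.ext (one_mul _) rfl
  mul_smul _ _ _ := Prod.ext (mul_assoc _ _ _) rfl

/-- The elements of `K × I` whose first component has its degree in `E`. -/
abbrev Lev {K : Type} (χ : K → ℤ) (E : Finset ℤ) (I : Type) : Type := {c : K × I // χ c.1 ∈ E}

theorem Chi.mul_ker {K : Type} [Group K] {H N : Subgroup K} {χ : K → ℤ} {s : K}
    (hc : Chi H N χ s) {n g : K} (hn : n ∈ N) (hg : g ∈ H) : χ (n * g) = χ g := by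
  rw [hc.mul n (hc.le hn) g hg, hc.zero hn, zero_add]

/-- The action of the kernel on the levels. -/
abbrev levAct {K : Type} [Group K] {N : Subgroup K} {χ : K → ℤ} {s : K} (hc : Chi ⊤ N χ s)
    (E : Finset ℤ) (I : Type) : MulAction N (Lev χ E I) where
  smul n c := ⟨((n : K) * c.1.1, c.1.2), by
    show χ ((n : K) * c.1.1) ∈ E
    rw [hc.mul_ker n.2 (Subgroup.mem_top _)]
    exact c.2⟩
  one_smul _ := Subtype.ext (Prod.ext (one_mul _) rfl)
  mul_smul _ _ _ := Subtype.ext (Prod.ext (mul_assoc _ _ _) rfl)

end SingerBO
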