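import Mathlib
import Pool.Agent.Lib_MP_394d50_bo.RDefs

/-!
# Piece RLEV: traces on the levels; right multiplication as a bounded operator (about 250 lines)

* `exists_rmop`: a finite sum of operators of the form: `z ↦ (c ↦ if c.2 = j then z (c.1 * x⁻¹, i) else 0)`. For instance
  `push (fun g => (g, j)) ∘ R x ∘ pull (fun g => (g, i))` with `R x = pull (fun g => g * x⁻¹) : L2 G → L2 G`, times the integer
  coefficient, summed over `i`, `j` (finite types) and `x` in the support of `T i j`. Equivariance: each factor is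
  equivariant, or directly from the formula (`shift_apply`, `h⁻¹ • (g * x⁻¹, i) = ((h⁻¹ * g) * x⁻¹, i)`).
* `fo_actL`: free; the orbits are in bijection with `I` (`(g, i) = g • (1, i)`).
* `fo_lev`: free; every `(g, i)` with `a = χ g ∈ E` is `(g * s ^ (-a)) • (s ^ a, i)`, `g * s ^ (-a) ∈ N` (`Chi.mul_zpow_mem`);
  the orbit determines `a` and `i`.
* `card_lev`: the orbits are in bijection with `E × I` by the preceding remark.
* `lev_trace`: the diagonal coefficient of the compression at `(g, i)` is that of `P` at `(g, i)` (`push_delta`, `pull`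
  against `delta`), which by equivariance of `P` is `p i`, the coefficient of `P` at `(1, i)`. So both traces are sums over the
  orbits of `p` of the second component (well-defined); `tr K P = ∑ i, p i`, and on the levels every `i` occurs
  `E.card` times. (`finsum_eq_of_bijective`, `Fintype.sum_equiv`; the representatives `o.out` are arbitrary elements of the
  orbit: their second components are what one expects.)
-/

namespace SingerBO

open SingerVS SingerCub

/-! ### Right multiplication -/

private theorem rlev_inj_pair {G J : Type} (j : J) : Function.Injective (fun g : G => (g, j)) :=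
  fun _ _ e => congrArg Prod.fst e

private theorem rlev_inj_mul {G I : Type} [Group G] (x : G) (i : I) :
    Function.Injective (fun g : G => (g * x⁻¹, i)) :=
  fun _ _ e => mul_right_cancel (congrArg Prod.fst e)

/-- The elementary operator. -/
private noncomputable def rlevP {G I J : Type} [Group G] (x : G) (i : I) (j : J) :
    L2 (G × I) →L[ℝ] L2 (G × J) :=
  (push (fun g : G => (g, j)) (rlev_inj_pair j)).comp
    (pull (fun g : G => (g * x⁻¹, i)) (rlev_inj_mul x i))

private theorem rlevP_self {G I J : Type} [Group G] (x : G) (i : I) (j : J) (z : L2 (G × I))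
    (g : G) : (rlevP x i j z) (g, j) = z (g * x⁻¹, i) := by
  unfold rlevP
  rw [ContinuousLinearMap.comp_apply]
  have h := push_apply (fun g : G => (g, j)) (rlev_inj_pair j)
    (pull (fun g : G => (g * x⁻¹, i)) (rlev_inj_mul x i) z) g
  rw [pull_apply] at h
  exact h

private theorem rlevP_ne {G I J : Type} [Group G] (x : G) (i : I) {j j' : J} (hj : j' ≠ j)
    (z : L2 (G × I)) (g : G) : (rlevP x i j z) (g, j') = 0 := by
  unfold rlevP
  rw [ContinuousLinearMap.comp_apply]
  exact push_apply_ne _ _ _ fun g' e => hj (congrArg Prod.snd e).symm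

private theorem rlev_sum_apply {C ι : Type} (s : Finset ι) (f : ι → L2 C) (c : C) :
    ((∑ i ∈ s, f i : L2 C)) c = ∑ i ∈ s, (f i) c := by
  rw [lp.coeFn_sum, Finset.sum_apply]

private theorem rlev_smul_apply {C : Type} (r : ℝ) (f : L2 C) (c : C) :
    (r • f) c = r * f c := rfl

theorem exists_rmop {G I J : Type} [Group G] [Fintype I] [Fintype J] (T : I → J → G →₀ ℤ) :
    letI := actL G I
    letI := actL G J
    ∃ Φ : L2 (G × I) →L[ℝ] L2 (G × J), (∀ z c, (Φ z) c = rm (z : G × I → ℝ) T c) ∧
      Eqv2 G Φ := by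
  classical
  letI := actL G I
  letI := actL G J
  have hf : ∀ (z : L2 (G × I)) (c : G × J),
      ((∑ i, ∑ j, ∑ x ∈ (T i j).support, ((T i j x : ℤ) : ℝ) • rlevP x i j :
        L2 (G × I) →L[ℝ] L2 (G × J)) z) c = rm (z : G × I → ℝ) T c := by
    intro z c
    obtain ⟨g, j0⟩ := c
    rw [ContinuousLinearMap.sum_apply, rlev_sum_apply]
    unfold rm
    refine Finset.sum_congr rfl fun i _ => ?_
    rw [ContinuousLinearMap.sum_apply, rlev_sum_apply, Finset.sum_eq_single j0]
    · rw [ContinuousLinearMap.sum_apply, rlev_sum_apply, Finsupp.sum]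
      refine Finset.sum_congr rfl fun x _ => ?_
      rw [ContinuousLinearMap.smul_apply, rlev_smul_apply, rlevP_self]
    · intro j _ hj
      rw [ContinuousLinearMap.sum_apply, rlev_sum_apply]
      refine Finset.sum_eq_zero fun x _ => ?_
      rw [ContinuousLinearMap.smul_apply, rlev_smul_apply, rlevP_ne x i hj.symm, mul_zero]
    · intro h
      exact absurd (Finset.mem_univ _) h
  refine ⟨_, hf, ?_⟩
  intro h z
  apply l2_ext
  intro c
  rw [hf, shift_apply, hf]
  unfold rm
  refine Finset.sum_congr rfl fun i _ => ?_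
  have e2 : (h⁻¹ • c).2 = c.2 := rfl
  rw [e2]
  refine Finset.sum_congr rfl fun x _ => ?_
  show _ * (shift h z) (c.1 * x⁻¹, i) = _ * z ((h⁻¹ • c).1 * x⁻¹, i)
  rw [shift_apply]
  have e3 : (h⁻¹ • ((c.1 * x⁻¹, i) : G × I)) = ((h⁻¹ • c).1 * x⁻¹, i) := by
    show (h⁻¹ * (c.1 * x⁻¹), i) = (h⁻¹ * c.1 * x⁻¹, i)
    rw [mul_assoc]
  rw [e3]

variable {K I : Type} [Group K] [Fintype I] {N : Subgroup K} {χ : K → ℤ} {s : K}

/-! ### The action on the first factor -/

/-- The orbits of the action on the first factor. -/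
private theorem rlev_bijL (K I : Type) [Group K] : letI := actL K I;
    Function.Bijective (fun i : I => (Quotient.mk'' ((1 : K), i) : Orb K (K × I))) := by
  letI := actL K I
  constructor
  · intro i j e
    have e1 := Quotient.exact' e
    rw [MulAction.orbitRel_apply] at e1
    obtain ⟨g, hg⟩ := e1
    have e2 : (g * 1, j) = ((1 : K), i) := hg
    exact (congrArg Prod.snd e2).symm
  · intro o
    induction o using Quotient.inductionOn' with
    | h c =>
      refine ⟨c.2, Quotient.sound' ?_⟩
      rw [MulAction.orbitRel_apply]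
      refine ⟨c.1⁻¹, ?_⟩
      show (c.1⁻¹ * c.1, c.2) = ((1 : K), c.2)
      rw [inv_mul_cancel]

theorem fo_actL (K I : Type) [Group K] [Fintype I] : letI := actL K I; FO K (K × I) := by
  letI := actL K I
  refine ⟨?_, ?_⟩
  · intro h c e
    have e1 : (h * c.1, c.2) = c := e
    have e2 : h * c.1 = c.1 := congrArg Prod.fst e1
    exact mul_eq_right.mp e2
  · exact Finite.of_surjective _ (rlev_bijL K I).2

/-! ### The action on the levels -/

/-- The representatives on the levels. -/
private def rlevRep (hc : Chi ⊤ N χ s) (E : Finset ℤ) (x : E × I) : Lev χ E I :=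
  ⟨(s ^ (x.1 : ℤ), x.2), by
    show χ (s ^ (x.1 : ℤ)) ∈ E
    rw [hc.map_zpow]
    exact x.1.2⟩

/-- The orbits on the levels. -/
private theorem rlev_bij (hc : Chi ⊤ N χ s) (E : Finset ℤ) : letI := levAct hc E I;
    Function.Bijective (fun x : E × I => (Quotient.mk'' (rlevRep hc E x) :
      Orb N (Lev χ E I))) := by
  letI := levAct hc E I
  constructor
  · rintro ⟨a, i⟩ ⟨b, j⟩ e
    have e1 := Quotient.exact' e
    rw [MulAction.orbitRel_apply] at e1
    obtain ⟨n, hn⟩ := e1
    have e2 : ((n : K) * s ^ (b : ℤ), j) = (s ^ (a : ℤ), i) := congrArg Subtype.val hn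
    have e3 : (n : K) * s ^ (b : ℤ) = s ^ (a : ℤ) := congrArg Prod.fst e2
    have e4 : (b : ℤ) = a := by
      have h1 := congrArg χ e3
      rw [hc.mul_ker n.2 (Subgroup.mem_top _), hc.map_zpow, hc.map_zpow] at h1
      exact h1
    exact Prod.ext (Subtype.ext e4.symm) (congrArg Prod.snd e2).symm
  · intro o
    induction o using Quotient.inductionOn' with
    | h c =>
      refine ⟨(⟨χ c.1.1, c.2⟩, c.1.2), Quotient.sound' ?_⟩
      rw [MulAction.orbitRel_apply]
      have h1 : c.1.1 * s ^ (- χ c.1.1) ∈ N := hc.mul_zpow_mem (Subgroup.mem_top _)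
      refine ⟨(⟨_, h1⟩ : N)⁻¹, ?_⟩
      apply Subtype.ext
      show ((c.1.1 * s ^ (- χ c.1.1))⁻¹ * c.1.1, c.1.2) = (s ^ (χ c.1.1), c.1.2)
      rw [mul_inv_rev, inv_mul_cancel_right, ← zpow_neg, neg_neg]

theorem fo_lev (hc : Chi ⊤ N χ s) (E : Finset ℤ) :
    letI := levAct hc E I; FO N (Lev χ E I) := by
  letI := levAct hc E I
  refine ⟨?_, ?_⟩
  · intro h c e
    have e1 : ((h : K) * c.1.1, c.1.2) = c.1 := congrArg Subtype.val e
    have e2 : (h : K) * c.1.1 = c.1.1 := congrArg Prod.fst e1
    exact Subtype.ext (mul_eq_right.mp e2)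
  · exact Finite.of_surjective _ (rlev_bij hc E).2

theorem card_lev (hc : Chi ⊤ N χ s) (E : Finset ℤ) :
    letI := levAct hc E I; Nat.card (Orb N (Lev χ E I)) = E.card * Fintype.card I := by
  letI := levAct hc E I
  rw [← Nat.card_congr (Equiv.ofBijective _ (rlev_bij (I := I) hc E)), Nat.card_eq_fintype_card,
    Fintype.card_prod, Fintype.card_coe]

/-! ### The traces -/

private theorem rlev_diag {C C' : Type} (f : C → C') (hf : Function.Injective f)
    (A : L2 C' →L[ℝ] L2 C') (c : C) :
    inner ℝ (((pull f hf).comp (A.comp (push f hf))) (delta c)) (delta c) =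
      inner ℝ (A (delta (f c))) (delta (f c)) := by
  have h1 : ∀ (x : L2 C') (y : L2 C), inner ℝ (pull f hf x) y = inner ℝ x (push f hf y) :=
    fun x y => by
      unfold push
      rw [ContinuousLinearMap.adjoint_inner_right]
  rw [ContinuousLinearMap.comp_apply, ContinuousLinearMap.comp_apply, h1, push_delta]

private theorem rlev_coef (A : L2 (K × I) →L[ℝ] L2 (K × I))
    (hA : letI := actL K I; Eqv K A) (c : K × I) :
    inner ℝ (A (delta c)) (delta c) =
      inner ℝ (A (delta ((1 : K), c.2))) (delta ((1 : K), c.2)) := by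
  letI := actL K I
  have h1 : (delta c : L2 (K × I)) = shift c.1 (delta ((1 : K), c.2)) := by
    rw [shift_delta]
    congr 1
    show c = (c.1 * 1, c.2)
    rw [mul_one]
  have hA' : ∀ (h : K) (z : L2 (K × I)), A (shift h z) = shift h (A z) := hA
  rw [h1, hA']
  exact (shift c.1).inner_map_map _ _

/-- The second component of a representative of an orbit. -/
private theorem rlev_outL (i : I) : letI := actL K I;
    ((Quotient.mk'' ((1 : K), i) : Orb K (K × I)).out).2 = i := by
  letI := actL K I
  have e1 : (MulAction.orbitRel K (K × I)).r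
      ((Quotient.mk'' ((1 : K), i) : Orb K (K × I)).out) ((1 : K), i) :=
    Quotient.mk_out ((1 : K), i)
  obtain ⟨g, hg⟩ := e1
  have e2 : (g * 1, i) = ((Quotient.mk'' ((1 : K), i) : Orb K (K × I)).out) := hg
  exact (congrArg Prod.snd e2).symm

private theorem rlev_out (hc : Chi ⊤ N χ s) (E : Finset ℤ) (x : E × I) : letI := levAct hc E I;
    ((Quotient.mk'' (rlevRep hc E x) : Orb N (Lev χ E I)).out).1.2 = x.2 := by
  letI := levAct hc E I
  have e1 : (MulAction.orbitRel N (Lev χ E I)).r
      ((Quotient.mk'' (rlevRep hc E x) : Orb N (Lev χ E I)).out) (rlevRep hc E x) :=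
    Quotient.mk_out (rlevRep hc E x)
  obtain ⟨n, hn⟩ := e1
  have e2 : ((n : K) * s ^ (x.1 : ℤ), x.2) =
      ((Quotient.mk'' (rlevRep hc E x) : Orb N (Lev χ E I)).out).1 := congrArg Subtype.val hn
  exact (congrArg Prod.snd e2).symm

theorem lev_trace (hc : Chi ⊤ N χ s) (E : Finset ℤ) (A : L2 (K × I) →L[ℝ] L2 (K × I))
    (hA : letI := actL K I; Eqv K A) :
    letI := actL K I
    letI := levAct hc E I
    tr N ((pull (Subtype.val : Lev χ E I → K × I) Subtype.val_injective).comp
      (A.comp (push (Subtype.val : Lev χ E I → K × I) Subtype.val_injective))) =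
      E.card * tr K A := by
  letI := actL K I
  letI := levAct hc E I
  have h1 : tr K A = ∑ i : I, inner ℝ (A (delta ((1 : K), i))) (delta ((1 : K), i)) := by
    unfold tr
    rw [← finsum_eq_sum_of_fintype]
    symm
    refine finsum_eq_of_bijective _ (rlev_bijL K I) fun i => ?_
    rw [rlev_coef A hA (Quotient.out _), rlev_outL]
  have h2 : tr N ((pull (Subtype.val : Lev χ E I → K × I) Subtype.val_injective).comp
      (A.comp (push (Subtype.val : Lev χ E I → K × I) Subtype.val_injective))) =
      ∑ x : E × I, inner ℝ (A (delta ((1 : K), x.2))) (delta ((1 : K), x.2)) := by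
    unfold tr
    rw [← finsum_eq_sum_of_fintype]
    symm
    refine finsum_eq_of_bijective _ (rlev_bij hc E) fun x => ?_
    rw [rlev_diag]
    have e := rlev_coef A hA ((Quotient.mk'' (rlevRep hc E x) : Orb N (Lev χ E I)).out).1
    rw [rlev_out] at e
    exact e.symm
  show tr N _ = _
  rw [h2, h1, Fintype.sum_prod_type]
  show ∑ _x : E, ∑ i : I, inner ℝ (A (delta ((1 : K), i))) (delta ((1 : K), i)) = _
  rw [Finset.sum_const, nsmul_eq_mul, Finset.card_univ, Fintype.card_coe]

end SingerBO
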