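import Mathlib
import Pool.Agent.Lib_MP_394d50_bo.RDefs

/-!
# Piece RTR: monotonicity of the trace dimension (about 220 lines)

* `tr_mono`: `⟨P_M δ, δ⟩ = ‖P_M δ‖²` (see `tr_proj_eq_zero` in cub/ETr) and `‖P_M δ‖ ≤ ‖P_{M'} δ‖` for `M ≤ M'`
  (`P_M = P_M P_{M'}`, `‖P_M‖ ≤ 1`).
* `tr_sup`: the trace of the projection `rs A` on the functions with support in `A`, `A` invariant: the number of orbits in `A`
  (`rs A (delta c) = delta c` for `c ∈ A`, `0` otherwise: `rs_of_mem`, `rs_of_notMem`).
* `tr_mono_inj`: let `C'' = C ⊕ C'` with the sum action (`Sum` has no default action in Mathlib with this meaning? use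
  `MulAction (C ⊕ C')` defined by `Sum.map`; Mathlib has `Sum.instSMul` and `Sum.instMulAction`), `FO H (C ⊕ C')`, `i = push inl`, `j = push inr`,
  `i* = pull inl`, `j* = pull inr` (`i* i = 1`, `j* j = 1`, `i* j = 0`, `i i* + j j* = 1`). Let `F = j ∘ Φ ∘ P_M ∘ i*` on
  `L2 (C ⊕ C')`, equivariant, `F* = i ∘ P_M ∘ Φ* ∘ j*`. Its kernel is `{x | P_M (i* x) = 0}` (as `Φ` is injective on
  `M`), with projection `1 - i P_M i*`. The kernel of `F*` is `{x | P_M (Φ* (j* x)) = 0}`, which contains
  `{x | P_{M'} (j* x) = 0}` (if `y ⊥ M'` then `⟨P_M Φ* y, w⟩ = ⟨y, Φ (P_M w)⟩ = 0`), with projection `1 - j P_{M'} j*`.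
  `tr_ker` (cub/ERk) and `tr_mono`: `tr (1 - i P_M i*) = tr (ker F*) ≥ tr (1 - j P_{M'} j*)`, so
  `tr (i P_M i*) ≤ tr (j P_{M'} j*)`, and by `tr_comm`-like computations (or directly: the diagonal coefficient of `i A i*` at
  `inl c` is that of `A` at `c`, at `inr c'` it is `0`; the orbits of `C ⊕ C'` are those of `C` and those of `C'`; the
  coefficients do not depend on the representative of the orbit) `tr (i P_M i*) = tr P_M`, `tr (j P_{M'} j*) = tr P_{M'}`.
-/

namespace SingerBO

open SingerVS SingerCub

variable {H C C' : Type} [Group H] [MulAction H C] [MulAction H C']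

private theorem rtr_inner (M : Submodule ℝ (L2 C)) [M.HasOrthogonalProjection] (x : L2 C) :
    inner ℝ (M.starProjection x) x = ‖M.starProjection x‖ ^ 2 := by
  have h := M.starProjection_inner_eq_zero x (M.starProjection x) (M.starProjection_apply_mem x)
  rw [inner_sub_left, sub_eq_zero, real_inner_self_eq_norm_sq] at h
  rw [real_inner_comm]
  exact h

private theorem rtr_norm (M M' : Submodule ℝ (L2 C)) [M.HasOrthogonalProjection]
    [M'.HasOrthogonalProjection] (h : M ≤ M') (x : L2 C) :
    ‖M.starProjection x‖ ≤ ‖M'.starProjection x‖ := by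
  have h1 : M.starProjection (M'.starProjection x) = M.starProjection x := by
    have h2 := M.starProjection_apply_mem (M'.starProjection x)
    refine (M.eq_starProjection_of_mem_of_inner_eq_zero h2 fun w hw => ?_).symm
    have h3 := M.starProjection_inner_eq_zero (M'.starProjection x) w hw
    have h4 := M'.starProjection_inner_eq_zero x w (h hw)
    have h5 : x - M.starProjection (M'.starProjection x) =
        (x - M'.starProjection x) +
          (M'.starProjection x - M.starProjection (M'.starProjection x)) := by abel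
    rw [h5, inner_add_left, h4, h3, add_zero]
  rw [← h1]
  exact M.norm_starProjection_apply_le _

theorem tr_mono (hC : FO H C) (M M' : Submodule ℝ (L2 C)) [M.HasOrthogonalProjection]
    [M'.HasOrthogonalProjection] (h : M ≤ M') :
    tr H M.starProjection ≤ tr H M'.starProjection := by
  have := hC.cofin
  let _ : Fintype (Orb H C) := Fintype.ofFinite _
  unfold tr
  rw [finsum_eq_sum_of_fintype, finsum_eq_sum_of_fintype]
  refine Finset.sum_le_sum fun o _ => ?_
  rw [rtr_inner, rtr_inner]
  exact pow_le_pow_left₀ (norm_nonneg _) (rtr_norm M M' h _) 2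

theorem tr_sup (hC : FO H C) (A : Set C) (hA : ∀ (h : H) (c : C), c ∈ A → h • c ∈ A) :
    tr H (rs A) = (Nat.card {o : Orb H C // o.out ∈ A} : ℝ) := by
  classical
  have := hC.cofin
  let _ : Fintype (Orb H C) := Fintype.ofFinite _
  unfold tr
  rw [finsum_eq_sum_of_fintype, Nat.card_eq_fintype_card, Fintype.card_subtype,
    Finset.card_filter, Nat.cast_sum]
  refine Finset.sum_congr rfl fun o _ => ?_
  rw [real_inner_comm, delta_inner, rs_apply]
  split_ifs with h
  · rw [delta_self, Nat.cast_one]
  · rw [Nat.cast_zero]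

section aux

variable {D : Type} [MulAction H D]

/-- The trace of an operator which is extended by zero. -/
private theorem rtr_push (hC : FO H C) (hD : FO H D) (f : C → D) (hf : Function.Injective f)
    (he : ∀ (h : H) c, f (h • c) = h • f c) (A : L2 C →L[ℝ] L2 C) (hA : Eqv H A) :
    tr H ((push f hf).comp (A.comp (pull f hf))) = tr H A := by
  have := hC.cofin
  have := hD.cofin
  let _ : Fintype (Orb H C) := Fintype.ofFinite _
  let _ : Fintype (Orb H D) := Fintype.ofFinite _
  unfold tr
  rw [finsum_eq_sum_of_fintype, finsum_eq_sum_of_fintype]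
  symm
  have hval : ∀ (c : C), inner ℝ (((push f hf).comp (A.comp (pull f hf))) (delta (f c)))
      (delta (f c)) = inner ℝ (A (delta c)) (delta c) := by
    intro c
    show inner ℝ (push f hf (A (pull f hf (delta (f c))))) (delta (f c)) = _
    rw [pull_delta, real_inner_comm, delta_inner, push_apply, real_inner_comm, delta_inner]
  have hinv : ∀ (h : H) (c : C), inner ℝ (A (delta (h • c))) (delta (h • c)) =
      inner ℝ (A (delta c)) (delta c) := by
    intro h c
    rw [real_inner_comm, delta_inner, ← shift_delta, hA, shift_smul, real_inner_comm,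
      delta_inner]
  have hmk : ∀ (c : C) (o : Orb H C), (∃ h : H, c = h • o.out) →
      (Quotient.mk (MulAction.orbitRel H D) (f c)) =
        Quotient.mk (MulAction.orbitRel H D) (f o.out) := by
    rintro c o ⟨h, rfl⟩
    refine Quotient.sound ?_
    show f (h • o.out) ∈ MulAction.orbit H (f o.out)
    exact ⟨h, (he h _).symm⟩
  let φ : Orb H C → Orb H D := fun o => Quotient.mk (MulAction.orbitRel H D) (f o.out)
  have hout : ∀ o : Orb H C, ∃ h : H, (φ o).out = h • f o.out := by
    intro o
    have h1 : (MulAction.orbitRel H D).r (Quotient.out (φ o)) (f o.out) :=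
      Quotient.exact (Quotient.out_eq (φ o))
    obtain ⟨h, hh⟩ := (show Quotient.out (φ o) ∈ MulAction.orbit H (f o.out) from h1)
    exact ⟨h, hh.symm⟩
  refine Fintype.sum_of_injective φ ?_ _ _ ?_ ?_
  · intro o o' e
    have h1 : (MulAction.orbitRel H D).r (f o.out) (f o'.out) := Quotient.exact e
    obtain ⟨h, hh⟩ := (show f o.out ∈ MulAction.orbit H (f o'.out) from h1)
    have h2 : h • o'.out = (1 : H) • o.out := by
      apply hf
      rw [he, one_smul]
      exact hh
    exact (rep_inj hC.free h2).2.symm
  · intro o ho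
    show inner ℝ (push f hf (A (pull f hf (delta o.out)))) (delta o.out) = 0
    rw [pull_delta_ne, map_zero, map_zero, inner_zero_left]
    intro c hc
    apply ho
    obtain ⟨h, o', hh⟩ := exists_rep (H := H) c
    refine ⟨o', ?_⟩
    show Quotient.mk (MulAction.orbitRel H D) (f o'.out) = o
    rw [← hmk c o' ⟨h, hh⟩, hc]
    exact Quotient.out_eq o
  · intro o
    obtain ⟨h, hh⟩ := hout o
    show inner ℝ (A (delta o.out)) (delta o.out) =
      inner ℝ (((push f hf).comp (A.comp (pull f hf))) (delta (φ o).out)) (delta (φ o).out)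
    rw [hh, ← he, hval, hinv]

/-- The projection on the kernel. -/
private theorem rtr_proj (f : C → D) (hf : Function.Injective f) (M : Submodule ℝ (L2 C))
    [M.HasOrthogonalProjection] (K : Submodule ℝ (L2 D)) [K.HasOrthogonalProjection]
    (hK : ∀ x, x ∈ K ↔ M.starProjection (pull f hf x) = 0) :
    K.starProjection =
      1 + (-1 : ℝ) • ((push f hf).comp (M.starProjection.comp (pull f hf))) := by
  ext1 x
  have h0 : (1 + (-1 : ℝ) • ((push f hf).comp (M.starProjection.comp (pull f hf)))) x =
      x - push f hf (M.starProjection (pull f hf x)) := by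
    rw [add_apply, smul_apply, neg_one_smul, ← sub_eq_add_neg]
    rfl
  rw [h0]
  have hPP : ∀ y : L2 C, M.starProjection (M.starProjection y) = M.starProjection y := fun y =>
    Submodule.starProjection_eq_self_iff.mpr (M.starProjection_apply_mem y)
  refine K.eq_starProjection_of_mem_of_inner_eq_zero ?_ fun w hw => ?_
  · rw [hK, map_sub, pull_push, map_sub, hPP, sub_self]
  · rw [sub_sub_cancel]
    have h1 : inner ℝ (push f hf (M.starProjection (pull f hf x))) w =
        inner ℝ (M.starProjection (pull f hf x)) (pull f hf w) := by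
      rw [← adjoint_push f hf, ContinuousLinearMap.adjoint_inner_right]
    rw [h1, Submodule.inner_starProjection_left_eq_right, (hK w).mp hw, inner_zero_right]

private theorem rtr_tr (hC : FO H C) (hD : FO H D) (f : C → D) (hf : Function.Injective f)
    (he : ∀ (h : H) c, f (h • c) = h • f c) (M : Submodule ℝ (L2 C))
    [M.HasOrthogonalProjection] (hM : Inv H M) (K : Submodule ℝ (L2 D))
    [K.HasOrthogonalProjection]
    (hK : ∀ x, x ∈ K ↔ M.starProjection (pull f hf x) = 0) :
    tr H K.starProjection = tr H (1 : L2 D →L[ℝ] L2 D) - tr H M.starProjection := by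
  rw [rtr_proj f hf M K hK, tr_add hD, tr_smul hD, rtr_push hC hD f hf he _ hM.proj]
  ring

end aux

private theorem rtr_fo (hC : FO H C) (hC' : FO H C') : FO H (C ⊕ C') where
  free := by
    rintro h (c | c) e
    · exact hC.free h c (Sum.inl_injective e)
    · exact hC'.free h c (Sum.inr_injective e)
  cofin := by
    have := hC.cofin
    have := hC'.cofin
    let φ : Orb H C ⊕ Orb H C' → Orb H (C ⊕ C') :=
      Sum.elim (fun o => Quotient.mk (MulAction.orbitRel H (C ⊕ C')) (Sum.inl o.out))
        (fun o => Quotient.mk (MulAction.orbitRel H (C ⊕ C')) (Sum.inr o.out))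
    refine Finite.of_surjective φ ?_
    intro o
    induction o using Quotient.inductionOn with
    | h x =>
      rcases x with c | c
      · obtain ⟨h, o', rfl⟩ := exists_rep (H := H) c
        refine ⟨Sum.inl o', Quotient.sound ?_⟩
        show Sum.inl o'.out ∈ MulAction.orbit H (Sum.inl (h • o'.out) : C ⊕ C')
        exact ⟨h⁻¹, by
          show Sum.inl (h⁻¹ • (h • o'.out)) = _
          rw [inv_smul_smul]⟩
      · obtain ⟨h, o', rfl⟩ := exists_rep (H := H) c
        refine ⟨Sum.inr o', Quotient.sound ?_⟩
        show Sum.inr o'.out ∈ MulAction.orbit H (Sum.inr (h • o'.out) : C ⊕ C')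
        exact ⟨h⁻¹, by
          show Sum.inr (h⁻¹ • (h • o'.out)) = _
          rw [inv_smul_smul]⟩

theorem tr_mono_inj (hC : FO H C) (hC' : FO H C') (M : Submodule ℝ (L2 C))
    (M' : Submodule ℝ (L2 C')) [M.HasOrthogonalProjection] [M'.HasOrthogonalProjection]
    (hM : Inv H M) (hM' : Inv H M') (Φ : L2 C →L[ℝ] L2 C') (hΦ : Eqv2 H Φ)
    (h1 : ∀ x ∈ M, Φ x ∈ M') (h2 : ∀ x ∈ M, Φ x = 0 → x = 0) :
    tr H M.starProjection ≤ tr H M'.starProjection := by
  have hD : FO H (C ⊕ C') := rtr_fo hC hC'
  have hel : ∀ (h : H) (c : C), (Sum.inl (h • c) : C ⊕ C') = h • Sum.inl c := fun _ _ => rfl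
  have her : ∀ (h : H) (c : C'), (Sum.inr (h • c) : C ⊕ C') = h • Sum.inr c := fun _ _ => rfl
  let i' : L2 (C ⊕ C') →L[ℝ] L2 C := pull Sum.inl Sum.inl_injective
  let j : L2 C' →L[ℝ] L2 (C ⊕ C') := push Sum.inr Sum.inr_injective
  let j' : L2 (C ⊕ C') →L[ℝ] L2 C' := pull Sum.inr Sum.inr_injective
  let F : L2 (C ⊕ C') →L[ℝ] L2 (C ⊕ C') := j.comp (Φ.comp (M.starProjection.comp i'))
  have hF : Eqv H F := by
    have e1 : Eqv2 H i' := eqv2_pull _ _ hel
    have e2 : Eqv2 H j := eqv2_push _ _ her
    have e3 : Eqv2 H M.starProjection := hM.proj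
    exact e2.comp (hΦ.comp (e3.comp e1))
  let K : Submodule ℝ (L2 (C ⊕ C')) := LinearMap.ker F.toLinearMap
  let K' : Submodule ℝ (L2 (C ⊕ C')) := LinearMap.ker (ContinuousLinearMap.adjoint F).toLinearMap
  let N' : Submodule ℝ (L2 (C ⊕ C')) := LinearMap.ker (M'.starProjection.comp j').toLinearMap
  have cK : IsClosed (K : Set (L2 (C ⊕ C'))) := F.isClosed_ker
  have cK' : IsClosed (K' : Set (L2 (C ⊕ C'))) := (ContinuousLinearMap.adjoint F).isClosed_ker
  have cN' : IsClosed (N' : Set (L2 (C ⊕ C'))) := (M'.starProjection.comp j').isClosed_ker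
  have _ : CompleteSpace K := cK.completeSpace_coe
  have _ : CompleteSpace K' := cK'.completeSpace_coe
  have _ : CompleteSpace N' := cN'.completeSpace_coe
  have hK : ∀ x, x ∈ K ↔ M.starProjection (pull Sum.inl Sum.inl_injective x) = 0 := by
    intro x
    constructor
    · intro hx
      have h3 : j (Φ (M.starProjection (i' x))) = 0 := hx
      have h4 := congrArg j' h3
      rw [map_zero] at h4
      have h5 : Φ (M.starProjection (i' x)) = 0 := by
        rw [← h4]
        exact (pull_push _ _ _).symm
      exact h2 _ (M.starProjection_apply_mem _) h5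
    · intro hx
      show j (Φ (M.starProjection (i' x))) = 0
      rw [show M.starProjection (i' x) = 0 from hx, map_zero, map_zero]
  have hN' : ∀ x, x ∈ N' ↔ M'.starProjection (pull Sum.inr Sum.inr_injective x) = 0 :=
    fun x => Iff.rfl
  have hNK : N' ≤ K' := by
    intro x hx
    show ContinuousLinearMap.adjoint F x = 0
    refine ext_inner_right ℝ fun y => ?_
    rw [ContinuousLinearMap.adjoint_inner_left, inner_zero_left]
    show inner ℝ x (j (Φ (M.starProjection (i' y)))) = 0
    have h3 : inner ℝ x (j (Φ (M.starProjection (i' y)))) =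
        inner ℝ (j' x) (Φ (M.starProjection (i' y))) := by
      show inner ℝ x (push Sum.inr Sum.inr_injective _) =
        inner ℝ (pull Sum.inr Sum.inr_injective x) _
      rw [← adjoint_push Sum.inr Sum.inr_injective, ContinuousLinearMap.adjoint_inner_left]
    rw [h3]
    have h4 : M'.starProjection (Φ (M.starProjection (i' y))) = Φ (M.starProjection (i' y)) :=
      Submodule.starProjection_eq_self_iff.mpr (h1 _ (M.starProjection_apply_mem _))
    rw [← h4, ← Submodule.inner_starProjection_left_eq_right, (hN' x).mp hx, inner_zero_left]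
  have t1 := rtr_tr hC hD Sum.inl Sum.inl_injective hel M hM K hK
  have t2 := rtr_tr hC' hD Sum.inr Sum.inr_injective her M' hM' N' hN'
  have t3 := tr_ker hD hF K K' (fun x => Iff.rfl) (fun x => Iff.rfl)
  have t4 := tr_mono hD N' K' hNK
  linarith

end SingerBO
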