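import Mathlib
import Pool.Agent.Lib_MP_394d50_bo.RTr
import Pool.Agent.Lib_MP_394d50_bo.RLev

/-!
# Piece RHARM: vanishing of harmonic chains from injectivity on rows (about 250 lines)

* `harm_abs`: let `K = {z ∈ sup L | E z = 0}` and `M` the closure of `E (sup A)`, closed invariant subspaces, `M ≤ K` (`hAL`, `hEE`).
  (1) `tr P_K + card B ≤ card L`: `tr_mono_inj` for `M := K`, `M' := sup (L \ B)`, `Φ = rs (L \ B)`: if `z ∈ K` and
  `rs (L \ B) z = 0` then `z ∈ sup B`, `E z = 0`, so `z = 0` (`hB0`); the projection on `sup (L \ B)` is `rs (L \ B)`, its trace is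
  `card L - card B` (`tr_sup`, `hBL`). (2) `card A ≤ tr P_M`: `tr_mono_inj` for `M := sup A`, `M' := M`, `Φ = E` (`hA0`). So
  `tr P_K ≤ tr P_M` (`hcard`). Let `W = K ⊓ Mᗮ`; `P_K - P_M = P_W` (`M ≤ K`), so `tr P_W ≤ 0`; `tr P_W ≥ 0`, so `W = 0`
  (`tr_proj_eq_zero`). `z ∈ K`, and `z ⊥ E x` for all `x` (`E* z = 0`), so `z ∈ W`.
* `harm_rows`: `Free ca`: `(h, i) ↦ h • ca i` is injective (also for `ca ∘ f`, `f` injective). Let `A` be the set of the
  `h • ca (f i)`, `B` the set of the `h • cb (f' i)`, `L` the set of the `h • cb j`. For `z ∈ sup A` with `E z = 0` let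
  `w = pull (fun (h, i) => h • ca (f i)) z`; by `hEA` (the sum over `a` reduces to the sum over `κ` since `z (h • ca i) = 0` for `i`
  not in the range of `f`) `rm w (fun i j => TA (f i) j) = 0`, so `w = 0` by `hrA`, and `z = 0`. The same for `B`. The numbers of
  orbits in `A`, `B`, `L` are `card κ`, `card κ'`, `card b`.
-/

namespace SingerBO

open SingerVS SingerCub

private theorem rh_sup_inv {H C : Type} [Group H] [MulAction H C] {A : Set C}
    (hA : ∀ (h : H) (c : C), c ∈ A → h • c ∈ A) : Inv H (sup A) := by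
  intro h z hz c hc
  rw [shift_apply]
  refine hz _ fun h1 => hc ?_
  have h2 := hA h _ h1
  rwa [smul_inv_smul] at h2

private theorem rh_orth_inv {H C : Type} [Group H] [MulAction H C] {M : Submodule ℝ (L2 C)}
    (hM : Inv H M) : Inv H Mᗮ := by
  intro h z hz
  rw [Submodule.mem_orthogonal] at hz ⊢
  intro u hu
  rw [real_inner_comm, shift_inner, real_inner_comm]
  exact hz _ (hM h⁻¹ u hu)

private theorem rh_tr_nonneg {H C : Type} [Group H] [MulAction H C] (hC : FO H C)
    (M : Submodule ℝ (L2 C)) [M.HasOrthogonalProjection] : 0 ≤ tr H M.starProjection := by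
  have := hC.cofin
  let _ : Fintype (Orb H C) := Fintype.ofFinite _
  unfold tr
  rw [finsum_eq_sum_of_fintype]
  refine Finset.sum_nonneg fun o _ => ?_
  have h := M.starProjection_inner_eq_zero (delta o.out) (M.starProjection (delta o.out))
    (M.starProjection_apply_mem _)
  rw [inner_sub_left, sub_eq_zero, real_inner_self_eq_norm_sq] at h
  rw [real_inner_comm, h]
  positivity

private theorem rh_proj_add {C : Type} (K M W : Submodule ℝ (L2 C)) [K.HasOrthogonalProjection]
    [M.HasOrthogonalProjection] [W.HasOrthogonalProjection] (hMK : M ≤ K)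
    (hW : ∀ x, x ∈ W ↔ x ∈ K ∧ x ∈ Mᗮ) :
    K.starProjection = M.starProjection + W.starProjection := by
  ext1 x
  rw [add_apply]
  have hPM := M.starProjection_apply_mem x
  have hPW := (hW _).mp (W.starProjection_apply_mem x)
  refine K.eq_starProjection_of_mem_of_inner_eq_zero (K.add_mem (hMK hPM) hPW.1) fun w hw => ?_
  have hw1 := M.starProjection_apply_mem w
  have hw2 : w - M.starProjection w ∈ W := by
    rw [hW]
    refine ⟨K.sub_mem hw (hMK hw1), ?_⟩
    rw [Submodule.mem_orthogonal']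
    intro u hu
    exact M.starProjection_inner_eq_zero w u hu
  have e : w = M.starProjection w + (w - M.starProjection w) := by abel
  rw [e, inner_add_right]
  have e1 : inner ℝ (x - (M.starProjection x + W.starProjection x)) (M.starProjection w) =
      (0 : ℝ) := by
    rw [← sub_sub, inner_sub_left, M.starProjection_inner_eq_zero x _ hw1,
      (Submodule.mem_orthogonal' _ _).mp hPW.2 _ hw1, sub_zero]
  have e2 : inner ℝ (x - (M.starProjection x + W.starProjection x))
      (w - M.starProjection w) = (0 : ℝ) := by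
    rw [add_comm (M.starProjection x), ← sub_sub, inner_sub_left,
      W.starProjection_inner_eq_zero x _ hw2,
      (Submodule.mem_orthogonal _ _).mp ((hW _).mp hw2).2 _ hPM, sub_zero]
  rw [e1, e2, add_zero]

theorem harm_abs {H C : Type} [Group H] [MulAction H C] (hC : FO H C) (E : L2 C →L[ℝ] L2 C)
    (hE : Eqv H E) (L A B : Set C) (hL : ∀ (h : H) (c : C), c ∈ L → h • c ∈ L)
    (hA : ∀ (h : H) (c : C), c ∈ A → h • c ∈ A) (hB : ∀ (h : H) (c : C), c ∈ B → h • c ∈ B)
    (hBL : B ⊆ L) (hEE : ∀ z ∈ sup A, E (E z) = 0) (hAL : ∀ z ∈ sup A, E z ∈ sup L)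
    (hA0 : ∀ z ∈ sup A, E z = 0 → z = 0) (hB0 : ∀ z ∈ sup B, E z = 0 → z = 0)
    (hcard : Nat.card {o : Orb H C // o.out ∈ L} ≤
      Nat.card {o : Orb H C // o.out ∈ A} + Nat.card {o : Orb H C // o.out ∈ B})
    (z : L2 C) (hz : z ∈ sup L) (h1 : E z = 0) (h2 : ContinuousLinearMap.adjoint E z = 0) :
    z = 0 := by
  classical
  have := hC.cofin
  let K : Submodule ℝ (L2 C) := sup L ⊓ LinearMap.ker E.toLinearMap
  have cK : IsClosed (K : Set (L2 C)) := (isClosed_sup L).inter E.isClosed_ker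
  have _ : CompleteSpace K := cK.completeSpace_coe
  let M : Submodule ℝ (L2 C) := ((sup A).map E.toLinearMap).topologicalClosure
  have cM : IsClosed (M : Set (L2 C)) := Submodule.isClosed_topologicalClosure _
  have _ : CompleteSpace M := cM.completeSpace_coe
  have hMK : M ≤ K := by
    refine Submodule.topologicalClosure_minimal _ ?_ cK
    rintro _ ⟨x, hx, rfl⟩
    exact ⟨hAL x hx, hEE x hx⟩
  let W : Submodule ℝ (L2 C) := K ⊓ Mᗮ
  have cW : IsClosed (W : Set (L2 C)) := cK.inter (Submodule.isClosed_orthogonal M)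
  have _ : CompleteSpace W := cW.completeSpace_coe
  have iK : Inv H K := by
    intro h x hx
    refine ⟨rh_sup_inv hL h x hx.1, ?_⟩
    show E (shift h x) = 0
    rw [hE, show E x = 0 from hx.2, map_zero]
  have iM : Inv H M := by
    intro h x hx
    have hsub : M ≤ M.comap (shift h).toContinuousLinearEquiv.toContinuousLinearMap.toLinearMap := by
      refine Submodule.topologicalClosure_minimal _ ?_ ?_
      · rintro _ ⟨y, hy, rfl⟩
        show shift h (E y) ∈ M
        rw [← hE]
        exact Submodule.le_topologicalClosure _ ⟨shift h y, rh_sup_inv hA h y hy, rfl⟩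
      · exact cM.preimage (shift h).continuous
    exact hsub hx
  have iW : Inv H W := fun h x hx => ⟨iK h x hx.1, rh_orth_inv iM h x hx.2⟩
  have hLB : ∀ (h : H) (c : C), c ∈ L \ B → h • c ∈ L \ B := by
    intro h c hc
    refine ⟨hL h c hc.1, fun hB' => hc.2 ?_⟩
    have h3 := hB h⁻¹ _ hB'
    rwa [inv_smul_smul] at h3
  -- (1)
  have t1 : tr H K.starProjection ≤ tr H (rs (L \ B)) := by
    refine tr_mono_inj hC hC K (sup (L \ B)) iK (rh_sup_inv hLB) (rs (L \ B))
      (rh_sup_inv hLB).proj (fun x _ => rs_mem _ x) fun x hx h0 => ?_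
    refine hB0 x (fun c hc => ?_) hx.2
    by_cases hcL : c ∈ L
    · rw [← rs_of_mem x (show c ∈ L \ B from ⟨hcL, hc⟩), h0]
      rfl
    · exact hx.1 c hcL
  have t2 : tr H (rs A) ≤ tr H M.starProjection := by
    refine tr_mono_inj hC hC (sup A) M (rh_sup_inv hA) iM E hE (fun x hx => ?_) hA0
    exact Submodule.le_topologicalClosure _ ⟨x, hx, rfl⟩
  rw [tr_sup hC _ hLB] at t1
  rw [tr_sup hC _ hA] at t2
  have hcardLB : Nat.card {o : Orb H C // o.out ∈ L} =
      Nat.card {o : Orb H C // o.out ∈ L \ B} + Nat.card {o : Orb H C // o.out ∈ B} := by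
    let _ : Fintype (Orb H C) := Fintype.ofFinite _
    rw [Nat.card_eq_fintype_card, Nat.card_eq_fintype_card, Nat.card_eq_fintype_card,
      Fintype.card_subtype, Fintype.card_subtype, Fintype.card_subtype,
      ← Finset.card_union_of_disjoint]
    · congr 1
      ext o
      simp only [Finset.mem_filter, Finset.mem_univ, true_and, Finset.mem_union, Set.mem_sdiff]
      constructor
      · intro h
        by_cases hB' : o.out ∈ B
        · exact Or.inr hB'
        · exact Or.inl ⟨h, hB'⟩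
      · rintro (h | h)
        · exact h.1
        · exact hBL h
    · rw [Finset.disjoint_left]
      intro o ho ho'
      rw [Finset.mem_filter] at ho ho'
      exact ho.2.2 ho'.2
  have t3 : tr H K.starProjection = tr H M.starProjection + tr H W.starProjection := by
    rw [rh_proj_add K M W hMK fun x => Iff.rfl, tr_add hC]
  have t4 := rh_tr_nonneg hC W
  have t5 : (Nat.card {o : Orb H C // o.out ∈ L \ B} : ℝ) ≤
      (Nat.card {o : Orb H C // o.out ∈ A} : ℝ) := by
    exact_mod_cast (by omega : Nat.card {o : Orb H C // o.out ∈ L \ B} ≤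
      Nat.card {o : Orb H C // o.out ∈ A})
  have t6 : tr H W.starProjection = 0 := by linarith
  refine tr_proj_eq_zero hC iW t6 z ⟨⟨hz, h1⟩, ?_⟩
  have hM' : M ≤ (Submodule.span ℝ {z})ᗮ := by
    refine Submodule.topologicalClosure_minimal _ ?_ (Submodule.isClosed_orthogonal _)
    rintro _ ⟨x, hx, rfl⟩
    rw [Submodule.mem_orthogonal_singleton_iff_inner_right]
    show inner ℝ z (E x) = 0
    rw [← ContinuousLinearMap.adjoint_inner_left, h2, inner_zero_left]
  show z ∈ Mᗮ
  rw [Submodule.mem_orthogonal']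
  intro u hu
  exact Submodule.mem_orthogonal_singleton_iff_inner_right.mp (hM' hu)

/-- The translates of the cells `ca i` are different. -/
def FreeR (H : Type) {C a : Type} [Group H] [MulAction H C] (ca : a → C) : Prop :=
  ∀ (h h' : H) (i i' : a), h • ca i = h' • ca i' → h = h' ∧ i = i'

/-- The translates of the cells `ca i`. -/
def orbS (H : Type) {C a : Type} [Group H] [MulAction H C] (ca : a → C) : Set C :=
  {c | ∃ (h : H) (i : a), c = h • ca i}

/-- `E` is given by the matrix `T`. -/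
def MatOf {H C a b : Type} [Group H] [MulAction H C] [Fintype a] (E : L2 C →L[ℝ] L2 C)
    (ca : a → C) (cb : b → C) (T : a → b → H →₀ ℤ) : Prop :=
  ∀ z ∈ sup (orbS H ca), E z ∈ sup (orbS H cb) ∧ ∀ (g : H) (j : b),
    rm (fun c : H × a => z (c.1 • ca c.2)) T (g, j) = (E z) (g • cb j)

private theorem rh_orbS_inv {H C a : Type} [Group H] [MulAction H C] (ca : a → C) (h : H)
    (c : C) (hc : c ∈ orbS H ca) : h • c ∈ orbS H ca := by
  obtain ⟨h', i, rfl⟩ := hc
  exact ⟨h * h', i, (mul_smul h h' (ca i)).symm⟩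

private theorem rh_free_comp {H C a κ : Type} [Group H] [MulAction H C] {ca : a → C}
    (hca : FreeR H ca) {f : κ → a} (hf : Function.Injective f) : FreeR H (ca ∘ f) := by
  intro h h' i i' e
  obtain ⟨e1, e2⟩ := hca h h' (f i) (f i') e
  exact ⟨e1, hf e2⟩

private theorem rh_card {H C a : Type} [Group H] [MulAction H C] [Fintype a]
    {ca : a → C} (hca : FreeR H ca) :
    Nat.card {o : Orb H C // o.out ∈ orbS H ca} = Fintype.card a := by
  rw [← Nat.card_eq_fintype_card]
  symm
  have hmem : ∀ i : a, (Quotient.mk (MulAction.orbitRel H C) (ca i) : Orb H C).out ∈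
      orbS H ca := by
    intro i
    have h1 : (MulAction.orbitRel H C).r
        (Quotient.out (Quotient.mk (MulAction.orbitRel H C) (ca i))) (ca i) :=
      Quotient.exact (Quotient.out_eq _)
    obtain ⟨h, hh⟩ := (show Quotient.out (Quotient.mk (MulAction.orbitRel H C) (ca i)) ∈
      MulAction.orbit H (ca i) from h1)
    exact ⟨h, i, hh.symm⟩
  refine Nat.card_eq_of_bijective (fun i : a =>
    (⟨Quotient.mk (MulAction.orbitRel H C) (ca i), hmem i⟩ :
      {o : Orb H C // o.out ∈ orbS H ca})) ⟨fun i i' e => ?_, fun o => ?_⟩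
  · have h1 : (MulAction.orbitRel H C).r (ca i) (ca i') :=
      Quotient.exact (Subtype.ext_iff.mp e)
    obtain ⟨h, hh⟩ := (show ca i ∈ MulAction.orbit H (ca i') from h1)
    have h3 : h • ca i' = (1 : H) • ca i := by
      rw [one_smul]
      exact hh
    exact (hca _ _ _ _ h3).2.symm
  · obtain ⟨o, h, i, hi⟩ := o
    refine ⟨i, Subtype.ext ?_⟩
    show (Quotient.mk (MulAction.orbitRel H C) (ca i) : Orb H C) = o
    rw [← Quotient.out_eq o]
    refine Quotient.sound ?_
    show ca i ∈ MulAction.orbit H o.out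
    refine ⟨h⁻¹, ?_⟩
    show h⁻¹ • o.out = ca i
    rw [hi, inv_smul_smul]

private theorem rh_inj {H C a b κ : Type} [Group H] [MulAction H C] [Fintype a]
    [Fintype κ] (E : L2 C →L[ℝ] L2 C) (ca : a → C) (cb : b → C)
    (hca : FreeR H ca) (TA : a → b → H →₀ ℤ)
    (hEA : MatOf E ca cb TA) (f : κ → a) (hf : Function.Injective f)
    (hrA : ∀ w : L2 (H × κ), (∀ c, rm (w : H × κ → ℝ) (fun i j => TA (f i) j) c = 0) → w = 0)
    (z : L2 C) (hz : z ∈ sup (orbS H (ca ∘ f))) (h0 : E z = 0) : z = 0 := by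
  classical
  have hz' : z ∈ sup (orbS H ca) := by
    intro c hc
    refine hz c fun hc' => hc ?_
    obtain ⟨h, i, rfl⟩ := hc'
    exact ⟨h, f i, rfl⟩
  have hinj : Function.Injective (fun c : H × κ => c.1 • ca (f c.2)) := by
    rintro ⟨h, i⟩ ⟨h', i'⟩ e
    obtain ⟨e1, e2⟩ := hca h h' (f i) (f i') e
    exact Prod.ext e1 (hf e2)
  have hw : pull (fun c : H × κ => c.1 • ca (f c.2)) hinj z = 0 := by
    refine hrA _ ?_
    rintro ⟨g, j⟩
    have h1 := (hEA z hz').2 g j
    rw [h0] at h1
    have h2 : rm (fun c : H × a => z (c.1 • ca c.2)) TA (g, j) = 0 := h1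
    rw [← h2]
    unfold rm
    refine Fintype.sum_of_injective f hf _ _ ?_ ?_
    · intro i hi
      refine Finset.sum_eq_zero fun x _ => ?_
      have h3 : z ((g * x⁻¹) • ca i) = 0 := by
        refine hz _ fun hc => ?_
        obtain ⟨h, i', e⟩ := hc
        exact hi ⟨i', (hca _ _ _ _ e).2.symm⟩
      show ((TA i j x : ℤ) : ℝ) * z ((g * x⁻¹) • ca i) = 0
      rw [h3, mul_zero]
    · intro i
      rfl
  apply l2_ext
  intro c
  by_cases hc : c ∈ orbS H (ca ∘ f)
  · obtain ⟨h, i, rfl⟩ := hc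
    have h4 : (pull (fun c : H × κ => c.1 • ca (f c.2)) hinj z) (h, i) =
        z (h • (ca ∘ f) i) := rfl
    rw [← h4, hw]
    rfl
  · rw [hz c hc]
    rfl

theorem harm_rows {H C a b e κ κ' : Type} [Group H] [MulAction H C] [Fintype a] [Fintype b]
    [Fintype e] [Fintype κ] [Fintype κ'] (hC : FO H C) (E : L2 C →L[ℝ] L2 C)
    (hE : Eqv H E) (hEE : ∀ z, E (E z) = 0) (ca : a → C) (cb : b → C) (ce : e → C)
    (hca : FreeR H ca) (hcb : FreeR H cb) (TA : a → b → H →₀ ℤ) (TB : b → e → H →₀ ℤ)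
    (hEA : MatOf E ca cb TA) (hEB : MatOf E cb ce TB) (f : κ → a) (f' : κ' → b)
    (hf : Function.Injective f) (hf' : Function.Injective f')
    (hrA : ∀ w : L2 (H × κ), (∀ c, rm (w : H × κ → ℝ) (fun i j => TA (f i) j) c = 0) → w = 0)
    (hrB : ∀ w : L2 (H × κ'), (∀ c, rm (w : H × κ' → ℝ) (fun i j => TB (f' i) j) c = 0) → w = 0)
    (hcard : Fintype.card b ≤ Fintype.card κ + Fintype.card κ')
    (z : L2 C) (hz : z ∈ sup (orbS H cb)) (h1 : E z = 0)
    (h2 : ContinuousLinearMap.adjoint E z = 0) : z = 0 := by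
  have fA : FreeR H (ca ∘ f) := rh_free_comp hca hf
  have fB : FreeR H (cb ∘ f') := rh_free_comp hcb hf'
  refine harm_abs hC E hE (orbS H cb) (orbS H (ca ∘ f)) (orbS H (cb ∘ f')) (rh_orbS_inv cb)
    (rh_orbS_inv _) (rh_orbS_inv _) ?_ (fun x _ => hEE x) ?_
    (rh_inj E ca cb hca TA hEA f hf hrA) (rh_inj E cb ce hcb TB hEB f' hf' hrB) ?_ z hz h1 h2
  · rintro _ ⟨h, i, rfl⟩
    exact ⟨h, f' i, rfl⟩
  · intro x hx
    refine (hEA x fun c hc => hx c fun hc' => hc ?_).1
    obtain ⟨h, i, rfl⟩ := hc'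
    exact ⟨h, f i, rfl⟩
  · rw [rh_card hcb, rh_card fA, rh_card fB]
    exact hcard

end SingerBO
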