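import Mathlib
import Pool.Agent.Lib_MP_394d50_vs.VMat
import Pool.Agent.Lib_MP_394d50_vs.LSim
import Pool.Agent.Lib_MP_394d50_vs.TTateV
import Pool.Agent.Lib_MP_394d50_bo.RHarm

/-!
# Piece RMZ: the integral matrices of the boundary and the coboundary (about 250 lines)

* `freeR_cR`: `hX.free`, `hR.inj`.
* `matOf_dZ`: let `z` be supported on the simplices with `k` vertices (`sup (orbS H (cR hR k))`; a simplex `σ` with `k` vertices is
  `hR.el σ • hR.rep σ`, `el_rep`). `(E z) q = ∑ᶠ p, inc p q * z p` is not zero only if `q` has `k + 1` vertices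
  (`simpInc_ne`). At `q = g • r'`: the `p` with `inc p q ≠ 0` are the `g • (r'.erase v)`, `v ∈ r'` (when in `X`), different for
  different `v`, and `inc (g • p) (g • r') = inc p r'` (`simpInc_smul` with `ho`, see `freeCell_simp`). With `p = r'.erase v = el p • rep p`:
  the term is `simpInc p r' * z (g * el p • rep p)`; this is the term of `v` in `rm`, as `(el p)⁻¹⁻¹ = el p`:
  `rm w (dZ) (g, r') = ∑ r, (dZ r r').sum (fun x n => n * w (g * x⁻¹, r))`, where `Finsupp.sum` of a sum of `single`s is the sum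
  (`Finsupp.sum_finset_sum_index`, `Finsupp.sum_single_index`); `∑ r, if rep p = r then ..` has one term (compare `dl_vecMul` in
  vs/VMat).
* `matOf_bZ`: the same with `nb X r` (`hX.mem_nb`) and `insert v r = el _ • rep _` (compare `bd_vecMul`).
* `ev_dZ`, `ev_bZ`: `ev` is additive, `ev t (single x n) = n * t x`; the sign is `±1` for the facets that occur (`rep p = r` forces `p ∈ X`,
  as `rep p = ∅` otherwise; `simpInc_erase`), and `-1 = 1` in `D`; `φ (∑ ..) = ∑ φ (gN _) = ∑ t _`.
-/

namespace SingerBO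

open SingerVS SingerCub SingerRA
open scoped Pointwise

variable {H P : Type} [Group H] [LinearOrder P] [MulAction H P] {X : Set (Finset P)}
  {R : Finset (Finset P)}

/-- The representatives with `k` vertices, as simplices. -/
def cR (hR : Reps H X R) (k : ℕ) (r : Rk R k) : {σ : Finset P // σ ∈ X} :=
  ⟨r.1, hR.mem _ r.2.1⟩

open scoped Classical in
/-- The integral matrix of the coboundary. -/
noncomputable def dZ (hR : Reps H X R) (j k : ℕ) (r : Rk R j) (r' : Rk R k) : H →₀ ℤ :=
  ∑ v ∈ r'.1, if hR.rep (r'.1.erase v) = r.1 then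
    Finsupp.single (hR.el (r'.1.erase v))⁻¹ (simpInc (fun x y : P => x < y) (r'.1.erase v) r'.1)
    else 0

open scoped Classical in
/-- The integral matrix of the boundary. -/
noncomputable def bZ (hR : Reps H X R) (k j : ℕ) (r' : Rk R k) (r : Rk R j) : H →₀ ℤ :=
  ∑ v ∈ nb X r.1, if hR.rep (insert v r.1) = r'.1 then
    Finsupp.single (hR.el (insert v r.1))⁻¹ (simpInc (fun x y : P => x < y) r.1 (insert v r.1))
    else 0

/-- The extension by zero of a chain to all finite sets. -/
private noncomputable def zf (z : L2 {σ : Finset P // σ ∈ X}) (σ : Finset P) : ℝ :=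
  open scoped Classical in if h : σ ∈ X then z ⟨σ, h⟩ else 0

omit [LinearOrder P] in
private theorem zf_mem (z : L2 {σ : Finset P // σ ∈ X}) {σ : Finset P} (h : σ ∈ X) :
    zf z σ = z ⟨σ, h⟩ := dif_pos h

omit [LinearOrder P] in
private theorem zf_notMem (z : L2 {σ : Finset P // σ ∈ X}) {σ : Finset P} (h : σ ∉ X) :
    zf z σ = 0 := dif_neg h

omit [LinearOrder P] in
private theorem rmz_finsum (z : L2 {σ : Finset P // σ ∈ X}) (f : Finset P → ℝ) :
    ∑ᶠ p : {σ : Finset P // σ ∈ X}, f p.1 * z p = ∑ᶠ σ : Finset P, f σ * zf z σ := by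
  classical
  have h1 : ∑ᶠ p : {σ : Finset P // σ ∈ X}, f p.1 * z p =
      ∑ᶠ p : {σ : Finset P // σ ∈ X}, (fun σ => f σ * zf z σ) p.1 := by
    refine finsum_congr fun p => ?_
    show f p.1 * z p = f p.1 * zf z p.1
    rw [zf_mem z p.2]
  rw [h1, finsum_subtype_eq_finsum_cond (f := fun σ => f σ * zf z σ) (fun σ => σ ∈ X)]
  refine finsum_congr fun σ => ?_
  by_cases h : σ ∈ X
  · rw [finsum_eq_if, if_pos h]
  · rw [finsum_eq_if, if_neg h, zf_notMem z h, mul_zero]

private theorem rmz_faces (z : L2 {σ : Finset P // σ ∈ X}) (q : Finset P) :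
    ∑ᶠ p : {σ : Finset P // σ ∈ X}, (simpInc (fun x y : P => x < y) p.1 q : ℝ) * z p =
      ∑ v ∈ q, (simpInc (fun x y : P => x < y) (q.erase v) q : ℝ) * zf z (q.erase v) := by
  classical
  rw [rmz_finsum z (fun σ => (simpInc (fun x y : P => x < y) σ q : ℝ)),
    finsum_eq_sum_of_support_subset (s := q.image (fun v => q.erase v))]
  · rw [Finset.sum_image]
    exact Finset.erase_injOn q
  · intro σ hσ
    have h1 : (simpInc (fun x y : P => x < y) σ q : ℝ) ≠ 0 := left_ne_zero_of_mul hσ
    obtain ⟨v, hv, e⟩ := simpInc_ne (Int.cast_ne_zero.mp h1)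
    rw [Finset.mem_coe, Finset.mem_image]
    exact ⟨v, hv, e.symm⟩

private theorem rmz_cofaces (hX : FreeCx H X) (z : L2 {σ : Finset P // σ ∈ X}) {p : Finset P}
    (hp : p ∈ X) :
    ∑ᶠ q : {σ : Finset P // σ ∈ X}, (simpInc (fun x y : P => x < y) p q.1 : ℝ) * z q =
      ∑ v ∈ nb X p, (simpInc (fun x y : P => x < y) p (insert v p) : ℝ) *
        zf z (insert v p) := by
  classical
  rw [rmz_finsum z (fun σ => (simpInc (fun x y : P => x < y) p σ : ℝ)),
    finsum_eq_sum_of_support_subset (s := (nb X p).image (fun v => insert v p))]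
  · rw [Finset.sum_image]
    intro v hv w _ e
    have h1 : v ∈ insert w p := by
      have h2 : insert v p = insert w p := e
      rw [← h2]
      exact Finset.mem_insert_self v p
    exact (Finset.mem_insert.mp h1).resolve_right ((hX.mem_nb hp).mp hv).1
  · intro σ hσ
    have h1 : (simpInc (fun x y : P => x < y) p σ : ℝ) ≠ 0 := left_ne_zero_of_mul hσ
    have h2 : zf z σ ≠ 0 := right_ne_zero_of_mul hσ
    have hσX : σ ∈ X := by
      by_contra h
      exact h2 (zf_notMem z h)
    obtain ⟨v, hv, e⟩ := simpInc_ne (Int.cast_ne_zero.mp h1)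
    have e2 : insert v p = σ := by rw [e, Finset.insert_erase hv]
    rw [Finset.mem_coe, Finset.mem_image]
    refine ⟨v, (hX.mem_nb hp).mpr ⟨?_, ?_⟩, e2⟩
    · rw [e]
      exact Finset.notMem_erase v σ
    · rw [e2]
      exact hσX

private theorem rmz_smul (hX : FreeCx H X) (ho : OrdInv H X) (g : H) (σ : Finset P)
    {τ : Finset P} (hτ : τ ∈ X) :
    simpInc (fun x y : P => x < y) (g • σ) (g • τ) = simpInc (fun x y : P => x < y) σ τ :=
  simpInc_smul (fun _ hx _ hy => ho.lt_iff hτ g hx hy) σ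

private theorem rmz_rep_notMem (hR : Reps H X R) {σ : Finset P} (h : σ ∉ X) :
    hR.rep σ = ∅ := by
  unfold Reps.rep
  rw [dif_neg h]

open scoped Classical in
private theorem rmz_key (hX : FreeCx H X) (hR : Reps H X R) (m : ℕ) (s : Finset P)
    (f : P → Finset P) (a : P → ℤ) (hf : ∀ v ∈ s, f v ∈ X → (f v).card = m)
    (z : L2 {σ : Finset P // σ ∈ X}) (g : H) :
    ∑ i : Rk R m, (∑ v ∈ s, if hR.rep (f v) = i.1 then
        Finsupp.single (hR.el (f v))⁻¹ (a v) else (0 : H →₀ ℤ)).sum
          (fun x n => (n : ℝ) * zf z ((g * x⁻¹) • i.1)) =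
      ∑ v ∈ s, (a v : ℝ) * zf z (g • f v) := by
  have h1 : ∀ i : Rk R m, (∑ v ∈ s, if hR.rep (f v) = i.1 then
        Finsupp.single (hR.el (f v))⁻¹ (a v) else (0 : H →₀ ℤ)).sum
          (fun x n => (n : ℝ) * zf z ((g * x⁻¹) • i.1)) =
      ∑ v ∈ s, if hR.rep (f v) = i.1 then
        (a v : ℝ) * zf z ((g * hR.el (f v)) • i.1) else 0 := by
    intro i
    rw [← Finsupp.sum_finsetSum_index]
    · refine Finset.sum_congr rfl fun v _ => ?_
      split_ifs
      · rw [Finsupp.sum_single_index, inv_inv]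
        rw [Int.cast_zero, zero_mul]
      · rw [Finsupp.sum_zero_index]
    · intro x
      rw [Int.cast_zero, zero_mul]
    · intro x n n'
      rw [Int.cast_add, add_mul]
  rw [Finset.sum_congr rfl fun i _ => h1 i, Finset.sum_comm]
  refine Finset.sum_congr rfl fun v hv => ?_
  by_cases hvX : f v ∈ X
  · have hcard : (hR.rep (f v)).card = m := (hR.rep_card hvX).trans (hf v hv hvX)
    rw [Finset.sum_eq_single (⟨hR.rep (f v), hR.rep_mem hvX, hcard⟩ : Rk R m)]
    · rw [if_pos rfl]
      show (a v : ℝ) * zf z ((g * hR.el (f v)) • hR.rep (f v)) = _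
      rw [mul_smul, hR.el_rep hvX]
    · intro i _ hne
      rw [if_neg]
      intro h
      exact hne (Subtype.ext h.symm)
    · intro h
      exact absurd (Finset.mem_univ _) h
  · rw [zf_notMem z (fun h => hvX ((hX.smul_mem_iff g _).mp h)), mul_zero]
    refine Finset.sum_eq_zero fun i _ => ?_
    rw [if_neg]
    intro h
    rw [rmz_rep_notMem hR hvX] at h
    exact (hX.ne i.1 (hR.mem _ i.2.1)).ne_empty h.symm

theorem freeR_cR (hX : FreeCx H X) (hR : Reps H X R) (k : ℕ) :
    letI := simpAct (H := H) hX.inv; FreeR H (cR hR k) := by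
  intro h h' i i' e
  have e1 : h • i.1 = h' • i'.1 := congrArg Subtype.val e
  have e2 : (h'⁻¹ * h) • i.1 = i'.1 := by rw [mul_smul, e1, inv_smul_smul]
  have e3 : i.1 = i'.1 := hR.inj _ i.2.1 _ i'.2.1 _ e2
  have e4 : i = i' := Subtype.ext e3
  subst e4
  exact ⟨hX.smul_inj (hR.mem _ i.2.1) e1, rfl⟩

theorem orbS_cR (hX : FreeCx H X) (hR : Reps H X R) (k : ℕ) :
    letI := simpAct (H := H) hX.inv; orbS H (cR hR k) = {c | c.1.card = k} := by
  ext q
  constructor
  · rintro ⟨h, i, rfl⟩
    show (h • i.1).card = k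
    rw [card_smul, i.2.2]
  · intro hq
    have hq' : q.1.card = k := hq
    refine ⟨hR.el q.1, ⟨hR.rep q.1, hR.rep_mem q.2, (hR.rep_card q.2).trans hq'⟩, ?_⟩
    exact Subtype.ext (hR.el_rep q.2).symm

theorem matOf_dZ (hX : FreeCx H X) (hR : Reps H X R) (ho : OrdInv H X) (k : ℕ)
    (E : L2 {σ : Finset P // σ ∈ X} →L[ℝ] L2 {σ : Finset P // σ ∈ X})
    (hE : ∀ z q, (E z) q = ∑ᶠ p, ((simpCx X (fun x y : P => x < y)).inc p q : ℝ) * z p) :
    letI := simpAct (H := H) hX.inv
    MatOf E (cR hR k) (cR hR (k + 1)) (dZ hR k (k + 1)) := by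
  classical
  intro z hz
  rw [orbS_cR hX hR] at hz
  refine ⟨?_, fun g j => ?_⟩
  · rw [orbS_cR hX hR]
    intro q hq
    rw [hE]
    refine finsum_eq_zero_of_forall_eq_zero fun p => ?_
    by_cases h0 : (simpCx X (fun x y : P => x < y)).inc p q = 0
    · rw [h0, Int.cast_zero, zero_mul]
    · obtain ⟨v, hv, e⟩ := simpInc_ne h0
      have h1 : z p = 0 := by
        apply hz p
        intro hp
        apply hq
        have hp' : p.1.card = k := hp
        show q.1.card = k + 1
        have h2 := Finset.card_pos.mpr (hX.ne _ q.2)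
        rw [e, Finset.card_erase_of_mem hv] at hp'
        omega
      rw [h1, mul_zero]
  · have hjX : j.1 ∈ X := hR.mem _ j.2.1
    rw [hE]
    have h2 := rmz_faces z (g • j.1)
    refine Eq.trans ?_ h2.symm
    have h3 := rmz_key hX hR k j.1 (fun v => j.1.erase v)
      (fun v => simpInc (fun x y : P => x < y) (j.1.erase v) j.1)
      (fun v hv _ => by rw [Finset.card_erase_of_mem hv, j.2.2]; rfl) z g
    refine Eq.trans ?_ (h3.trans ?_)
    · show ∑ i : Rk R k, (dZ hR k (k + 1) i j).sum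
        (fun x n => (n : ℝ) * z ⟨(g * x⁻¹) • i.1, hX.inv _ _ (hR.mem _ i.2.1)⟩) = _
      refine Finset.sum_congr rfl fun i _ => ?_
      unfold dZ
      refine Finsupp.sum_congr fun x _ => ?_
      rw [zf_mem z (hX.inv _ _ (hR.mem _ i.2.1))]
    · rw [show g • j.1 = j.1.image (fun x => g • x) from rfl,
        Finset.sum_image (fun x _ y _ e => MulAction.injective g e)]
      refine Finset.sum_congr rfl fun v _ => ?_
      rw [show j.1.image (fun x => g • x) = g • j.1 from rfl, ← smul_erase,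
        rmz_smul hX ho g _ hjX]

theorem matOf_bZ (hX : FreeCx H X) (hR : Reps H X R) (ho : OrdInv H X) (k : ℕ)
    (E : L2 {σ : Finset P // σ ∈ X} →L[ℝ] L2 {σ : Finset P // σ ∈ X})
    (hE : ∀ z p, (E z) p = ∑ᶠ q, ((simpCx X (fun x y : P => x < y)).inc p q : ℝ) * z q) :
    letI := simpAct (H := H) hX.inv
    MatOf E (cR hR (k + 1)) (cR hR k) (bZ hR (k + 1) k) := by
  classical
  intro z hz
  rw [orbS_cR hX hR] at hz
  refine ⟨?_, fun g j => ?_⟩
  · rw [orbS_cR hX hR]
    intro p hp
    rw [hE]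
    refine finsum_eq_zero_of_forall_eq_zero fun q => ?_
    by_cases h0 : (simpCx X (fun x y : P => x < y)).inc p q = 0
    · rw [h0, Int.cast_zero, zero_mul]
    · obtain ⟨v, hv, e⟩ := simpInc_ne h0
      have h1 : z q = 0 := by
        apply hz q
        intro hq
        apply hp
        have hq' : q.1.card = k + 1 := hq
        show p.1.card = k
        rw [e, Finset.card_erase_of_mem hv, hq']
        rfl
      rw [h1, mul_zero]
  · have hjX : j.1 ∈ X := hR.mem _ j.2.1
    rw [hE]
    have h2 := rmz_cofaces hX z (hX.inv g _ hjX)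
    refine Eq.trans ?_ h2.symm
    have h3 := rmz_key hX hR (k + 1) (nb X j.1) (fun v => insert v j.1)
      (fun v => simpInc (fun x y : P => x < y) j.1 (insert v j.1))
      (fun v hv _ => by
        rw [Finset.card_insert_of_notMem ((hX.mem_nb hjX).mp hv).1, j.2.2]) z g
    refine Eq.trans ?_ (h3.trans ?_)
    · show ∑ i : Rk R (k + 1), (bZ hR (k + 1) k i j).sum
        (fun x n => (n : ℝ) * z ⟨(g * x⁻¹) • i.1, hX.inv _ _ (hR.mem _ i.2.1)⟩) = _
      refine Finset.sum_congr rfl fun i _ => ?_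
      unfold bZ
      refine Finsupp.sum_congr fun x _ => ?_
      rw [zf_mem z (hX.inv _ _ (hR.mem _ i.2.1))]
    · rw [hX.nb_smul g hjX, show g • nb X j.1 = (nb X j.1).image (fun x => g • x) from rfl,
        Finset.sum_image (fun x _ y _ e => MulAction.injective g e)]
      refine Finset.sum_congr rfl fun v hv => ?_
      rw [← Finset.smul_finset_insert, rmz_smul hX ho g _ ((hX.mem_nb hjX).mp hv).2]

variable {D : Type} [DivisionRing D] [CharP D 2] (t : H →* Dˣ)
  (φ : MonoidAlgebra (ZMod 2) H →+* D)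

omit [CharP D 2] in
private theorem ev_add' (f f' : H →₀ ℤ) : ev t (f + f') = ev t f + ev t f' := by
  unfold ev
  refine Finsupp.sum_add_index' (fun x => ?_) (fun x n n' => ?_)
  · rw [Int.cast_zero, zero_mul]
  · rw [Int.cast_add, add_mul]

omit [CharP D 2] in
private theorem ev_single' (x : H) (n : ℤ) :
    ev t (Finsupp.single x n) = (n : D) * ((t x : Dˣ) : D) := by
  unfold ev
  rw [Finsupp.sum_single_index]
  rw [Int.cast_zero, zero_mul]

omit [CharP D 2] in
private theorem ev_zero' : ev t (0 : H →₀ ℤ) = 0 := Finsupp.sum_zero_index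

omit [CharP D 2] in
private theorem ev_sum' {ι : Type} (s : Finset ι) (f : ι → H →₀ ℤ) :
    ev t (∑ i ∈ s, f i) = ∑ i ∈ s, ev t (f i) := by
  classical
  induction s using Finset.induction_on with
  | empty => rw [Finset.sum_empty, Finset.sum_empty, ev_zero']
  | insert a s ha ih => rw [Finset.sum_insert ha, Finset.sum_insert ha, ev_add', ih]

omit [LinearOrder P] in
private theorem rmz_cast (r : P → P → Prop) [DecidableEq P] {τ : Finset P} {v : P}
    (hv : v ∈ τ) : ((simpInc r (τ.erase v) τ : ℤ) : D) = 1 := by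
  rw [simpInc_erase r hv, Int.cast_pow, Int.cast_neg, Int.cast_one]
  have h1 : (-1 : D) = 1 := by
    have h2 : ((2 : ℕ) : D) = 0 := CharP.cast_eq_zero D 2
    have h3 : (1 : D) + 1 = 0 := by
      rw [← h2]
      push_cast
      norm_num
    exact (eq_neg_of_add_eq_zero_left h3).symm
  rw [h1, one_pow]

theorem ev_dZ (hX : FreeCx H X) (hR : Reps H X R) (hφ : ∀ h : H, φ (gN h) = ((t h : Dˣ) : D))
    (j k : ℕ) (r : Rk R j) (r' : Rk R k) : ev t (dZ hR j k r r') = φ (dmat hR j k r r') := by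
  classical
  unfold dZ
  show ev t _ = φ (∑ p ∈ r'.1, _)
  rw [ev_sum', map_sum]
  refine Finset.sum_congr rfl fun v hv => ?_
  split_ifs
  · rw [ev_single', rmz_cast _ hv, one_mul, hφ]
  · rw [ev_zero', map_zero]

theorem ev_bZ (hX : FreeCx H X) (hR : Reps H X R) (hφ : ∀ h : H, φ (gN h) = ((t h : Dˣ) : D))
    (j k : ℕ) (r' : Rk R k) (r : Rk R j) : ev t (bZ hR k j r' r) = φ (bmat hR k j r' r) := by
  classical
  unfold bZ
  show ev t _ = φ (∑ p ∈ nb X r.1, _)
  rw [ev_sum', map_sum]
  refine Finset.sum_congr rfl fun v hv => ?_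
  have h1 := ((hX.mem_nb (hR.mem _ r.2.1)).mp hv).1
  have h2 : ((simpInc (fun x y : P => x < y) r.1 (insert v r.1) : ℤ) : D) = 1 := by
    have h3 := rmz_cast (D := D) (fun x y : P => x < y) (Finset.mem_insert_self v r.1)
    rwa [Finset.erase_insert h1] at h3
  split_ifs
  · rw [ev_single', h2, one_mul, hφ]
  · rw [ev_zero', map_zero]

end SingerBO
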