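import Mathlib

/-!
# Piece GORE: extension of a homomorphism to the division ring of fractions (about 130 lines)

`P` is a left Ore subring of the division ring `D`, `f : P →+* E` is injective. `P` has no zero divisors;
`OreLocalization.oreSetOfNoZeroDivisors` (or `nonempty_oreSet_iff_of_noZeroDivisors`) gives an instance of `OreLocalization.OreSet (nonZeroDivisors P)` (from
`hO`), and `F = OreLocalization (nonZeroDivisors P) P` is a division ring (Mathlib). The universal property
(`OreLocalization.universalHom`, the elements of `nonZeroDivisors P` are non-zero, so units in `D` resp. `E`) gives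
`α : F →+* D` extending the inclusion and `β : F →+* E` extending `f`. `α` is injective, its range is a division
subring which contains `P`, so it contains `Subfield.closure P`. For `x` in the range of `α` let
`θ x = β y` for the unique `y` with `α y = x` (and `0` otherwise). For `den`: every element of `F` is `s⁻¹ r`
(`OreLocalization.ind`, `universalHom_apply`), so `s * x = r`; for finitely many elements use
`s' * s₀ = s'' * s` with `s' ≠ 0`, `s'' ∈ P` by induction: if `s₀` works for `A` and `s` for `x` then `s' * s₀` works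
for `insert x A`.
-/

namespace SingerBO

open nonZeroDivisors in
private theorem gore_loc {D : Type} [DivisionRing D] (P : Subring D)
    (hO : ∀ a ∈ P, ∀ b ∈ P, b ≠ 0 → ∃ a' ∈ P, ∃ b' ∈ P, b' ≠ 0 ∧ b' * a = a' * b) :
    ∃ (F : Type) (_ : DivisionRing F) (ι : P →+* F),
      (∀ z : F, ∃ s r : P, s ≠ 0 ∧ ι s * z = ι r) ∧
      (∀ (E : Type) [DivisionRing E] (g : P →+* E), Function.Injective g →
        ∃ φ : F →+* E, ∀ x, φ (ι x) = g x) := by
  have hne : Nonempty (OreLocalization.OreSet (nonZeroDivisors P)) := by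
    rw [OreLocalization.nonempty_oreSet_iff_of_noZeroDivisors]
    intro r s
    have hs : ((s : P) : D) ≠ 0 := by
      intro h
      exact nonZeroDivisors.coe_ne_zero s (Subtype.ext h)
    obtain ⟨a', ha', b', hb', hb0, h⟩ := hO (r : D) r.2 ((s : P) : D) (s : P).2 hs
    refine ⟨⟨a', ha'⟩, ⟨⟨b', hb'⟩, mem_nonZeroDivisors_of_ne_zero ?_⟩, ?_⟩
    · intro h0
      exact hb0 (congrArg Subtype.val h0)
    · exact Subtype.ext h
  obtain ⟨inst⟩ := hne
  refine ⟨OreLocalization (nonZeroDivisors P) P, inferInstance,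
    OreLocalization.numeratorRingHom, ?_, ?_⟩
  · intro z
    induction z with
    | _ r s =>
      refine ⟨(s : P), r, nonZeroDivisors.coe_ne_zero s, ?_⟩
      show (((s : P) : P) /ₒ (1 : nonZeroDivisors P)) * (r /ₒ s) = r /ₒ 1
      rw [OreLocalization.mul_cancel]
  · intro E _ g hg
    have hg0 : ∀ s : nonZeroDivisors P, g (s : P) ≠ 0 := by
      intro s h
      rw [← map_zero g] at h
      exact nonZeroDivisors.coe_ne_zero s (hg h)
    let fS : nonZeroDivisors P →* Units E :=
      { toFun := fun s => Units.mk0 (g (s : P)) (hg0 s)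
        map_one' := by
          ext
          simp
        map_mul' := fun s t => by
          ext
          simp }
    have hf : ∀ s : nonZeroDivisors P, g (s : P) = fS s := fun s => rfl
    refine ⟨OreLocalization.universalHom g fS hf, fun x => ?_⟩
    exact OreLocalization.universalHom_commutes g fS hf

theorem ore_ext {D E : Type} [DivisionRing D] [DivisionRing E] (P : Subring D)
    (hO : ∀ a ∈ P, ∀ b ∈ P, b ≠ 0 → ∃ a' ∈ P, ∃ b' ∈ P, b' ≠ 0 ∧ b' * a = a' * b)
    (f : P →+* E) (hf : Function.Injective f) :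
    ∃ θ : D → E, (∀ x : P, θ x = f x) ∧
      (∀ x ∈ Subfield.closure (P : Set D), ∀ y ∈ Subfield.closure (P : Set D),
        θ (x + y) = θ x + θ y ∧ θ (x * y) = θ x * θ y) := by
  classical
  obtain ⟨F, _, ι, _, huniv⟩ := gore_loc P hO
  obtain ⟨α, hα⟩ := huniv D P.subtype Subtype.val_injective
  obtain ⟨β, hβ⟩ := huniv E f hf
  have hαinj : Function.Injective α := α.injective
  have hcl : ∀ x ∈ Subfield.closure (P : Set D), ∃ y, α y = x := by
    have h1 : Subfield.closure (P : Set D) ≤ α.fieldRange := by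
      rw [Subfield.closure_le]
      intro x hx
      exact ⟨ι ⟨x, hx⟩, hα ⟨x, hx⟩⟩
    intro x hx
    exact h1 hx
  let θ : D → E := fun x => if h : ∃ y, α y = x then β h.choose else 0
  have hθ : ∀ y, θ (α y) = β y := by
    intro y
    have h : ∃ y', α y' = α y := ⟨y, rfl⟩
    show (if h : ∃ y', α y' = α y then β h.choose else 0) = β y
    rw [dif_pos h]
    exact congrArg β (hαinj h.choose_spec)
  refine ⟨θ, fun x => ?_, fun x hx y hy => ?_⟩
  · have h2 : (x : D) = α (ι x) := (hα x).symm
    rw [h2, hθ, hβ]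
  · obtain ⟨u, rfl⟩ := hcl x hx
    obtain ⟨v, rfl⟩ := hcl y hy
    refine ⟨?_, ?_⟩
    · rw [← map_add, hθ, hθ, hθ, map_add]
    · rw [← map_mul, hθ, hθ, hθ, map_mul]

theorem ore_den {D : Type} [DivisionRing D] (P : Subring D)
    (hO : ∀ a ∈ P, ∀ b ∈ P, b ≠ 0 → ∃ a' ∈ P, ∃ b' ∈ P, b' ≠ 0 ∧ b' * a = a' * b)
    (A : Finset D) (hA : ∀ x ∈ A, x ∈ Subfield.closure (P : Set D)) :
    ∃ s ∈ P, s ≠ 0 ∧ ∀ x ∈ A, s * x ∈ P := by
  classical
  obtain ⟨F, _, ι, hfrac, huniv⟩ := gore_loc P hO
  obtain ⟨α, hα⟩ := huniv D P.subtype Subtype.val_injective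
  have hone : ∀ x ∈ Subfield.closure (P : Set D), ∃ s ∈ P, s ≠ 0 ∧ s * x ∈ P := by
    have h1 : Subfield.closure (P : Set D) ≤ α.fieldRange := by
      rw [Subfield.closure_le]
      intro x hx
      exact ⟨ι ⟨x, hx⟩, hα ⟨x, hx⟩⟩
    intro x hx
    obtain ⟨z, rfl⟩ := h1 hx
    obtain ⟨s, r, hs, hsr⟩ := hfrac z
    refine ⟨(s : D), s.2, fun h => hs (Subtype.ext h), ?_⟩
    have h2 : (s : D) * α z = (r : D) := by
      have h3 := congrArg α hsr
      rw [map_mul, hα, hα] at h3
      exact h3
    rw [h2]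
    exact r.2
  induction A using Finset.induction_on with
  | empty => exact ⟨1, P.one_mem, one_ne_zero, by simp⟩
  | insert x A _ ih =>
    obtain ⟨s₀, hs₀, hs₀0, hs₀A⟩ := ih (fun y hy => hA y (Finset.mem_insert_of_mem hy))
    obtain ⟨s, hs, hs0, hsx⟩ := hone x (hA x (Finset.mem_insert_self x A))
    obtain ⟨a', ha', b', hb', hb0, h⟩ := hO s₀ hs₀ s hs hs0
    refine ⟨b' * s₀, P.mul_mem hb' hs₀, mul_ne_zero hb0 hs₀0, fun y hy => ?_⟩
    rcases Finset.mem_insert.1 hy with rfl | hy
    · rw [h, mul_assoc]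
      exact P.mul_mem ha' hsx
    · rw [mul_assoc]
      exact P.mul_mem hb' (hs₀A y hy)

end SingerBO
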