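import Mathlib
import Pool.Agent.Lib_MP_394d50_bo.MInv
import Pool.Agent.Lib_MP_394d50_bo.FDefs

/-!
# Laurent series in a central variable; the expansions along a homomorphism
-/

namespace SingerBO

/-- The Laurent series in a central variable. -/
abbrev LS (D : Type) [DivisionRing D] : Type := MN D (Multiplicative ℤ)

section

variable {D : Type} [DivisionRing D]

/-- The coefficient of degree `n`. -/
def lc (f : LS D) (n : ℤ) : D := f.cf (Multiplicative.ofAdd n)

/-- The series `r T ^ n`. -/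
def lsg (n : ℤ) (r : D) : LS D := MN.single (Multiplicative.ofAdd n) r

theorem ls_ext {f g : LS D} (h : ∀ n, lc f n = lc g n) : f = g :=
  MN.ext (funext fun v => h (Multiplicative.toAdd v))

theorem lc_zero (n : ℤ) : lc (0 : LS D) n = 0 := rfl

theorem lc_add (f g : LS D) (n : ℤ) : lc (f + g) n = lc f n + lc g n := rfl

theorem lc_neg (f : LS D) (n : ℤ) : lc (-f) n = - lc f n := rfl

theorem lc_sub (f g : LS D) (n : ℤ) : lc (f - g) n = lc f n - lc g n := MN.sub_cf f g _

theorem lc_sum {ι : Type} (s : Finset ι) (f : ι → LS D) (n : ℤ) :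
    lc (∑ i ∈ s, f i) n = ∑ i ∈ s, lc (f i) n := MN.sum_cf s f _

theorem lc_lsg (m : ℤ) (r : D) (n : ℤ) : lc (lsg m r) n = if n = m then r else 0 := by
  unfold lc lsg
  rw [MN.single_cf]
  exact if_congr (Equiv.apply_eq_iff_eq _) rfl rfl

theorem lc_one (n : ℤ) : lc (1 : LS D) n = if n = 0 then 1 else 0 := lc_lsg 0 1 n

theorem lsg_one : lsg 0 (1 : D) = 1 := rfl

theorem lsg_mul (m n : ℤ) (a b : D) : lsg m a * lsg n b = lsg (m + n) (a * b) := by
  unfold lsg
  rw [MN.single_mul_single]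
  rfl

theorem lsg_add (m : ℤ) (a b : D) : lsg m (a + b) = lsg m a + lsg m b := MN.single_add _ _ _

theorem lsg_zero (m : ℤ) : lsg m (0 : D) = 0 := MN.single_zero _

/-- A lower bound of the exponents. -/
theorem exists_lb (f : LS D) : ∃ a : ℤ, ∀ n, n < a → lc f n = 0 := by
  by_cases h : f = 0
  · exact ⟨0, fun n _ => by rw [h]; rfl⟩
  · obtain ⟨v₀, _, h2⟩ := MN.exists_lead h
    refine ⟨Multiplicative.toAdd v₀, fun n hn => ?_⟩
    by_contra hc
    have h3 := h2 _ hc
    exact absurd h3 (not_le.mpr hn)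

/-- The least exponent. -/
theorem exists_least {f : LS D} (hf : f ≠ 0) : ∃ m : ℤ, lc f m ≠ 0 ∧ ∀ n, n < m → lc f n = 0 := by
  obtain ⟨v₀, h1, h2⟩ := MN.exists_lead hf
  refine ⟨Multiplicative.toAdd v₀, h1, fun n hn => ?_⟩
  by_contra hc
  exact absurd (h2 _ hc) (not_le.mpr hn)

/-- The coefficients of a product, over any sufficiently large finite set. -/
theorem lc_mul (f g : LS D) (n : ℤ) (F : Finset ℤ)
    (hF : ∀ i, lc f i ≠ 0 → lc g (n - i) ≠ 0 → i ∈ F) :
    lc (f * g) n = ∑ i ∈ F, lc f i * lc g (n - i) := by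
  unfold lc
  rw [MN.mul_cf_sum f g _ (F.map (Multiplicative.ofAdd (α := ℤ)).toEmbedding)]
  · rw [Finset.sum_map]
    refine Finset.sum_congr rfl fun i _ => ?_
    have e : ((Multiplicative.ofAdd (α := ℤ)).toEmbedding i)⁻¹ * Multiplicative.ofAdd n =
        Multiplicative.ofAdd (n - i) := by
      show Multiplicative.ofAdd (-i + n) = Multiplicative.ofAdd (n - i)
      rw [neg_add_eq_sub]
    rw [e]
    rfl
  · intro x h1 h2
    rw [Finset.mem_map]
    refine ⟨Multiplicative.toAdd x, hF _ h1 ?_, rfl⟩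
    have e : x⁻¹ * Multiplicative.ofAdd n = Multiplicative.ofAdd (n - Multiplicative.toAdd x) := by
      show Multiplicative.ofAdd (- Multiplicative.toAdd x + n) = _
      rw [neg_add_eq_sub]
    rw [e] at h2
    exact h2

theorem lc_mul_Icc (f g : LS D) {a b : ℤ} (ha : ∀ n, n < a → lc f n = 0)
    (hb : ∀ n, n < b → lc g n = 0) (n : ℤ) :
    lc (f * g) n = ∑ i ∈ Finset.Icc a (n - b), lc f i * lc g (n - i) := by
  refine lc_mul f g n _ fun i h1 h2 => ?_
  rw [Finset.mem_Icc]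
  constructor
  · by_contra h
    exact h1 (ha i (by omega))
  · by_contra h
    exact h2 (hb _ (by omega))

theorem lc_lsg_mul (m : ℤ) (a : D) (f : LS D) (n : ℤ) : lc (lsg m a * f) n = a * lc f (n - m) := by
  rw [lc_mul (lsg m a) f n {m}]
  · rw [Finset.sum_singleton, lc_lsg, if_pos rfl]
  · intro i h1 _
    rw [lc_lsg] at h1
    rw [Finset.mem_singleton]
    by_contra h
    exact h1 (if_neg h)

theorem lc_mul_lsg (m : ℤ) (a : D) (f : LS D) (n : ℤ) : lc (f * lsg m a) n = lc f (n - m) * a := by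
  rw [lc_mul f (lsg m a) n {n - m}]
  · rw [Finset.sum_singleton, lc_lsg, if_pos (by omega)]
  · intro i _ h2
    rw [lc_lsg] at h2
    rw [Finset.mem_singleton]
    by_contra h
    exact h2 (if_neg (by omega))

end

/-! ## Expansions -/

section

variable {G D : Type} [Group G] [DivisionRing D]

/-- `θ` is a ring homomorphism on the division ring generated by `H`, with
`θ (t h) = t h * T ^ χ h`. -/
structure Th (t : G →* Dˣ) (H : Subgroup G) (χ : G → ℤ) (θ : D → LS D) : Prop where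
  add : ∀ x ∈ DH t H, ∀ y ∈ DH t H, θ (x + y) = θ x + θ y
  mul : ∀ x ∈ DH t H, ∀ y ∈ DH t H, θ (x * y) = θ x * θ y
  grp : ∀ h ∈ H, θ ((t h : Dˣ) : D) = lsg (χ h) ((t h : Dˣ) : D)

variable {t : G →* Dˣ} {H N : Subgroup G} {χ : G → ℤ} {s : G} {θ : D → LS D}

theorem Th.zero (hθ : Th t H χ θ) : θ 0 = 0 := by
  have h := hθ.add 0 (zero_mem _) 0 (zero_mem _)
  rw [add_zero] at h
  exact left_eq_add.mp h

theorem Th.one (hθ : Th t H χ θ) (hc : Chi H N χ s) : θ 1 = 1 := by
  have h := hθ.grp 1 H.one_mem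
  rw [map_one, Units.val_one, hc.map_one, lsg_one] at h
  exact h

theorem Th.neg (hθ : Th t H χ θ) {x : D} (hx : x ∈ DH t H) : θ (-x) = - θ x := by
  have h := hθ.add x hx (-x) (neg_mem hx)
  rw [add_neg_cancel, hθ.zero] at h
  exact eq_neg_of_add_eq_zero_right h.symm

theorem Th.sub (hθ : Th t H χ θ) {x y : D} (hx : x ∈ DH t H) (hy : y ∈ DH t H) :
    θ (x - y) = θ x - θ y := by
  rw [sub_eq_add_neg, hθ.add x hx _ (neg_mem hy), hθ.neg hy, sub_eq_add_neg]

theorem Th.sum (hθ : Th t H χ θ) {ι : Type} (F : Finset ι) (f : ι → D)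
    (hf : ∀ i ∈ F, f i ∈ DH t H) : θ (∑ i ∈ F, f i) = ∑ i ∈ F, θ (f i) := by
  classical
  induction F using Finset.induction_on with
  | empty => rw [Finset.sum_empty, Finset.sum_empty, hθ.zero]
  | insert a F ha ih =>
    rw [Finset.sum_insert ha, Finset.sum_insert ha,
      hθ.add _ (hf a (Finset.mem_insert_self a F)) _
        (sum_mem fun i hi => hf i (Finset.mem_insert_of_mem hi)),
      ih fun i hi => hf i (Finset.mem_insert_of_mem hi)]

theorem Th.inv (hθ : Th t H χ θ) (hc : Chi H N χ s) {x : D} (hx : x ∈ DH t H) :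
    θ x⁻¹ = (θ x)⁻¹ := by
  by_cases h0 : x = 0
  · rw [h0, inv_zero, hθ.zero, inv_zero]
  · have h := hθ.mul x hx x⁻¹ (inv_mem hx)
    rw [mul_inv_cancel₀ h0, hθ.one hc] at h
    exact eq_inv_of_mul_eq_one_right h.symm

theorem Th.ne_zero (hθ : Th t H χ θ) (hc : Chi H N χ s) {x : D} (hx : x ∈ DH t H) (h0 : x ≠ 0) :
    θ x ≠ 0 := by
  intro h1
  have h := hθ.mul x hx x⁻¹ (inv_mem hx)
  rw [mul_inv_cancel₀ h0, hθ.one hc, h1, zero_mul] at h
  exact one_ne_zero h

/-- On the division ring generated by the kernel. -/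
theorem Th.of_ker (hθ : Th t H χ θ) (hc : Chi H N χ s) {x : D} (hx : x ∈ DH t N) :
    θ x = lsg 0 x := by
  have hle := DH_mono t hc.le
  unfold DH at hx
  induction hx using Subfield.closure_induction with
  | mem x hx =>
    obtain ⟨h, hh, rfl⟩ := hx
    rw [hθ.grp h (hc.le hh), hc.zero hh]
  | one => rw [hθ.one hc, lsg_one]
  | add x y hx hy ihx ihy => rw [hθ.add x (hle hx) y (hle hy), ihx, ihy, lsg_add]
  | neg x hx ih =>
    rw [hθ.neg (hle hx), ih]
    refine ls_ext fun n => ?_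
    rw [lc_neg, lc_lsg, lc_lsg]
    split_ifs
    · rfl
    · rw [neg_zero]
  | inv x hx ih =>
    by_cases h0 : x = 0
    · rw [h0, inv_zero, hθ.zero, lsg_zero]
    · rw [hθ.inv hc (hle hx), ih]
      refine inv_eq_of_mul_eq_one_right ?_
      rw [lsg_mul, mul_inv_cancel₀ h0, add_zero, lsg_one]
  | mul x y hx hy ihx ihy => rw [hθ.mul x (hle hx) y (hle hy), ihx, ihy, lsg_mul, add_zero]

/-- Multiplication by a group element on the right. -/
theorem Th.mul_grp (hθ : Th t H χ θ) {x : D} (hx : x ∈ DH t H) {h : G} (hh : h ∈ H) (n : ℤ) :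
    lc (θ (x * ((t h : Dˣ) : D))) n = lc (θ x) (n - χ h) * ((t h : Dˣ) : D) := by
  rw [hθ.mul x hx _ (mem_DH t hh), hθ.grp h hh, lc_mul_lsg]

/-- Multiplication by a group element on the left. -/
theorem Th.grp_mul (hθ : Th t H χ θ) {x : D} (hx : x ∈ DH t H) {h : G} (hh : h ∈ H) (n : ℤ) :
    lc (θ (((t h : Dˣ) : D) * x)) n = ((t h : Dˣ) : D) * lc (θ x) (n - χ h) := by
  rw [hθ.mul _ (mem_DH t hh) x hx, hθ.grp h hh, lc_lsg_mul]

/-- The finite sums `∑ d n * t s ^ n`, `d n` in the division ring generated by `N`. -/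
def PL (t : G →* Dˣ) (N : Subgroup G) (s : G) : Set D :=
  {x | ∃ (F : Finset ℤ) (d : ℤ → D), (∀ n ∈ F, d n ∈ DH t N) ∧
    x = ∑ n ∈ F, d n * ((t (s ^ n) : Dˣ) : D)}

end

end SingerBO
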