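import Mathlib
import Pool.Agent.Lib_MP_394d50_bo.LDefs
import Pool.Agent.Lib_MP_394d50_bo.GOre

/-!
# Piece GTH: the expansion along a homomorphism (about 250 lines)

Let `P` be the set `PL t N s`. Write `s_n = t (s ^ n)`.
* `pl_subring`: sums: common finite set `F` (extend `d` by `0`). Products: `(d s_m) (e s_n) = (d (s_m e s_m⁻¹)) s_{m+n}`,
  `s_m e s_m⁻¹ ∈ DH t N` by `DH_conj` and `Chi.conj`; a finite sum of such elements is in `P`. (Show: `P` is the
  additive closure of the elements `d s_n`; for example `P` is closed under addition and contains them.)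
* `pl_indep`: `∑ n ∈ F, d n * s_n = 0` with `d n ∈ DH t N` gives `d n = 0`: `FEb.right` for `N` and the finite set
  `F.image (s ^ ·)` (`s ^ n * (s ^ m)⁻¹ ∈ N` gives `χ (s ^ (n - m)) = n - m = 0`).
* `pl_ore`: for `a, b ∈ P`, `b ≠ 0`, there are `a', b' ∈ P`, `b' ≠ 0`, `b' a = a' b`. Let `a, b` be sums over the exponents in
  `[-d, d]`. For `m` large consider the left `DH t N`-linear map
  `(Fin (m + 1) → DH t N) × (Fin (m + 1) → DH t N) → (Fin (m + 2 d + 1) → DH t N)` which maps `(x, y)` to the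
  coefficients of `(∑ x_i s_i) a - (∑ y_i s_i) b` in the degrees `-d, …, m + d` (dimension `2 (m + 1)` to `m + 2 d + 1`):
  not injective for `m ≥ 2 d` (`LinearMap.exists_ne_zero...` or `LinearMap.finrank_le_finrank_of_injective`). So
  there are `b', a'`, not both zero (`pl_indep`), with `b' a = a' b`; if `b' = 0` then `a' b = 0`, `a' = 0`,
  contradiction. Alternatively division with remainder: `P` is a (skew) Laurent polynomial ring over a division
  ring; induction on the length of `b`: the set of the `(a', b')`... the dimension count is simpler: one may also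
  avoid the coefficient maps by working in the left `DH t N`-module `D`: the `2 (m + 1)` elements `s_i a`, `s_i b`
  (`0 ≤ i ≤ m`) lie in the span of the `m + 2 d + 1` elements `s_j`, so they are linearly dependent over `DH t N`
  (`finrank_span_finset_le_card`, `LinearIndependent.fintype_card_le_finrank`...).
* `Subfield.closure P = DH t H`: `t h = (t (h * s ^ (- χ h))) * s_{χ h}` (`Chi.mul_zpow_mem`), and `P ≤ DH t H`.
* `theta_exists`: the homomorphism `f : P →+* LS D`, `f (∑ d n * s_n) = ∑ lsg n (d n * s_n)`, well-defined and injective by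
  `pl_indep`; multiplicative since `lsg_mul`. (One way: for `x ∈ P` choose `F`, `d` and define
  `f x = ∑ n ∈ F, lsg n (d n * s_n)`; by `pl_indep` the result does not depend on the choice: if
  `∑_F d n * s_n = ∑_{F'} d' n * s_n` then compare over `F ∪ F'`.) Then `ore_ext`; for `h ∈ H`,
  `θ (t h) = f (t h) = lsg (χ h) (t h)`.
* `pl_den`: `ore_den`.
-/

namespace SingerBO

section

variable {G D : Type} [Group G] [DivisionRing D] {t : G →* Dˣ} {H N : Subgroup G} {χ : G → ℤ}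
  {s : G}

private noncomputable def gthE (t : G →* Dˣ) (s : G) : (ℤ →₀ D) →+ D :=
  Finsupp.liftAddHom (fun n => AddMonoidHom.mulRight ((t (s ^ n) : Dˣ) : D))

private noncomputable def gthS (D : Type) [DivisionRing D] (n : ℤ) : D →+ LS D where
  toFun := lsg n
  map_zero' := lsg_zero n
  map_add' := lsg_add n

private noncomputable def gthL (t : G →* Dˣ) (s : G) : (ℤ →₀ D) →+ LS D :=
  Finsupp.liftAddHom (fun n => (gthS D n).comp (AddMonoidHom.mulRight ((t (s ^ n) : Dˣ) : D)))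

private theorem gthE_single (t : G →* Dˣ) (s : G) (n : ℤ) (a : D) :
    gthE t s (Finsupp.single n a) = a * ((t (s ^ n) : Dˣ) : D) :=
  Finsupp.liftAddHom_apply_single _ _ _

private theorem gthL_single (t : G →* Dˣ) (s : G) (n : ℤ) (a : D) :
    gthL t s (Finsupp.single n a) = lsg n (a * ((t (s ^ n) : Dˣ) : D)) :=
  Finsupp.liftAddHom_apply_single _ _ _

private theorem gthE_apply (t : G →* Dˣ) (s : G) (d : ℤ →₀ D) :
    gthE t s d = ∑ n ∈ d.support, d n * ((t (s ^ n) : Dˣ) : D) := rfl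

private theorem gthL_apply (t : G →* Dˣ) (s : G) (d : ℤ →₀ D) :
    gthL t s d = ∑ n ∈ d.support, lsg n (d n * ((t (s ^ n) : Dˣ) : D)) := rfl

private theorem gth_single_mem (t : G →* Dˣ) (n : ℤ) {a : D} (ha : a ∈ DH t N) (m : ℤ) :
    Finsupp.single n a m ∈ DH t N := by
  classical
  rw [Finsupp.single_apply]
  split_ifs
  · exact ha
  · exact zero_mem _

private theorem gth_mem (t : G →* Dˣ) (N : Subgroup G) (s : G) (x : D) :
    x ∈ PL t N s ↔ ∃ d : ℤ →₀ D, (∀ n, d n ∈ DH t N) ∧ gthE t s d = x := by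
  classical
  constructor
  · rintro ⟨F, d, hd, rfl⟩
    refine ⟨∑ n ∈ F, Finsupp.single n (d n), fun m => ?_, ?_⟩
    · rw [Finsupp.finsetSum_apply]
      exact sum_mem fun n hn => gth_single_mem t n (hd n hn) m
    · rw [map_sum]
      exact Finset.sum_congr rfl fun n _ => gthE_single t s n (d n)
  · rintro ⟨d, hd, rfl⟩
    exact ⟨d.support, d, fun n _ => hd n, gthE_apply t s d⟩

private theorem gth_conj (hc : Chi H N χ s) (m : ℤ) {a : D} (ha : a ∈ DH t N) :
    ∃ b ∈ DH t N, ((t (s ^ m) : Dˣ) : D) * a = b * ((t (s ^ m) : Dˣ) : D) := by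
  refine ⟨_, DH_conj t (k := s ^ m) (fun h hh => hc.conj hh (hc.zpow_mem m)) ha, ?_⟩
  rw [mul_assoc, ← Units.val_mul, inv_mul_cancel, Units.val_one, mul_one]

private theorem gth_zpow (t : G →* Dˣ) (s : G) (m n : ℤ) :
    ((t (s ^ m) : Dˣ) : D) * ((t (s ^ n) : Dˣ) : D) = ((t (s ^ (m + n)) : Dˣ) : D) := by
  rw [← Units.val_mul, ← map_mul, ← zpow_add]

private theorem gth_mul (hc : Chi H N χ s) (d d' : ℤ →₀ D) (hd : ∀ n, d n ∈ DH t N)
    (hd' : ∀ n, d' n ∈ DH t N) :
    ∃ e : ℤ →₀ D, (∀ n, e n ∈ DH t N) ∧ gthE t s e = gthE t s d * gthE t s d' ∧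
      gthL t s e = gthL t s d * gthL t s d' := by
  classical
  have h1 : ∀ m n : ℤ, ∃ b ∈ DH t N, ((t (s ^ m) : Dˣ) : D) * d' n =
      b * ((t (s ^ m) : Dˣ) : D) := fun m n => gth_conj hc m (hd' n)
  choose b hb hbm using h1
  have h2 : ∀ m n : ℤ, d m * b m n * ((t (s ^ (m + n)) : Dˣ) : D) =
      (d m * ((t (s ^ m) : Dˣ) : D)) * (d' n * ((t (s ^ n) : Dˣ) : D)) := by
    intro m n
    rw [← gth_zpow, mul_assoc (d m), mul_assoc (d m), ← mul_assoc (b m n), ← hbm m n, mul_assoc]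
  refine ⟨∑ m ∈ d.support, ∑ n ∈ d'.support, Finsupp.single (m + n) (d m * b m n),
    fun k => ?_, ?_, ?_⟩
  · rw [Finsupp.finsetSum_apply]
    refine sum_mem fun m _ => ?_
    rw [Finsupp.finsetSum_apply]
    exact sum_mem fun n _ => gth_single_mem t _ (mul_mem (hd m) (hb m n)) k
  · rw [map_sum, gthE_apply t s d, gthE_apply t s d', Finset.sum_mul_sum]
    refine Finset.sum_congr rfl fun m _ => ?_
    rw [map_sum]
    refine Finset.sum_congr rfl fun n _ => ?_
    rw [gthE_single, h2]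
  · rw [map_sum, gthL_apply t s d, gthL_apply t s d', Finset.sum_mul_sum]
    refine Finset.sum_congr rfl fun m _ => ?_
    rw [map_sum]
    refine Finset.sum_congr rfl fun n _ => ?_
    rw [gthL_single, h2, lsg_mul]

private theorem gth_one (t : G →* Dˣ) (s : G) : gthE t s (Finsupp.single 0 1) = 1 := by
  rw [gthE_single, zpow_zero, map_one, Units.val_one, mul_one]

private theorem gthL_one (t : G →* Dˣ) (s : G) : gthL t s (Finsupp.single 0 1) = 1 := by
  rw [gthL_single, zpow_zero, map_one, Units.val_one, mul_one, lsg_one]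

theorem pl_subring (t : G →* Dˣ) (hc : Chi H N χ s) : ∃ P : Subring D, (P : Set D) = PL t N s := by
  refine ⟨{
    carrier := PL t N s
    mul_mem' := ?_
    one_mem' := ?_
    add_mem' := ?_
    zero_mem' := ?_
    neg_mem' := ?_ }, rfl⟩
  · intro x y hx hy
    obtain ⟨d, hd, rfl⟩ := (gth_mem t N s x).mp hx
    obtain ⟨d', hd', rfl⟩ := (gth_mem t N s y).mp hy
    obtain ⟨e, he, h1, _⟩ := gth_mul hc d d' hd hd'
    exact (gth_mem t N s _).mpr ⟨e, he, h1⟩
  · exact (gth_mem t N s _).mpr ⟨Finsupp.single 0 1, gth_single_mem t 0 (one_mem _), gth_one t s⟩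
  · intro x y hx hy
    obtain ⟨d, hd, rfl⟩ := (gth_mem t N s x).mp hx
    obtain ⟨d', hd', rfl⟩ := (gth_mem t N s y).mp hy
    exact (gth_mem t N s _).mpr ⟨d + d', fun n => add_mem (hd n) (hd' n), map_add _ _ _⟩
  · exact (gth_mem t N s _).mpr ⟨0, fun n => zero_mem _, map_zero _⟩
  · intro x hx
    obtain ⟨d, hd, rfl⟩ := (gth_mem t N s x).mp hx
    exact (gth_mem t N s _).mpr ⟨-d, fun n => neg_mem (hd n), map_neg _ _⟩

theorem pl_indep (hF : FEb t) (hc : Chi H N χ s) (F : Finset ℤ) (d : ℤ → D)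
    (hd : ∀ n ∈ F, d n ∈ DH t N) (h0 : ∑ n ∈ F, d n * ((t (s ^ n) : Dˣ) : D) = 0) :
    ∀ n ∈ F, d n = 0 := by
  classical
  have hinj : Function.Injective (fun n : ℤ => s ^ n) := by
    intro m n h
    have h1 : s ^ m = s ^ n := h
    rw [← hc.map_zpow m, ← hc.map_zpow n, h1]
  have h1 := hF.right N (F.image (fun n : ℤ => s ^ n)) (fun g => d (χ g)) ?_ ?_ ?_
  · intro n hn
    have h2 := h1 (s ^ n) (Finset.mem_image_of_mem _ hn)
    rw [hc.map_zpow] at h2
    exact h2
  · intro g hg g' hg' h2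
    obtain ⟨m, _, rfl⟩ := Finset.mem_image.mp hg
    obtain ⟨n, _, rfl⟩ := Finset.mem_image.mp hg'
    have h3 : s ^ n * (s ^ m)⁻¹ = s ^ (n - m) := by rw [zpow_sub]
    have h4 : s ^ (n - m) ∈ N := h3 ▸ h2
    have h5 := hc.zero h4
    rw [hc.map_zpow] at h5
    have h6 : m = n := by omega
    rw [h6]
  · intro g hg
    obtain ⟨m, hm, rfl⟩ := Finset.mem_image.mp hg
    show d (χ (s ^ m)) ∈ DH t N
    rw [hc.map_zpow]
    exact hd m hm
  · rw [Finset.sum_image fun m _ n _ h => hinj h, ← h0]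
    refine Finset.sum_congr rfl fun n _ => ?_
    rw [hc.map_zpow]

private theorem gth_inj (hF : FEb t) (hc : Chi H N χ s) (d : ℤ →₀ D) (hd : ∀ n, d n ∈ DH t N)
    (h0 : gthE t s d = 0) : d = 0 := by
  ext n
  by_cases hn : n ∈ d.support
  · exact pl_indep hF hc d.support d (fun m _ => hd m) h0 n hn
  · exact Finsupp.notMem_support_iff.mp hn

private theorem gth_bound (F : Finset ℤ) : ∃ c : ℕ, ∀ n ∈ F, -(c : ℤ) ≤ n ∧ n ≤ c := by
  refine ⟨F.sup Int.natAbs, fun n hn => ?_⟩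
  have h := Finset.le_sup (f := Int.natAbs) hn
  omega

private theorem gth_span (hc : Chi H N χ s) {a : D} {c : ℕ} (d : ℤ →₀ D)
    (hd : ∀ n, d n ∈ DH t N) (ha : gthE t s d = a)
    (hb : ∀ n ∈ d.support, -(c : ℤ) ≤ n ∧ n ≤ c) (m : ℕ) (i : ℕ) (hi : i < m + 1) :
    ((t (s ^ (i : ℤ)) : Dˣ) : D) * a ∈ Submodule.span (DH t N)
      ((fun j : ℤ => ((t (s ^ j) : Dˣ) : D)) '' Set.Icc (-(c : ℤ)) (m + c)) := by
  rw [← ha, gthE_apply, Finset.mul_sum]
  refine Submodule.sum_mem _ fun n hn => ?_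
  obtain ⟨b, hb1, hb2⟩ := gth_conj hc (i : ℤ) (hd n)
  rw [← mul_assoc, hb2, mul_assoc, gth_zpow]
  have h1 : b * ((t (s ^ ((i : ℤ) + n)) : Dˣ) : D) =
      (⟨b, hb1⟩ : DH t N) • ((t (s ^ ((i : ℤ) + n)) : Dˣ) : D) := rfl
  rw [h1]
  refine Submodule.smul_mem _ _ (Submodule.subset_span ?_)
  refine Set.mem_image_of_mem (fun j : ℤ => ((t (s ^ j) : Dˣ) : D)) ?_
  rw [Set.mem_Icc]
  have h2 := hb n hn
  omega

theorem pl_ore (hF : FEb t) (hc : Chi H N χ s) {a b : D} (ha : a ∈ PL t N s) (hb : b ∈ PL t N s)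
    (h0 : b ≠ 0) : ∃ a' ∈ PL t N s, ∃ b' ∈ PL t N s, b' ≠ 0 ∧ b' * a = a' * b := by
  classical
  obtain ⟨da, hda, hda'⟩ := (gth_mem t N s a).mp ha
  obtain ⟨db, hdb, hdb'⟩ := (gth_mem t N s b).mp hb
  obtain ⟨c, hcb⟩ := gth_bound (da.support ∪ db.support)
  -- the family of the `2 (m + 1)` elements, `m = 2 c`
  let v : Fin (2 * c + 1) ⊕ Fin (2 * c + 1) → D :=
    Sum.elim (fun i => ((t (s ^ ((i : ℕ) : ℤ)) : Dˣ) : D) * a)
      (fun i => ((t (s ^ ((i : ℕ) : ℤ)) : Dˣ) : D) * b)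
  have hv : ¬ LinearIndependent (DH t N) v := by
    intro hv
    have h1 := linearIndependent_le_span' v hv
      (((Finset.Icc (-(c : ℤ)) ((2 * c : ℕ) + c)).image (fun j : ℤ => ((t (s ^ j) : Dˣ) : D)) :
        Finset D) : Set D) ?_
    · have h4 : Fintype.card (((Finset.Icc (-(c : ℤ)) ((2 * c : ℕ) + c)).image
          (fun j : ℤ => ((t (s ^ j) : Dˣ) : D)) : Finset D) : Set D) =
          ((Finset.Icc (-(c : ℤ)) ((2 * c : ℕ) + c)).image
            (fun j : ℤ => ((t (s ^ j) : Dˣ) : D))).card := by simp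
      rw [Cardinal.mk_fintype, Fintype.card_sum, Fintype.card_fin, h4] at h1
      have h2 : 2 * c + 1 + (2 * c + 1) ≤
          ((Finset.Icc (-(c : ℤ)) ((2 * c : ℕ) + c)).image
            (fun j : ℤ => ((t (s ^ j) : Dˣ) : D))).card := by exact_mod_cast h1
      have h3 := h2.trans Finset.card_image_le
      rw [Int.card_Icc] at h3
      omega
    · rw [Finset.coe_image, Finset.coe_Icc]
      rintro x ⟨i, rfl⟩
      rcases i with i | i
      · exact gth_span hc da hda hda' (fun n hn => hcb n (Finset.mem_union_left _ hn)) (2 * c) i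
          i.2
      · exact gth_span hc db hdb hdb' (fun n hn => hcb n (Finset.mem_union_right _ hn)) (2 * c) i
          i.2
  rw [Fintype.linearIndependent_iff] at hv
  push Not at hv
  obtain ⟨g, hg, i0, hi0⟩ := hv
  -- the two coefficients
  let x : ℤ →₀ D := ∑ i : Fin (2 * c + 1), Finsupp.single ((i : ℕ) : ℤ) ((g (Sum.inl i) : DH t N) : D)
  let y : ℤ →₀ D := ∑ i : Fin (2 * c + 1), Finsupp.single ((i : ℕ) : ℤ) ((g (Sum.inr i) : DH t N) : D)
  have hxE : gthE t s x = ∑ i : Fin (2 * c + 1), ((g (Sum.inl i) : DH t N) : D) *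
      ((t (s ^ ((i : ℕ) : ℤ)) : Dˣ) : D) := by
    show gthE t s (∑ i : Fin (2 * c + 1), Finsupp.single ((i : ℕ) : ℤ)
      ((g (Sum.inl i) : DH t N) : D)) = _
    rw [map_sum]
    exact Finset.sum_congr rfl fun i _ => gthE_single t s _ _
  have hyE : gthE t s y = ∑ i : Fin (2 * c + 1), ((g (Sum.inr i) : DH t N) : D) *
      ((t (s ^ ((i : ℕ) : ℤ)) : Dˣ) : D) := by
    show gthE t s (∑ i : Fin (2 * c + 1), Finsupp.single ((i : ℕ) : ℤ)
      ((g (Sum.inr i) : DH t N) : D)) = _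
    rw [map_sum]
    exact Finset.sum_congr rfl fun i _ => gthE_single t s _ _
  have hxm : ∀ n, x n ∈ DH t N := by
    intro n
    show (∑ i : Fin (2 * c + 1), Finsupp.single ((i : ℕ) : ℤ)
      ((g (Sum.inl i) : DH t N) : D)) n ∈ DH t N
    rw [Finsupp.finsetSum_apply]
    exact sum_mem fun i _ => gth_single_mem t _ (g (Sum.inl i)).2 n
  have hym : ∀ n, y n ∈ DH t N := by
    intro n
    show (∑ i : Fin (2 * c + 1), Finsupp.single ((i : ℕ) : ℤ)
      ((g (Sum.inr i) : DH t N) : D)) n ∈ DH t N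
    rw [Finsupp.finsetSum_apply]
    exact sum_mem fun i _ => gth_single_mem t _ (g (Sum.inr i)).2 n
  have hxc : ∀ i : Fin (2 * c + 1), x ((i : ℕ) : ℤ) = ((g (Sum.inl i) : DH t N) : D) := by
    intro i
    show (∑ j : Fin (2 * c + 1), Finsupp.single ((j : ℕ) : ℤ)
      ((g (Sum.inl j) : DH t N) : D)) ((i : ℕ) : ℤ) = _
    rw [Finsupp.finsetSum_apply, Finset.sum_eq_single i]
    · rw [Finsupp.single_eq_same]
    · intro j _ hj
      rw [Finsupp.single_apply, if_neg]
      intro h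
      exact hj (Fin.ext (by exact_mod_cast h))
    · intro h
      exact absurd (Finset.mem_univ i) h
  have hyc : ∀ i : Fin (2 * c + 1), y ((i : ℕ) : ℤ) = ((g (Sum.inr i) : DH t N) : D) := by
    intro i
    show (∑ j : Fin (2 * c + 1), Finsupp.single ((j : ℕ) : ℤ)
      ((g (Sum.inr j) : DH t N) : D)) ((i : ℕ) : ℤ) = _
    rw [Finsupp.finsetSum_apply, Finset.sum_eq_single i]
    · rw [Finsupp.single_eq_same]
    · intro j _ hj
      rw [Finsupp.single_apply, if_neg]
      intro h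
      exact hj (Fin.ext (by exact_mod_cast h))
    · intro h
      exact absurd (Finset.mem_univ i) h
  have hsum : gthE t s x * a + gthE t s y * b = 0 := by
    rw [hxE, hyE, Finset.sum_mul, Finset.sum_mul, ← hg, Fintype.sum_sum_type]
    congr 1
    · refine Finset.sum_congr rfl fun i _ => ?_
      rw [mul_assoc]
      rfl
    · refine Finset.sum_congr rfl fun i _ => ?_
      rw [mul_assoc]
      rfl
  refine ⟨gthE t s (-y), (gth_mem t N s _).mpr ⟨-y, fun n => neg_mem (hym n), rfl⟩,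
    gthE t s x, (gth_mem t N s _).mpr ⟨x, hxm, rfl⟩, ?_, ?_⟩
  · intro hx0
    have hx1 : x = 0 := gth_inj hF hc x hxm hx0
    rw [hx0, zero_mul, zero_add] at hsum
    have hy0 : gthE t s y = 0 := (mul_eq_zero.mp hsum).resolve_right h0
    have hy1 : y = 0 := gth_inj hF hc y hym hy0
    apply hi0
    rcases i0 with i | i
    · apply Subtype.ext
      rw [← hxc i, hx1]
      rfl
    · apply Subtype.ext
      rw [← hyc i, hy1]
      rfl
  · rw [map_neg, neg_mul]
    exact eq_neg_of_add_eq_zero_left hsum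

private theorem gth_closure (hc : Chi H N χ s) {x : D} (hx : x ∈ DH t H) :
    x ∈ Subfield.closure (PL t N s) := by
  have h : DH t H ≤ Subfield.closure (PL t N s) := by
    unfold DH
    rw [Subfield.closure_le]
    rintro x ⟨h, hh, rfl⟩
    refine Subfield.subset_closure ((gth_mem t N s _).mpr
      ⟨Finsupp.single (χ h) ((t (h * s ^ (- χ h)) : Dˣ) : D),
        gth_single_mem t _ (mem_DH t (hc.mul_zpow_mem hh)), ?_⟩)
    rw [gthE_single, ← Units.val_mul, ← map_mul, mul_assoc, ← zpow_add, neg_add_cancel, zpow_zero,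
      mul_one]
  exact h hx

theorem theta_exists (hF : FEb t) (hc : Chi H N χ s) : ∃ θ : D → LS D, Th t H χ θ := by
  classical
  obtain ⟨P, hP⟩ := pl_subring t hc
  have hPm : ∀ x, x ∈ P ↔ x ∈ PL t N s := fun x => by rw [← hP]; rfl
  have h1 : ∀ x : P, ∃ d : ℤ →₀ D, (∀ n, d n ∈ DH t N) ∧ gthE t s d = x :=
    fun x => (gth_mem t N s _).mp ((hPm _).mp x.2)
  choose c hc1 hc2 using h1
  have huniq : ∀ (x : P) (e : ℤ →₀ D), (∀ n, e n ∈ DH t N) → gthE t s e = x → c x = e := by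
    intro x e he h
    have h2 := gth_inj hF hc (c x - e) (fun n => sub_mem (hc1 x n) (he n))
      (by rw [map_sub, hc2, h, sub_self])
    exact sub_eq_zero.mp h2
  let f : P →+* LS D :=
    { toFun := fun x => gthL t s (c x)
      map_one' := by
        rw [huniq 1 (Finsupp.single 0 1) (gth_single_mem t 0 (one_mem _)) (gth_one t s), gthL_one]
      map_mul' := fun x y => by
        obtain ⟨e, he, h2, h3⟩ := gth_mul hc (c x) (c y) (hc1 x) (hc1 y)
        rw [huniq (x * y) e he (by rw [h2, hc2, hc2]; rfl), h3]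
      map_zero' := by
        rw [huniq 0 0 (fun n => zero_mem _) (map_zero _), map_zero]
      map_add' := fun x y => by
        rw [huniq (x + y) (c x + c y) (fun n => add_mem (hc1 x n) (hc1 y n))
          (by rw [map_add, hc2, hc2]; rfl), map_add] }
  have hfval : ∀ x : P, f x = gthL t s (c x) := fun x => rfl
  have hfinj : Function.Injective f := by
    rw [injective_iff_map_eq_zero]
    intro x hx
    have h2 : c x = 0 := by
      ext n
      have h3 : lc (f x) n = c x n * ((t (s ^ n) : Dˣ) : D) := by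
        rw [hfval, gthL_apply, lc_sum]
        by_cases hn : n ∈ (c x).support
        · rw [Finset.sum_eq_single n]
          · rw [lc_lsg, if_pos rfl]
          · intro m _ hm
            rw [lc_lsg, if_neg (Ne.symm hm)]
          · intro h
            exact absurd hn h
        · rw [Finset.sum_eq_zero]
          · rw [Finsupp.notMem_support_iff.mp hn, zero_mul]
          · intro m hm
            rw [lc_lsg, if_neg]
            rintro rfl
            exact hn hm
      rw [hx, lc_zero] at h3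
      exact (mul_eq_zero.mp h3.symm).resolve_right (Units.ne_zero _)
    apply Subtype.ext
    rw [← hc2 x, h2, map_zero]
    rfl
  obtain ⟨θ, hθ1, hθ2⟩ := ore_ext P (fun a ha b hb hb0 => by
    obtain ⟨a', ha', b', hb', h2, h3⟩ := pl_ore hF hc ((hPm a).mp ha) ((hPm b).mp hb) hb0
    exact ⟨a', (hPm a').mpr ha', b', (hPm b').mpr hb', h2, h3⟩) f hfinj
  refine ⟨θ, ⟨fun x hx y hy => ?_, fun x hx y hy => ?_, fun h hh => ?_⟩⟩
  · exact (hθ2 x (hP ▸ gth_closure hc hx) y (hP ▸ gth_closure hc hy)).1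
  · exact (hθ2 x (hP ▸ gth_closure hc hx) y (hP ▸ gth_closure hc hy)).2
  · have h2 : gthE t s (Finsupp.single (χ h) ((t (h * s ^ (- χ h)) : Dˣ) : D)) =
        ((t h : Dˣ) : D) := by
      rw [gthE_single, ← Units.val_mul, ← map_mul, mul_assoc, ← zpow_add, neg_add_cancel,
        zpow_zero, mul_one]
    have h3 : ∀ n, Finsupp.single (χ h) ((t (h * s ^ (- χ h)) : Dˣ) : D) n ∈ DH t N :=
      gth_single_mem t _ (mem_DH t (hc.mul_zpow_mem hh))
    have h4 : ((t h : Dˣ) : D) ∈ P := (hPm _).mpr ((gth_mem t N s _).mpr ⟨_, h3, h2⟩)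
    have h5 := hθ1 ⟨_, h4⟩
    rw [hfval, huniq ⟨_, h4⟩ _ h3 h2, gthL_single, ← Units.val_mul, ← map_mul, mul_assoc,
      ← zpow_add, neg_add_cancel, zpow_zero, mul_one] at h5
    exact h5

theorem pl_den (hF : FEb t) (hc : Chi H N χ s) (A : Finset D) (hA : ∀ x ∈ A, x ∈ DH t H) :
    ∃ u ∈ PL t N s, u ≠ 0 ∧ ∀ x ∈ A, u * x ∈ PL t N s := by
  obtain ⟨P, hP⟩ := pl_subring t hc
  have hPm : ∀ x, x ∈ P ↔ x ∈ PL t N s := fun x => by rw [← hP]; rfl
  obtain ⟨u, hu, hu0, h1⟩ := ore_den P (fun a ha b hb hb0 => by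
    obtain ⟨a', ha', b', hb', h2, h3⟩ := pl_ore hF hc ((hPm a).mp ha) ((hPm b).mp hb) hb0
    exact ⟨a', (hPm a').mpr ha', b', (hPm b').mpr hb', h2, h3⟩) A
    (fun x hx => hP ▸ gth_closure hc (hA x hx))
  exact ⟨u, (hPm u).mp hu, hu0, fun x hx => (hPm _).mp (h1 x hx)⟩

/-! ## The expansions of the Laurent polynomials -/

theorem pl_le (hc : Chi H N χ s) {x : D} (hx : x ∈ PL t N s) : x ∈ DH t H := by
  obtain ⟨F, d, hd, rfl⟩ := hx
  exact sum_mem fun n hn => mul_mem (DH_mono t hc.le (hd n hn)) (mem_DH t (hc.zpow_mem n))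

theorem lsg_sum {ι : Type} (n : ℤ) (F : Finset ι) (f : ι → D) :
    lsg n (∑ i ∈ F, f i) = ∑ i ∈ F, lsg n (f i) := by
  classical
  induction F using Finset.induction_on with
  | empty => rw [Finset.sum_empty, Finset.sum_empty, lsg_zero]
  | insert a F ha ih => rw [Finset.sum_insert ha, Finset.sum_insert ha, lsg_add, ih]

theorem th_pl {θ : D → LS D} (hθ : Th t H χ θ) (hc : Chi H N χ s) (F : Finset ℤ) (d : ℤ → D)
    (hd : ∀ n ∈ F, d n ∈ DH t N) :
    θ (∑ n ∈ F, d n * ((t (s ^ n) : Dˣ) : D)) = ∑ n ∈ F, lsg n (d n * ((t (s ^ n) : Dˣ) : D)) := by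
  rw [hθ.sum F _ fun n hn => mul_mem (DH_mono t hc.le (hd n hn)) (mem_DH t (hc.zpow_mem n))]
  refine Finset.sum_congr rfl fun n hn => ?_
  rw [hθ.mul _ (DH_mono t hc.le (hd n hn)) _ (mem_DH t (hc.zpow_mem n)), hθ.of_ker hc (hd n hn),
    hθ.grp _ (hc.zpow_mem n), hc.map_zpow, lsg_mul, zero_add]

/-- The expansions of a Laurent polynomial in the two directions. -/
theorem pl_lc {θ θ' : D → LS D} (hθ : Th t H χ θ) (hθ' : Th t H (fun x => - χ x) θ')
    (hc : Chi H N χ s) {x : D} (hx : x ∈ PL t N s) :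
    (∀ n, lc (θ' x) (-n) = lc (θ x) n) ∧ ∃ F : Finset ℤ, ∀ n, n ∉ F → lc (θ x) n = 0 := by
  classical
  obtain ⟨F, d, hd, rfl⟩ := hx
  rw [th_pl hθ hc F d hd]
  have h2 : θ' (∑ n ∈ F, d n * ((t (s ^ n) : Dˣ) : D)) =
      ∑ n ∈ F, lsg (-n) (d n * ((t (s ^ n) : Dˣ) : D)) := by
    rw [hθ'.sum F _ fun n hn => mul_mem (DH_mono t hc.le (hd n hn)) (mem_DH t (hc.zpow_mem n))]
    refine Finset.sum_congr rfl fun n hn => ?_
    rw [hθ'.mul _ (DH_mono t hc.le (hd n hn)) _ (mem_DH t (hc.zpow_mem n)),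
      hθ'.of_ker hc.neg (hd n hn), hθ'.grp _ (hc.zpow_mem n), hc.map_zpow, lsg_mul, zero_add]
  rw [h2]
  constructor
  · intro n
    rw [lc_sum, lc_sum]
    refine Finset.sum_congr rfl fun m _ => ?_
    rw [lc_lsg, lc_lsg]
    exact if_congr neg_inj rfl rfl
  · refine ⟨F, fun n hn => ?_⟩
    rw [lc_sum]
    refine Finset.sum_eq_zero fun m hm => ?_
    rw [lc_lsg, if_neg]
    rintro rfl
    exact hn hm

end

end SingerBO
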