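import Mathlib
import Pool.Agent.Lib_MP_394d50_bo.LDefs

/-!
# Piece KKEY: the complexity of the coefficients of an expansion (about 300 lines)

`kl`: induction on `p`. For a subexpression `p'` there are two cases. If `p'.In N` then `θ (p'.val t) = lsg 0 (p'.val t)`
(`Th.of_ker`, `PE.val_mem`): the only coefficient is `p'.val t`, of complexity `p'.cx`. If not, all coefficients are
`Hm` with bound `p'.cx` (induction hypothesis). It is convenient to have `hm_le`: in both cases every coefficient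
`c` of degree `n` is `Hm t H N χ n (p'.cx + 1) c` (`Order.lt_succ_iff`, `Order.lt_add_one_iff`).

Calculus of `Hm`:
* `hm_zero`: `0 = t (s ^ n) * zero.val`, for every `B > 0`.
* `hm_mono`.
* `hm_add`: `t γ q + t γ' q' = t γ (q + t (γ⁻¹ γ') q')`, `γ⁻¹ γ' ∈ N` (`χ` is `0`); complexity `fO q.cx q'.cx`.
* `hm_grp`: `t g * (t γ q) = t (g γ) q`.
* `hm_neg`.
* `hm_mul`: `t γ q * (t γ' q') = t (γ γ') * ((conj γ'⁻¹ q) * q')`; complexity `gO q.cx q'.cx`, degree `n + n'`.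
* `hm_inv`: `(t γ q)⁻¹ = q⁻¹ t γ⁻¹ = t γ⁻¹ * (conj γ (inv q))`, degree `- n`, complexity `hO q.cx`.

The cases of `kl`, `p` not in `N`, `n` arbitrary:
* `neg`: `hm_neg`.
* `add p₁ g p₂`: the coefficient is `lc (θ p₁) n + t g * lc (θ p₂) (n - χ g)` (`Th.grp_mul`). (a) `p₁` or `p₂` not in `N`:
  the coefficients are `t γ q`, `t γ' q'` with `q.cx ≤ p₁.cx`, `q'.cx ≤ p₂.cx` and one inequality strict, so
  `fO q.cx q'.cx < fO p₁.cx p₂.cx` (`fO_lt`). (b) both in `N`, so `g ∉ N`, `χ g ≠ 0` (`g ∈ H`): for `n = 0` the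
  coefficient is `p₁.val t`, `p₁.cx < fO _ _`; for `n = χ g` it is `t g * p₂.val t`; otherwise it is `0`.
* `mul p₁ p₂`: the coefficient is a finite sum `∑ i, lc (θ p₁) i * lc (θ p₂) (n - i)` (`lc_mul_Icc`, `exists_lb`); each
  term is `Hm n (gO p₁.cx p₂.cx)`: `hm_mul` with `q.cx ≤ p₁.cx`, `q'.cx ≤ p₂.cx`, one of them strict as `p₁` or `p₂` is
  not in `N` (`gO_lt`). `gO _ _` is closed under `fO` (`gO_closed`), and positive; sum with `hm_add`, `hm_zero`.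
* `inv p'`: `p'` is not in `N`. If `p'.val t = 0` all coefficients are `0`. Otherwise let `f = θ (p'.val t) ≠ 0`
  (`Th.ne_zero`), `m` the least exponent (`exists_least`), `g = f⁻¹ = θ ((p'.val t)⁻¹)` (`Th.inv`). Then `lc g n = 0` for
  `n < - m` (let `m'` be the least exponent of `g`; the coefficient of `f * g = 1` of degree `m + m'` is
  `lc f m * lc g m' ≠ 0`, so `m + m' = 0`), and for all `n`, by `lc (f * g) (n + m)`:
  `lc g n = (lc f m)⁻¹ * (lc 1 (n + m) - ∑ i ∈ Icc (m + 1) (n + 2 m), lc f i * lc g (n + m - i))`.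
  Strong induction on `n + m ≥ 0` shows `Hm n (hO p'.cx) (lc g n)`: `lc f i` is `Hm i p'.cx`, so `Hm i (hO p'.cx)`
  (`lt_hO`); `(lc f m)⁻¹` is `Hm (-m) (hO p'.cx)` as `hO` is strictly increasing (`hO_mono`) and `q.cx < p'.cx`; the
  bound `hO p'.cx` is closed under `fO` and `gO` (`hO_closed_f`, `hO_closed_g`); `1 = t 1 * one.val` and `0` are `Hm 0`
  resp. `Hm (n + m)` with this bound.
-/

namespace SingerBO

variable {G D : Type} [Group G] [DivisionRing D] {t : G →* Dˣ} {H N : Subgroup G} {χ : G → ℤ}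
  {s : G} {θ : D → LS D}

theorem hm_zero (hc : Chi H N χ s) (n : ℤ) {B : Ordinal.{0}} (hB : 0 < B) :
    Hm t H N χ n B (0 : D) := by
  refine ⟨s ^ n, hc.zpow_mem n, hc.map_zpow n, PE.zero, PE.in_zero N, hB, ?_⟩
  show (0 : D) = _ * 0
  rw [mul_zero]

theorem hm_mono {n : ℤ} {B B' : Ordinal.{0}} (h : B ≤ B') {x : D} (hx : Hm t H N χ n B x) :
    Hm t H N χ n B' x := by
  obtain ⟨γ, h1, h2, q, h3, h4, h5⟩ := hx
  exact ⟨γ, h1, h2, q, h3, h4.trans_le h, h5⟩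

/-- Sum of two translates. -/
private theorem kk_add (γ γ' : G) (q q' : PE G) :
    ((t γ : Dˣ) : D) * q.val t + ((t γ' : Dˣ) : D) * q'.val t =
      ((t γ : Dˣ) : D) * (PE.add q (γ⁻¹ * γ') q').val t := by
  show _ = ((t γ : Dˣ) : D) * (q.val t + ((t (γ⁻¹ * γ') : Dˣ) : D) * q'.val t)
  rw [mul_add, ← mul_assoc ((t γ : Dˣ) : D) ((t (γ⁻¹ * γ') : Dˣ) : D), ← Units.val_mul, ← map_mul,
    mul_inv_cancel_left]

/-- Product of two translates. -/
private theorem kk_mul (γ γ' : G) (q q' : PE G) :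
    (((t γ : Dˣ) : D) * q.val t) * (((t γ' : Dˣ) : D) * q'.val t) =
      ((t (γ * γ') : Dˣ) : D) * (PE.mul (PE.conj γ'⁻¹ q) q').val t := by
  show _ = ((t (γ * γ') : Dˣ) : D) * ((PE.conj γ'⁻¹ q).val t * q'.val t)
  rw [PE.val_conj, map_mul, map_inv, inv_inv, Units.val_mul]
  have h : ((t γ' : Dˣ) : D) * (((t γ')⁻¹ : Dˣ) : D) = 1 := Units.mul_inv _
  calc (((t γ : Dˣ) : D) * q.val t) * (((t γ' : Dˣ) : D) * q'.val t)
      = ((t γ : Dˣ) : D) * 1 * q.val t * ((t γ' : Dˣ) : D) * q'.val t := by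
        rw [mul_one]
        simp only [mul_assoc]
    _ = _ := by
        rw [← h]
        simp only [mul_assoc]

/-- Inverse of a translate. -/
private theorem kk_inv (γ : G) (q : PE G) : (((t γ : Dˣ) : D) * q.val t)⁻¹ =
    ((t γ⁻¹ : Dˣ) : D) * (PE.conj γ (PE.inv q)).val t := by
  have h : (((t γ)⁻¹ : Dˣ) : D) * ((t γ : Dˣ) : D) = 1 := Units.inv_mul _
  rw [PE.val_conj, map_inv]
  show _ = (((t γ)⁻¹ : Dˣ) : D) * (((t γ : Dˣ) : D) * (q.val t)⁻¹ * (((t γ)⁻¹ : Dˣ) : D))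
  rw [mul_inv_rev, ← mul_assoc, ← mul_assoc, h, one_mul, Units.val_inv_eq_inv_val]

private theorem kk_one (q : PE G) : q.val t = ((t 1 : Dˣ) : D) * q.val t := by
  rw [map_one, Units.val_one, one_mul]

theorem hm_add (hc : Chi H N χ s) {n : ℤ} {B B' C : Ordinal.{0}}
    (hB : ∀ a < B, ∀ b < B', fO a b < C)
    {x y : D} (hx : Hm t H N χ n B x) (hy : Hm t H N χ n B' y) : Hm t H N χ n C (x + y) := by
  obtain ⟨γ, h1, h2, q, h3, h4, rfl⟩ := hx
  obtain ⟨γ', h1', h2', q', h3', h4', rfl⟩ := hy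
  refine ⟨γ, h1, h2, PE.add q (γ⁻¹ * γ') q', PE.in_add.mpr ⟨h3, ?_, h3'⟩, hB _ h4 _ h4',
    kk_add γ γ' q q'⟩
  rw [hc.ker]
  refine ⟨H.mul_mem (H.inv_mem h1) h1', ?_⟩
  rw [hc.mul _ (H.inv_mem h1) _ h1', hc.map_inv h1, h2, h2', neg_add_cancel]

theorem hm_grp (hc : Chi H N χ s) {n : ℤ} {B : Ordinal.{0}} {g : G} (hg : g ∈ H) {x : D}
    (hx : Hm t H N χ n B x) : Hm t H N χ (χ g + n) B (((t g : Dˣ) : D) * x) := by
  obtain ⟨γ, h1, h2, q, h3, h4, rfl⟩ := hx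
  refine ⟨g * γ, H.mul_mem hg h1, by rw [hc.mul g hg γ h1, h2], q, h3, h4, ?_⟩
  rw [map_mul, Units.val_mul, mul_assoc]

theorem hm_neg {n : ℤ} {B : Ordinal.{0}} {x : D} (hx : Hm t H N χ n B x) :
    Hm t H N χ n B (-x) := by
  obtain ⟨γ, h1, h2, q, h3, h4, rfl⟩ := hx
  refine ⟨γ, h1, h2, PE.neg q, h3, h4, ?_⟩
  show - (((t γ : Dˣ) : D) * q.val t) = ((t γ : Dˣ) : D) * (- q.val t)
  rw [mul_neg]

theorem hm_mul (hc : Chi H N χ s) {n n' : ℤ} {B B' C : Ordinal.{0}}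
    (hB : ∀ a < B, ∀ b < B', gO a b < C)
    {x y : D} (hx : Hm t H N χ n B x) (hy : Hm t H N χ n' B' y) :
    Hm t H N χ (n + n') C (x * y) := by
  obtain ⟨γ, h1, h2, q, h3, h4, rfl⟩ := hx
  obtain ⟨γ', h1', h2', q', h3', h4', rfl⟩ := hy
  refine ⟨γ * γ', H.mul_mem h1 h1', by rw [hc.mul _ h1 _ h1', h2, h2'],
    PE.mul (PE.conj γ'⁻¹ q) q', PE.in_mul.mpr ⟨PE.in_conj (fun x hx =>
      hc.conj hx (H.inv_mem h1')) h3, h3'⟩, ?_, kk_mul γ γ' q q'⟩
  show gO (PE.conj γ'⁻¹ q).cx q'.cx < C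
  rw [PE.cx_conj]
  exact hB _ h4 _ h4'

theorem hm_inv (hc : Chi H N χ s) {n : ℤ} {B : Ordinal.{0}} {x : D} (hx : Hm t H N χ n B x) :
    Hm t H N χ (-n) (hO B) x⁻¹ := by
  obtain ⟨γ, h1, h2, q, h3, h4, rfl⟩ := hx
  refine ⟨γ⁻¹, H.inv_mem h1, by rw [hc.map_inv h1, h2], PE.conj γ (PE.inv q),
    PE.in_conj (fun x hx => hc.conj hx h1) h3, ?_, kk_inv γ q⟩
  rw [PE.cx_conj]
  exact hO_mono h4

private theorem hm_sum (hc : Chi H N χ s) {n : ℤ} {C : Ordinal.{0}} (h0 : 0 < C)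
    (hC : ∀ a < C, ∀ b < C, fO a b < C) {ι : Type} (F : Finset ι) (f : ι → D)
    (hf : ∀ i ∈ F, Hm t H N χ n C (f i)) : Hm t H N χ n C (∑ i ∈ F, f i) := by
  classical
  induction F using Finset.induction_on with
  | empty =>
    rw [Finset.sum_empty]
    exact hm_zero hc n h0
  | insert a F ha ih =>
    rw [Finset.sum_insert ha]
    exact hm_add hc hC (hf a (Finset.mem_insert_self a F))
      (ih fun i hi => hf i (Finset.mem_insert_of_mem hi))

/-- In all cases the complexity does not increase. -/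
private theorem hm_le (hc : Chi H N χ s) (hθ : Th t H χ θ) (p : PE G)
    (ih : ¬ p.In N → ∀ n, Hm t H N χ n p.cx (lc (θ (p.val t)) n)) (n : ℤ) :
    Hm t H N χ n (p.cx + 1) (lc (θ (p.val t)) n) := by
  by_cases hn : p.In N
  · rw [hθ.of_ker hc (PE.val_mem t hn), lc_lsg]
    split_ifs with h
    · exact ⟨1, H.one_mem, by rw [hc.map_one, h], p, hn, Order.lt_succ _, kk_one p⟩
    · exact hm_zero hc n (lt_of_le_of_lt zero_le (Order.lt_succ p.cx))
  · exact hm_mono (Order.le_succ p.cx) (ih hn n)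

/-- The inverse of a series. -/
private theorem kl_inv (hc : Chi H N χ s) (hθ : Th t H χ θ) {x : D} (hx : x ∈ DH t H)
    (h0 : x ≠ 0) {B : Ordinal.{0}} (ih : ∀ n, Hm t H N χ n B (lc (θ x) n)) (n : ℤ) :
    Hm t H N χ n (hO B) (lc (θ x⁻¹) n) := by
  classical
  have hpos : 0 < hO B := lt_of_le_of_lt zero_le (lt_hO B)
  have hCf : ∀ a < hO B, ∀ b < hO B, fO a b < hO B := fun a ha b hb => hO_closed_f ha hb
  have hCg : ∀ a < hO B, ∀ b < hO B, gO a b < hO B := fun a ha b hb => hO_closed_g ha hb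
  have hfg : θ x * θ x⁻¹ = 1 := by
    rw [← hθ.mul x hx x⁻¹ (inv_mem hx), mul_inv_cancel₀ h0, hθ.one hc]
  obtain ⟨m, hm1, hm2⟩ := exists_least (hθ.ne_zero hc hx h0)
  obtain ⟨m', hm1', hm2'⟩ := exists_least (hθ.ne_zero hc (inv_mem hx) (inv_ne_zero h0))
  have hmm : m' = -m := by
    have h1 := lc_mul_Icc (θ x) (θ x⁻¹) hm2 hm2' (m + m')
    rw [hfg, add_sub_cancel_right, Finset.Icc_self, Finset.sum_singleton, add_sub_cancel_left,
      lc_one] at h1
    by_contra h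
    rw [if_neg (by omega)] at h1
    exact mul_ne_zero hm1 hm1' h1.symm
  subst hmm
  have key : ∀ k : ℕ, Hm t H N χ ((k : ℤ) - m) (hO B) (lc (θ x⁻¹) ((k : ℤ) - m)) := by
    intro k
    induction k using Nat.strong_induction_on with
    | _ k ihk =>
      have h1 := lc_mul_Icc (θ x) (θ x⁻¹) hm2 hm2' (k : ℤ)
      have hmem : m ∈ Finset.Icc m ((k : ℤ) - -m) := by
        rw [Finset.mem_Icc]
        omega
      rw [hfg, ← Finset.add_sum_erase _ _ hmem] at h1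
      have h2 : lc (θ x⁻¹) ((k : ℤ) - m) = (lc (θ x) m)⁻¹ * (lc (1 : LS D) k +
          -∑ i ∈ (Finset.Icc m ((k : ℤ) - -m)).erase m, lc (θ x) i * lc (θ x⁻¹) ((k : ℤ) - i)) := by
        rw [h1, add_neg_cancel_right, ← mul_assoc, inv_mul_cancel₀ hm1, one_mul]
      have h3 : Hm t H N χ (k : ℤ) (hO B) (∑ i ∈ (Finset.Icc m ((k : ℤ) - -m)).erase m,
          lc (θ x) i * lc (θ x⁻¹) ((k : ℤ) - i)) := by
        refine hm_sum hc hpos hCf _ _ fun i hi => ?_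
        rw [Finset.mem_erase, Finset.mem_Icc] at hi
        obtain ⟨k', hk'⟩ : ∃ k' : ℕ, (k' : ℤ) = (k : ℤ) - i + m :=
          ⟨((k : ℤ) - i + m).toNat, Int.toNat_of_nonneg (by omega)⟩
        have h4 := ihk k' (by omega)
        rw [show ((k' : ℤ) - m) = (k : ℤ) - i by omega] at h4
        have h5 := hm_mul hc hCg (hm_mono (lt_hO B).le (ih i)) h4
        rwa [add_sub_cancel] at h5
      have h4 : Hm t H N χ (k : ℤ) (hO B) (lc (1 : LS D) k) := by
        rw [lc_one]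
        split_ifs with h
        · refine ⟨1, H.one_mem, by rw [hc.map_one, h], PE.one, PE.in_one N, hpos, ?_⟩
          exact kk_one PE.one
        · exact hm_zero hc _ hpos
      have h5 := hm_mul hc hCg (hm_inv hc (ih m)) (hm_add hc hCf h4 (hm_neg h3))
      rw [h2, show (k : ℤ) - m = -m + k by ring]
      exact h5
  by_cases hn : n < -m
  · rw [hm2' n hn]
    exact hm_zero hc n hpos
  · obtain ⟨k, hk⟩ : ∃ k : ℕ, (k : ℤ) = n + m := ⟨(n + m).toNat, Int.toNat_of_nonneg (by omega)⟩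
    have h1 := key k
    rwa [hk, add_sub_cancel_right] at h1

/-- **The key lemma.** The coefficients of the expansion of an expression which does not lie in `N`
have smaller complexity. -/
theorem kl (hc : Chi H N χ s) (hθ : Th t H χ θ) (p : PE G) (hp : p.In H) (hn : ¬ p.In N) (n : ℤ) :
    Hm t H N χ n p.cx (lc (θ (p.val t)) n) := by
  induction p generalizing n with
  | zero => exact absurd (PE.in_zero N) hn
  | one => exact absurd (PE.in_one N) hn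
  | neg p ih =>
    show Hm t H N χ n p.cx (lc (θ (- p.val t)) n)
    have hp' : p.In H := hp
    rw [hθ.neg (PE.val_mem t hp'), lc_neg]
    exact hm_neg (ih hp' hn n)
  | add p₁ g p₂ ih1 ih2 =>
    rw [PE.in_add] at hp
    obtain ⟨hp1, hg, hp2⟩ := hp
    show Hm t H N χ n (fO p₁.cx p₂.cx) (lc (θ (p₁.val t + ((t g : Dˣ) : D) * p₂.val t)) n)
    rw [hθ.add _ (PE.val_mem t hp1) _ (mul_mem (mem_DH t hg) (PE.val_mem t hp2)), lc_add,
      hθ.grp_mul (PE.val_mem t hp2) hg]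
    have hdeg : χ g + (n - χ g) = n := by ring
    by_cases h1 : p₁.In N
    · by_cases h2 : p₂.In N
      · have hgN : g ∉ N := fun h => hn (PE.in_add.mpr ⟨h1, h, h2⟩)
        have hg0 : χ g ≠ 0 := fun h => hgN ((hc.ker g).mpr ⟨hg, h⟩)
        rw [hθ.of_ker hc (PE.val_mem t h1), hθ.of_ker hc (PE.val_mem t h2), lc_lsg, lc_lsg]
        by_cases hn0 : n = 0
        · rw [if_pos hn0, if_neg (by omega), mul_zero, add_zero]
          exact ⟨1, H.one_mem, by rw [hc.map_one, hn0], p₁, h1, lt_fO_left _ _, kk_one p₁⟩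
        · rw [if_neg hn0, zero_add]
          by_cases hng : n - χ g = 0
          · rw [if_pos hng]
            exact ⟨g, hg, by omega, p₂, h2, lt_fO_right _ _, rfl⟩
          · rw [if_neg hng, mul_zero]
            exact hm_zero hc n (lt_of_le_of_lt zero_le (lt_fO_left p₁.cx p₂.cx))
      · have h3 := hm_grp hc hg (ih2 hp2 h2 (n - χ g))
        rw [hdeg] at h3
        refine hm_add hc (fun a ha b hb => ?_) (hm_le hc hθ p₁ (ih1 hp1) n) h3
        exact fO_lt (Order.lt_succ_iff.mp ha) hb.le (Or.inr hb)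
    · have h3 := hm_grp hc hg (hm_le hc hθ p₂ (ih2 hp2) (n - χ g))
      rw [hdeg] at h3
      refine hm_add hc (fun a ha b hb => ?_) (ih1 hp1 h1 n) h3
      exact fO_lt ha.le (Order.lt_succ_iff.mp hb) (Or.inl ha)
  | mul p₁ p₂ ih1 ih2 =>
    rw [PE.in_mul] at hp
    obtain ⟨hp1, hp2⟩ := hp
    show Hm t H N χ n (gO p₁.cx p₂.cx) (lc (θ (p₁.val t * p₂.val t)) n)
    obtain ⟨a, ha⟩ := exists_lb (θ (p₁.val t))
    obtain ⟨b, hb⟩ := exists_lb (θ (p₂.val t))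
    rw [hθ.mul _ (PE.val_mem t hp1) _ (PE.val_mem t hp2), lc_mul_Icc _ _ ha hb]
    refine hm_sum hc (lt_of_le_of_lt zero_le ((lt_fO_left p₁.cx p₂.cx).trans (lt_gG _)))
      (fun x hx y hy => gO_closed hx hy) _ _ fun i _ => ?_
    have hdeg : i + (n - i) = n := by ring
    by_cases h1 : p₁.In N
    · have h2 : ¬ p₂.In N := fun h => hn (PE.in_mul.mpr ⟨h1, h⟩)
      have h3 := hm_mul hc (C := gO p₁.cx p₂.cx) (fun a ha b hb => ?_)
        (hm_le hc hθ p₁ (ih1 hp1) i) (ih2 hp2 h2 (n - i))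
      · rwa [hdeg] at h3
      · exact gO_lt (Order.lt_succ_iff.mp ha) hb.le (Or.inr hb)
    · have h3 := hm_mul hc (C := gO p₁.cx p₂.cx) (fun a ha b hb => ?_)
        (ih1 hp1 h1 i) (hm_le hc hθ p₂ (ih2 hp2) (n - i))
      · rwa [hdeg] at h3
      · exact gO_lt ha.le (Order.lt_succ_iff.mp hb) (Or.inl ha)
  | inv p ih =>
    show Hm t H N χ n (hO p.cx) (lc (θ (p.val t)⁻¹) n)
    by_cases h0 : p.val t = 0
    · rw [h0, inv_zero, hθ.zero, lc_zero]
      exact hm_zero hc n (lt_of_le_of_lt zero_le (lt_hO p.cx))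
    · have hp' : p.In H := hp
      exact kl_inv hc hθ (PE.val_mem t hp') h0 (fun n => ih hp' hn n) n

/-- Every element is `t γ * p`. -/
theorem exists_rep_left (H : Subgroup G) {x : D} (hx : x ∈ DH t H) :
    ∃ γ ∈ H, ∃ p : PE G, p.In H ∧ x = ((t γ : Dˣ) : D) * p.val t := by
  have hcj : ∀ k ∈ H, ∀ x ∈ H, k * x * k⁻¹ ∈ H := fun k hk x hx =>
    H.mul_mem (H.mul_mem hk hx) (H.inv_mem hk)
  unfold DH at hx
  induction hx using Subfield.closure_induction with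
  | mem x hx =>
    obtain ⟨h, hh, rfl⟩ := hx
    exact ⟨h, hh, PE.one, PE.in_one H, (mul_one _).symm⟩
  | one => exact ⟨1, H.one_mem, PE.one, PE.in_one H, kk_one PE.one⟩
  | add x y _ _ hx hy =>
    obtain ⟨γ, h1, p, h2, rfl⟩ := hx
    obtain ⟨γ', h1', p', h2', rfl⟩ := hy
    exact ⟨γ, h1, PE.add p (γ⁻¹ * γ') p',
      PE.in_add.mpr ⟨h2, H.mul_mem (H.inv_mem h1) h1', h2'⟩, kk_add γ γ' p p'⟩
  | neg x _ hx =>
    obtain ⟨γ, h1, p, h2, rfl⟩ := hx
    refine ⟨γ, h1, PE.neg p, h2, ?_⟩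
    show - (((t γ : Dˣ) : D) * p.val t) = ((t γ : Dˣ) : D) * (- p.val t)
    rw [mul_neg]
  | inv x _ hx =>
    obtain ⟨γ, h1, p, h2, rfl⟩ := hx
    exact ⟨γ⁻¹, H.inv_mem h1, PE.conj γ (PE.inv p), PE.in_conj (hcj γ h1) h2, kk_inv γ p⟩
  | mul x y _ _ hx hy =>
    obtain ⟨γ, h1, p, h2, rfl⟩ := hx
    obtain ⟨γ', h1', p', h2', rfl⟩ := hy
    exact ⟨γ * γ', H.mul_mem h1 h1', PE.mul (PE.conj γ'⁻¹ p) p',
      PE.in_mul.mpr ⟨PE.in_conj (hcj _ (H.inv_mem h1')) h2, h2'⟩, kk_mul γ γ' p p'⟩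

/-- Every element is `p * t γ`. -/
theorem exists_rep_right (H : Subgroup G) {x : D} (hx : x ∈ DH t H) :
    ∃ γ ∈ H, ∃ p : PE G, p.In H ∧ x = p.val t * ((t γ : Dˣ) : D) := by
  obtain ⟨γ, h1, p, h2, rfl⟩ := exists_rep_left H hx
  refine ⟨γ, h1, PE.conj γ p, PE.in_conj (fun x hx =>
    H.mul_mem (H.mul_mem h1 hx) (H.inv_mem h1)) h2, ?_⟩
  rw [PE.val_conj, mul_assoc (((t γ : Dˣ) : D) * p.val t), Units.inv_mul, mul_one]

end SingerBO
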