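import Mathlib
import Pool.Agent.Lib_MP_394d50_bo.RDefs

/-!
# Piece RCOS: columns and cosets; the trivial group (about 250 lines)

* `ev_shR`, `kerLe_shR`: `rm w (shR T) (g, j) = rm w T (g * (γ j)⁻¹, j)`.
* `tf_coset`: choose a finite set `C` of representatives of the left cosets `c H` which meet the supports of the `T i j` and
  the `u i` (`c⁻¹ * c' ∈ H → c = c'`). For `i' = (i, c)`, `c ∈ C` (`I' = I × C`), let
  `T' i' j = ((T i j).filter (fun x => c⁻¹ * x ∈ H)).mapDomain (c⁻¹ * ·)`, and `u'` similarly; supports in `H`. Then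
  `ev t (T i j) = ∑ c ∈ C, t c * ev t (T' (i, c) j)`, so `∑ c ∈ C, t c * (∑ j, ev t (T' (i, c) j) * y j - ev t (u' (i, c))) = 0` with
  brackets in `DH t H`, so by `FEb.left` every bracket is `0`. For `w : L2 (G × I)` let `w' (g, (i, c)) = w (g * c⁻¹, i)`
  (square summable: a finite sum of `push`/`pull`s along injective maps; in `L2 (G × I')`). Then
  `rm w' T' (g, j) = ∑ i, ∑ c, ∑ x, T' (i, c) j x * w (g * x⁻¹ * c⁻¹, i) = rm w T (g, j)` (`x = c⁻¹ * y`, `y` in the support of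
  `T i j`), the same for `u`. So `ih` for `I'`, `T'`, `u'` gives the claim.
* `tf_base`: `DH t ⊥` is contained in the set of the rational numbers (`Subfield.closure_le` with the range of
  `Rat.castHom D`; `t 1 = 1`), so `y j = (q j : D)`; `T i j = single 1 (T i j 1)`. In `D`: `∑ j, T i j 1 * q j = u i 1`, so in `ℚ`
  (`CharZero`), and in `ℝ`. `rm w T (g, j) = ∑ i, T i j 1 * w (g, i)`, `rm w u = ∑ i, u i 1 * w (g, i) = ∑ j, q j * (∑ i, T i j 1 * w (g, i)) = 0`.
-/

namespace SingerBO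

open SingerVS SingerCub

variable {G D : Type} [Group G] [DivisionRing D] {t : G →* Dˣ}

/-- The right translate of an element of the group ring. -/
noncomputable def shR (f : G →₀ ℤ) (γ : G) : G →₀ ℤ := f.mapDomain (fun x => x * γ)

theorem ev_shR (f : G →₀ ℤ) (γ : G) : ev t (shR f γ) = ev t f * ((t γ : Dˣ) : D) := by
  unfold ev shR
  rw [Finsupp.sum_mapDomain_index (fun x => by rw [Int.cast_zero, zero_mul])
    (fun x a b => by rw [Int.cast_add, add_mul]), Finsupp.sum_mul]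
  refine Finset.sum_congr rfl fun x _ => ?_
  show ((f x : ℤ) : D) * ((t (x * γ) : Dˣ) : D) = ((f x : ℤ) : D) * ((t x : Dˣ) : D) * _
  rw [map_mul, Units.val_mul, mul_assoc]

theorem kerLe_shR {I J : Type} [Fintype I] (T : I → J → G →₀ ℤ) (u : I → G →₀ ℤ) (γ : J → G)
    (h : KerLe Set.univ (fun i j => shR (T i j) (γ j)) u) : KerLe Set.univ T u := by
  intro w hw hT
  refine h w hw fun c => ?_
  rw [← hT (c.1 * (γ c.2)⁻¹, c.2)]
  unfold rm shR
  refine Finset.sum_congr rfl fun i _ => ?_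
  rw [Finsupp.sum_mapDomain_index (fun x => by rw [Int.cast_zero, zero_mul])
    (fun x a b => by rw [Int.cast_add, add_mul])]
  refine Finset.sum_congr rfl fun x _ => ?_
  show ((T i c.2 x : ℤ) : ℝ) * w (c.1 * (x * γ c.2)⁻¹, i) =
    ((T i c.2 x : ℤ) : ℝ) * w (c.1 * (γ c.2)⁻¹ * x⁻¹, i)
  rw [mul_inv_rev, mul_assoc]

open Classical in
/-- The part of `f` in the coset `c H`, translated into `H`. -/
private noncomputable def pieceC (H : Subgroup G) (c : G) (f : G →₀ ℤ) : G →₀ ℤ :=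
  (f.filter fun x => c⁻¹ * x ∈ H).mapDomain fun x => c⁻¹ * x

private theorem pieceC_mem (H : Subgroup G) (c : G) (f : G →₀ ℤ) (x : G)
    (hx : pieceC H c f x ≠ 0) : x ∈ H := by
  classical
  have h1 : x ∈ (pieceC H c f).support := Finsupp.mem_support_iff.mpr hx
  unfold pieceC at h1
  have h2 := Finsupp.mapDomain_support h1
  rw [Finset.mem_image] at h2
  obtain ⟨y, hy, rfl⟩ := h2
  rw [Finsupp.support_filter, Finset.mem_filter] at hy
  exact hy.2

private theorem pieceC_sum {M : Type} [AddCommMonoid M] (H : Subgroup G) (c : G) (f : G →₀ ℤ)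
    (φ : G → ℤ → M) (h0 : ∀ x, φ x 0 = 0) (ha : ∀ x a b, φ x (a + b) = φ x a + φ x b) :
    ((pieceC H c f).sum fun h n => φ (c * h) n) =
      ∑ x ∈ f.support, (open Classical in if c⁻¹ * x ∈ H then φ x (f x) else 0) := by
  classical
  unfold pieceC
  rw [Finsupp.sum_mapDomain_index (fun x => h0 _) (fun x a b => ha _ a b)]
  unfold Finsupp.sum
  rw [Finsupp.support_filter, Finset.sum_filter]
  refine Finset.sum_congr rfl fun x _ => ?_
  by_cases hx : c⁻¹ * x ∈ H
  · rw [if_pos hx, if_pos hx]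
    show φ (c * (c⁻¹ * x)) ((f.filter fun x => c⁻¹ * x ∈ H) x) = φ x (f x)
    rw [mul_inv_cancel_left, Finsupp.filter_apply_pos (fun x => c⁻¹ * x ∈ H) f hx]
  · rw [if_neg hx, if_neg hx]

private theorem sum_pieceC {M : Type} [AddCommMonoid M] (H : Subgroup G) (C : Finset G)
    (f : G →₀ ℤ) (hC : ∀ x ∈ f.support, ∃ c ∈ C, c⁻¹ * x ∈ H)
    (hC2 : ∀ c ∈ C, ∀ c' ∈ C, c⁻¹ * c' ∈ H → c = c')
    (φ : G → ℤ → M) (h0 : ∀ x, φ x 0 = 0) (ha : ∀ x a b, φ x (a + b) = φ x a + φ x b) :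
    f.sum φ = ∑ c ∈ C, (pieceC H c f).sum fun h n => φ (c * h) n := by
  classical
  have h1 : ∑ c ∈ C, ((pieceC H c f).sum fun h n => φ (c * h) n) =
      ∑ c ∈ C, ∑ x ∈ f.support, if c⁻¹ * x ∈ H then φ x (f x) else 0 := by
    refine Finset.sum_congr rfl fun c _ => ?_
    rw [pieceC_sum H c f φ h0 ha]
  rw [h1, Finset.sum_comm]
  unfold Finsupp.sum
  refine Finset.sum_congr rfl fun x hx => ?_
  obtain ⟨c, hc, hcx⟩ := hC x hx
  rw [Finset.sum_eq_single_of_mem c hc, if_pos hcx]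
  intro c' hc' hne
  rw [if_neg]
  intro h2
  apply hne
  apply hC2 c' hc' c hc
  have : c'⁻¹ * c = (c'⁻¹ * x) * (c⁻¹ * x)⁻¹ := by group
  rw [this]
  exact H.mul_mem h2 (H.inv_mem hcx)

private theorem ev_mem (H : Subgroup G) (f : G →₀ ℤ) (hf : ∀ x, f x ≠ 0 → x ∈ H) :
    ev t f ∈ DH t H := by
  unfold ev Finsupp.sum
  refine sum_mem fun x hx => mul_mem (intCast_mem _ _) ?_
  exact mem_DH t (hf x (Finsupp.mem_support_iff.mp hx))

private theorem ev_pieceC (H : Subgroup G) (C : Finset G)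
    (f : G →₀ ℤ) (hC : ∀ x ∈ f.support, ∃ c ∈ C, c⁻¹ * x ∈ H)
    (hC2 : ∀ c ∈ C, ∀ c' ∈ C, c⁻¹ * c' ∈ H → c = c') :
    ev t f = ∑ c ∈ C, ((t c : Dˣ) : D) * ev t (pieceC H c f) := by
  unfold ev
  rw [sum_pieceC H C f hC hC2 (fun x n => ((n : ℤ) : D) * ((t x : Dˣ) : D))
    (fun x => by rw [Int.cast_zero, zero_mul]) (fun x a b => by rw [Int.cast_add, add_mul])]
  refine Finset.sum_congr rfl fun c _ => ?_
  rw [Finsupp.mul_sum]
  refine Finset.sum_congr rfl fun x _ => ?_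
  show ((pieceC H c f x : ℤ) : D) * ((t (c * x) : Dˣ) : D) =
    ((t c : Dˣ) : D) * (((pieceC H c f x : ℤ) : D) * ((t x : Dˣ) : D))
  rw [map_mul, Units.val_mul, ← mul_assoc, ← mul_assoc, (Int.cast_commute _ _).eq]

private theorem lift_exists {I : Type} (C : Finset G) (w : L2 (G × I)) :
    ∃ w' : L2 (G × (I × {c // c ∈ C})), ∀ g i c, w' (g, (i, c)) = w (g * (c : G)⁻¹, i) := by
  classical
  have he : ∀ c : {c // c ∈ C}, Function.Injective
      (fun p : G × I => ((p.1, (p.2, c)) : G × (I × {c // c ∈ C}))) := by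
    intro c p q h
    simp only [Prod.mk.injEq, and_true] at h
    exact Prod.ext h.1 h.2
  have hm : ∀ c : {c // c ∈ C}, Function.Injective
      (fun p : G × I => ((p.1 * (c : G)⁻¹, p.2) : G × I)) := by
    intro c p q h
    simp only [Prod.mk.injEq, mul_left_inj] at h
    exact Prod.ext h.1 h.2
  refine ⟨∑ c : {c // c ∈ C}, push _ (he c) (pull _ (hm c) w), ?_⟩
  intro g i c
  have h1 : ((∑ c : {c // c ∈ C}, push _ (he c) (pull _ (hm c) w) :
      L2 (G × (I × {c // c ∈ C}))) : G × (I × {c // c ∈ C}) → ℝ) (g, (i, c)) =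
      ∑ c' : {c // c ∈ C}, (push _ (he c') (pull _ (hm c') w)) (g, (i, c)) := by
    rw [lp.coeFn_sum, Finset.sum_apply]
  rw [h1, Finset.sum_eq_single_of_mem c (Finset.mem_univ c)]
  · exact push_apply _ (he c) (pull _ (hm c) w) (g, i)
  · intro c' _ hne
    apply push_apply_ne
    intro p hp
    simp only [Prod.mk.injEq] at hp
    exact hne hp.2.2

theorem tf_coset (hF : FEb t) {I J : Type} [Fintype I] [Fintype J] (H : Subgroup G)
    (T : I → J → G →₀ ℤ) (u : I → G →₀ ℤ) (y : J → D) (hy : ∀ j, y j ∈ DH t H)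
    (h : ∀ i, ∑ j, ev t (T i j) * y j = ev t (u i))
    (ih : ∀ (I' : Type) [Fintype I'] (T' : I' → J → G →₀ ℤ) (u' : I' → G →₀ ℤ),
      (∀ i j x, T' i j x ≠ 0 → x ∈ H) → (∀ i x, u' i x ≠ 0 → x ∈ H) →
      (∀ i, ∑ j, ev t (T' i j) * y j = ev t (u' i)) → KerLe Set.univ T' u') :
    KerLe Set.univ T u := by
  classical
  set S : Finset G := (Finset.univ.biUnion fun i => Finset.univ.biUnion fun j =>
    (T i j).support) ∪ Finset.univ.biUnion fun i => (u i).support with hS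
  set r : G → G := fun x => Quotient.out (QuotientGroup.mk x : G ⧸ H) with hr
  have hr1 : ∀ x, (r x)⁻¹ * x ∈ H := by
    intro x
    rw [← QuotientGroup.eq]
    exact Quotient.out_eq _
  have hr2 : ∀ x x', (r x)⁻¹ * r x' ∈ H → r x = r x' := by
    intro x x' hx
    have h1 : (QuotientGroup.mk (r x) : G ⧸ H) = QuotientGroup.mk (r x') := QuotientGroup.eq.mpr hx
    have h2 : (QuotientGroup.mk (r x) : G ⧸ H) = QuotientGroup.mk x := Quotient.out_eq _
    have h3 : (QuotientGroup.mk (r x') : G ⧸ H) = QuotientGroup.mk x' := Quotient.out_eq _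
    rw [h2, h3] at h1
    simp only [hr, h1]
  set C : Finset G := S.image r with hCdef
  have hC2 : ∀ c ∈ C, ∀ c' ∈ C, c⁻¹ * c' ∈ H → c = c' := by
    intro c hc c' hc' hcc
    obtain ⟨x, _, rfl⟩ := Finset.mem_image.mp hc
    obtain ⟨x', _, rfl⟩ := Finset.mem_image.mp hc'
    exact hr2 x x' hcc
  have hCT : ∀ i j, ∀ x ∈ (T i j).support, ∃ c ∈ C, c⁻¹ * x ∈ H := by
    intro i j x hx
    refine ⟨r x, Finset.mem_image_of_mem _ (Finset.mem_union_left _ ?_), hr1 x⟩
    exact Finset.mem_biUnion.mpr ⟨i, Finset.mem_univ i,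
      Finset.mem_biUnion.mpr ⟨j, Finset.mem_univ j, hx⟩⟩
  have hCu : ∀ i, ∀ x ∈ (u i).support, ∃ c ∈ C, c⁻¹ * x ∈ H := by
    intro i x hx
    refine ⟨r x, Finset.mem_image_of_mem _ (Finset.mem_union_right _ ?_), hr1 x⟩
    exact Finset.mem_biUnion.mpr ⟨i, Finset.mem_univ i, hx⟩
  have hkey : ∀ i, ∀ c ∈ C, ∑ j, ev t (pieceC H c (T i j)) * y j - ev t (pieceC H c (u i)) = 0 := by
    intro i
    refine hF.left H C (fun c => ∑ j, ev t (pieceC H c (T i j)) * y j - ev t (pieceC H c (u i)))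
      hC2 ?_ ?_
    · intro c _
      refine sub_mem (sum_mem fun j _ => mul_mem (ev_mem H _ (pieceC_mem H c _)) (hy j))
        (ev_mem H _ (pieceC_mem H c _))
    · have h1 : ∑ c ∈ C, ((t c : Dˣ) : D) * (∑ j, ev t (pieceC H c (T i j)) * y j -
          ev t (pieceC H c (u i))) = ∑ j, ev t (T i j) * y j - ev t (u i) := by
        have h2 : ∀ j, ev t (T i j) * y j =
            ∑ c ∈ C, ((t c : Dˣ) : D) * (ev t (pieceC H c (T i j)) * y j) := by
          intro j
          rw [ev_pieceC H C (T i j) (hCT i j) hC2, Finset.sum_mul]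
          exact Finset.sum_congr rfl fun c _ => mul_assoc _ _ _
        rw [Finset.sum_congr rfl fun j _ => h2 j, Finset.sum_comm,
          ev_pieceC H C (u i) (hCu i) hC2, ← Finset.sum_sub_distrib]
        refine Finset.sum_congr rfl fun c _ => ?_
        rw [mul_sub, Finset.mul_sum]
      rw [h1, h i, sub_self]
  have hK := ih (I × {c // c ∈ C}) (fun p j => pieceC H (p.2 : G) (T p.1 j))
    (fun p => pieceC H (p.2 : G) (u p.1)) (fun p j x hx => pieceC_mem H _ _ x hx)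
    (fun p x hx => pieceC_mem H _ _ x hx)
    (fun p => sub_eq_zero.mp (hkey p.1 p.2 p.2.2))
  intro w _ hT g
  obtain ⟨w', hw'⟩ := lift_exists C w
  have hrm : ∀ (f : I → G →₀ ℤ), (∀ i, ∀ x ∈ (f i).support, ∃ c ∈ C, c⁻¹ * x ∈ H) → ∀ g : G,
      ∑ p : I × {c // c ∈ C}, ((pieceC H (p.2 : G) (f p.1)).sum
        fun x n => (n : ℝ) * w' (g * x⁻¹, p)) =
      ∑ i, (f i).sum fun x n => (n : ℝ) * w (g * x⁻¹, i) := by
    intro f hf g
    rw [Fintype.sum_prod_type]
    refine Finset.sum_congr rfl fun i _ => ?_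
    rw [sum_pieceC H C (f i) (hf i) hC2 (fun x n => ((n : ℤ) : ℝ) * w (g * x⁻¹, i))
      (fun x => by rw [Int.cast_zero, zero_mul]) (fun x a b => by rw [Int.cast_add, add_mul]),
      ← Finset.sum_coe_sort C]
    refine Finset.sum_congr rfl fun c _ => ?_
    refine Finset.sum_congr rfl fun x _ => ?_
    show _ * w' (g * x⁻¹, (i, c)) = _ * w (g * ((c : G) * x)⁻¹, i)
    rw [hw', mul_inv_rev, mul_assoc]
  have h1 := hK w' (fun c hc => absurd (Set.mem_univ _) hc) (fun c => by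
    have := hrm (fun i => T i c.2) (fun i => hCT i c.2) c.1
    unfold rm
    rw [this]
    exact hT c) g
  unfold rm at h1 ⊢
  rw [← h1]
  exact (hrm u hCu g).symm

theorem tf_base [CharZero D] {I J : Type} [Fintype I] [Fintype J]
    (T : I → J → G →₀ ℤ) (u : I → G →₀ ℤ) (hT : ∀ i j x, T i j x ≠ 0 → x ∈ (⊥ : Subgroup G))
    (hu : ∀ i x, u i x ≠ 0 → x ∈ (⊥ : Subgroup G)) (y : J → D)
    (hy : ∀ j, y j ∈ DH t (⊥ : Subgroup G)) (h : ∀ i, ∑ j, ev t (T i j) * y j = ev t (u i)) :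
    KerLe Set.univ T u := by
  have hle : DH t (⊥ : Subgroup G) ≤ (Rat.castHom D).fieldRange := by
    unfold DH
    rw [Subfield.closure_le]
    rintro x ⟨g, hg, rfl⟩
    rw [Subgroup.mem_bot.mp hg, map_one, Units.val_one]
    exact one_mem _
  have hq : ∀ j, ∃ q : ℚ, y j = (q : D) := by
    intro j
    obtain ⟨q, hq⟩ := RingHom.mem_fieldRange.mp (hle (hy j))
    exact ⟨q, by rw [← hq]; rfl⟩
  choose q hq using hq
  have hsum : ∀ {M : Type} [AddCommMonoid M] (f : G →₀ ℤ)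
      (_ : ∀ x, f x ≠ 0 → x ∈ (⊥ : Subgroup G)) (φ : G → ℤ → M) (_ : φ 1 0 = 0),
      f.sum φ = φ 1 (f 1) := by
    intro M _ f hf φ h0
    unfold Finsupp.sum
    by_cases h1 : f 1 = 0
    · have h2 : f.support = ∅ := by
        rw [Finset.eq_empty_iff_forall_notMem]
        intro x hx
        have h3 := Finsupp.mem_support_iff.mp hx
        rw [Subgroup.mem_bot.mp (hf x h3)] at h3
        exact h3 h1
      rw [h2, Finset.sum_empty, h1, h0]
    · have h2 : f.support = {1} := by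
        ext x
        rw [Finset.mem_singleton, Finsupp.mem_support_iff]
        constructor
        · intro hx
          exact Subgroup.mem_bot.mp (hf x hx)
        · rintro rfl
          exact h1
      rw [h2, Finset.sum_singleton]
  have hev : ∀ (f : G →₀ ℤ), (∀ x, f x ≠ 0 → x ∈ (⊥ : Subgroup G)) →
      ev t f = ((f 1 : ℤ) : D) := by
    intro f hf
    unfold ev
    rw [hsum f hf _ (by rw [Int.cast_zero, zero_mul]), map_one t, Units.val_one, mul_one]
  have hQ : ∀ i, ∑ j, ((T i j 1 : ℤ) : ℚ) * q j = ((u i 1 : ℤ) : ℚ) := by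
    intro i
    have h1 := h i
    rw [hev (u i) (hu i)] at h1
    have h2 : ∑ j, ev t (T i j) * y j = ((∑ j, ((T i j 1 : ℤ) : ℚ) * q j : ℚ) : D) := by
      rw [Rat.cast_sum]
      refine Finset.sum_congr rfl fun j _ => ?_
      rw [hev (T i j) (hT i j), hq j, Rat.cast_mul, Rat.cast_intCast]
    rw [h2, ← Rat.cast_intCast] at h1
    exact Rat.cast_injective h1
  have hR : ∀ i, ∑ j, ((T i j 1 : ℤ) : ℝ) * ((q j : ℚ) : ℝ) = ((u i 1 : ℤ) : ℝ) := by
    intro i
    rw [← Rat.cast_intCast (u i 1), ← hQ i, Rat.cast_sum]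
    refine Finset.sum_congr rfl fun j _ => ?_
    rw [Rat.cast_mul, Rat.cast_intCast]
  intro w _ hw g
  have hTw : ∀ j, ∑ i, ((T i j 1 : ℤ) : ℝ) * w (g, i) = 0 := by
    intro j
    rw [← hw (g, j)]
    unfold rm
    refine Finset.sum_congr rfl fun i _ => ?_
    rw [hsum (T i j) (hT i j) _ (by rw [Int.cast_zero, zero_mul]), inv_one, mul_one]
  unfold rm
  calc ∑ i, ((u i).sum fun x n => (n : ℝ) * w (g * x⁻¹, i))
      = ∑ i, ((u i 1 : ℤ) : ℝ) * w (g, i) := by
        refine Finset.sum_congr rfl fun i _ => ?_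
        rw [hsum (u i) (hu i) _ (by rw [Int.cast_zero, zero_mul]), inv_one, mul_one]
    _ = ∑ i, ∑ j, ((q j : ℚ) : ℝ) * (((T i j 1 : ℤ) : ℝ) * w (g, i)) := by
        refine Finset.sum_congr rfl fun i _ => ?_
        rw [← hR i, Finset.sum_mul]
        refine Finset.sum_congr rfl fun j _ => ?_
        ring
    _ = ∑ j, ((q j : ℚ) : ℝ) * ∑ i, ((T i j 1 : ℤ) : ℝ) * w (g, i) := by
        rw [Finset.sum_comm]
        exact Finset.sum_congr rfl fun j _ => (Finset.mul_sum _ _ _).symm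
    _ = 0 := Finset.sum_eq_zero fun j _ => by rw [hTw j, mul_zero]

end SingerBO
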