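import Mathlib
import Pool.Agent.Lib_MP_394d50_bo.RTr
import Pool.Agent.Lib_MP_394d50_bo.RLev

/-!
# Piece RSLAB: the slab lemma (about 300 lines)

`slab`. Let `Φ`, `Ψ` be the operators of `T` and `u` (`exists_rmop`; `u` as a matrix with one column), `A = ker Φ`,
`A' = A ⊓ ker Ψ` (closed invariant subspaces of `L2 (K × I)`), `B = A ⊓ A'ᗮ`, `Q` the projection on `B` (equivariant:
`Inv.proj`), `κ = tr K Q ≥ 0`. We show `m * κ ≤ 4 d * card J` for all `m`, where `d` is such that `|χ x| ≤ d` for all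
`x` in the supports of `T`. Then `κ = 0`, `B = 0` (`tr_proj_eq_zero`, cub/ETr), and for `w ∈ A` the vector
`w - P_{A'} w` is in `B`, so `w ∈ A'`: this is the claim (on all of `K`).
Let `E = Ico 0 m`, `ι : Lev χ E I → K × I` the inclusion, `R = pull ι ∘ Q ∘ push ι` on `L2 (Lev χ E I)`: `0 ≤ R ≤ 1`, self-adjoint,
`tr N R = m * κ` (`lev_trace`). Let `M` be the closure of the range of `R` (`M = (ker R)ᗮ`). Then
`tr N R ≤ tr N P_M`: `⟨R δ, δ⟩ = ⟨R (P_M δ), P_M δ⟩ ≤ ‖P_M δ‖² = ⟨P_M δ, δ⟩`, as `R δ = R (P_M δ)` (`δ - P_M δ ∈ ker R`) and `‖R‖ ≤ 1`.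
Let `E' = Ico (-d) d ∪ Ico (m - d) (m + d)` (`card ≤ 4 d`), `Λ = pull ι' ∘ Φ ∘ push ι : L2 (Lev χ E I) → L2 (Lev χ E' J)`, an
`N`-equivariant operator. Claim: `Λ` is injective on `M`. For `x = R y`, `push ι x` is the restriction to
the slab of `z = Q (push ι y) ∈ B`, `Φ z = 0`. For a `c` with `χ c.1 ∉ E'`: `(Φ (push ι x)) c = 0`: if `d ≤ χ c.1 < m - d`
then all `c.1 * x⁻¹` (`x` in the support of `T`) lie in the slab and the value is `(Φ z) c = 0`; if `χ c.1 < -d` or
`χ c.1 ≥ m + d` then none of them lies in the slab. By continuity the same holds for all `x ∈ M`: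
`(Φ (push ι x)) c = 0` for `χ c.1 ∉ E'`. So if `x ∈ M` and `Λ x = 0` then `Φ (push ι x) = 0`, and by the hypothesis
`h m` (support in the slab) `Ψ (push ι x) = 0`: `push ι x ∈ A'`. Since `x` is in the closure of the range of `R`, and
`⟨R y, x⟩ = ⟨Q (push ι y), push ι x⟩ = 0` (`Q _ ∈ B ⊥ A'`), we get `⟨x, x⟩ = 0`.
`tr_mono_inj` with `M' = ⊤`: `tr N P_M ≤ tr N 1 = card of the orbits = E'.card * card J ≤ 4 d * card J` (`card_lev`; the trace of
the identity is the number of orbits; `tr_sup` or directly).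

`slab_sub`: from `slab` for the group `K = H`. Given `w` on `G × I` with `rm w T = 0` and `g₀`: let
`w' (h, i) = w (g₀ * h, i)` for `h ∈ H` (`pull` along `(h, i) ↦ (g₀ * h, i)`), `T' i j = (T i j)` restricted to `H`
(`Finsupp.comapDomain` or `subtypeDomain`). `rm w' T' (h, j) = rm w T (g₀ * h, j) = 0`. The claim at `1 ∈ H` for `w'` is the
claim at `g₀` for `w`. The hypothesis of `slab` for `m`: a `w''` on `H × I` with support in the slab gives by `push` along
`(h, i) ↦ (h, i)` an element of `L2 (G × I)` with support in `{g | g ∈ H ∧ ...}`; `rm` of the push forward at `(g, j)` is `rm w'' T'`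
for `g ∈ H` and `0` for `g ∉ H`.
-/

namespace SingerBO

open SingerVS SingerCub


private theorem rslab_inv_orth {H C : Type} [Group H] [MulAction H C] {W : Submodule ℝ (L2 C)}
    (hW : Inv H W) : Inv H Wᗮ := by
  intro h z hz
  rw [Submodule.mem_orthogonal] at hz ⊢
  intro w hw
  rw [real_inner_comm, shift_inner, real_inner_comm]
  exact hz _ (hW h⁻¹ w hw)

private theorem rslab_inv_inf {H C : Type} [Group H] [MulAction H C] {V W : Submodule ℝ (L2 C)}
    (hV : Inv H V) (hW : Inv H W) : Inv H (V ⊓ W) := by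
  intro h z hz
  exact ⟨hV h z hz.1, hW h z hz.2⟩

/-- The kernel of an operator. -/
private def rslabKer {C C' : Type} (F : L2 C →L[ℝ] L2 C') : Submodule ℝ (L2 C) where
  carrier := {z | F z = 0}
  add_mem' := fun {a b} ha hb => by
    show F (a + b) = 0
    have ha' : F a = 0 := ha
    have hb' : F b = 0 := hb
    rw [map_add, ha', hb', add_zero]
  zero_mem' := map_zero F
  smul_mem' := fun r a ha => by
    show F (r • a) = 0
    have ha' : F a = 0 := ha
    rw [map_smul, ha', smul_zero]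

private theorem rslab_mem_ker {C C' : Type} {F : L2 C →L[ℝ] L2 C'} {z : L2 C} :
    z ∈ rslabKer F ↔ F z = 0 := Iff.rfl

private theorem rslab_closed_ker {C C' : Type} (F : L2 C →L[ℝ] L2 C') :
    IsClosed (rslabKer F : Set (L2 C)) :=
  isClosed_eq F.continuous continuous_const

private theorem rslab_inv_ker {H C C' : Type} [Group H] [MulAction H C] [MulAction H C']
    {F : L2 C →L[ℝ] L2 C'} (hF : Eqv2 H F) : Inv H (rslabKer F) := by
  intro h z hz
  rw [rslab_mem_ker] at hz ⊢
  rw [hF, hz, map_zero]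

/-- The inverse image of a subspace. -/
private def rslabCo {C C' : Type} (F : L2 C →L[ℝ] L2 C') (V : Submodule ℝ (L2 C')) :
    Submodule ℝ (L2 C) where
  carrier := {z | F z ∈ V}
  add_mem' := fun {a b} ha hb => by
    show F (a + b) ∈ V
    rw [map_add]
    exact V.add_mem ha hb
  zero_mem' := by
    show F 0 ∈ V
    rw [map_zero]
    exact V.zero_mem
  smul_mem' := fun r a ha => by
    show F (r • a) ∈ V
    rw [map_smul]
    exact V.smul_mem r ha

private theorem rslab_mem_co {C C' : Type} {F : L2 C →L[ℝ] L2 C'} {V : Submodule ℝ (L2 C')}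
    {z : L2 C} : z ∈ rslabCo F V ↔ F z ∈ V := Iff.rfl

private theorem rslab_closed_co {C C' : Type} (F : L2 C →L[ℝ] L2 C') {V : Submodule ℝ (L2 C')}
    (hV : IsClosed (V : Set (L2 C'))) : IsClosed (rslabCo F V : Set (L2 C)) :=
  hV.preimage F.continuous

private theorem rslab_inv_co {H C C' : Type} [Group H] [MulAction H C] [MulAction H C']
    {F : L2 C →L[ℝ] L2 C'} (hF : Eqv2 H F) {V : Submodule ℝ (L2 C')} (hV : Inv H V) :
    Inv H (rslabCo F V) := by
  intro h z hz
  rw [rslab_mem_co] at hz ⊢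
  rw [hF]
  exact hV h _ hz

private theorem rslab_inv_sup {H C : Type} [Group H] [MulAction H C] {A : Set C}
    (hA : ∀ (h : H) (c : C), h • c ∈ A → c ∈ A) : Inv H (sup A) := by
  intro h z hz c hc
  rw [shift_apply]
  exact hz _ fun hm => hc (by
    have h1 : h⁻¹ • c ∈ A := hm
    have h2 : h • (h⁻¹ • c) ∈ A := by
      apply hA h⁻¹
      rw [inv_smul_smul]
      exact h1
    rwa [smul_inv_smul] at h2)

private theorem rslab_inner_proj {C : Type} (M : Submodule ℝ (L2 C)) [M.HasOrthogonalProjection]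
    (x : L2 C) : inner ℝ (M.starProjection x) x = ‖M.starProjection x‖ ^ 2 := by
  have h := M.starProjection_inner_eq_zero x (M.starProjection x) (M.starProjection_apply_mem x)
  rw [inner_sub_left, sub_eq_zero, real_inner_self_eq_norm_sq] at h
  rw [real_inner_comm]
  exact h

private theorem rslab_proj {C : Type} {M : Submodule ℝ (L2 C)}
    (h : IsClosed (M : Set (L2 C))) : M.HasOrthogonalProjection := by
  have : CompleteSpace M := h.completeSpace_coe
  infer_instance

/-- Restriction of the group. -/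
private theorem rslab_res {K C C' : Type} [Group K] [MulAction K C] [MulAction K C']
    (N : Subgroup K) {F : L2 C →L[ℝ] L2 C'} (hF : Eqv2 K F) : Eqv2 N F := by
  intro n z
  have h1 : ∀ {D : Type} [MulAction K D] (y : L2 D), shift n y = shift (n : K) y := by
    intro D _ y
    apply l2_ext
    intro c
    rw [shift_apply, shift_apply]
    rfl
  rw [h1, h1]
  exact hF n z

private theorem rslab_res_inv {K C : Type} [Group K] [MulAction K C]
    (N : Subgroup K) {M : Submodule ℝ (L2 C)} (hM : Inv K M) : Inv N M := by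
  intro n z hz
  have h1 : shift n z = shift (n : K) z := by
    apply l2_ext
    intro c
    rw [shift_apply, shift_apply]
    rfl
  rw [h1]
  exact hM n z hz

/-- The trace of a symmetric operator `R` with `R ≤ 1` whose range lies in `M`. -/
private theorem rslab_tr_le {H C : Type} [Group H] [MulAction H C] (hC : FO H C)
    {R : L2 C →L[ℝ] L2 C} (M : Submodule ℝ (L2 C)) [M.HasOrthogonalProjection]
    (hsym : ∀ x y, inner ℝ (R x) y = inner ℝ x (R y))
    (hle : ∀ x, inner ℝ (R x) x ≤ ‖x‖ ^ 2) (hM : ∀ y, R y ∈ M) :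
    tr H R ≤ tr H M.starProjection := by
  have := hC.cofin
  let _ : Fintype (Orb H C) := Fintype.ofFinite _
  unfold tr
  rw [finsum_eq_sum_of_fintype, finsum_eq_sum_of_fintype]
  refine Finset.sum_le_sum fun o _ => ?_
  generalize (delta o.out : L2 C) = x
  have h1 : R (x - M.starProjection x) = 0 := by
    refine ext_inner_right ℝ fun w => ?_
    rw [hsym, inner_zero_left]
    exact M.starProjection_inner_eq_zero x _ (hM w)
  have h2 : R x = R (M.starProjection x) := by
    rw [map_sub, sub_eq_zero] at h1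
    exact h1
  rw [rslab_inner_proj, h2, hsym, h2, ← hsym]
  exact hle _

private theorem rslab_tr_top {H C : Type} [Group H] [MulAction H C] (hC : FO H C) :
    tr H (⊤ : Submodule ℝ (L2 C)).starProjection = (Nat.card (Orb H C) : ℝ) := by
  have := hC.cofin
  let _ : Fintype (Orb H C) := Fintype.ofFinite _
  unfold tr
  rw [finsum_eq_sum_of_fintype, Nat.card_eq_fintype_card]
  have h1 : ∀ o : Orb H C, inner ℝ ((⊤ : Submodule ℝ (L2 C)).starProjection (delta o.out))
      (delta o.out) = 1 := by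
    intro o
    have h2 : (⊤ : Submodule ℝ (L2 C)).starProjection (delta o.out) = delta o.out :=
      Submodule.starProjection_eq_self_iff.mpr Submodule.mem_top
    rw [h2, delta_inner, delta_self]
  rw [Finset.sum_congr rfl fun o _ => h1 o, Finset.sum_const, nsmul_eq_mul, mul_one]
  rfl

private theorem rslab_tr_nonneg {H C : Type} [Group H] [MulAction H C] (hC : FO H C)
    (M : Submodule ℝ (L2 C)) [M.HasOrthogonalProjection] : 0 ≤ tr H M.starProjection := by
  have := hC.cofin
  let _ : Fintype (Orb H C) := Fintype.ofFinite _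
  unfold tr
  rw [finsum_eq_sum_of_fintype]
  refine Finset.sum_nonneg fun o _ => ?_
  rw [rslab_inner_proj]
  positivity

private theorem rslab_rm_congr {G I J : Type} [Group G] [Fintype I] {w w' : G × I → ℝ}
    {T : I → J → G →₀ ℤ} {c : G × J}
    (h : ∀ i x, T i c.2 x ≠ 0 → w (c.1 * x⁻¹, i) = w' (c.1 * x⁻¹, i)) : rm w T c = rm w' T c := by
  unfold rm
  refine Finset.sum_congr rfl fun i _ => ?_
  refine Finset.sum_congr rfl fun x hx => ?_
  show _ * w (c.1 * x⁻¹, i) = _ * w' (c.1 * x⁻¹, i)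
  rw [h i x (Finsupp.mem_support_iff.mp hx)]

private theorem rslab_rm_zero {G I J : Type} [Group G] [Fintype I] {w : G × I → ℝ}
    {T : I → J → G →₀ ℤ} {c : G × J}
    (h : ∀ i x, T i c.2 x ≠ 0 → w (c.1 * x⁻¹, i) = 0) : rm w T c = 0 := by
  unfold rm
  refine Finset.sum_eq_zero fun i _ => ?_
  refine Finset.sum_eq_zero fun x hx => ?_
  show _ * w (c.1 * x⁻¹, i) = 0
  rw [h i x (Finsupp.mem_support_iff.mp hx), mul_zero]

/-- The bound for one slab. -/
private theorem rslab_bound {K I J : Type} [Group K] [Fintype I] [Fintype J] {N : Subgroup K}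
    {χ : K → ℤ} {s : K} (hc : Chi ⊤ N χ s) (T : I → J → K →₀ ℤ) (u : I → K →₀ ℤ) (d m : ℕ)
    (hd : ∀ i j x, T i j x ≠ 0 → |χ x| ≤ d) (h : KerLe {g | 0 ≤ χ g ∧ χ g < m} T u)
    (Φ : L2 (K × I) →L[ℝ] L2 (K × J)) (Ψ : L2 (K × I) →L[ℝ] L2 (K × Unit))
    (hΦ : ∀ z c, (Φ z) c = rm (z : K × I → ℝ) T c)
    (hΨ : ∀ z c, (Ψ z) c = rm (z : K × I → ℝ) (fun i (_ : Unit) => u i) c)
    (hΦe : letI := actL K I; letI := actL K J; Eqv2 K Φ)
    (hΨe : letI := actL K I; letI := actL K Unit; Eqv2 K Ψ)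
    (B : Submodule ℝ (L2 (K × I))) [B.HasOrthogonalProjection]
    (hB : letI := actL K I; Inv K B) (hBΦ : ∀ z ∈ B, Φ z = 0)
    (hBo : ∀ z ∈ B, ∀ w, Φ w = 0 → Ψ w = 0 → inner ℝ w z = 0) :
    letI := actL K I
    (m : ℝ) * tr K B.starProjection ≤ 4 * d * Fintype.card J := by
  let _ := actL K I
  let _ := actL K J
  let _ := actL K Unit
  let E : Finset ℤ := Finset.Ico 0 (m : ℤ)
  let E' : Finset ℤ := Finset.Ico (-(d : ℤ)) d ∪ Finset.Ico ((m : ℤ) - d) (m + d)
  let _ := levAct hc E I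
  let _ := levAct hc E' J
  let P : L2 (Lev χ E I) →L[ℝ] L2 (K × I) :=
    push (Subtype.val : Lev χ E I → K × I) Subtype.val_injective
  let L : L2 (K × I) →L[ℝ] L2 (Lev χ E I) :=
    pull (Subtype.val : Lev χ E I → K × I) Subtype.val_injective
  let L' : L2 (K × J) →L[ℝ] L2 (Lev χ E' J) :=
    pull (Subtype.val : Lev χ E' J → K × J) Subtype.val_injective
  let R : L2 (Lev χ E I) →L[ℝ] L2 (Lev χ E I) := L.comp (B.starProjection.comp P)
  have hPe : Eqv2 N P := eqv2_push _ _ fun _ _ => rfl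
  have hL'e : Eqv2 N L' := eqv2_pull _ _ fun _ _ => rfl
  have hPL : ∀ x y, inner ℝ (L x) y = inner ℝ x (P y) := by
    intro x y
    show inner ℝ (L x) y = inner ℝ x ((ContinuousLinearMap.adjoint L) y)
    rw [ContinuousLinearMap.adjoint_inner_right]
  have hLP : ∀ y, L (P y) = y := fun y => pull_push _ _ y
  -- the submodule
  let S : Submodule ℝ (L2 (Lev χ E I)) := rslabCo (Φ.comp P) (sup {c : K × J | χ c.1 ∈ E'})
  let W : Submodule ℝ (L2 (Lev χ E I)) := rslabCo P (rslabKer Φ ⊓ rslabKer Ψ)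
  let M : Submodule ℝ (L2 (Lev χ E I)) := S ⊓ Wᗮ
  have hMc : IsClosed (M : Set (L2 (Lev χ E I))) :=
    (rslab_closed_co _ (isClosed_sup _)).inter (Submodule.isClosed_orthogonal W)
  have : M.HasOrthogonalProjection := rslab_proj hMc
  have hMi : Inv N M := by
    refine rslab_inv_inf ?_ (rslab_inv_orth ?_)
    · refine rslab_inv_co ((rslab_res N hΦe).comp hPe) (rslab_inv_sup ?_)
      intro n c hn
      have h1 : χ ((n : K) * c.1) ∈ E' := hn
      rwa [hc.mul_ker n.2 (Subgroup.mem_top _)] at h1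
    · exact rslab_inv_co hPe (rslab_inv_inf (rslab_inv_ker (rslab_res N hΦe))
        (rslab_inv_ker (rslab_res N hΨe)))
  -- the range of `R` is in `M`
  have hRM : ∀ y, R y ∈ M := by
    intro y
    have hz : B.starProjection (P y) ∈ B := B.starProjection_apply_mem _
    constructor
    · show Φ (P (L (B.starProjection (P y)))) ∈ sup {c : K × J | χ c.1 ∈ E'}
      generalize B.starProjection (P y) = z at hz
      intro c hcE
      have hzc := hBΦ z hz
      rw [hΦ]
      have hcE' : χ c.1 ∉ E' := hcE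
      rw [Finset.mem_union, Finset.mem_Ico, Finset.mem_Ico] at hcE'
      have hχ : ∀ x, χ (c.1 * x⁻¹) = χ c.1 - χ x := by
        intro x
        rw [hc.mul _ (Subgroup.mem_top _) _ (Subgroup.mem_top _), hc.map_inv (Subgroup.mem_top _)]
        ring
      by_cases hin : (d : ℤ) ≤ χ c.1 ∧ χ c.1 < m - d
      · have h1 : rm (z : K × I → ℝ) T c = 0 := by
          rw [← hΦ, hzc]
          rfl
        rw [← h1]
        refine rslab_rm_congr fun i x hx => ?_
        have hdx := abs_le.mp (hd i c.2 x hx)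
        have hmem : χ (c.1 * x⁻¹) ∈ E := by
          rw [Finset.mem_Ico, hχ]
          omega
        exact push_apply (Subtype.val : Lev χ E I → K × I) Subtype.val_injective
          (L z) ⟨(c.1 * x⁻¹, i), hmem⟩
      · refine rslab_rm_zero fun i x hx => ?_
        have hdx := abs_le.mp (hd i c.2 x hx)
        refine push_apply_ne _ _ _ fun e he => ?_
        have h2 := e.2
        rw [he, Finset.mem_Ico] at h2
        have h3 : 0 ≤ χ (c.1 * x⁻¹) ∧ χ (c.1 * x⁻¹) < m := h2
        rw [hχ] at h3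
        omega
    · show L (B.starProjection (P y)) ∈ Wᗮ
      rw [Submodule.mem_orthogonal]
      intro w hw
      rw [real_inner_comm, hPL, real_inner_comm]
      exact hBo _ hz _ hw.1 hw.2
  have hsym : ∀ x y, inner ℝ (R x) y = inner ℝ x (R y) := by
    intro x y
    show inner ℝ (L (B.starProjection (P x))) y = inner ℝ x (L (B.starProjection (P y)))
    rw [hPL, real_inner_comm _ x, hPL, Submodule.inner_starProjection_left_eq_right,
      real_inner_comm]
  have hle : ∀ x, inner ℝ (R x) x ≤ ‖x‖ ^ 2 := by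
    intro x
    show inner ℝ (L (B.starProjection (P x))) x ≤ ‖x‖ ^ 2
    rw [hPL, rslab_inner_proj]
    have h1 : ‖B.starProjection (P x)‖ ≤ ‖P x‖ := B.norm_starProjection_apply_le (P x)
    have h2 : ‖P x‖ ^ 2 = ‖x‖ ^ 2 := by
      rw [← real_inner_self_eq_norm_sq, ← hPL, hLP, real_inner_self_eq_norm_sq]
    rw [← h2]
    exact pow_le_pow_left₀ (norm_nonneg _) h1 2
  have h1 : tr N R ≤ tr N M.starProjection := rslab_tr_le (fo_lev hc E) M hsym hle hRM
  have h2 : tr N R = E.card * tr K B.starProjection := lev_trace hc E B.starProjection hB.proj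
  have h3 : tr N M.starProjection ≤
      tr N (⊤ : Submodule ℝ (L2 (Lev χ E' J))).starProjection := by
    refine tr_mono_inj (fo_lev hc E) (fo_lev hc E') M ⊤ hMi (fun _ _ _ => Submodule.mem_top)
      (L'.comp (Φ.comp P)) (hL'e.comp ((rslab_res N hΦe).comp hPe))
      (fun _ _ => Submodule.mem_top) ?_
    intro x hx hx0
    have hx0' : L' (Φ (P x)) = 0 := hx0
    have h4 : Φ (P x) = 0 := by
      apply l2_ext
      intro c
      by_cases hcE : χ c.1 ∈ E'
      · have h5 : (L' (Φ (P x))) (⟨c, hcE⟩ : Lev χ E' J) = (Φ (P x)) c := rfl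
        rw [← h5, hx0']
        rfl
      · exact hx.1 c hcE
    have h5 : Ψ (P x) = 0 := by
      apply l2_ext
      rintro ⟨g, t⟩
      rw [hΨ]
      refine h (P x) ?_ ?_ g
      · intro c hcS
        refine push_apply_ne _ _ _ fun e he => hcS ?_
        have h6 := e.2
        rw [he, Finset.mem_Ico] at h6
        exact h6
      · intro c
        rw [← hΦ, h4]
        rfl
    have h6 : x ∈ W := ⟨h4, h5⟩
    have h7 := (Submodule.mem_orthogonal W x).mp hx.2 x h6
    exact inner_self_eq_zero.mp h7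
  rw [rslab_tr_top (fo_lev hc E'), card_lev hc E'] at h3
  have hE : (E.card : ℝ) = m := by
    have : E.card = m := by
      show (Finset.Ico 0 (m : ℤ)).card = m
      rw [Int.card_Ico]
      omega
    rw [this]
  have hE' : E'.card ≤ 4 * d := by
    refine (Finset.card_union_le _ _).trans ?_
    rw [Int.card_Ico, Int.card_Ico]
    omega
  rw [h2, hE] at h1
  refine (h1.trans h3).trans ?_
  push_cast
  have hE'' : (E'.card : ℝ) ≤ 4 * d := by exact_mod_cast hE'
  exact mul_le_mul_of_nonneg_right hE'' (Nat.cast_nonneg _)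

theorem slab {K I J : Type} [Group K] [Fintype I] [Fintype J] {N : Subgroup K} {χ : K → ℤ} {s : K}
    (hc : Chi ⊤ N χ s) (T : I → J → K →₀ ℤ) (u : I → K →₀ ℤ)
    (h : ∀ m : ℕ, KerLe {g | 0 ≤ χ g ∧ χ g < m} T u) : KerLe Set.univ T u := by
  classical
  let _ := actL K I
  let _ := actL K J
  let _ := actL K Unit
  obtain ⟨Φ, hΦ, hΦe⟩ := exists_rmop T
  obtain ⟨Ψ, hΨ, hΨe⟩ := exists_rmop (fun i (_ : Unit) => u i)
  obtain ⟨d, hd⟩ : ∃ d : ℕ, ∀ i j x, T i j x ≠ 0 → |χ x| ≤ d := by
    refine ⟨∑ i, ∑ j, ∑ x ∈ (T i j).support, (χ x).natAbs, fun i j x hx => ?_⟩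
    have h1 : (χ x).natAbs ≤ ∑ x ∈ (T i j).support, (χ x).natAbs :=
      Finset.single_le_sum (f := fun x => (χ x).natAbs) (fun _ _ => Nat.zero_le _)
        (Finsupp.mem_support_iff.mpr hx)
    have h2 : ∑ x ∈ (T i j).support, (χ x).natAbs ≤
        ∑ j, ∑ x ∈ (T i j).support, (χ x).natAbs :=
      Finset.single_le_sum (f := fun j => ∑ x ∈ (T i j).support, (χ x).natAbs)
        (fun _ _ => Nat.zero_le _) (Finset.mem_univ j)
    have h3 : ∑ j, ∑ x ∈ (T i j).support, (χ x).natAbs ≤
        ∑ i, ∑ j, ∑ x ∈ (T i j).support, (χ x).natAbs :=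
      Finset.single_le_sum (f := fun i => ∑ j, ∑ x ∈ (T i j).support, (χ x).natAbs)
        (fun _ _ => Nat.zero_le _) (Finset.mem_univ i)
    rw [Int.abs_eq_natAbs]
    exact_mod_cast (h1.trans h2).trans h3
  let A' : Submodule ℝ (L2 (K × I)) := rslabKer Φ ⊓ rslabKer Ψ
  let B : Submodule ℝ (L2 (K × I)) := rslabKer Φ ⊓ A'ᗮ
  have hA'c : IsClosed (A' : Set (L2 (K × I))) := (rslab_closed_ker Φ).inter (rslab_closed_ker Ψ)
  have hBc : IsClosed (B : Set (L2 (K × I))) :=
    (rslab_closed_ker Φ).inter (Submodule.isClosed_orthogonal A')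
  have : A'.HasOrthogonalProjection := rslab_proj hA'c
  have : B.HasOrthogonalProjection := rslab_proj hBc
  have hA'i : Inv K A' := rslab_inv_inf (rslab_inv_ker hΦe) (rslab_inv_ker hΨe)
  have hBi : Inv K B := rslab_inv_inf (rslab_inv_ker hΦe) (rslab_inv_orth hA'i)
  have hb : ∀ m : ℕ, (m : ℝ) * tr K B.starProjection ≤ 4 * d * Fintype.card J := by
    intro m
    refine rslab_bound hc T u d m hd (h m) Φ Ψ hΦ hΨ hΦe hΨe B hBi (fun z hz => hz.1) ?_
    intro z hz w hw1 hw2
    exact (Submodule.mem_orthogonal A' z).mp hz.2 w ⟨hw1, hw2⟩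
  have h0 : tr K B.starProjection = 0 := by
    have hn : 0 ≤ tr K B.starProjection := rslab_tr_nonneg (fo_actL K I) B
    by_contra hne
    have hpos : 0 < tr K B.starProjection := lt_of_le_of_ne hn (Ne.symm hne)
    obtain ⟨m, hm⟩ := exists_nat_gt ((4 * d * Fintype.card J : ℝ) / tr K B.starProjection)
    rw [div_lt_iff₀ hpos] at hm
    exact absurd (hb m) (not_le.mpr hm)
  have hB0 := tr_proj_eq_zero (fo_actL K I) hBi h0
  intro w _ hw g
  have hwA : Φ w = 0 := by
    apply l2_ext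
    intro c
    rw [hΦ, hw c]
    rfl
  have hp : A'.starProjection w ∈ A' := A'.starProjection_apply_mem w
  have h1 : w - A'.starProjection w ∈ B := by
    refine ⟨?_, ?_⟩
    · show Φ (w - A'.starProjection w) = 0
      rw [map_sub, hwA, hp.1, sub_zero]
    · refine (Submodule.mem_orthogonal A' _).mpr fun v hv => ?_
      rw [real_inner_comm]
      exact A'.starProjection_inner_eq_zero w v hv
  have h2 := hB0 _ h1
  rw [sub_eq_zero] at h2
  have h3 : Ψ w = 0 := by
    rw [h2]
    exact hp.2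
  rw [← hΨ, h3]
  rfl

private theorem rslab_rm_sub {G I J : Type} [Group G] [Fintype I] {H : Subgroup G}
    {f : H × I → ℝ} {w : G × I → ℝ} {T : I → J → G →₀ ℤ} {T' : I → J → H →₀ ℤ}
    (hT' : ∀ i j, T' i j = (T i j).subtypeDomain (· ∈ H))
    (hT : ∀ i j x, T i j x ≠ 0 → x ∈ H) {h : H} {g : G} {j : J}
    (hf : ∀ i (x : H), f (h * x⁻¹, i) = w (g * (x : G)⁻¹, i)) :
    rm f T' (h, j) = rm w T (g, j) := by
  unfold rm
  refine Finset.sum_congr rfl fun i _ => ?_
  show ((T' i j).sum fun x n => (n : ℝ) * f (h * x⁻¹, i)) =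
    (T i j).sum fun x n => (n : ℝ) * w (g * x⁻¹, i)
  rw [hT', ← Finsupp.sum_subtypeDomain_index (p := (· ∈ H))
    (h := fun x n => ((n : ℤ) : ℝ) * w (g * x⁻¹, i))
    (fun x hx => hT i j x (Finsupp.mem_support_iff.mp hx))]
  refine Finset.sum_congr rfl fun x _ => ?_
  show _ * f (h * x⁻¹, i) = _ * w (g * (x : G)⁻¹, i)
  rw [hf]

theorem slab_sub {G I J : Type} [Group G] [Fintype I] [Fintype J] {H N : Subgroup G} {χ : G → ℤ}
    {s : G} (hc : Chi H N χ s) (T : I → J → G →₀ ℤ) (u : I → G →₀ ℤ)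
    (hT : ∀ i j x, T i j x ≠ 0 → x ∈ H) (hu : ∀ i x, u i x ≠ 0 → x ∈ H)
    (h : ∀ m : ℕ, KerLe {g | g ∈ H ∧ 0 ≤ χ g ∧ χ g < m} T u) : KerLe Set.univ T u := by
  classical
  have hc' : Chi (⊤ : Subgroup H) (N.subgroupOf H) (fun x : H => χ x) ⟨s, hc.mem⟩ :=
    { mul := fun x _ y _ => hc.mul x x.2 y y.2
      ker := fun x => by
        rw [Subgroup.mem_subgroupOf, hc.ker]
        exact ⟨fun hx => ⟨Subgroup.mem_top _, hx.2⟩, fun hx => ⟨x.2, hx.2⟩⟩
      mem := Subgroup.mem_top _
      one := hc.one }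
  let T' : I → J → H →₀ ℤ := fun i j => (T i j).subtypeDomain (· ∈ H)
  let u' : I → H →₀ ℤ := fun i => (u i).subtypeDomain (· ∈ H)
  have hTT : ∀ i j, T' i j = (T i j).subtypeDomain (· ∈ H) := fun _ _ => rfl
  have huu : ∀ i (t : Unit), (fun i (_ : Unit) => u' i) i t =
      ((fun i (_ : Unit) => u i) i t).subtypeDomain (· ∈ H) := fun _ _ => rfl
  have hu1 : ∀ i (t : Unit) x, (fun i (_ : Unit) => u i) i t x ≠ 0 → x ∈ H :=
    fun i _ x hx => hu i x hx
  have hslab : KerLe Set.univ T' u' := by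
    refine slab hc' T' u' fun m w hw hwT g => ?_
    have hinj : Function.Injective (fun p : H × I => ((p.1 : G), p.2)) := by
      rintro ⟨a, i⟩ ⟨b, j⟩ e
      have e1 := congrArg Prod.fst e
      have e2 := congrArg Prod.snd e
      exact Prod.ext (Subtype.ext e1) e2
    let v : L2 (G × I) := push (fun p : H × I => ((p.1 : G), p.2)) hinj w
    have hv1 : ∀ (a : H) (i : I), v ((a : G), i) = w (a, i) :=
      fun a i => push_apply (fun p : H × I => ((p.1 : G), p.2)) hinj w (a, i)
    have hv0 : ∀ (a : G) (i : I), a ∉ H → v (a, i) = 0 := by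
      intro a i ha
      refine push_apply_ne _ _ _ fun p hp => ha ?_
      have e1 : (p.1 : G) = a := congrArg Prod.fst hp
      rw [← e1]
      exact p.1.2
    have hvS : ∀ c : G × I, c.1 ∉ {g | g ∈ H ∧ 0 ≤ χ g ∧ χ g < m} → v c = 0 := by
      rintro ⟨a, i⟩ ha
      by_cases haH : a ∈ H
      · have h1 := hv1 ⟨a, haH⟩ i
        rw [show v (a, i) = w (⟨a, haH⟩, i) from h1]
        exact hw (⟨a, haH⟩, i) fun hm => ha ⟨haH, hm⟩
      · exact hv0 a i haH
    have hvx : ∀ (a : H) i (x : H), w (a * x⁻¹, i) = v ((a : G) * (x : G)⁻¹, i) := by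
      intro a i x
      exact (hv1 (a * x⁻¹) i).symm
    have hvT : ∀ c : G × J, rm (v : G × I → ℝ) T c = 0 := by
      rintro ⟨a, j⟩
      by_cases haH : a ∈ H
      · have h1 := rslab_rm_sub (f := (w : H × I → ℝ)) (w := (v : G × I → ℝ)) hTT hT
          (h := ⟨a, haH⟩) (g := a) (j := j) (fun i x => hvx ⟨a, haH⟩ i x)
        rw [← h1]
        exact hwT _
      · refine rslab_rm_zero fun i x hx => hv0 _ i fun hm => haH ?_
        have hxH := hT i j x hx
        have h1 := H.mul_mem hm hxH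
        rwa [inv_mul_cancel_right] at h1
    have h1 := rslab_rm_sub (f := (w : H × I → ℝ)) (w := (v : G × I → ℝ)) huu hu1
      (h := g) (g := (g : G)) (j := ()) (fun i x => hvx g i x)
    rw [h1]
    exact h m v hvS hvT (g : G)
  intro w _ hw g
  have hinj : Function.Injective (fun p : H × I => (g * (p.1 : G), p.2)) := by
    rintro ⟨a, i⟩ ⟨b, j⟩ e
    have e1 : g * (a : G) = g * (b : G) := congrArg Prod.fst e
    have e2 := congrArg Prod.snd e
    exact Prod.ext (Subtype.ext (mul_left_cancel e1)) e2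
  let v : L2 (H × I) := pull (fun p : H × I => (g * (p.1 : G), p.2)) hinj w
  have hv : ∀ (a : H) i (x : H), v (a * x⁻¹, i) = w ((g * (a : G)) * (x : G)⁻¹, i) := by
    intro a i x
    show w (g * ((a * x⁻¹ : H) : G), i) = w ((g * (a : G)) * (x : G)⁻¹, i)
    rw [mul_assoc]
    rfl
  have h1 := hslab v (fun c hcu => absurd (Set.mem_univ _) hcu) (by
    rintro ⟨a, j⟩
    have h2 := rslab_rm_sub (f := (v : H × I → ℝ)) (w := (w : G × I → ℝ)) hTT hT
      (h := a) (g := g * (a : G)) (j := j) (fun i x => hv a i x)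
    rw [h2]
    exact hw _) 1
  have h3 := rslab_rm_sub (f := (v : H × I → ℝ)) (w := (w : G × I → ℝ)) huu hu1
    (h := 1) (g := g * ((1 : H) : G)) (j := ()) (fun i x => hv 1 i x)
  rw [h3] at h1
  rw [Subgroup.coe_one, mul_one] at h1
  exact h1

end SingerBO
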