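import Mathlib
import Pool.Agent.Lib_MP_394d50_bo.RDefs
import Pool.Agent.Lib_MP_394d50_bo.LDefs

/-!
# Piece RTOE: block Toeplitz matrices (about 280 lines)

For `0 ≤ a < m` and `b : ℤ`: `hatT` collects the `x` in the support of `T i j` with `χ x = b - a`, moved to
`s ^ a * x * s ^ (-b) ∈ N`.
* `lc_ev`: for `f` with support in `H`: `lc (θ (ev t f)) n = ev t (f.filter (χ · = n))` (`Th.sum`, `Th.grp`; an integer `k` satisfies
  `θ k = k`, `Th.of_ker`).
* `ev_hatT`: `ev t (hatT ..) = t (s ^ a) * lc (θ (ev t (T i j))) (b - a) * t (s ^ (-b))`.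
* `toe1`: apply `θ` to `∑ j, ev t (T i j) * y j = ev t (u i)` and take the coefficient of degree `c - a`:
  `∑ j, ∑ k, lc (θ (ev t (T i j))) k * lc (θ (y j)) (c - a - k) = lc (θ (ev t (u i))) (c - a)` (`lc_mul`), where `k` runs over any finite set
  containing `[-d, d]`, `d` a bound of `|χ x|` for the `x` in the supports of `T`. Put `k = b - a`, `b ∈ B`: for `0 ≤ a < m` the terms with
  `b ∉ Icc (-d) (m + d)` vanish. Multiply by `t (s ^ a)` on the left and `t (s ^ (-c))` on the right, and insert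
  `t (s ^ (-b)) * t (s ^ b) = 1`.
* `toe2`: let `w : L2 (G × I)` have its support in `{g ∈ H, 0 ≤ χ g < m}`, `rm w T = 0`. Let `w' (n, (a, i)) = w (n * s ^ a, i)` for `n ∈ N`, and
  `0` for `n ∉ N` (square summable). Then for `n ∈ N`: `rm w' (hatT) (n, (b, j)) = ∑ a, ∑ i, ∑ x (χ x = b - a), T i j x * w (n * s ^ b * x⁻¹, i)`
  (as `n * (s ^ a * x * s ^ (-b))⁻¹ * s ^ a = n * s ^ b * x⁻¹`), which is `rm w T (n * s ^ b, j)`: the `x` with `b - χ x ∉ [0, m)` do not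
  contribute since `w (n * s ^ b * x⁻¹, i) = 0`. For `n ∉ N` it is `0` (`n * z⁻¹ ∉ N` for `z ∈ N`). So `rm w' (hatT) = 0`, and the
  hypothesis for `c` gives `rm w' (hatu c) (n, ()) = 0 = rm w u (n * s ^ c, ())` for `n ∈ N`. For `g ∈ H` take `c = χ g`, `n = g * s ^ (-c)`;
  for `g ∉ H` `rm w u (g, ()) = 0` since `g * x⁻¹ ∉ H`.
-/

namespace SingerBO

open SingerVS SingerCub

variable {G D : Type} [Group G] [DivisionRing D] {t : G →* Dˣ}

open scoped Classical in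
/-- The entries of the block Toeplitz matrix. -/
noncomputable def hatE (χ : G → ℤ) (s : G) (f : G →₀ ℤ) (a b : ℤ) : G →₀ ℤ :=
  (f.filter (fun x => χ x = b - a)).mapDomain (fun x => s ^ a * x * s ^ (-b))

variable {H N : Subgroup G} {χ : G → ℤ} {s : G} {θ : D → LS D}

omit [DivisionRing D] in
private theorem hatE_mem (hc : Chi H N χ s) {x : G} (hx : x ∈ H) {a b : ℤ} (h : χ x = b - a) :
    s ^ a * x * s ^ (-b) ∈ N := by
  rw [hc.ker]
  refine ⟨H.mul_mem (H.mul_mem (hc.zpow_mem a) hx) (hc.zpow_mem _), ?_⟩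
  rw [hc.mul _ (H.mul_mem (hc.zpow_mem a) hx) _ (hc.zpow_mem _), hc.mul _ (hc.zpow_mem a) _ hx,
    hc.map_zpow, hc.map_zpow, h]
  ring

theorem hatE_supp (hc : Chi H N χ s) (f : G →₀ ℤ) (hf : ∀ x, f x ≠ 0 → x ∈ H) (a b : ℤ) :
    ∀ x, hatE χ s f a b x ≠ 0 → x ∈ N := by
  classical
  intro x hx
  have h1 : x ∈ (hatE χ s f a b).support := Finsupp.mem_support_iff.mpr hx
  have h2 := Finsupp.mapDomain_support h1
  rw [Finset.mem_image] at h2
  obtain ⟨z, hz, rfl⟩ := h2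
  rw [Finsupp.mem_support_iff] at hz
  by_cases hzd : χ z = b - a
  · rw [Finsupp.filter_apply_pos (fun x => χ x = b - a) f hzd] at hz
    exact hatE_mem hc (hf z hz) hzd
  · rw [Finsupp.filter_apply_neg (fun x => χ x = b - a) f hzd] at hz
    exact absurd rfl hz

private theorem ev_hatE (f : G →₀ ℤ) (a b : ℤ) :
    ev t (hatE χ s f a b) = ((t (s ^ a) : Dˣ) : D) *
      (f.sum fun x n => if χ x = b - a then (n : D) * ((t x : Dˣ) : D) else 0) *
        ((t (s ^ (-b)) : Dˣ) : D) := by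
  classical
  unfold ev hatE
  rw [Finsupp.sum_mapDomain_index (fun _ => by rw [Int.cast_zero, zero_mul])
    (fun _ _ _ => by rw [Int.cast_add, add_mul])]
  rw [Finsupp.sum, Finsupp.support_filter, Finset.sum_filter, Finsupp.sum, Finset.mul_sum,
    Finset.sum_mul]
  refine Finset.sum_congr rfl fun x _ => ?_
  by_cases hx : χ x = b - a
  · rw [if_pos hx, if_pos hx, Finsupp.filter_apply_pos (fun x => χ x = b - a) f hx, map_mul, map_mul, Units.val_mul,
      Units.val_mul, ← mul_assoc, ← mul_assoc, (Int.cast_commute (f x) _).eq, mul_assoc _ (f x : D)]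
  · rw [if_neg hx, if_neg hx, mul_zero, zero_mul]

private theorem ev_mem (f : G →₀ ℤ) (hf : ∀ x, f x ≠ 0 → x ∈ H) : ev t f ∈ DH t H := by
  unfold ev
  rw [Finsupp.sum]
  refine sum_mem fun x hx => ?_
  exact mul_mem (intCast_mem _ _) (mem_DH t (hf x (Finsupp.mem_support_iff.mp hx)))

private theorem lc_ev (hc : Chi H N χ s) (hθ : Th t H χ θ) (f : G →₀ ℤ)
    (hf : ∀ x, f x ≠ 0 → x ∈ H) (n : ℤ) :
    lc (θ (ev t f)) n = f.sum fun x k => if χ x = n then (k : D) * ((t x : Dˣ) : D) else 0 := by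
  unfold ev
  rw [Finsupp.sum, hθ.sum, lc_sum, Finsupp.sum]
  · refine Finset.sum_congr rfl fun x hx => ?_
    have hxH := hf x (Finsupp.mem_support_iff.mp hx)
    have hk : ((f x : ℤ) : D) ∈ DH t N := intCast_mem _ _
    rw [hθ.mul _ (DH_mono t hc.le hk) _ (mem_DH t hxH), hθ.of_ker hc hk, hθ.grp x hxH, lsg_mul,
      zero_add, lc_lsg]
    exact if_congr eq_comm rfl rfl
  · intro x hx
    exact mul_mem (intCast_mem _ _) (mem_DH t (hf x (Finsupp.mem_support_iff.mp hx)))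

private theorem ev_hatE' (hc : Chi H N χ s) (hθ : Th t H χ θ) (f : G →₀ ℤ)
    (hf : ∀ x, f x ≠ 0 → x ∈ H) (a b : ℤ) :
    ev t (hatE χ s f a b) = ((t (s ^ a) : Dˣ) : D) * lc (θ (ev t f)) (b - a) *
      ((t (s ^ (-b)) : Dˣ) : D) := by
  rw [ev_hatE, lc_ev hc hθ f hf]

theorem toe1 (hc : Chi H N χ s) (hθ : Th t H χ θ) {I J : Type} [Fintype I] [Fintype J]
    (T : I → J → G →₀ ℤ) (u : I → G →₀ ℤ) (hT : ∀ i j x, T i j x ≠ 0 → x ∈ H)
    (hu : ∀ i x, u i x ≠ 0 → x ∈ H) (y : J → D) (hy : ∀ j, y j ∈ DH t H)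
    (h : ∀ i, ∑ j, ev t (T i j) * y j = ev t (u i)) :
    ∃ d : ℤ, ∀ (m : ℕ) (c : ℤ) (B : Finset ℤ), Finset.Icc (-d) (m + d) ⊆ B →
      ∀ (a : Fin m) (i : I), ∑ q : B × J, ev t (hatE χ s (T i q.2) (a : ℕ) (q.1 : ℤ)) *
        (((t (s ^ (q.1 : ℤ)) : Dˣ) : D) * lc (θ (y q.2)) (c - (q.1 : ℤ)) *
          ((t (s ^ (-c)) : Dˣ) : D)) = ev t (hatE χ s (u i) (a : ℕ) c) := by
  classical
  let d : ℤ := ∑ i, ∑ j, ∑ x ∈ (T i j).support, |χ x|
  have hd : ∀ i j x, T i j x ≠ 0 → |χ x| ≤ d := by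
    intro i j x hx
    have e1 : |χ x| ≤ ∑ x ∈ (T i j).support, |χ x| :=
      Finset.single_le_sum (f := fun x => |χ x|) (fun _ _ => abs_nonneg _)
        (Finsupp.mem_support_iff.mpr hx)
    have e2 : ∑ x ∈ (T i j).support, |χ x| ≤ ∑ j, ∑ x ∈ (T i j).support, |χ x| :=
      Finset.single_le_sum (f := fun j => ∑ x ∈ (T i j).support, |χ x|)
        (fun _ _ => Finset.sum_nonneg fun _ _ => abs_nonneg _) (Finset.mem_univ j)
    have e3 : ∑ j, ∑ x ∈ (T i j).support, |χ x| ≤ d :=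
      Finset.single_le_sum (f := fun i => ∑ j, ∑ x ∈ (T i j).support, |χ x|)
        (fun _ _ => Finset.sum_nonneg fun _ _ => Finset.sum_nonneg fun _ _ => abs_nonneg _)
        (Finset.mem_univ i)
    exact e1.trans (e2.trans e3)
  refine ⟨d, fun m c B hB a i => ?_⟩
  have hlc : ∀ j k, lc (θ (ev t (T i j))) k ≠ 0 → |k| ≤ d := by
    intro j k hk
    rw [lc_ev hc hθ _ (hT i j), Finsupp.sum] at hk
    obtain ⟨x, hx, hx2⟩ := Finset.exists_ne_zero_of_sum_ne_zero hk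
    have h1 : χ x = k := by
      by_contra hne
      exact hx2 (if_neg hne)
    rw [← h1]
    exact hd i j x (Finsupp.mem_support_iff.mp hx)
  have hθi : lc (θ (ev t (u i))) (c - (a : ℕ)) =
      ∑ j, ∑ b ∈ B, lc (θ (ev t (T i j))) (b - (a : ℕ)) * lc (θ (y j)) (c - b) := by
    rw [← h i, hθ.sum _ _ fun j _ => mul_mem (ev_mem _ (hT i j)) (hy j), lc_sum]
    refine Finset.sum_congr rfl fun j _ => ?_
    rw [hθ.mul _ (ev_mem _ (hT i j)) _ (hy j)]
    rw [lc_mul _ _ _ (B.map (Equiv.subRight ((a : ℕ) : ℤ)).toEmbedding)]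
    · rw [Finset.sum_map]
      refine Finset.sum_congr rfl fun b _ => ?_
      show lc (θ (ev t (T i j))) (b - (a : ℕ)) * lc (θ (y j)) (c - (a : ℕ) - (b - (a : ℕ))) = _
      have e : c - (a : ℕ) - (b - (a : ℕ)) = c - b := by ring
      rw [e]
    · intro k hk _
      rw [Finset.mem_map]
      refine ⟨k + (a : ℕ), hB ?_, ?_⟩
      · have h1 := abs_le.mp (hlc j k hk)
        have h2 := a.2
        rw [Finset.mem_Icc]
        constructor
        · have : (0 : ℤ) ≤ ((a : ℕ) : ℤ) := Int.natCast_nonneg _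
          omega
        · have : ((a : ℕ) : ℤ) < (m : ℤ) := by exact_mod_cast h2
          omega
      · show k + (a : ℕ) - (a : ℕ) = k
        ring
  rw [ev_hatE' hc hθ _ (hu i), hθi, Finset.mul_sum, Finset.sum_mul, Fintype.sum_prod_type_right]
  refine Finset.sum_congr rfl fun j _ => ?_
  rw [Finset.mul_sum, Finset.sum_mul]
  rw [← Finset.sum_coe_sort B (fun b => ((t (s ^ ((a : ℕ) : ℤ)) : Dˣ) : D) *
    (lc (θ (ev t (T i j))) (b - (a : ℕ)) * lc (θ (y j)) (c - b)) * ((t (s ^ (-c)) : Dˣ) : D))]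
  refine Finset.sum_congr rfl fun b _ => ?_
  rw [ev_hatE' hc hθ _ (hT i j)]
  have e : ((t (s ^ (-(b : ℤ))) : Dˣ) : D) * ((t (s ^ (b : ℤ)) : Dˣ) : D) = 1 := by
    rw [← Units.val_mul, ← map_mul, ← zpow_add, neg_add_cancel, zpow_zero, map_one, Units.val_one]
  simp only [mul_assoc]
  rw [← mul_assoc ((t (s ^ (-(b : ℤ))) : Dˣ) : D), e, one_mul]

omit [DivisionRing D] in
private theorem rm_hat (hc : Chi H N χ s) {I : Type} [Fintype I] {m : ℕ} (w : G × I → ℝ)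
    (hw : ∀ c : G × I, ¬ (c.1 ∈ H ∧ 0 ≤ χ c.1 ∧ χ c.1 < m) → w c = 0)
    (w' : G × (Fin m × I) → ℝ)
    (hw' : ∀ n ∈ N, ∀ (a : Fin m) (i : I), w' (n, (a, i)) = w (n * s ^ ((a : ℕ) : ℤ), i))
    (f : I → G →₀ ℤ) (hf : ∀ i x, f i x ≠ 0 → x ∈ H) (b : ℤ) {n : G} (hn : n ∈ N) :
    ∑ p : Fin m × I, (hatE χ s (f p.2) (p.1 : ℕ) b).sum
      (fun x k => (k : ℝ) * w' (n * x⁻¹, p)) =
      ∑ i, (f i).sum fun x k => (k : ℝ) * w (n * s ^ b * x⁻¹, i) := by
  classical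
  rw [Fintype.sum_prod_type_right]
  refine Finset.sum_congr rfl fun i _ => ?_
  have e1 : ∀ a : Fin m, (hatE χ s (f i) (a : ℕ) b).sum
      (fun x k => (k : ℝ) * w' (n * x⁻¹, (a, i))) =
      ∑ x ∈ (f i).support, if χ x = b - ((a : ℕ) : ℤ) then
        ((f i x : ℤ) : ℝ) * w (n * s ^ b * x⁻¹, i) else 0 := by
    intro a
    unfold hatE
    rw [Finsupp.sum_mapDomain_index (fun _ => by rw [Int.cast_zero, zero_mul])
      (fun _ _ _ => by rw [Int.cast_add, add_mul])]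
    rw [Finsupp.sum, Finsupp.support_filter, Finset.sum_filter]
    refine Finset.sum_congr rfl fun x hx => ?_
    by_cases hxd : χ x = b - ((a : ℕ) : ℤ)
    · rw [if_pos hxd, if_pos hxd, Finsupp.filter_apply_pos (fun x => χ x = b - ((a : ℕ) : ℤ)) (f i) hxd]
      have hxH := hf i x (Finsupp.mem_support_iff.mp hx)
      have hm : n * (s ^ ((a : ℕ) : ℤ) * x * s ^ (-b))⁻¹ ∈ N :=
        N.mul_mem hn (N.inv_mem (hatE_mem hc hxH hxd))
      rw [hw' _ hm]
      have e : n * (s ^ ((a : ℕ) : ℤ) * x * s ^ (-b))⁻¹ * s ^ ((a : ℕ) : ℤ) =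
          n * s ^ b * x⁻¹ := by
        rw [zpow_neg]
        group
      rw [e]
    · rw [if_neg hxd, if_neg hxd]
  show ∑ a : Fin m, (hatE χ s (f i) (a : ℕ) b).sum
      (fun x k => (k : ℝ) * w' (n * x⁻¹, (a, i))) = _
  rw [Finset.sum_congr rfl fun a _ => e1 a, Finset.sum_comm, Finsupp.sum]
  refine Finset.sum_congr rfl fun x hx => ?_
  have hxH := hf i x (Finsupp.mem_support_iff.mp hx)
  have hg : n * s ^ b * x⁻¹ ∈ H :=
    H.mul_mem (H.mul_mem (hc.le hn) (hc.zpow_mem b)) (H.inv_mem hxH)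
  have hχ : χ (n * s ^ b * x⁻¹) = b - χ x := by
    rw [hc.mul _ (H.mul_mem (hc.le hn) (hc.zpow_mem b)) _ (H.inv_mem hxH),
      hc.mul _ (hc.le hn) _ (hc.zpow_mem b), hc.zero hn, hc.map_zpow, hc.map_inv hxH]
    ring
  by_cases hr : 0 ≤ b - χ x ∧ b - χ x < m
  · have hlt : (b - χ x).toNat < m := by omega
    rw [Finset.sum_eq_single (⟨(b - χ x).toNat, hlt⟩ : Fin m)]
    · rw [if_pos]
      show χ x = b - (((b - χ x).toNat : ℕ) : ℤ)
      omega
    · intro a _ ha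
      refine if_neg fun h => ha ?_
      apply Fin.ext
      show (a : ℕ) = (b - χ x).toNat
      omega
    · intro h
      exact absurd (Finset.mem_univ _) h
  · rw [hw (n * s ^ b * x⁻¹, i) fun h => hr (by
      have h2 := h.2
      rw [show (n * s ^ b * x⁻¹, i).1 = n * s ^ b * x⁻¹ from rfl, hχ] at h2
      exact h2), mul_zero]
    exact Finset.sum_eq_zero fun a _ => by split_ifs <;> rfl

theorem toe2 (hc : Chi H N χ s) {I J : Type} [Fintype I] [Fintype J]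
    (T : I → J → G →₀ ℤ) (u : I → G →₀ ℤ) (hT : ∀ i j x, T i j x ≠ 0 → x ∈ H)
    (hu : ∀ i x, u i x ≠ 0 → x ∈ H) (m : ℕ)
    (h : ∀ c : ℤ, ∃ B : Finset ℤ, KerLe Set.univ
      (fun (p : Fin m × I) (q : B × J) => hatE χ s (T p.2 q.2) (p.1 : ℕ) (q.1 : ℤ))
      (fun p : Fin m × I => hatE χ s (u p.2) (p.1 : ℕ) c)) :
    KerLe {g | g ∈ H ∧ 0 ≤ χ g ∧ χ g < m} T u := by
  classical
  intro w hw hwT g
  by_cases hg : g ∈ H
  · obtain ⟨B, hB⟩ := h (χ g)
    let φ : N × (Fin m × I) → G × I := fun c => ((c.1 : G) * s ^ ((c.2.1 : ℕ) : ℤ), c.2.2)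
    have hφχ : ∀ c : N × (Fin m × I), χ (φ c).1 = ((c.2.1 : ℕ) : ℤ) := by
      intro c
      show χ ((c.1 : G) * s ^ ((c.2.1 : ℕ) : ℤ)) = _
      rw [hc.mul _ (hc.le c.1.2) _ (hc.zpow_mem _), hc.zero c.1.2, hc.map_zpow, zero_add]
    have hφ : Function.Injective φ := by
      intro c c' e
      have e0 : ((c.2.1 : ℕ) : ℤ) = ((c'.2.1 : ℕ) : ℤ) := by rw [← hφχ, ← hφχ, e]
      have e1 : c.2.1 = c'.2.1 := Fin.ext (by exact_mod_cast e0)
      have e2 : (c.1 : G) * s ^ ((c.2.1 : ℕ) : ℤ) = (c'.1 : G) * s ^ ((c'.2.1 : ℕ) : ℤ) :=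
        congrArg Prod.fst e
      have e3 : (φ c).2 = (φ c').2 := by rw [e]
      rw [e1] at e2
      exact Prod.ext (Subtype.ext (mul_right_cancel e2)) (Prod.ext e1 e3)
    let ι : N × (Fin m × I) → G × (Fin m × I) := fun c => ((c.1 : G), c.2)
    have hι : Function.Injective ι := by
      intro c c' e
      have e1 : (ι c).1 = (ι c').1 := by rw [e]
      have e2 : (ι c).2 = (ι c').2 := by rw [e]
      exact Prod.ext (Subtype.ext e1) e2
    let w' : L2 (G × (Fin m × I)) := push ι hι (pull φ hφ w)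
    have hw'1 : ∀ n ∈ N, ∀ (a : Fin m) (i : I), w' (n, (a, i)) = w (n * s ^ ((a : ℕ) : ℤ), i) := by
      intro n hn a i
      exact push_apply ι hι (pull φ hφ w) (⟨n, hn⟩, (a, i))
    have hw'2 : ∀ n, n ∉ N → ∀ p, w' (n, p) = 0 := by
      intro n hn p
      refine push_apply_ne ι hι (pull φ hφ w) fun c e => hn ?_
      have e1 : (c.1 : G) = n := congrArg Prod.fst e
      rw [← e1]
      exact c.1.2
    have hw0 : ∀ c : G × I, ¬ (c.1 ∈ H ∧ 0 ≤ χ c.1 ∧ χ c.1 < m) → w c = 0 := fun c h => hw c h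
    have hk := hB w' (fun c h => absurd (Set.mem_univ _) h) (by
      rintro ⟨n, b, j⟩
      by_cases hn : n ∈ N
      · refine (rm_hat hc w hw0 w' hw'1 (fun i => T i j) (fun i x => hT i j x) (b : ℤ) hn).trans ?_
        exact hwT (n * s ^ (b : ℤ), j)
      · show ∑ p : Fin m × I, (hatE χ s (T p.2 j) (p.1 : ℕ) (b : ℤ)).sum
          (fun x k => (k : ℝ) * w' (n * x⁻¹, p)) = 0
        refine Finset.sum_eq_zero fun p _ => ?_
        rw [Finsupp.sum]
        refine Finset.sum_eq_zero fun x hx => ?_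
        have hxN := hatE_supp hc _ (hT p.2 j) _ _ x (Finsupp.mem_support_iff.mp hx)
        rw [hw'2 _ fun h => hn (by
          have h2 := N.mul_mem h hxN
          rwa [inv_mul_cancel_right] at h2), mul_zero])
    have hn : g * s ^ (-χ g) ∈ N := hc.mul_zpow_mem hg
    have h1 := hk (g * s ^ (-χ g))
    have h2 := rm_hat hc w hw0 w' hw'1 u hu (χ g) hn
    have e : g * s ^ (-χ g) * s ^ χ g = g := by
      rw [mul_assoc, ← zpow_add, neg_add_cancel, zpow_zero, mul_one]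
    rw [e] at h2
    exact h2.symm.trans h1
  · show ∑ i, (u i).sum (fun x n => (n : ℝ) * w (g * x⁻¹, i)) = 0
    refine Finset.sum_eq_zero fun i _ => ?_
    rw [Finsupp.sum]
    refine Finset.sum_eq_zero fun x hx => ?_
    have hxH := hu i x (Finsupp.mem_support_iff.mp hx)
    rw [hw (g * x⁻¹, i) fun h => hg (by
      have h2 := H.mul_mem h.1 hxH
      rwa [show (g * x⁻¹, i).1 = g * x⁻¹ from rfl, inv_mul_cancel_right] at h2), mul_zero]

end SingerBO
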