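import Mathlib
import Pool.Agent.Lib_MP_394d50_bo.RSlab
import Pool.Agent.Lib_MP_394d50_bo.RCos
import Pool.Agent.Lib_MP_394d50_bo.RToe
import Pool.Agent.Lib_MP_394d50_bo.GTh
import Pool.Agent.Lib_MP_394d50_bo.KKey

/-!
# Piece RTF: from the division ring to `ℓ²` (about 220 lines)

`tf_ind`: induction on the multiset `Finset.univ.val.map (fun j => (p j).cx)` (`wellFounded_isDershowitzMannaLT`), for all `I`, `J`, `T`,
`u`, `γ`, `p` at once. By `kerLe_shR` and `ev_shR` (for `γ`; `ev (shR f γ) * y = ev f * (t γ * y)`) we may assume `γ = 1`. Let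
`L` be the list of the `p j`, `H = PE.clo L`. By `tf_coset` we may assume that `T`, `u` have their supports in `H` (the `p j` do
not change). If `H = ⊥`: `tf_base`. Otherwise `hLI` gives `N`, `χ`, `s`, and `theta_exists` gives `θ`. By `slab_sub` it
suffices to consider the slabs `m`, and by `toe2` it suffices to find for every `c` a finite set `B` with `KerLe univ hatT (hatu c)`. Take
`B = Icc (-d) (m + d) ∪ {c}`, `d` from `toe1`. We use the induction hypothesis for `I' = Fin m × I`, `J' = B × J`, and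
`y' (b, j) = t (s ^ b) * lc (θ (p j).val) (c - b) * t (s ^ (-c))`:
(a) `¬ (p j).In N`: by `kl` `lc (θ (p j).val) (c - b) = t γ * q.val` with `q.In N`, `q.cx < (p j).cx`, and
`y' = t (s ^ b * γ * s ^ (-c)) * (conj (s ^ c) q).val` (`PE.val_conj`, `PE.cx_conj`).
(b) `(p j).In N`, `b = c`: `lc = (p j).val` (`Th.of_ker`), `y' = t 1 * (conj (s ^ c) (p j)).val` (`s ^ c * x * s ^ (-c)`).
(c) `(p j).In N`, `b ≠ c`: `y' = 0 = t 1 * zero.val`, `zero.cx = 0`.
(`choose` these `γ' : J' → G`, `p' : J' → PE G` from an existence statement for each `(b, j)` which records the three cases.) The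
multiset of the `(p' q).cx` is smaller: `X` = the complexities of the `p j` in `N` (from the indices `(c, j)` of case (b)), `Y` = the
complexities of cases (a) and (c), `Z` = those of the `p j` not in `N`, which is not empty (`PE.exists_not_in`); the elements of case (c)
are `0`, smaller than any element of `Z` (`PE.cx_pos`).

`tf_main`: every `y j` is `t γ * p` (`exists_rep_left` for `H = ⊤`, `hF.gen`).

`tf_inj`: for each `i'` use `tf_main` with `y j = Y j i'` and `u i = if i = i' then single 1 1 else 0`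
(`ev t (single 1 1) = 1`); `rm w u (g, ()) = w (g, i')`.
-/

namespace SingerBO

open SingerVS SingerCub

variable {G D : Type} [Group G] [DivisionRing D] [CharZero D] {t : G →* Dˣ}

/-- The comparison of the multisets of complexities. -/
private theorem rtf_dm {J : Type} [Fintype J] (cx : J → Ordinal.{0}) (P : J → Prop)
    (B : Finset ℤ) (c : ℤ) (hcB : c ∈ B) (cx' : {b // b ∈ B} × J → Ordinal.{0})
    (hex : ∃ j, ¬ P j) (hpos : ∀ j, ¬ P j → 0 < cx j)
    (h1 : ∀ q, ¬ P q.2 → cx' q < cx q.2)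
    (h2 : ∀ q, P q.2 → (q.1 : ℤ) = c → cx' q = cx q.2)
    (h3 : ∀ q, P q.2 → (q.1 : ℤ) ≠ c → cx' q = 0) :
    Multiset.IsDershowitzMannaLT (Finset.univ.val.map cx') (Finset.univ.val.map cx) := by
  classical
  obtain ⟨j0, hj0⟩ := hex
  refine ⟨(Finset.univ.filter P).val.map cx,
    (Finset.univ.filter (fun q : {b // b ∈ B} × J => ¬ ((q.1 : ℤ) = c ∧ P q.2))).val.map cx',
    (Finset.univ.filter (fun j => ¬ P j)).val.map cx, ?_, ?_, ?_, ?_⟩
  · intro h
    have h4 : cx j0 ∈ (Finset.univ.filter (fun j => ¬ P j)).val.map cx :=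
      Multiset.mem_map_of_mem cx (Finset.mem_filter.mpr ⟨Finset.mem_univ _, hj0⟩)
    rw [h] at h4
    exact absurd h4 (Multiset.notMem_zero _)
  · have h5 : (Finset.univ.filter (fun q : {b // b ∈ B} × J => (q.1 : ℤ) = c ∧ P q.2)) =
        (Finset.univ.filter P).map ⟨fun j => ((⟨c, hcB⟩ : {b // b ∈ B}), j),
          fun a b h => (Prod.mk.inj h).2⟩ := by
      ext q
      rw [Finset.mem_filter, Finset.mem_map]
      constructor
      · rintro ⟨_, h6, h7⟩
        exact ⟨q.2, Finset.mem_filter.mpr ⟨Finset.mem_univ _, h7⟩,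
          Prod.ext (Subtype.ext h6.symm) rfl⟩
      · rintro ⟨j, h6, rfl⟩
        exact ⟨Finset.mem_univ _, rfl, (Finset.mem_filter.mp h6).2⟩
    have h6 : (Finset.univ.filter P).val.map cx =
        (Finset.univ.filter (fun q : {b // b ∈ B} × J => (q.1 : ℤ) = c ∧ P q.2)).val.map cx' := by
      rw [h5, Finset.map_val, Multiset.map_map]
      refine Multiset.map_congr rfl fun j hj => ?_
      exact (h2 ((⟨c, hcB⟩ : {b // b ∈ B}), j) (Finset.mem_filter.mp hj).2 rfl).symm
    rw [h6, Finset.filter_val, Finset.filter_val, ← Multiset.map_add, Multiset.filter_add_not]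
  · rw [Finset.filter_val, Finset.filter_val, ← Multiset.map_add, Multiset.filter_add_not]
  · intro y hy
    obtain ⟨q, hq, rfl⟩ := Multiset.mem_map.mp hy
    have hq2 := (Finset.mem_filter.mp hq).2
    by_cases hP : P q.2
    · refine ⟨cx j0, Multiset.mem_map_of_mem cx
        (Finset.mem_filter.mpr ⟨Finset.mem_univ _, hj0⟩), ?_⟩
      rw [h3 q hP fun h => hq2 ⟨h, hP⟩]
      exact hpos j0 hj0
    · exact ⟨cx q.2, Multiset.mem_map_of_mem cx
        (Finset.mem_filter.mpr ⟨Finset.mem_univ _, hP⟩), h1 q hP⟩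

omit [CharZero D] in
/-- The entries of the new column. -/
private theorem rtf_col {H N : Subgroup G} {χ : G → ℤ} {s : G} {θ : D → LS D}
    (hc : Chi H N χ s) (hθ : Th t H χ θ) (p : PE G) (hp : p.In H) (b c : ℤ) :
    ∃ (γ : G) (q : PE G), ((t (s ^ b) : Dˣ) : D) * lc (θ (p.val t)) (c - b) *
        ((t (s ^ (-c)) : Dˣ) : D) = ((t γ : Dˣ) : D) * q.val t ∧
      (¬ p.In N → q.cx < p.cx) ∧ (p.In N → b = c → q.cx = p.cx) ∧
      (p.In N → b ≠ c → q.cx = 0) := by
  have e1 : (((t (s ^ c))⁻¹ : Dˣ) : D) = ((t (s ^ (-c)) : Dˣ) : D) := by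
    rw [zpow_neg, map_inv]
  by_cases hN : p.In N
  · by_cases hbc : b = c
    · refine ⟨1, PE.conj (s ^ c) p, ?_, fun h => absurd hN h, fun _ _ => PE.cx_conj _ _,
        fun _ h => absurd hbc h⟩
      rw [hbc, sub_self, hθ.of_ker hc (PE.val_mem t hN), lc_lsg, if_pos rfl, PE.val_conj, e1,
        map_one, Units.val_one, one_mul]
    · refine ⟨1, PE.zero, ?_, fun h => absurd hN h, fun _ h => absurd h hbc, fun _ _ => rfl⟩
      rw [hθ.of_ker hc (PE.val_mem t hN), lc_lsg, if_neg (fun h => hbc (by omega)), mul_zero,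
        zero_mul]
      exact (mul_zero _).symm
  · obtain ⟨γ, _, _, q, _, h4, h5⟩ := kl hc hθ p hp hN (c - b)
    refine ⟨s ^ b * γ * s ^ (-c), PE.conj (s ^ c) q, ?_, fun _ => ?_, fun h => absurd h hN,
      fun h => absurd h hN⟩
    · have e2 : ((t (s ^ (-c)) : Dˣ) : D) * ((t (s ^ c) : Dˣ) : D) = 1 := by
        rw [← Units.val_mul, ← map_mul, ← zpow_add, neg_add_cancel, zpow_zero, map_one,
          Units.val_one]
      rw [h5, PE.val_conj, e1, map_mul, map_mul, Units.val_mul, Units.val_mul]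
      calc ((t (s ^ b) : Dˣ) : D) * (((t γ : Dˣ) : D) * q.val t) * ((t (s ^ (-c)) : Dˣ) : D)
          = ((t (s ^ b) : Dˣ) : D) * ((t γ : Dˣ) : D) * 1 * q.val t *
            ((t (s ^ (-c)) : Dˣ) : D) := by
            rw [mul_one, mul_assoc (((t (s ^ b) : Dˣ) : D)) (((t γ : Dˣ) : D)) (q.val t)]
        _ = _ := by rw [← e2]; simp only [mul_assoc]
    · rw [PE.cx_conj]
      exact h4

theorem tf_ind (hF : FEb t) (hLI : LocInd G) (M : Multiset Ordinal.{0}) :
    ∀ (I J : Type) [Fintype I] [Fintype J] (T : I → J → G →₀ ℤ) (u : I → G →₀ ℤ) (γ : J → G)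
      (p : J → PE G), Finset.univ.val.map (fun j => (p j).cx) = M →
      (∀ i, ∑ j, ev t (T i j) * (((t (γ j) : Dˣ) : D) * (p j).val t) = ev t (u i)) →
      KerLe Set.univ T u := by
  classical
  induction M using (Multiset.wellFounded_isDershowitzMannaLT (α := Ordinal.{0})).induction with
  | _ M IH =>
  intro I J _ _ T u γ p hM h
  refine kerLe_shR T u γ ?_
  have h1 : ∀ i, ∑ j, ev t (shR (T i j) (γ j)) * (p j).val t = ev t (u i) := by
    intro i
    rw [← h i]
    refine Finset.sum_congr rfl fun j _ => ?_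
    rw [ev_shR, mul_assoc]
  have hmem : ∀ j, p j ∈ (Finset.univ : Finset J).toList.map p := fun j =>
    List.mem_map.mpr ⟨j, Finset.mem_toList.mpr (Finset.mem_univ j), rfl⟩
  have hpH : ∀ j, (p j).In (PE.clo ((Finset.univ : Finset J).toList.map p)) := fun j =>
    PE.in_clo (hmem j)
  refine tf_coset hF (PE.clo ((Finset.univ : Finset J).toList.map p))
    (fun i j => shR (T i j) (γ j)) u (fun j => (p j).val t) (fun j => PE.val_mem t (hpH j)) h1 ?_
  intro I' _ T' u' hT' hu' h'
  by_cases hH : PE.clo ((Finset.univ : Finset J).toList.map p) = ⊥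
  · exact tf_base T' u' (fun i j x hx => hH ▸ hT' i j x hx) (fun i x hx => hH ▸ hu' i x hx)
      (fun j => (p j).val t) (fun j => PE.val_mem t (hH ▸ hpH j)) h'
  · obtain ⟨N, χ, s, hc⟩ := hLI _ (PE.clo_fg _) hH
    obtain ⟨θ, hθ⟩ := theta_exists hF hc
    obtain ⟨d, hd⟩ := toe1 hc hθ T' u' hT' hu' (fun j => (p j).val t)
      (fun j => PE.val_mem t (hpH j)) h'
    refine slab_sub hc T' u' hT' hu' fun m => toe2 hc T' u' hT' hu' m fun c => ?_
    refine ⟨insert c (Finset.Icc (-d) (m + d)), ?_⟩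
    have hcol := fun q : {b // b ∈ insert c (Finset.Icc (-d) ((m : ℤ) + d))} × J =>
      rtf_col hc hθ (p q.2) (hpH q.2) (q.1 : ℤ) c
    choose γ' p' hγp ha hb hz using hcol
    refine IH (Finset.univ.val.map (fun q => (p' q).cx)) ?_ (Fin m × I')
      ({b // b ∈ insert c (Finset.Icc (-d) ((m : ℤ) + d))} × J) _ _ γ' p' rfl ?_
    · rw [← hM]
      refine rtf_dm (fun j => (p j).cx) (fun j => (p j).In N) _ c (Finset.mem_insert_self _ _)
        (fun q => (p' q).cx) ?_ (fun j hj => PE.cx_pos hj) ha hb hz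
      obtain ⟨p0, hp0, hn⟩ := PE.exists_not_in hc
      obtain ⟨j, _, rfl⟩ := List.mem_map.mp hp0
      exact ⟨j, hn⟩
    · intro i
      have h2 := hd m c (insert c (Finset.Icc (-d) ((m : ℤ) + d))) (Finset.subset_insert _ _) i.1 i.2
      rw [← h2]
      refine Finset.sum_congr rfl fun q _ => ?_
      rw [hγp q]

theorem tf_main (hF : FE t) (hLI : LocInd G) {I J : Type} [Fintype I] [Fintype J]
    (T : I → J → G →₀ ℤ) (u : I → G →₀ ℤ) (y : J → D)
    (h : ∀ i, ∑ j, ev t (T i j) * y j = ev t (u i)) : KerLe Set.univ T u := by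
  have h1 : ∀ j, ∃ (γ : G) (p : PE G), y j = ((t γ : Dˣ) : D) * p.val t := by
    intro j
    obtain ⟨γ, _, p, _, hp⟩ := exists_rep_left ⊤ (hF.gen (y j))
    exact ⟨γ, p, hp⟩
  choose γ p hp using h1
  refine tf_ind hF.toFEb hLI _ I J T u γ p rfl fun i => ?_
  rw [← h i]
  exact Finset.sum_congr rfl fun j _ => by rw [hp j]

/-- A right invertible matrix is injective on the square summable row vectors. -/
theorem tf_inj (hF : FE t) (hLI : LocInd G) {I J : Type} [Fintype I] [Fintype J]
    [DecidableEq I] (T : I → J → G →₀ ℤ) (Y : J → I → D)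
    (h : ∀ i i', ∑ j, ev t (T i j) * Y j i' = if i = i' then 1 else 0) (w : L2 (G × I))
    (hw : ∀ c, rm (w : G × I → ℝ) T c = 0) : w = 0 := by
  apply l2_ext
  rintro ⟨g, i'⟩
  have h1 := tf_main hF hLI T (fun i => if i = i' then Finsupp.single 1 1 else 0)
    (fun j => Y j i') (fun i => by
      rw [h i i']
      split_ifs
      · unfold ev
        rw [Finsupp.sum_single_index]
        · rw [map_one, Units.val_one, Int.cast_one, one_mul]
        · rw [Int.cast_zero, zero_mul]
      · unfold ev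
        rw [Finsupp.sum_zero_index]) w (fun c hc => absurd (Set.mem_univ c.1) hc) hw g
  unfold rm at h1
  beta_reduce at h1
  rw [Finset.sum_eq_single i'] at h1
  · rw [if_pos rfl, Finsupp.sum_single_index] at h1
    · rw [Int.cast_one, one_mul, inv_one, mul_one] at h1
      exact h1
    · rw [Int.cast_zero, zero_mul]
  · intro i _ hi
    rw [if_neg hi, Finsupp.sum_zero_index]
  · intro h2
    exact absurd (Finset.mem_univ i') h2

end SingerBO
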