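import Mathlib
import Pool.Agent.Lib_MP_394d50_cub.EOp
import Pool.Agent.Lib_MP_394d50_bo.RMz
import Pool.Agent.Lib_MP_394d50_bo.RTf

/-!
# Piece RNH: no harmonic chains (about 220 lines)

`nh_low`: let `R` be representatives, `E` the adjoint of the operator `D` of `FC.exists_D` (cub/EOp) for
`I = simpCx X (· < ·)` (`freeCell_simp`, `FreeCell.fc`): `(E z) q = ∑ᶠ p, inc p q * z p`, `E* = D`; `D (D z) = 0` and `E (E z) = 0` by `hF.sq`
(exchange two finite sums). Let `φ : MonoidAlgebra (ZMod 2) H →+* D1` with `φ (gN h) = t1 h` (`MonoidAlgebra.lift` or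
`MonoidAlgebra.liftNCRingHom (algebraMap (ZMod 2) D1) ..`). `exMat_of_exCo` gives `ExMat A B` for the matrices `A`, `B` of
`dmat hR q (q + 1)` and `dmat hR (q + 1) (q + 2)`, and `exMat_rows` (vs/VRank) gives `f : κ → Rk R q`, `f' : κ' → Rk R (q + 1)` with independent
rows. `rows_inj`: if the rows `i ↦ A (f i)` (over `D1`, `A i j = ev t1 (T i j)`) are linearly independent then
`f` is injective, and for `w : L2 (H × κ)` with `rm w (T ∘ f) = 0` we have `w = 0`: `right_inverse` over `D1`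
(`c ᵥ* A' = ∑ i, c i • A' i`), `LiftP`, `tf_inj`. Then `harm_rows` for `a = Rk R q`, `b = Rk R (q + 1)`, `e = Rk R (q + 2)`, `matOf_dZ` twice.
In `NH` the chain `z` is supported on the cells of dimension `q`, i.e. with `q + 1` vertices (`orbS_cR`).
`nh_high`: the same with `E = D`, `exMat_of_exBd`, `bmat`, `bZ`, `matOf_bZ`, for `a = Rk R (q + 2)`, `b = Rk R (q + 1)`, `e = Rk R q`.
-/

namespace SingerBO

open SingerVS SingerCub SingerRA
open scoped Pointwise

variable {H : Type} [Group H] {D1 D0 : Type} [DivisionRing D1] [Algebra (ZMod 2) D1]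
  [DivisionRing D0] [CharZero D0] {t1 : H →* D1ˣ} {t0 : H →* D0ˣ}

theorem rows_inj (hF0 : FE t0) (hLI : LocInd H) (hlift : LiftP t1 t0) {a b κ : Type} [Fintype a]
    [Fintype b] [Fintype κ] (T : a → b → H →₀ ℤ) (f : κ → a)
    (hli : LinearIndependent D1 (fun (i : κ) (j : b) => ev t1 (T (f i) j))) :
    Function.Injective f ∧ ∀ w : L2 (H × κ),
      (∀ c, rm (w : H × κ → ℝ) (fun i j => T (f i) j) c = 0) → w = 0 := by
  classical
  refine ⟨fun i i' e => hli.injective (by simp only [e]), fun w hw => ?_⟩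
  obtain ⟨B, hB⟩ := right_inverse (Matrix.of fun (i : κ) (j : b) => ev t1 (T (f i) j)) (by
    intro c hc
    rw [Fintype.linearIndependent_iff] at hli
    funext i
    refine hli c ?_ i
    funext j
    rw [Finset.sum_apply]
    exact congrFun hc j)
  obtain ⟨Y, hY⟩ := hlift κ b (fun i j => T (f i) j) ⟨B, fun i i' => by
    have h1 := congrFun (congrFun hB i) i'
    rw [Matrix.mul_apply, Matrix.one_apply] at h1
    exact h1⟩
  exact tf_inj hF0 hLI (fun i j => T (f i) j) Y hY w hw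

/-- The ring homomorphism of the group ring given by `t`. -/
private theorem rn_phi (t : H →* D1ˣ) :
    ∃ φ : MonoidAlgebra (ZMod 2) H →+* D1, ∀ h : H, φ (gN h) = ((t h : D1ˣ) : D1) := by
  refine ⟨(MonoidAlgebra.lift (ZMod 2) D1 H ((Units.coeHom D1).comp t)).toRingHom, fun h => ?_⟩
  exact MonoidAlgebra.lift_of (R := ZMod 2) ((Units.coeHom D1).comp t) h

section Sq

variable {C : Type} [MulAction H C] {I : CellCx C}

private theorem rn_DD (hF : FC H I) (D : L2 C →L[ℝ] L2 C)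
    (hD : ∀ z p, (D z) p = ∑ᶠ q, (I.inc p q : ℝ) * z q) (z : L2 C) : D (D z) = 0 := by
  classical
  apply l2_ext
  intro p
  rw [hD]
  have hS := hF.cofaces p
  have hT : ∀ q, {r | I.inc q r ≠ 0}.Finite := hF.cofaces
  let S : Finset C := hS.toFinset
  let T : Finset C := S.biUnion fun q => (hT q).toFinset
  have h1 : ∀ q ∈ S, (D z) q = ∑ r ∈ T, (I.inc q r : ℝ) * z r := by
    intro q hq
    rw [hD]
    refine finsum_eq_sum_of_support_subset _ fun r hr => ?_
    have hr' : I.inc q r ≠ 0 := Int.cast_ne_zero.1 (left_ne_zero_of_mul hr)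
    exact Finset.mem_coe.mpr (Finset.mem_biUnion.mpr ⟨q, hq, (hT q).mem_toFinset.mpr hr'⟩)
  rw [finsum_eq_sum_of_support_subset (s := S) _ (fun q hq => by
    have hq' : I.inc p q ≠ 0 := Int.cast_ne_zero.1 (left_ne_zero_of_mul hq)
    exact Finset.mem_coe.mpr (hS.mem_toFinset.mpr hq'))]
  rw [Finset.sum_congr rfl fun q hq => by rw [h1 q hq, Finset.mul_sum], Finset.sum_comm]
  refine Finset.sum_eq_zero fun r _ => ?_
  have h2 : ∑ q ∈ S, I.inc p q * I.inc q r = 0 := by
    rw [← hF.sq p r]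
    refine (finsum_eq_sum_of_support_subset _ fun q hq => ?_).symm
    have hq' : I.inc p q ≠ 0 := left_ne_zero_of_mul hq
    exact Finset.mem_coe.mpr (hS.mem_toFinset.mpr hq')
  have h3 : ∑ q ∈ S, (I.inc p q : ℝ) * (I.inc q r : ℝ) = 0 := by
    have h4 := congrArg (Int.cast : ℤ → ℝ) h2
    rw [Int.cast_sum, Int.cast_zero] at h4
    rw [← h4]
    refine Finset.sum_congr rfl fun q _ => ?_
    rw [Int.cast_mul]
  rw [Finset.sum_congr rfl fun q _ => (mul_assoc _ _ _).symm, ← Finset.sum_mul, h3, zero_mul]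

private theorem rn_EE (D : L2 C →L[ℝ] L2 C) (h : ∀ z, D (D z) = 0) (z : L2 C) :
    ContinuousLinearMap.adjoint D (ContinuousLinearMap.adjoint D z) = 0 := by
  refine ext_inner_right ℝ fun w => ?_
  rw [ContinuousLinearMap.adjoint_inner_left, ContinuousLinearMap.adjoint_inner_left, h,
    inner_zero_left, inner_zero_right]

end Sq

variable {P : Type} [LinearOrder P] [MulAction H P] {X : Set (Finset P)}

private theorem rn_fc (hX : FreeCx H X) (ho : OrdInv H X) :
    letI := simpAct (H := H) hX.inv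
    FC H (simpCx X (fun x y : P => x < y)) := by
  let _ := simpAct (H := H) hX.inv
  refine (freeCell_simp hX (fun _ _ => rfl) (fun σ _ => ⟨fun x _ => lt_irrefl x,
    fun x _ y _ hne => ⟨fun h => not_lt.mpr h.le, fun h => ?_⟩⟩) ho).fc
  exact lt_of_le_of_ne (not_lt.mp h) hne

private theorem rn_supp (hX : FreeCx H X) {R : Finset (Finset P)} (hR : Reps H X R) (q : ℕ)
    (z : L2 {σ : Finset P // σ ∈ X})
    (hz : ∀ c, z c ≠ 0 → c ∈ Set.univ ∧ (simpCx X (fun x y : P => x < y)).dim c = q) :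
    letI := simpAct (H := H) hX.inv
    z ∈ sup (orbS H (cR hR (q + 1))) := by
  let _ := simpAct (H := H) hX.inv
  intro c hc
  by_contra h
  apply hc
  rw [orbS_cR hX hR (q + 1)]
  have h1 : c.1.card - 1 = q := (hz c h).2
  have h2 := Finset.card_pos.mpr (hX.ne _ c.2)
  show c.1.card = q + 1
  omega

theorem nh_low (hF0 : FE t0) (hLI : LocInd H) (hlift : LiftP t1 t0) (hX : FreeCx H X)
    (ho : OrdInv H X) {q : ℕ} (h : ExCo (rhoD t1) X (q + 1)) :
    NH (simpCx X (fun x y : P => x < y)) Set.univ q := by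
  intro z hz hz1 hz2
  obtain ⟨R, hR⟩ := hX.exists_reps
  let _ := simpAct (H := H) hX.inv
  have hF := rn_fc hX ho
  obtain ⟨D, hD, hE, hDeq⟩ := hF.exists_D
  obtain ⟨φ, hφ⟩ := rn_phi t1
  have _ : CharP D1 2 := charP_of_injective_algebraMap (algebraMap (ZMod 2) D1).injective 2
  obtain ⟨κ, κ', i1, i2, f, f', hli, hli', hcard⟩ :=
    exMat_rows (exMat_of_exCo t1 φ hX hR hφ h)
  have hl1 : LinearIndependent D1
      (fun (i : κ) (j : Rk R (q + 1)) => ev t1 (dZ hR q (q + 1) (f i) j)) := by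
    have e : (fun (i : κ) (j : Rk R (q + 1)) => ev t1 (dZ hR q (q + 1) (f i) j)) =
        fun (i : κ) (j : Rk R (q + 1)) => φ (dmat hR q (q + 1) (f i) j) := by
      funext i j
      exact ev_dZ t1 φ hX hR hφ _ _ _ _
    rw [e]
    exact hli
  have hl2 : LinearIndependent D1
      (fun (i : κ') (j : Rk R (q + 2)) => ev t1 (dZ hR (q + 1) (q + 2) (f' i) j)) := by
    have e : (fun (i : κ') (j : Rk R (q + 2)) => ev t1 (dZ hR (q + 1) (q + 2) (f' i) j)) =
        fun (i : κ') (j : Rk R (q + 2)) => φ (dmat hR (q + 1) (q + 2) (f' i) j) := by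
      funext i j
      exact ev_dZ t1 φ hX hR hφ _ _ _ _
    rw [e]
    exact hli'
  obtain ⟨hf, hr⟩ := rows_inj hF0 hLI hlift (dZ hR q (q + 1)) f hl1
  obtain ⟨hf', hr'⟩ := rows_inj hF0 hLI hlift (dZ hR (q + 1) (q + 2)) f' hl2
  refine harm_rows hF.fo (ContinuousLinearMap.adjoint D) (Eqv2.adjoint hDeq)
    (rn_EE D (rn_DD hF D hD)) (cR hR q) (cR hR (q + 1)) (cR hR (q + 2)) (freeR_cR hX hR q)
    (freeR_cR hX hR (q + 1)) _ _ (matOf_dZ hX hR ho q _ hE) (matOf_dZ hX hR ho (q + 1) _ hE)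
    f f' hf hf' hr hr' hcard z (rn_supp hX hR q z hz) ?_ ?_
  · apply l2_ext
    intro c
    rw [hE]
    exact hz2 c (Set.mem_univ c)
  · rw [ContinuousLinearMap.adjoint_adjoint]
    apply l2_ext
    intro c
    rw [hD]
    exact hz1 c (Set.mem_univ c)

theorem nh_high (hF0 : FE t0) (hLI : LocInd H) (hlift : LiftP t1 t0) (hX : FreeCx H X)
    (ho : OrdInv H X) {q : ℕ} (h : ExBd (rhoD t1) X (q + 1)) :
    NH (simpCx X (fun x y : P => x < y)) Set.univ q := by
  intro z hz hz1 hz2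
  obtain ⟨R, hR⟩ := hX.exists_reps
  let _ := simpAct (H := H) hX.inv
  have hF := rn_fc hX ho
  obtain ⟨D, hD, hE, hDeq⟩ := hF.exists_D
  obtain ⟨φ, hφ⟩ := rn_phi t1
  have _ : CharP D1 2 := charP_of_injective_algebraMap (algebraMap (ZMod 2) D1).injective 2
  obtain ⟨κ, κ', i1, i2, f, f', hli, hli', hcard⟩ :=
    exMat_rows (exMat_of_exBd t1 φ hX hR hφ h)
  have hl1 : LinearIndependent D1
      (fun (i : κ) (j : Rk R (q + 1)) => ev t1 (bZ hR (q + 2) (q + 1) (f i) j)) := by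
    have e : (fun (i : κ) (j : Rk R (q + 1)) => ev t1 (bZ hR (q + 2) (q + 1) (f i) j)) =
        fun (i : κ) (j : Rk R (q + 1)) => φ (bmat hR (q + 2) (q + 1) (f i) j) := by
      funext i j
      exact ev_bZ t1 φ hX hR hφ _ _ _ _
    rw [e]
    exact hli
  have hl2 : LinearIndependent D1
      (fun (i : κ') (j : Rk R q) => ev t1 (bZ hR (q + 1) q (f' i) j)) := by
    have e : (fun (i : κ') (j : Rk R q) => ev t1 (bZ hR (q + 1) q (f' i) j)) =
        fun (i : κ') (j : Rk R q) => φ (bmat hR (q + 1) q (f' i) j) := by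
      funext i j
      exact ev_bZ t1 φ hX hR hφ _ _ _ _
    rw [e]
    exact hli'
  obtain ⟨hf, hr⟩ := rows_inj hF0 hLI hlift (bZ hR (q + 2) (q + 1)) f hl1
  obtain ⟨hf', hr'⟩ := rows_inj hF0 hLI hlift (bZ hR (q + 1) q) f' hl2
  refine harm_rows hF.fo D hDeq (rn_DD hF D hD) (cR hR (q + 2)) (cR hR (q + 1)) (cR hR q)
    (freeR_cR hX hR (q + 2)) (freeR_cR hX hR (q + 1)) _ _ (matOf_bZ hX hR ho (q + 1) _ hD)
    (matOf_bZ hX hR ho q _ hD) f f' hf hf' hr hr' hcard z (rn_supp hX hR q z hz) ?_ ?_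
  · apply l2_ext
    intro c
    rw [hD]
    exact hz1 c (Set.mem_univ c)
  · apply l2_ext
    intro c
    rw [hE]
    exact hz2 c (Set.mem_univ c)

end SingerBO
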