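import Mathlib
import Pool.Agent.Lib_MP_394d50_vs.VBase
import Pool.Agent.Lib_MP_394d50_vs.VCoef
import Pool.Agent.Lib_MP_394d50_bo.LDefs

/-!
# Definitions for the exactness with coefficients in `D ⊗ D`
-/

namespace SingerBO

open SingerVS SingerRA
open scoped TensorProduct Pointwise

section

variable {G : Type} [Group G] {N : Type} [AddCommGroup N] [Module (ZMod 2) N]

/-- The diagonal action on the tensor square. -/
noncomputable def rho2 (ρ : G →* Module.End (ZMod 2) N) :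
    G →* Module.End (ZMod 2) (N ⊗[ZMod 2] N) where
  toFun h := TensorProduct.map (ρ h) (ρ h)
  map_one' := by
    rw [map_one]
    exact TensorProduct.map_id
  map_mul' g h := by
    rw [map_mul]
    exact TensorProduct.map_comp _ _ _ _

theorem rho2_tmul (ρ : G →* Module.End (ZMod 2) N) (h : G) (a b : N) :
    rho2 ρ h (a ⊗ₜ[ZMod 2] b) = (ρ h a) ⊗ₜ[ZMod 2] (ρ h b) := rfl

variable {P : Type} [DecidableEq P] [MulAction G P]

/-- The `H`-equivariant functions supported on the simplices with `k` vertices, with finite support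
modulo `H`. -/
def CoF (H : Subgroup G) (ρ : G →* Module.End (ZMod 2) N) (X : Set (Finset P)) (k : ℕ) :
    Submodule (ZMod 2) (Finset P → N) where
  carrier := {c | (∀ σ, ¬ (σ ∈ X ∧ σ.card = k) → c σ = 0) ∧
    (∀ h ∈ H, ∀ σ ∈ X, c (h • σ) = ρ h (c σ)) ∧
    ∃ F : Finset (Finset P), ∀ σ, c σ ≠ 0 → ∃ h ∈ H, ∃ τ ∈ F, σ = h • τ}
  add_mem' := by
    classical
    rintro c d ⟨h1, h2, F, h3⟩ ⟨h1', h2', F', h3'⟩
    refine ⟨fun σ h => by rw [Pi.add_apply, h1 σ h, h1' σ h, add_zero],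
      fun h hh σ hσ => by
        rw [Pi.add_apply, Pi.add_apply, h2 h hh σ hσ, h2' h hh σ hσ, map_add],
      F ∪ F', fun σ hσ => ?_⟩
    rw [Pi.add_apply] at hσ
    by_cases h : c σ = 0
    · rw [h, zero_add] at hσ
      obtain ⟨g, hg, τ, hτ, e⟩ := h3' σ hσ
      exact ⟨g, hg, τ, Finset.mem_union_right _ hτ, e⟩
    · obtain ⟨g, hg, τ, hτ, e⟩ := h3 σ h
      exact ⟨g, hg, τ, Finset.mem_union_left _ hτ, e⟩
  zero_mem' := ⟨fun _ _ => rfl, fun h _ σ _ => by rw [Pi.zero_apply, Pi.zero_apply, map_zero],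
    ∅, fun σ hσ => absurd rfl hσ⟩
  smul_mem' := by
    rintro r c ⟨h1, h2, F, h3⟩
    refine ⟨fun σ h => by rw [Pi.smul_apply, h1 σ h, smul_zero],
      fun h hh σ hσ => by rw [Pi.smul_apply, Pi.smul_apply, h2 h hh σ hσ, map_smul],
      F, fun σ hσ => h3 σ fun h => hσ ?_⟩
    rw [Pi.smul_apply, h, smul_zero]

theorem mem_CoF {H : Subgroup G} {ρ : G →* Module.End (ZMod 2) N} {X : Set (Finset P)} {k : ℕ}
    {c : Finset P → N} : c ∈ CoF H ρ X k ↔ (∀ σ, ¬ (σ ∈ X ∧ σ.card = k) → c σ = 0) ∧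
      (∀ h ∈ H, ∀ σ ∈ X, c (h • σ) = ρ h (c σ)) ∧
      ∃ F : Finset (Finset P), ∀ σ, c σ ≠ 0 → ∃ h ∈ H, ∃ τ ∈ F, σ = h • τ := Iff.rfl

/-- `Tr` is a set of representatives of the right cosets `K \ H`. -/
structure RTr (K H : Subgroup G) (Tr : Set G) : Prop where
  sub : ∀ c ∈ Tr, c ∈ H
  ex : ∀ h ∈ H, ∃ c ∈ Tr, h * c⁻¹ ∈ K
  uniq : ∀ c ∈ Tr, ∀ c' ∈ Tr, c * c'⁻¹ ∈ K → c = c'

/-- The transfer from `K` to `H`. -/
noncomputable def ind (ρ : G →* Module.End (ZMod 2) N) (Tr : Set G) (w : Finset P → N) :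
    Finset P → N := fun σ => ∑ᶠ c : Tr, ρ (c : G)⁻¹ (w ((c : G) • σ))

end

section

variable {G D : Type} [Group G] [DivisionRing D] [Algebra (ZMod 2) D]

/-- The span of the `p t h ⊗ b`, `p ∈ L`, `h ∈ H`, `b ∈ B`. -/
def MV (t : G →* Dˣ) (H : Subgroup G) (L : List (PE G)) (B : Set D) :
    Submodule (ZMod 2) (D ⊗[ZMod 2] D) :=
  Submodule.span (ZMod 2) {x | ∃ p ∈ L, ∃ h ∈ H, ∃ b ∈ B,
    x = (p.val t * ((t h : Dˣ) : D)) ⊗ₜ[ZMod 2] b}

/-- The span of the `a ⊗ b`, `a ∈ A`, `b ∈ B`. -/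
def UU (A B : Set D) : Submodule (ZMod 2) (D ⊗[ZMod 2] D) :=
  Submodule.span (ZMod 2) {x | ∃ a ∈ A, ∃ b ∈ B, x = a ⊗ₜ[ZMod 2] b}

/-- Exactness for the cochains with values in `M`. -/
def ExF {P : Type} [DecidableEq P] [MulAction G P] (t : G →* Dˣ) (X : Set (Finset P))
    (H : Subgroup G) (M : Submodule (ZMod 2) (D ⊗[ZMod 2] D)) (k : ℕ) : Prop :=
  ∀ z ∈ CoF H (rho2 (rhoD t)) X k, dl X z = 0 → (∀ σ, z σ ∈ M) →
    ∃ w ∈ CoF H (rho2 (rhoD t)) X (k - 1), dl X w = z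

end

end SingerBO
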