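import Mathlib
import Pool.Agent.Lib_MP_394d50_bo.TDefs
import Pool.Agent.Lib_MP_394d50_bo.GTh

/-!
# Piece TALG: the components of the tensors (about 250 lines)

`Cmp t H χ θ φ`: the linear maps `φ n` give the coefficient of `T ^ n` in `θ x`, for `x` in `DH t H`. For the second factor we
use the expansion `θ'` along `-χ`; `ψ n x` is the coefficient of degree `- n` of `θ' x`, the part of `x` of `χ`-degree `n`
in the opposite expansion. `cA φ ψ n r = φ n ⊗ ψ (n + r)`.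

* `exists_cmp`: `x ↦ lc (θ x) n` is `ZMod 2`-linear on the subspace `DH t H`; extend to `D` (`LinearMap.exists_extend`; a
  `ZMod 2`-subspace from the additive subgroup, or compose with a linear retraction).
* `cA_smul`: span induction; for `v = a ⊗ b`: `rho2 h v = (a * t h⁻¹) ⊗ (b * t h⁻¹)` and `Th.mul_grp` for `h⁻¹`
  (`(t h)⁻¹ = t h⁻¹`); the degrees: `n - χ h⁻¹ = n + χ h`, and for `θ'` (along `-χ`):
  `- (n + r) - (- χ h⁻¹) = - (n + χ h + r)`.
* `cA_finite`: span induction; for `v = a ⊗ b` the lower bounds of `θ a` and `θ' b` (`exists_lb`): `φ n a = 0` for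
  `n < n₀` and `ψ m b = 0` for `m > m₀`.
* `cA_transfer`: (1) for `u ∈ DH t H` with `lc (θ u) β = 0` for `β ∉ F`: `φ n (u * a) = ∑ β ∈ F, lc (θ u) β * φ (n - β) a`
  (`lc_mul`), and for `ψ` with `u'`, `lc (θ' u') (- δ) = 0` for `δ ∉ F'`:
  `ψ m (u' * b) = ∑ δ ∈ F', lc (θ' u') (- δ) * ψ (m - δ) b`. So with `S β δ = mulLeft (lc (θ u) β) ⊗ mulLeft (lc (θ' u') (- δ))`:
  `cA n q ((u ⊗ u') v) = ∑ β, ∑ δ, S β δ (cA (n - β) (q + β - δ) v)` for `v ∈ UU (DH t H) (DH t H)`.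
  (2) for `y ∈ UU (PL t N s) (PL t N s)` there is a finite set `Q₀` such that `y = ∑ q ∈ Q, ∑ᶠ n, cA n q y` for all finite
  `Q ⊇ Q₀` (span induction; for `y = a ⊗ b`: `a = ∑ n, φ n a`, `b = ∑ m, ψ m b`, finite sums by `pl_lc`: a Laurent
  polynomial is the sum of its components: `x = ∑ lc (θ x) n` by `th_pl`). (3) put together; substitute `n ↦ n + β` in
  `∑ᶠ n` (`finsum_comp_equiv`, supports finite by `cA_finite`), and `S β δ` commutes with finite sums.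
-/

namespace SingerBO

open SingerVS SingerRA
open scoped TensorProduct Pointwise

variable {G D : Type} [Group G] [DivisionRing D] [Algebra (ZMod 2) D]

/-- `φ n x` is the coefficient of degree `n` of the expansion of `x`. -/
def Cmp (t : G →* Dˣ) (H : Subgroup G) (θ : D → LS D) (φ : ℤ → (D →ₗ[ZMod 2] D)) : Prop :=
  ∀ n, ∀ x ∈ DH t H, φ n x = lc (θ x) n

theorem exists_cmp {t : G →* Dˣ} {H : Subgroup G} {χ : G → ℤ} {θ : D → LS D} (hθ : Th t H χ θ) :
    ∃ φ : ℤ → (D →ₗ[ZMod 2] D), Cmp t H θ φ := by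
  have hex : ∀ n : ℤ, ∃ g : D →ₗ[ZMod 2] D, ∀ x ∈ DH t H, g x = lc (θ x) n := by
    intro n
    let W : Submodule (ZMod 2) D :=
      { carrier := (DH t H : Set D)
        add_mem' := fun {a b} ha hb => (DH t H).add_mem ha hb
        zero_mem' := (DH t H).zero_mem
        smul_mem' := by
          intro c x hx
          fin_cases c
          · show (0 : ZMod 2) • x ∈ _
            rw [zero_smul]
            exact (DH t H).zero_mem
          · show (1 : ZMod 2) • x ∈ _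
            rw [one_smul]
            exact hx }
    let f : W →ₗ[ZMod 2] D :=
      { toFun := fun x => lc (θ (x : D)) n
        map_add' := fun x y => by
          show lc (θ ((x : D) + (y : D))) n = _
          rw [hθ.add _ x.2 _ y.2, lc_add]
        map_smul' := fun c x => by
          fin_cases c
          · show lc (θ ((0 : ZMod 2) • (x : D))) n = (0 : ZMod 2) • lc (θ (x : D)) n
            rw [zero_smul, zero_smul, hθ.zero, lc_zero]
          · show lc (θ ((1 : ZMod 2) • (x : D))) n = (1 : ZMod 2) • lc (θ (x : D)) n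
            rw [one_smul, one_smul] }
    obtain ⟨g, hg⟩ := LinearMap.exists_extend f
    refine ⟨g, fun x hx => ?_⟩
    exact LinearMap.congr_fun hg (⟨x, hx⟩ : W)
  choose φ hφ using hex
  exact ⟨φ, hφ⟩

/-- The component `φ n ⊗ ψ (n + r)`, where `ψ m` is the component of degree `- m` for `φ'`. -/
noncomputable def cA (φ φ' : ℤ → (D →ₗ[ZMod 2] D)) (n r : ℤ) :
    D ⊗[ZMod 2] D →ₗ[ZMod 2] D ⊗[ZMod 2] D := TensorProduct.map (φ n) (φ' (-(n + r)))

/-- The multiplication by `a ⊗ b` on the left. -/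
noncomputable def mL (a b : D) : D ⊗[ZMod 2] D →ₗ[ZMod 2] D ⊗[ZMod 2] D :=
  TensorProduct.map (LinearMap.mulLeft (ZMod 2) a) (LinearMap.mulLeft (ZMod 2) b)

theorem mL_mL_inv {a b : D} (ha : a ≠ 0) (hb : b ≠ 0) (v : D ⊗[ZMod 2] D) :
    mL a b (mL a⁻¹ b⁻¹ v) = v ∧ mL a⁻¹ b⁻¹ (mL a b v) = v := by
  induction v using TensorProduct.induction_on with
  | zero => simp
  | tmul x y =>
    constructor
    · show (a * (a⁻¹ * x)) ⊗ₜ[ZMod 2] (b * (b⁻¹ * y)) = _
      rw [mul_inv_cancel_left₀ ha, mul_inv_cancel_left₀ hb]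
    · show (a⁻¹ * (a * x)) ⊗ₜ[ZMod 2] (b⁻¹ * (b * y)) = _
      rw [inv_mul_cancel_left₀ ha, inv_mul_cancel_left₀ hb]
  | add x y hx hy =>
    simp only [map_add]
    rw [hx.1, hy.1, hx.2, hy.2]
    exact ⟨rfl, rfl⟩

theorem mL_rho2 (t : G →* Dˣ) (a b : D) (h : G) (v : D ⊗[ZMod 2] D) :
    mL a b (rho2 (rhoD t) h v) = rho2 (rhoD t) h (mL a b v) := by
  induction v using TensorProduct.induction_on with
  | zero => simp
  | tmul x y =>
    show (a * (x * _)) ⊗ₜ[ZMod 2] (b * (y * _)) = ((a * x) * _) ⊗ₜ[ZMod 2] ((b * y) * _)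
    rw [mul_assoc, mul_assoc]
  | add x y hx hy =>
    simp only [map_add]
    rw [hx, hy]

variable {t : G →* Dˣ} {H N : Subgroup G} {χ : G → ℤ} {s : G} {θ θ' : D → LS D}
  {φ φ' : ℤ → (D →ₗ[ZMod 2] D)}

private theorem cA_tmul (φ φ' : ℤ → (D →ₗ[ZMod 2] D)) (n r : ℤ) (a b : D) :
    cA φ φ' n r (a ⊗ₜ[ZMod 2] b) = (φ n a) ⊗ₜ[ZMod 2] (φ' (-(n + r)) b) := rfl

private theorem mL_tmul (a b x y : D) :
    mL a b (x ⊗ₜ[ZMod 2] y) = (a * x) ⊗ₜ[ZMod 2] (b * y) := rfl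

theorem cA_smul (hc : Chi H N χ s) (hθ : Th t H χ θ) (hθ' : Th t H (fun x => - χ x) θ')
    (hφ : Cmp t H θ φ) (hφ' : Cmp t H θ' φ') (n r : ℤ) {h : G} (hh : h ∈ H) {v : D ⊗[ZMod 2] D}
    (hv : v ∈ UU (DH t H : Set D) (DH t H : Set D)) :
    cA φ φ' n r (rho2 (rhoD t) h v) = rho2 (rhoD t) h (cA φ φ' (n + χ h) r v) := by
  have hinv : (((t h)⁻¹ : Dˣ) : D) = ((t h⁻¹ : Dˣ) : D) := by rw [map_inv]
  have hh' : h⁻¹ ∈ H := H.inv_mem hh
  have e1 : ∀ a ∈ DH t H, φ n (a * (((t h)⁻¹ : Dˣ) : D)) =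
      φ (n + χ h) a * (((t h)⁻¹ : Dˣ) : D) := by
    intro a ha
    rw [hinv, hφ n _ (mul_mem ha (mem_DH t hh')), hφ (n + χ h) a ha, hθ.mul_grp ha hh',
      hc.map_inv hh, sub_neg_eq_add]
  have e2 : ∀ b ∈ DH t H, φ' (-(n + r)) (b * (((t h)⁻¹ : Dˣ) : D)) =
      φ' (-(n + χ h + r)) b * (((t h)⁻¹ : Dˣ) : D) := by
    intro b hb
    rw [hinv, hφ' _ _ (mul_mem hb (mem_DH t hh')), hφ' _ b hb, hθ'.mul_grp hb hh',
      hc.map_inv hh]
    congr 2
    omega
  unfold UU at hv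
  induction hv using Submodule.span_induction with
  | mem x hx =>
    obtain ⟨a, ha, b, hb, rfl⟩ := hx
    rw [rho2_tmul, rhoD_apply, rhoD_apply, cA_tmul, cA_tmul, rho2_tmul, rhoD_apply, rhoD_apply,
      e1 a ha, e2 b hb]
  | zero => simp only [map_zero]
  | add x y _ _ hx hy => simp only [map_add, hx, hy]
  | smul c x _ hx => simp only [map_smul, hx]

theorem cA_finite (hφ : Cmp t H θ φ) (hφ' : Cmp t H θ' φ') {v : D ⊗[ZMod 2] D}
    (hv : v ∈ UU (DH t H : Set D) (DH t H : Set D)) :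
    ∃ n₀ m₀ : ℤ, ∀ n r, cA φ φ' n r v ≠ 0 → n₀ ≤ n ∧ n + r ≤ m₀ := by
  unfold UU at hv
  induction hv using Submodule.span_induction with
  | mem x hx =>
    obtain ⟨a, ha, b, hb, rfl⟩ := hx
    obtain ⟨n₀, h1⟩ := exists_lb (θ a)
    obtain ⟨l₀, h2⟩ := exists_lb (θ' b)
    refine ⟨n₀, -l₀, fun n r hne => ?_⟩
    rw [cA_tmul, hφ n a ha, hφ' _ b hb] at hne
    constructor
    · by_contra hlt
      exact hne (by rw [h1 n (by omega), TensorProduct.zero_tmul])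
    · by_contra hlt
      exact hne (by rw [h2 (-(n + r)) (by omega), TensorProduct.tmul_zero])
  | zero => exact ⟨0, 0, fun n r hne => absurd (map_zero _) hne⟩
  | add x y _ _ hx hy =>
    obtain ⟨n₀, m₀, h1⟩ := hx
    obtain ⟨n₁, m₁, h2⟩ := hy
    refine ⟨min n₀ n₁, max m₀ m₁, fun n r hne => ?_⟩
    rw [map_add] at hne
    by_cases hx0 : cA φ φ' n r x = 0
    · rw [hx0, zero_add] at hne
      have := h2 n r hne
      exact ⟨le_trans (min_le_right _ _) this.1, le_trans this.2 (le_max_right _ _)⟩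
    · have := h1 n r hx0
      exact ⟨le_trans (min_le_left _ _) this.1, le_trans this.2 (le_max_left _ _)⟩
  | smul c x _ hx =>
    obtain ⟨n₀, m₀, h1⟩ := hx
    refine ⟨n₀, m₀, fun n r hne => h1 n r fun h0 => hne ?_⟩
    rw [map_smul, h0, smul_zero]

private theorem cA_supp (hφ : Cmp t H θ φ) (hφ' : Cmp t H θ' φ') {v : D ⊗[ZMod 2] D}
    (hv : v ∈ UU (DH t H : Set D) (DH t H : Set D)) (q : ℤ) :
    (Function.support fun n => cA φ φ' n q v).Finite := by
  obtain ⟨n₀, m₀, h⟩ := cA_finite hφ hφ' hv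
  refine (Set.finite_Icc n₀ (m₀ - q)).subset fun n hn => ?_
  have h1 := h n q hn
  exact ⟨h1.1, by omega⟩

omit [Algebra (ZMod 2) D] in
/-- A Laurent polynomial is the sum of its components. -/
private theorem pl_sum (hc : Chi H N χ s) (hθ : Th t H χ θ)
    {x : D} (hx : x ∈ PL t N s) : ∃ F₀ : Finset ℤ, (∀ n, n ∉ F₀ → lc (θ x) n = 0) ∧
      ∀ F : Finset ℤ, F₀ ⊆ F → x = ∑ n ∈ F, lc (θ x) n := by
  classical
  obtain ⟨F₀, d, hd, rfl⟩ := hx
  have h1 : ∀ n, lc (θ (∑ n ∈ F₀, d n * ((t (s ^ n) : Dˣ) : D))) n =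
      if n ∈ F₀ then d n * ((t (s ^ n) : Dˣ) : D) else 0 := by
    intro n
    rw [th_pl hθ hc F₀ d hd, lc_sum]
    simp only [lc_lsg]
    rw [Finset.sum_ite_eq]
  refine ⟨F₀, fun n hn => by rw [h1, if_neg hn], fun F hF => ?_⟩
  simp only [h1]
  rw [Finset.sum_ite_mem, Finset.inter_eq_right.mpr hF]

private theorem uu_comp (hc : Chi H N χ s) (hθ : Th t H χ θ) (hθ' : Th t H (fun x => - χ x) θ')
    (hφ : Cmp t H θ φ) (hφ' : Cmp t H θ' φ') {y : D ⊗[ZMod 2] D}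
    (hy : y ∈ UU (PL t N s) (PL t N s)) : ∃ A₀ Q₀ : Finset ℤ,
      (∀ n q, cA φ φ' n q y ≠ 0 → n ∈ A₀ ∧ q ∈ Q₀) ∧
      ∀ A Q : Finset ℤ, A₀ ⊆ A → Q₀ ⊆ Q → y = ∑ q ∈ Q, ∑ n ∈ A, cA φ φ' n q y := by
  classical
  unfold UU at hy
  induction hy using Submodule.span_induction with
  | mem x hx =>
    obtain ⟨a, ha, b, hb, rfl⟩ := hx
    obtain ⟨A₀, hA1, hA2⟩ := pl_sum hc hθ ha
    obtain ⟨B₀, hB1, hB2⟩ := pl_sum hc hθ hb
    have hval : ∀ n q, cA φ φ' n q (a ⊗ₜ[ZMod 2] b) =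
        lc (θ a) n ⊗ₜ[ZMod 2] lc (θ b) (n + q) := by
      intro n q
      rw [cA_tmul, hφ n a (pl_le hc ha), hφ' _ b (pl_le hc hb), (pl_lc hθ hθ' hc hb).1]
    have hsup : ∀ n q, cA φ φ' n q (a ⊗ₜ[ZMod 2] b) ≠ 0 → n ∈ A₀ ∧ n + q ∈ B₀ := by
      intro n q hne
      rw [hval] at hne
      constructor
      · by_contra hn
        exact hne (by rw [hA1 n hn, TensorProduct.zero_tmul])
      · by_contra hn
        exact hne (by rw [hB1 _ hn, TensorProduct.tmul_zero])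
    refine ⟨A₀, (B₀ ×ˢ A₀).image fun p => p.1 - p.2, fun n q hne => ?_, fun A Q hA hQ => ?_⟩
    · obtain ⟨h1, h2⟩ := hsup n q hne
      refine ⟨h1, Finset.mem_image.mpr ⟨(n + q, n), Finset.mem_product.mpr ⟨h2, h1⟩, ?_⟩⟩
      show n + q - n = q
      ring
    · rw [Finset.sum_comm]
      conv_lhs => rw [hA2 A hA, TensorProduct.sum_tmul]
      refine Finset.sum_congr rfl fun n hn => ?_
      by_cases hnA : n ∈ A₀
      · have h3 : b = ∑ q ∈ Q, lc (θ b) (n + q) := by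
          have h4 := hB2 ((Q.image fun q => n + q) ∪ B₀) Finset.subset_union_right
          conv_lhs => rw [h4]
          have h5 : ∑ m ∈ (Q.image fun q => n + q) ∪ B₀, lc (θ b) m =
              ∑ m ∈ Q.image fun q => n + q, lc (θ b) m := by
            symm
            refine Finset.sum_subset Finset.subset_union_left fun m _ hm => ?_
            refine hB1 m fun hmB => hm ?_
            refine Finset.mem_image.mpr ⟨m - n, hQ (Finset.mem_image.mpr ⟨(m, n),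
              Finset.mem_product.mpr ⟨hmB, hnA⟩, rfl⟩), ?_⟩
            ring
          rw [h5, Finset.sum_image fun x _ y _ hxy => add_left_cancel hxy]
        simp only [hval]
        rw [← TensorProduct.tmul_sum, ← h3]
      · rw [hA1 n hnA, TensorProduct.zero_tmul]
        refine (Finset.sum_eq_zero fun q _ => ?_).symm
        by_contra hne
        exact hnA (hsup n q hne).1
  | zero =>
    refine ⟨∅, ∅, fun n q hne => absurd (map_zero _) hne, fun A Q _ _ => ?_⟩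
    simp only [map_zero, Finset.sum_const_zero]
  | add x y _ _ hx hy =>
    obtain ⟨A₀, Q₀, h1, h2⟩ := hx
    obtain ⟨A₁, Q₁, h3, h4⟩ := hy
    refine ⟨A₀ ∪ A₁, Q₀ ∪ Q₁, fun n q hne => ?_, fun A Q hA hQ => ?_⟩
    · rw [map_add] at hne
      by_cases hx0 : cA φ φ' n q x = 0
      · rw [hx0, zero_add] at hne
        exact ⟨Finset.mem_union_right _ (h3 n q hne).1, Finset.mem_union_right _ (h3 n q hne).2⟩
      · exact ⟨Finset.mem_union_left _ (h1 n q hx0).1, Finset.mem_union_left _ (h1 n q hx0).2⟩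
    · conv_lhs => rw [h2 A Q (Finset.union_subset_left hA) (Finset.union_subset_left hQ),
        h4 A Q (Finset.union_subset_right hA) (Finset.union_subset_right hQ)]
      simp only [map_add, Finset.sum_add_distrib]
  | smul c x _ hx =>
    obtain ⟨A₀, Q₀, h1, h2⟩ := hx
    refine ⟨A₀, Q₀, fun n q hne => h1 n q fun h0 => hne ?_, fun A Q hA hQ => ?_⟩
    · rw [map_smul, h0, smul_zero]
    · conv_lhs => rw [h2 A Q hA hQ]
      simp only [map_smul, Finset.smul_sum]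

private theorem cA_mL (hθ : Th t H χ θ) (hθ' : Th t H (fun x => - χ x) θ')
    (hφ : Cmp t H θ φ) (hφ' : Cmp t H θ' φ') {u u' : D} (hu : u ∈ DH t H) (hu' : u' ∈ DH t H)
    (F : Finset ℤ) (hF : ∀ i, lc (θ u) i ≠ 0 → i ∈ F)
    (hF' : ∀ i, lc (θ' u') (-i) ≠ 0 → i ∈ F) {v : D ⊗[ZMod 2] D}
    (hv : v ∈ UU (DH t H : Set D) (DH t H : Set D)) (n q : ℤ) :
    cA φ φ' n q (mL u u' v) = ∑ β ∈ F, ∑ δ ∈ F, mL (lc (θ u) β) (lc (θ' u') (-δ))
      (cA φ φ' (n - β) (q + β - δ) v) := by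
  classical
  have e1 : ∀ a ∈ DH t H, φ n (u * a) = ∑ β ∈ F, lc (θ u) β * φ (n - β) a := by
    intro a ha
    rw [hφ n _ (mul_mem hu ha), hθ.mul u hu a ha, lc_mul (θ u) (θ a) n F fun i h1 _ => hF i h1]
    exact Finset.sum_congr rfl fun β _ => by rw [hφ _ a ha]
  have e2 : ∀ b ∈ DH t H, φ' (-(n + q)) (u' * b) =
      ∑ δ ∈ F, lc (θ' u') (-δ) * φ' (-(n + q - δ)) b := by
    intro b hb
    rw [hφ' _ _ (mul_mem hu' hb), hθ'.mul u' hu' b hb,
      lc_mul (θ' u') (θ' b) (-(n + q)) (F.image fun i => -i) fun i h1 _ =>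
        Finset.mem_image.mpr ⟨-i, hF' _ (by rwa [neg_neg]), neg_neg i⟩,
      Finset.sum_image fun x _ y _ hxy => neg_injective hxy]
    refine Finset.sum_congr rfl fun δ _ => ?_
    rw [hφ' _ b hb]
    congr 2
    omega
  unfold UU at hv
  induction hv using Submodule.span_induction with
  | mem x hx =>
    obtain ⟨a, ha, b, hb, rfl⟩ := hx
    rw [mL_tmul, cA_tmul, e1 a ha, e2 b hb, TensorProduct.sum_tmul]
    refine Finset.sum_congr rfl fun β _ => ?_
    rw [TensorProduct.tmul_sum]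
    refine Finset.sum_congr rfl fun δ _ => ?_
    rw [cA_tmul, mL_tmul, show -(n - β + (q + β - δ)) = -(n + q - δ) by ring]
  | zero => simp only [map_zero, Finset.sum_const_zero]
  | add x y _ _ hx hy => simp only [map_add, hx, hy, Finset.sum_add_distrib]
  | smul c x _ hx => simp only [map_smul, hx, Finset.smul_sum]

theorem cA_transfer (hc : Chi H N χ s) (hθ : Th t H χ θ) (hθ' : Th t H (fun x => - χ x) θ')
    (hφ : Cmp t H θ φ) (hφ' : Cmp t H θ' φ') {u u' : D} (hu : u ∈ PL t N s)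
    (hu' : u' ∈ PL t N s) {v : D ⊗[ZMod 2] D}
    (hv : v ∈ UU (DH t H : Set D) (DH t H : Set D)) (hp : mL u u' v ∈ UU (PL t N s) (PL t N s)) :
    ∃ Q₀ F₀ : Finset ℤ, ∀ Q F : Finset ℤ, Q₀ ⊆ Q → F₀ ⊆ F → mL u u' v =
      ∑ q ∈ Q, ∑ β ∈ F, ∑ δ ∈ F, mL (lc (θ u) β) (lc (θ' u') (-δ))
        (∑ᶠ n : ℤ, cA φ φ' n (q + β - δ) v) := by
  classical
  obtain ⟨A₀, Q₀, h1, h2⟩ := uu_comp hc hθ hθ' hφ hφ' hp
  obtain ⟨Fu, hFu⟩ := (pl_lc hθ hθ' hc hu).2
  obtain ⟨Fv, hFv⟩ := (pl_lc hθ hθ' hc hu').2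
  refine ⟨Q₀, Fu ∪ Fv, fun Q F hQ hF => ?_⟩
  have hFF : ∀ i, lc (θ u) i ≠ 0 → i ∈ F := fun i hi => hF (Finset.mem_union_left _ (by
    by_contra h
    exact hi (hFu i h)))
  have hFF' : ∀ i, lc (θ' u') (-i) ≠ 0 → i ∈ F := fun i hi => hF (Finset.mem_union_right _ (by
    by_contra h
    exact hi (by rw [(pl_lc hθ hθ' hc hu').1, hFv i h])))
  have h3 := h2 A₀ Q subset_rfl hQ
  rw [h3]
  refine Finset.sum_congr rfl fun q _ => ?_
  have h4 : ∑ n ∈ A₀, cA φ φ' n q (mL u u' v) = ∑ᶠ n : ℤ, cA φ φ' n q (mL u u' v) :=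
    (finsum_eq_sum_of_support_subset _ fun n hn => (h1 n q hn).1).symm
  rw [h4]
  have h5 : ∀ n, cA φ φ' n q (mL u u' v) = ∑ β ∈ F, ∑ δ ∈ F,
      mL (lc (θ u) β) (lc (θ' u') (-δ)) (cA φ φ' (n - β) (q + β - δ) v) := fun n =>
    cA_mL hθ hθ' hφ hφ' (pl_le hc hu) (pl_le hc hu') F hFF hFF' hv n q
  rw [finsum_congr h5]
  have hs1 : ∀ β r : ℤ, (Function.support fun n : ℤ => cA φ φ' (n - β) r v).Finite := by
    intro β r
    have h6 := (cA_supp hφ hφ' hv r).preimage (f := fun n : ℤ => n - β)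
      (fun x _ y _ hxy => sub_left_injective hxy)
    exact h6
  have hs2 : ∀ β δ : ℤ, (Function.support fun n : ℤ => mL (lc (θ u) β) (lc (θ' u') (-δ))
      (cA φ φ' (n - β) (q + β - δ) v)).Finite := by
    intro β δ
    refine (hs1 β (q + β - δ)).subset fun n hn h0 => hn ?_
    show mL (lc (θ u) β) (lc (θ' u') (-δ)) (cA φ φ' (n - β) (q + β - δ) v) = 0
    rw [show cA φ φ' (n - β) (q + β - δ) v = 0 from h0, map_zero]
  rw [finsum_sum_comm F (fun n β => ∑ δ ∈ F, mL (lc (θ u) β) (lc (θ' u') (-δ))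
      (cA φ φ' (n - β) (q + β - δ) v)) ?_]
  · refine Finset.sum_congr rfl fun β _ => ?_
    rw [finsum_sum_comm F (fun n δ => mL (lc (θ u) β) (lc (θ' u') (-δ))
      (cA φ φ' (n - β) (q + β - δ) v)) fun δ _ => hs2 β δ]
    refine Finset.sum_congr rfl fun δ _ => ?_
    have h7 := AddMonoidHom.map_finsum (mL (lc (θ u) β) (lc (θ' u') (-δ))).toAddMonoidHom
      (hs1 β (q + β - δ))
    have h8 : ∑ᶠ n : ℤ, cA φ φ' (n - β) (q + β - δ) v = ∑ᶠ n : ℤ, cA φ φ' n (q + β - δ) v :=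
      finsum_comp_equiv (f := fun n : ℤ => cA φ φ' n (q + β - δ) v) (Equiv.subRight β)
    rw [← h8]
    exact h7.symm
  · intro β _
    refine Set.Finite.subset (Set.Finite.biUnion F.finite_toSet fun δ _ => hs2 β δ) ?_
    intro n hn
    rw [Function.mem_support] at hn
    obtain ⟨δ, hδ, hne⟩ := Finset.exists_ne_zero_of_sum_ne_zero hn
    exact Set.mem_biUnion hδ hne

end SingerBO
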