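import Mathlib
import Pool.Agent.Lib_MP_394d50_bo.TDefs

/-!
# Piece TIND: the transfer of cochains from a subgroup `K` to `H` (about 180 lines)

* `exists_rtr`: choose a representative in each right coset (`Quotient.out` for the relation `h * c⁻¹ ∈ K` on `H`, or
  `Classical.choice`; e.g. `QuotientGroup.rightRel`, or use Zorn-free: for each `h ∈ H` the set `{c | h * c⁻¹ ∈ K}` depends
  only on the coset, take `Tr = {c | ∃ h ∈ H, c = choose of that set}`).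
* `rtr_zpow`: `h * (s ^ χ h)⁻¹ ∈ N` (`Chi.mul_zpow_mem`, `zpow_neg`); `s ^ m * (s ^ n)⁻¹ ∈ N` gives `m = n`.
* `ind_finite`: let `F` be the finite set of `w`. If `w (c • σ) ≠ 0` then `c • σ = k • τ` with `k ∈ K`, `τ ∈ F`. For a given `τ`
  there is at most one `c`: `c • σ = k • τ`, `c' • σ = k' • τ` give `(k⁻¹ * c) • σ = (k'⁻¹ * c') • σ`, so `k⁻¹ c = k'⁻¹ c'`
  (freeness on `σ ∈ X`; if `σ ∉ X` then `c • σ ∉ X` and `w = 0` there), so `c * c'⁻¹ = k k'⁻¹ ∈ K`.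
* `cof_dl`: as in `FreeCx.co_dl` (VBase); the support: if `dl X w σ ≠ 0` then `w (σ.erase p) ≠ 0` for some `p ∈ σ`, so
  `σ.erase p = k • τ` and `σ = k • (insert q τ)` with `q ∈ nb X τ` (finite; `hX.mem_nb`).
* `ind_dl`: for `σ ∈ X` `dl_apply`; `c • (σ.erase p) = (c • σ).erase (c • p)` (see `dl_smul`-type lemmas in VBase or PDZ
  `pdz_dl_smul`); exchange the finite sum over `p ∈ σ` with the finsum (finite supports by `ind_finite`, for each face;
  if a face is not in `X`, or empty, all its terms vanish).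
* `ind_mem`: equivariance: for `h ∈ H` and `c ∈ Tr` let `c' ∈ Tr` with `c * h = k * c'`, `k ∈ K` (`RTr.ex`); `c ↦ c'` is a
  permutation of `Tr` (inverse: the same for `h⁻¹`), and `ρ c⁻¹ (w (c • h • σ)) = ρ c⁻¹ (w (k • c' • σ)) =
  ρ (c⁻¹ * k) (w (c' • σ)) = ρ (h * c'⁻¹) (w (c' • σ))`. Use `finsum_eq_of_bijective` or `finsum_comp_equiv`. Support: if
  `ind w σ ≠ 0` then `w (c • σ) ≠ 0` for some `c`, `c • σ = k • τ`, `σ = (c⁻¹ * k) • τ`.
-/

namespace SingerBO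

open SingerVS SingerRA
open scoped TensorProduct Pointwise

variable {G : Type} [Group G] {N : Type} [AddCommGroup N] [Module (ZMod 2) N]
  {P : Type} [DecidableEq P] [MulAction G P] {X : Set (Finset P)}
  {ρ : G →* Module.End (ZMod 2) N} {K H : Subgroup G} {Tr : Set G}

theorem exists_rtr (hKH : K ≤ H) : ∃ Tr : Set G, RTr K H Tr := by
  refine ⟨{c | c ∈ H ∧ Quotient.out (Quotient.mk (QuotientGroup.rightRel K) c) = c},
    ⟨fun c hc => hc.1, ?_, ?_⟩⟩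
  · intro h hh
    have h1 : Quotient.mk (QuotientGroup.rightRel K)
        (Quotient.out (Quotient.mk (QuotientGroup.rightRel K) h)) =
        Quotient.mk (QuotientGroup.rightRel K) h := Quotient.out_eq _
    obtain ⟨c, hc⟩ : ∃ c, c = Quotient.out (Quotient.mk (QuotientGroup.rightRel K) h) := ⟨_, rfl⟩
    rw [← hc] at h1
    have h2 : h * c⁻¹ ∈ K := QuotientGroup.rightRel_apply.mp (Quotient.exact h1)
    refine ⟨c, ⟨?_, by rw [h1, ← hc]⟩, h2⟩
    have h3 : c = (h * c⁻¹)⁻¹ * h := by group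
    rw [h3]
    exact H.mul_mem (H.inv_mem (hKH h2)) hh
  · intro c hc c' hc' hk
    have h1 : Quotient.mk (QuotientGroup.rightRel K) c' =
        Quotient.mk (QuotientGroup.rightRel K) c :=
      Quotient.sound (QuotientGroup.rightRel_apply.mpr hk)
    rw [← hc.2, ← hc'.2, h1]

theorem rtr_zpow {χ : G → ℤ} {s : G} (hc : Chi H K χ s) :
    RTr K H (Set.range fun n : ℤ => s ^ n) where
  sub := by
    rintro _ ⟨n, rfl⟩
    exact hc.zpow_mem n
  ex := fun h hh => ⟨s ^ χ h, ⟨χ h, rfl⟩, by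
    rw [← zpow_neg]
    exact hc.mul_zpow_mem hh⟩
  uniq := by
    rintro _ ⟨m, rfl⟩ _ ⟨n, rfl⟩ hk
    have hk' : s ^ m * s ^ (-n) ∈ K := by
      rw [zpow_neg]
      exact hk
    have h1 := hc.zero hk'
    rw [hc.mul _ (hc.zpow_mem _) _ (hc.zpow_mem _), hc.map_zpow, hc.map_zpow] at h1
    have h2 : m = n := by omega
    rw [h2]

private theorem cof_eqv (hX : FreeCx G X) {k : ℕ} {w : Finset P → N} (hw : w ∈ CoF K ρ X k)
    {h : G} (hh : h ∈ K) (σ : Finset P) : w (h • σ) = ρ h (w σ) := by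
  by_cases hσ : σ ∈ X
  · exact hw.2.1 h hh σ hσ
  · rw [hw.1 σ (fun h1 => hσ h1.1), map_zero, hw.1 _ (fun h1 => hσ ((hX.smul_mem_iff h σ).mp h1.1))]

theorem ind_finite (hX : FreeCx G X) (hT : RTr K H Tr) {k : ℕ} {w : Finset P → N}
    (hw : w ∈ CoF K ρ X k) (σ : Finset P) :
    (Function.support fun c : Tr => ρ (c : G)⁻¹ (w ((c : G) • σ))).Finite := by
  obtain ⟨h1, h2, F, h3⟩ := hw
  have hsub : (Function.support fun c : Tr => ρ (c : G)⁻¹ (w ((c : G) • σ))) ⊆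
      ⋃ τ ∈ (F : Set (Finset P)), {c : Tr | σ ∈ X ∧ ∃ k ∈ K, (c : G) • σ = k • τ} := by
    intro c hc
    have hc' : w ((c : G) • σ) ≠ 0 := fun h => hc (by
      show ρ (c : G)⁻¹ (w ((c : G) • σ)) = 0
      rw [h, map_zero])
    have hσ : σ ∈ X := by
      by_contra hn
      exact hc' (h1 _ fun h => hn ((hX.smul_mem_iff _ _).mp h.1))
    obtain ⟨k, hk, τ, hτ, e⟩ := h3 _ hc'
    exact Set.mem_iUnion₂.mpr ⟨τ, hτ, hσ, k, hk, e⟩
  refine Set.Finite.subset (Set.Finite.biUnion F.finite_toSet fun τ _ =>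
    Set.Subsingleton.finite ?_) hsub
  rintro c ⟨hσ, k, hk, e⟩ c' ⟨_, k', hk', e'⟩
  apply Subtype.ext
  apply hT.uniq _ c.2 _ c'.2
  have e1 : (k⁻¹ * (c : G)) • σ = (k'⁻¹ * (c' : G)) • σ := by
    rw [mul_smul, mul_smul, e, e', inv_smul_smul, inv_smul_smul]
  have e2 := hX.smul_inj hσ e1
  have e3 : (c : G) = k * (k'⁻¹ * (c' : G)) := by rw [← e2, mul_inv_cancel_left]
  have e4 : (c : G) * (c' : G)⁻¹ = k * k'⁻¹ := by
    rw [e3]
    group
  rw [e4]
  exact K.mul_mem hk (K.inv_mem hk')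

theorem cof_dl (hX : FreeCx G X) {k : ℕ} {w : Finset P → N} (hw : w ∈ CoF K ρ X k) :
    dl X w ∈ CoF K ρ X (k + 1) := by
  classical
  have hch : w ∈ Ch N X k := hw.1
  refine ⟨hX.ch_dl hch, ?_, ?_⟩
  · intro h hh σ hσ
    rw [dl_apply hσ, dl_apply ((hX.smul_mem_iff h σ).mpr hσ), map_sum]
    have h1 : h • σ = σ.image (fun x => h • x) := rfl
    conv_lhs => rw [h1]
    rw [Finset.sum_image (fun x _ y _ e => MulAction.injective h e)]
    refine Finset.sum_congr rfl fun p _ => ?_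
    rw [← h1, ← smul_erase, cof_eqv hX hw hh]
  · obtain ⟨h1, h2, F, h3⟩ := hw
    refine ⟨F.biUnion fun τ => (nb X τ).image fun q => insert q τ, ?_⟩
    intro σ hσ
    have hσX : σ ∈ X := by
      by_contra hn
      exact hσ (dl_apply_not hn)
    rw [dl_apply hσX] at hσ
    obtain ⟨p, hp, hne⟩ := Finset.exists_ne_zero_of_sum_ne_zero hσ
    obtain ⟨g, hg, τ, hτ, e⟩ := h3 _ hne
    have hface : σ.erase p ∈ X := by
      by_contra hn
      exact hne (h1 _ fun h => hn h.1)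
    have hτX : τ ∈ X := by
      rw [e] at hface
      exact (hX.smul_mem_iff g τ).mp hface
    have e1 : σ = g • insert (g⁻¹ • p) τ := by
      rw [Finset.smul_finset_insert, smul_inv_smul, ← e, Finset.insert_erase hp]
    refine ⟨g, hg, insert (g⁻¹ • p) τ, ?_, e1⟩
    refine Finset.mem_biUnion.mpr ⟨τ, hτ, Finset.mem_image.mpr ⟨g⁻¹ • p, ?_, rfl⟩⟩
    refine (hX.mem_nb hτX).mpr ⟨?_, ?_⟩
    · intro hm
      have h4 : p ∈ g • τ := Finset.inv_smul_mem_iff.mp hm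
      rw [← e] at h4
      exact Finset.notMem_erase p σ h4
    · rw [e1] at hσX
      exact (hX.smul_mem_iff g _).mp hσX

theorem ind_dl (hX : FreeCx G X) (hT : RTr K H Tr) {k : ℕ} {w : Finset P → N}
    (hw : w ∈ CoF K ρ X k) : dl X (ind ρ Tr w) = ind ρ Tr (dl X w) := by
  funext σ
  by_cases hσ : σ ∈ X
  · rw [dl_apply hσ]
    show ∑ p ∈ σ, ∑ᶠ c : Tr, ρ (c : G)⁻¹ (w ((c : G) • σ.erase p)) =
      ∑ᶠ c : Tr, ρ (c : G)⁻¹ (dl X w ((c : G) • σ))
    have h1 : ∀ c : Tr, ρ (c : G)⁻¹ (dl X w ((c : G) • σ)) =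
        ∑ p ∈ σ, ρ (c : G)⁻¹ (w ((c : G) • σ.erase p)) := by
      intro c
      rw [dl_apply ((hX.smul_mem_iff (c : G) σ).mpr hσ)]
      have h2 : (c : G) • σ = σ.image (fun x => (c : G) • x) := rfl
      have h3 : ∑ q ∈ (c : G) • σ, w (((c : G) • σ).erase q) =
          ∑ p ∈ σ, w ((c : G) • σ.erase p) := by
        conv_lhs => rw [h2]
        rw [Finset.sum_image (fun x _ y _ e => MulAction.injective (c : G) e)]
        refine Finset.sum_congr rfl fun p _ => ?_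
        rw [← h2, ← smul_erase]
      rw [h3, map_sum]
    rw [finsum_congr h1]
    exact sum_finsum_comm σ (fun p (c : Tr) => ρ (c : G)⁻¹ (w ((c : G) • σ.erase p)))
      fun p _ => ind_finite hX hT hw (σ.erase p)
  · rw [dl_apply_not hσ]
    show 0 = ∑ᶠ c : Tr, ρ (c : G)⁻¹ (dl X w ((c : G) • σ))
    rw [finsum_congr (fun c : Tr => by
      rw [dl_apply_not (fun h => hσ ((hX.smul_mem_iff (c : G) σ).mp h)), map_zero] :
      ∀ c : Tr, ρ (c : G)⁻¹ (dl X w ((c : G) • σ)) = 0), finsum_zero]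

theorem ind_mem (hX : FreeCx G X) (hKH : K ≤ H) (hT : RTr K H Tr) {k : ℕ} {w : Finset P → N}
    (hw : w ∈ CoF K ρ X k) : ind ρ Tr w ∈ CoF H ρ X k := by
  refine ⟨?_, ?_, ?_⟩
  · intro σ hσ
    show ∑ᶠ c : Tr, ρ (c : G)⁻¹ (w ((c : G) • σ)) = 0
    rw [finsum_congr (fun c : Tr => by
      rw [hw.1 _ (fun h => hσ ⟨(hX.smul_mem_iff (c : G) σ).mp h.1,
        (card_smul (c : G) σ).symm.trans h.2⟩), map_zero] :
      ∀ c : Tr, ρ (c : G)⁻¹ (w ((c : G) • σ)) = 0), finsum_zero]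
  · intro h hh σ _
    show ∑ᶠ c : Tr, ρ (c : G)⁻¹ (w ((c : G) • h • σ)) =
      ρ h (∑ᶠ c : Tr, ρ (c : G)⁻¹ (w ((c : G) • σ)))
    have h1 : ρ h (∑ᶠ c : Tr, ρ (c : G)⁻¹ (w ((c : G) • σ))) =
        ∑ᶠ c : Tr, ρ h (ρ (c : G)⁻¹ (w ((c : G) • σ))) :=
      AddMonoidHom.map_finsum (ρ h : N →ₗ[ZMod 2] N).toAddMonoidHom (ind_finite hX hT hw σ)
    rw [h1]
    choose e he he' using fun c : Tr => hT.ex ((c : G) * h) (H.mul_mem (hT.sub c c.2) hh)
    refine finsum_eq_of_bijective (fun c : Tr => (⟨e c, he c⟩ : Tr)) ⟨?_, ?_⟩ ?_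
    · intro c d hcd
      have h2 : e c = e d := congrArg Subtype.val hcd
      apply Subtype.ext
      apply hT.uniq _ c.2 _ d.2
      have h3 : (c : G) * (d : G)⁻¹ = ((c : G) * h * (e c)⁻¹) * ((d : G) * h * (e c)⁻¹)⁻¹ := by
        group
      rw [h3]
      refine K.mul_mem (he' c) (K.inv_mem ?_)
      rw [h2]
      exact he' d
    · intro d
      obtain ⟨c, hc, hc'⟩ := hT.ex ((d : G) * h⁻¹) (H.mul_mem (hT.sub d d.2) (H.inv_mem hh))
      refine ⟨⟨c, hc⟩, ?_⟩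
      apply Subtype.ext
      show e ⟨c, hc⟩ = d
      refine (hT.uniq _ d.2 _ (he ⟨c, hc⟩) ?_).symm
      have h3 : (d : G) * (e ⟨c, hc⟩)⁻¹ = ((d : G) * h⁻¹ * c⁻¹) * (c * h * (e ⟨c, hc⟩)⁻¹) := by
        group
      rw [h3]
      exact K.mul_mem hc' (he' ⟨c, hc⟩)
    · intro c
      show ρ (c : G)⁻¹ (w ((c : G) • h • σ)) = ρ h (ρ (e c)⁻¹ (w (e c • σ)))
      have h2 : (c : G) • h • σ = ((c : G) * h * (e c)⁻¹) • (e c • σ) := by
        rw [smul_smul, smul_smul]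
        congr 1
        group
      rw [h2, cof_eqv hX hw (he' c)]
      have h3 : ρ (c : G)⁻¹ * ρ ((c : G) * h * (e c)⁻¹) = ρ h * ρ (e c)⁻¹ := by
        rw [← map_mul, ← map_mul]
        congr 1
        group
      exact congrArg (fun f : Module.End (ZMod 2) N => f (w (e c • σ))) h3
  · obtain ⟨h1, h2, F, h3⟩ := hw
    refine ⟨F, fun σ hσ => ?_⟩
    have hσ' : ∑ᶠ c : Tr, ρ (c : G)⁻¹ (w ((c : G) • σ)) ≠ 0 := hσ
    obtain ⟨c, hc⟩ : ∃ c : Tr, ρ (c : G)⁻¹ (w ((c : G) • σ)) ≠ 0 := by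
      by_contra hn
      push Not at hn
      exact hσ' (by rw [finsum_congr hn, finsum_zero])
    have hc' : w ((c : G) • σ) ≠ 0 := fun h => hc (by rw [h, map_zero])
    obtain ⟨g, hg, τ, hτ, e⟩ := h3 _ hc'
    refine ⟨(c : G)⁻¹ * g, H.mul_mem (H.inv_mem (hT.sub c c.2)) (hKH hg), τ, hτ, ?_⟩
    rw [mul_smul, ← e, inv_smul_smul]

end SingerBO
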