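import Mathlib
import Pool.Agent.Lib_MP_394d50_bo.TInd
import Pool.Agent.Lib_MP_394d50_bo.TAlg

/-!
# Piece TCHI: from the kernel `N` to `H` (about 250 lines)

Let `z ∈ CoF H`, `dl X z = 0`, `z σ ∈ UU (DH t H) (DH t H)`; `T r v = ∑ᶠ n, cA φ φ' n r v`, `z r σ = cA φ φ' 0 r (z σ)`.
* `zr_mem`: `z r ∈ CoF N`: for `h ∈ N` `cA_smul` with `χ h = 0`. Support: `σ = h • τ`, `h ∈ H`, `m = χ h`,
  `h = n' * s ^ m`, `n' ∈ N`; `z r (h • τ) = rho2 h (cA m r (z τ))` (`cA_smul`; `z (h • τ) = rho2 h (z τ)`, for `τ ∉ X` everything is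
  zero), so `cA m r (z τ) ≠ 0`, and `m` lies in a finite set by `cA_finite` (`n₀ ≤ m ≤ m₀ - r`): the finite set of the
  `s ^ m • τ` modulo `N`. `dl X (z r) = 0` (linear map).
* `ind_zr`: `ind (rho2 _) (range (s ^ ·)) (z r) σ = T r (z σ)`: the terms are `rho2 (s ^ (-n)) (cA 0 r (rho2 (s ^ n) (z σ))) =
  cA n r (z σ)` (`cA_smul` with `χ (s ^ n) = n`); reindex the finsum over `range` by `ℤ` (`n ↦ s ^ n` is injective).
* `tor_chi`: `w r ∈ CoF N (k - 1)` with `dl X (w r) = z r` (hypothesis); `W r = ind (w r) ∈ CoF H (k - 1)`, `dl X (W r) = T r ∘ z`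
  (`ind_mem`, `ind_dl`, `rtr_zpow`; for `k = 0` `z = 0`). Let `E` be the finite set of `z` (replace it by the `τ ∈ E ∩ X`).
  Each `z τ` is in the span of the `a ⊗ b`, so there is a finite set `A ⊆ DH t H` with `z τ ∈ UU A A` for all `τ ∈ E`
  (span induction / `Submodule.mem_span_finite_of_mem_span`). `u` from `pl_den` for `A`, `u' = u`: `mL u u (z τ) ∈ UU PL PL`.
  `Q`, `F` from `cA_transfer`, the unions over `τ ∈ E`. Put
  `w = mL u⁻¹ u⁻¹ ∘ ∑ q ∈ Q, ∑ β ∈ F, ∑ δ ∈ F, mL (lc (θ u) β) (lc (θ' u) (-δ)) ∘ W (q + β - δ)`, in `CoF H (k - 1)`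
  by `mL_rho2`, and `dl X w = mL u⁻¹ u⁻¹ ∘ ∑ ... T (q + β - δ) ∘ z`. At `σ = τ ∈ E` this is `z τ` by `cA_transfer` and
  `mL_mL_inv`; both sides are `H`-equivariant (the right side as an element of `CoF H`, since `dl X w ∈ CoF H` by `cof_dl`)
  and vanish at the `σ` not of the form `h • τ` (`z σ = 0` gives `T r (z σ) = 0`); so `dl X w = z`.
-/

namespace SingerBO

open SingerVS SingerRA
open scoped TensorProduct Pointwise

variable {G D : Type} [Group G] [DivisionRing D] [Algebra (ZMod 2) D]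
  {P : Type} [DecidableEq P] [MulAction G P] {X : Set (Finset P)}
  {t : G →* Dˣ} {H N : Subgroup G} {χ : G → ℤ} {s : G} {θ θ' : D → LS D}
  {φ φ' : ℤ → (D →ₗ[ZMod 2] D)}

private theorem cof_eqv {M : Type} [AddCommGroup M] [Module (ZMod 2) M]
    {ρ : G →* Module.End (ZMod 2) M} (hX : FreeCx G X) {k : ℕ} {c : Finset P → M}
    (hc : c ∈ CoF H ρ X k) {h : G} (hh : h ∈ H) (σ : Finset P) : c (h • σ) = ρ h (c σ) := by
  by_cases hσ : σ ∈ X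
  · exact hc.2.1 h hh σ hσ
  · rw [hc.1 σ (fun h1 => hσ h1.1), map_zero,
      hc.1 _ (fun h1 => hσ ((hX.smul_mem_iff h σ).mp h1.1))]

private theorem cof_post {M : Type} [AddCommGroup M] [Module (ZMod 2) M]
    {ρ : G →* Module.End (ZMod 2) M} {k : ℕ} {c : Finset P → M}
    (hc : c ∈ CoF H ρ X k) (L : M →ₗ[ZMod 2] M) (hL : ∀ h v, L (ρ h v) = ρ h (L v)) :
    (fun σ => L (c σ)) ∈ CoF H ρ X k := by
  obtain ⟨h1, h2, F, h3⟩ := hc
  refine ⟨fun σ h => ?_, fun h hh σ hσ => ?_, F, fun σ hσ => h3 σ fun h0 => hσ ?_⟩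
  · show L (c σ) = 0
    rw [h1 σ h, map_zero]
  · show L (c (h • σ)) = ρ h (L (c σ))
    rw [h2 h hh σ hσ, hL]
  · show L (c σ) = 0
    rw [h0, map_zero]

private theorem dl_post {M : Type} [AddCommGroup M] [Module (ZMod 2) M]
    (c : Finset P → M) (L : M →ₗ[ZMod 2] M) :
    dl X (fun σ => L (c σ)) = fun σ => L (dl X c σ) := by
  funext σ
  by_cases hσ : σ ∈ X
  · rw [dl_apply hσ, dl_apply hσ, map_sum]
  · rw [dl_apply_not hσ, dl_apply_not hσ, map_zero]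

private theorem uu_mono' {A B : Set D} (h : A ⊆ B) {v : D ⊗[ZMod 2] D} (hv : v ∈ UU A A) :
    v ∈ UU B B := by
  refine Submodule.span_mono ?_ hv
  rintro _ ⟨a, ha, b, hb, rfl⟩
  exact ⟨a, h ha, b, h hb, rfl⟩

private theorem uu_fin {S : Set D} {v : D ⊗[ZMod 2] D} (hv : v ∈ UU S S) :
    ∃ A : Finset D, (∀ x ∈ A, x ∈ S) ∧ v ∈ UU (A : Set D) (A : Set D) := by
  classical
  unfold UU at hv
  induction hv using Submodule.span_induction with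
  | mem x hx =>
    obtain ⟨a, ha, b, hb, rfl⟩ := hx
    refine ⟨{a, b}, ?_, Submodule.subset_span ⟨a, ?_, b, ?_, rfl⟩⟩
    · intro x hx
      rcases Finset.mem_insert.mp hx with rfl | hx
      · exact ha
      · rw [Finset.mem_singleton.mp hx]
        exact hb
    · simp
    · simp
  | zero => exact ⟨∅, fun x hx => absurd hx (Finset.notMem_empty x), zero_mem _⟩
  | add x y _ _ ihx ihy =>
    obtain ⟨A, hA, hx⟩ := ihx
    obtain ⟨B, hB, hy⟩ := ihy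
    refine ⟨A ∪ B, fun z hz => ?_, add_mem (uu_mono' ?_ hx) (uu_mono' ?_ hy)⟩
    · rcases Finset.mem_union.mp hz with h | h
      · exact hA z h
      · exact hB z h
    · intro z hz
      exact Finset.mem_coe.mpr (Finset.mem_union_left _ hz)
    · intro z hz
      exact Finset.mem_coe.mpr (Finset.mem_union_right _ hz)
  | smul r x _ ih =>
    obtain ⟨A, hA, hx⟩ := ih
    exact ⟨A, hA, Submodule.smul_mem _ r hx⟩

private theorem uu_mul {A : Set D} {B : Set D} {u : D} (hu : ∀ x ∈ A, u * x ∈ B)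
    {v : D ⊗[ZMod 2] D} (hv : v ∈ UU A A) : mL u u v ∈ UU B B := by
  unfold UU at hv
  induction hv using Submodule.span_induction with
  | mem x hx =>
    obtain ⟨a, ha, b, hb, rfl⟩ := hx
    exact Submodule.subset_span ⟨u * a, hu a ha, u * b, hu b hb, rfl⟩
  | zero => rw [map_zero]; exact zero_mem _
  | add x y _ _ ihx ihy => rw [map_add]; exact add_mem ihx ihy
  | smul r x _ ih => rw [map_smul]; exact Submodule.smul_mem _ r ih

theorem zr_mem (hX : FreeCx G X) (hc : Chi H N χ s) (hθ : Th t H χ θ)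
    (hθ' : Th t H (fun x => - χ x) θ')
    (hφ : Cmp t H θ φ) (hφ' : Cmp t H θ' φ') {k : ℕ} {z : Finset P → D ⊗[ZMod 2] D}
    (hz : z ∈ CoF H (rho2 (rhoD t)) X k) (hv : ∀ σ, z σ ∈ UU (DH t H : Set D) (DH t H : Set D))
    (r : ℤ) : (fun σ => cA φ φ' 0 r (z σ)) ∈ CoF N (rho2 (rhoD t)) X k := by
  classical
  obtain ⟨h1, h2, F, h3⟩ := hz
  have hz' : z ∈ CoF H (rho2 (rhoD t)) X k := ⟨h1, h2, F, h3⟩
  choose n₀ m₀ hnm using fun σ : Finset P => cA_finite (φ := φ) (φ' := φ') hφ hφ' (hv σ)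
  refine ⟨fun σ h => ?_, fun h hh σ hσ => ?_,
    F.biUnion fun τ => (Finset.Icc (n₀ τ) (m₀ τ - r)).image fun m => s ^ m • τ, fun σ hσ => ?_⟩
  · show cA φ φ' 0 r (z σ) = 0
    rw [h1 σ h, map_zero]
  · show cA φ φ' 0 r (z (h • σ)) = rho2 (rhoD t) h (cA φ φ' 0 r (z σ))
    rw [h2 h (hc.le hh) σ hσ, cA_smul hc hθ hθ' hφ hφ' 0 r (hc.le hh) (hv σ), hc.zero hh, add_zero]
  · have hσ' : cA φ φ' 0 r (z σ) ≠ 0 := hσ
    have hzσ : z σ ≠ 0 := by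
      intro h
      rw [h, map_zero] at hσ'
      exact hσ' rfl
    obtain ⟨h, hh, τ, hτ, rfl⟩ := h3 σ hzσ
    rw [cof_eqv hX hz' hh, cA_smul hc hθ hθ' hφ hφ' 0 r hh (hv τ), zero_add] at hσ'
    have h4 : cA φ φ' (χ h) r (z τ) ≠ 0 := by
      intro h0
      rw [h0, map_zero] at hσ'
      exact hσ' rfl
    obtain ⟨h5, h6⟩ := hnm τ _ _ h4
    refine ⟨h * s ^ (- χ h), hc.mul_zpow_mem hh, s ^ (χ h) • τ, ?_, ?_⟩
    · rw [Finset.mem_biUnion]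
      refine ⟨τ, hτ, Finset.mem_image.mpr ⟨χ h, Finset.mem_Icc.mpr ⟨h5, by omega⟩, rfl⟩⟩
    · rw [← mul_smul, zpow_neg, inv_mul_cancel_right]

theorem ind_zr (hX : FreeCx G X) (hc : Chi H N χ s) (hθ : Th t H χ θ)
    (hθ' : Th t H (fun x => - χ x) θ')
    (hφ : Cmp t H θ φ) (hφ' : Cmp t H θ' φ') {k : ℕ} {z : Finset P → D ⊗[ZMod 2] D}
    (hz : z ∈ CoF H (rho2 (rhoD t)) X k) (hv : ∀ σ, z σ ∈ UU (DH t H : Set D) (DH t H : Set D))
    (r : ℤ) : ind (rho2 (rhoD t)) (Set.range fun n : ℤ => s ^ n) (fun σ => cA φ φ' 0 r (z σ)) =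
      fun σ => ∑ᶠ n : ℤ, cA φ φ' n r (z σ) := by
  have hinj : Function.Injective fun n : ℤ => s ^ n := by
    intro m n h
    have h1 : χ (s ^ m) = χ (s ^ n) := congrArg χ h
    rwa [hc.map_zpow, hc.map_zpow] at h1
  funext σ
  show ∑ᶠ c : (Set.range fun n : ℤ => s ^ n), rho2 (rhoD t) (c : G)⁻¹
    (cA φ φ' 0 r (z ((c : G) • σ))) = _
  rw [← finsum_comp_equiv (Equiv.ofInjective _ hinj)]
  refine finsum_congr fun n => ?_
  have e : ((Equiv.ofInjective _ hinj n : (Set.range fun n : ℤ => s ^ n)) : G) = s ^ n := rfl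
  rw [e, cof_eqv hX hz (hc.zpow_mem n), cA_smul hc hθ hθ' hφ hφ' 0 r (hc.zpow_mem n) (hv σ),
    hc.map_zpow, zero_add, ← Module.End.mul_apply, ← map_mul, inv_mul_cancel, map_one]
  rfl

theorem tor_chi (hF : FEb t) (hX : FreeCx G X) (hc : Chi H N χ s) (hθ : Th t H χ θ)
    (hθ' : Th t H (fun x => - χ x) θ')
    (hφ : Cmp t H θ φ) (hφ' : Cmp t H θ' φ') {k : ℕ} {z : Finset P → D ⊗[ZMod 2] D}
    (hz : z ∈ CoF H (rho2 (rhoD t)) X k) (hd : dl X z = 0)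
    (hv : ∀ σ, z σ ∈ UU (DH t H : Set D) (DH t H : Set D))
    (ih : ∀ r : ℤ, ∃ w ∈ CoF N (rho2 (rhoD t)) X (k - 1),
      dl X w = fun σ => cA φ φ' 0 r (z σ)) :
    ∃ w ∈ CoF H (rho2 (rhoD t)) X (k - 1), dl X w = z := by
  classical
  obtain ⟨h1, h2, E, h3⟩ := id hz
  choose w hw hdw using ih
  have hT := rtr_zpow hc
  set Tr : Set G := Set.range fun n : ℤ => s ^ n with hTr
  have hW : ∀ r, ind (rho2 (rhoD t)) Tr (w r) ∈ CoF H (rho2 (rhoD t)) X (k - 1) := fun r =>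
    ind_mem hX hc.le hT (hw r)
  have hdW : ∀ r, dl X (ind (rho2 (rhoD t)) Tr (w r)) =
      fun σ => ∑ᶠ n : ℤ, cA φ φ' n r (z σ) := by
    intro r
    rw [ind_dl hX hT (hw r), hdw r]
    exact ind_zr hX hc hθ hθ' hφ hφ' hz hv r
  choose A hA hzA using fun σ => uu_fin (hv σ)
  obtain ⟨u, hu, hu0, huA⟩ := pl_den hF hc (E.biUnion A) (by
    intro x hx
    obtain ⟨τ, _, hx⟩ := Finset.mem_biUnion.mp hx
    exact hA τ x hx)
  have hp : ∀ τ ∈ E, mL u u (z τ) ∈ UU (PL t N s) (PL t N s) := by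
    intro τ hτ
    refine uu_mul (A := (A τ : Set D)) ?_ (hzA τ)
    intro x hx
    exact huA x (Finset.mem_biUnion.mpr ⟨τ, hτ, hx⟩)
  have htr : ∀ τ : Finset P, ∃ Q₀ F₀ : Finset ℤ, τ ∈ E → ∀ Q F : Finset ℤ, Q₀ ⊆ Q → F₀ ⊆ F →
      mL u u (z τ) = ∑ q ∈ Q, ∑ β ∈ F, ∑ δ ∈ F, mL (lc (θ u) β) (lc (θ' u) (-δ))
        (∑ᶠ n : ℤ, cA φ φ' n (q + β - δ) (z τ)) := by
    intro τ
    by_cases hτ : τ ∈ E
    · obtain ⟨Q₀, F₀, h⟩ := cA_transfer hc hθ hθ' hφ hφ' hu hu (hv τ) (hp τ hτ)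
      exact ⟨Q₀, F₀, fun _ => h⟩
    · exact ⟨∅, ∅, fun h => absurd h hτ⟩
  choose Q₀ F₀ hQF using htr
  set Q := E.biUnion Q₀ with hQ
  set B := E.biUnion F₀ with hB
  set W : ℤ → Finset P → D ⊗[ZMod 2] D := fun r => ind (rho2 (rhoD t)) Tr (w r) with hWdef
  set V : Finset P → D ⊗[ZMod 2] D := ∑ q ∈ Q, ∑ β ∈ B, ∑ δ ∈ B,
    (fun σ => mL (lc (θ u) β) (lc (θ' u) (-δ)) (W (q + β - δ) σ)) with hV
  have hVm : V ∈ CoF H (rho2 (rhoD t)) X (k - 1) := by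
    refine sum_mem fun q _ => sum_mem fun β _ => sum_mem fun δ _ => ?_
    exact cof_post (hW _) _ fun h v => mL_rho2 t _ _ h v
  have hVd : ∀ σ, dl X V σ = ∑ q ∈ Q, ∑ β ∈ B, ∑ δ ∈ B, mL (lc (θ u) β) (lc (θ' u) (-δ))
        (∑ᶠ n : ℤ, cA φ φ' n (q + β - δ) (z σ)) := by
    intro σ
    rw [hV, map_sum, Finset.sum_apply]
    refine Finset.sum_congr rfl fun q _ => ?_
    rw [map_sum, Finset.sum_apply]
    refine Finset.sum_congr rfl fun β _ => ?_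
    rw [map_sum, Finset.sum_apply]
    refine Finset.sum_congr rfl fun δ _ => ?_
    rw [dl_post, hdW]
  have hwm : (fun σ => mL u⁻¹ u⁻¹ (V σ)) ∈ CoF H (rho2 (rhoD t)) X (k - 1) :=
    cof_post hVm _ fun h v => mL_rho2 t _ _ h v
  refine ⟨fun σ => mL u⁻¹ u⁻¹ (V σ), hwm, ?_⟩
  have hE : ∀ τ ∈ E, dl X (fun σ => mL u⁻¹ u⁻¹ (V σ)) τ = z τ := by
    intro τ hτ
    rw [dl_post]
    show mL u⁻¹ u⁻¹ (dl X V τ) = z τ
    rw [hVd, ← hQF τ hτ Q B (Finset.subset_biUnion_of_mem Q₀ hτ)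
      (Finset.subset_biUnion_of_mem F₀ hτ)]
    exact (mL_mL_inv hu0 hu0 (z τ)).2
  funext σ
  by_cases hσ : z σ = 0
  · rw [dl_post]
    show mL u⁻¹ u⁻¹ (dl X V σ) = z σ
    rw [hVd, hσ]
    simp
  · obtain ⟨h, hh, τ, hτ, rfl⟩ := h3 σ hσ
    rw [cof_eqv hX hz hh, cof_eqv hX (cof_dl hX hwm) hh, hE τ hτ]

end SingerBO
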