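import Mathlib
import Pool.Agent.Lib_MP_394d50_bo.TInd

/-!
# Piece TCOS: reduction to the subgroup generated by the expressions (about 220 lines)

`exists_pi`: `D` is a left vector space over the division ring `DH t K` (`Subfield` acts by left multiplication). The
family `t c`, `c` in a set of representatives of the right cosets of `K` in `G` (`exists_rtr` with `H = ⊤`; choose `1`
for the coset `K`, or handle the unit below), is linearly independent by `FEb.right`. Extend it to a basis and let `π` be the linear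
functional with value `t c₀` at `t c₀` (`c₀ ∈ K` the representative of `K`) and `0` at the other basis elements,
more precisely the `DH t K`-linear map `π : D → D` with `π (t c₀) = t c₀`. For `x ∈ DH t K`, `h = k * c`, `k ∈ K`:
`π (x * t h) = π ((x * t k) * t c) = (x * t k) * π (t c)`, which is `x * t h` if `c = c₀` (i.e. `h ∈ K`) and `0`
otherwise. (Alternative: only an additive map is needed.)

`tor_coset`: let `z` be as in `ExF` for `H`, `M = MV t H L univ`, and `π₂ = TensorProduct.map π id`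
(`π` as a `ZMod 2`-linear map: `AddMonoidHom.toZModLinearMap 2`), `zK σ = π₂ (z σ)`.
(1) For `k ∈ K` and `v ∈ MV t H L univ`: `π₂ (rho2 k v) = rho2 k (π₂ v)` (span induction: `v = p t h ⊗ b`;
`p t h t k⁻¹ = p t (h k⁻¹)`, `h k⁻¹ ∈ K ↔ h ∈ K`), and `π₂ v ∈ MV t K L univ`. (2) `zK ∈ CoF K`: equivariance by (1). Support: if
`zK (h • τ) ≠ 0`, `τ` in the finite set of `z`, write `z τ` as a finite sum of `p_i t h_i ⊗ b_i` (an element of a span; it is
enough: for `v ∈ MV t H L univ` there is a finite set `E` of elements of `H` such that `π₂ (rho2 h v) ≠ 0`, `h ∈ H` implies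
`h * e⁻¹ ∈ K` for some `e ∈ E`, by span induction); then `h = k e`, so `h • τ = k • (e • τ)`: finite set of the `e • τ`
modulo `K`. (3) `dl X zK = 0` (`dl` commutes with linear maps, see `dl_comp` in VCoef/TTateV; or `dl_map`).
(4) `w` from the hypothesis for `K`; `ind w ∈ CoF H` and `dl (ind w) = ind (dl w) = ind zK` (`ind_mem`, `ind_dl`; for `k = 0`
note that `CoF _ _ X 0 = 0` since the simplices are not empty, so `z = 0`).
(5) `ind zK = z`: for `v ∈ MV t H L univ`: `v = ∑ᶠ c : Tr, rho2 c⁻¹ (π₂ (rho2 c v))` (span induction; for `v = p t h ⊗ b` the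
term of `c` is `v` if `h c⁻¹ ∈ K` and `0` otherwise, and there is exactly one such `c`; for the sum of two elements one
needs the finiteness of the supports), `z (c • σ) = rho2 c (z σ)`.
-/

namespace SingerBO

open SingerVS SingerRA
open scoped TensorProduct Pointwise

variable {G D : Type} [Group G] [DivisionRing D] {t : G →* Dˣ}

open scoped Classical in
/-- The elements of the span of the `t c`, `c ∈ Tr`, `c ∉ K`, which lie in `DH t K` are zero. -/
private theorem span_inter (hF : FEb t) {K : Subgroup G} {Tr : Set G} (hT : RTr K ⊤ Tr)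
    {x : D} (hx : x ∈ DH t K)
    (hB : x ∈ Submodule.span (DH t K) ((fun c : G => ((t c : Dˣ) : D)) '' {c | c ∈ Tr ∧ c ∉ K})) :
    x = 0 := by
  rw [Finsupp.mem_span_image_iff_linearCombination] at hB
  obtain ⟨l, hl, hlx⟩ := hB
  rw [Finsupp.mem_supported] at hl
  rw [Finsupp.linearCombination_apply, Finsupp.sum] at hlx
  have h1 : (1 : G) ∉ l.support := fun h => (hl h).2 K.one_mem
  have h2 : ∀ g ∈ l.support, g ≠ 1 := fun g hg e => h1 (e ▸ hg)
  have h3 := hF.right K (insert 1 l.support) (fun g => if g = 1 then x else - (l g : D)) ?_ ?_ ?_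
    1 (Finset.mem_insert_self _ _)
  · simpa using h3
  · intro g hg g' hg' e
    rcases Finset.mem_insert.mp hg with rfl | hg
    · rcases Finset.mem_insert.mp hg' with rfl | hg'
      · rfl
      · rw [inv_one, mul_one] at e
        exact absurd e (hl hg').2
    · rcases Finset.mem_insert.mp hg' with rfl | hg'
      · rw [one_mul] at e
        exact absurd (K.inv_mem_iff.mp e) (hl hg).2
      · exact (hT.uniq g' (hl hg').1 g (hl hg).1 e).symm
  · intro g _
    show (if g = 1 then x else - (l g : D)) ∈ DH t K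
    split_ifs
    · exact hx
    · exact neg_mem (l g).2
  · rw [Finset.sum_insert h1]
    have h4 : ∑ g ∈ l.support, (if g = 1 then x else - (l g : D)) * ((t g : Dˣ) : D) = - x := by
      rw [← hlx, ← Finset.sum_neg_distrib]
      refine Finset.sum_congr rfl fun g hg => ?_
      rw [if_neg (h2 g hg), neg_mul]
      rfl
    rw [h4]
    show (if (1 : G) = 1 then x else _) * _ + _ = 0
    rw [if_pos rfl, map_one, Units.val_one, mul_one, add_neg_cancel]

open scoped Classical in
theorem exists_pi (hF : FEb t) (K : Subgroup G) : ∃ π : D →+ D, ∀ x ∈ DH t K, ∀ h : G,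
    π (x * ((t h : Dˣ) : D)) = if h ∈ K then x * ((t h : Dˣ) : D) else 0 := by
  obtain ⟨Tr, hT⟩ := exists_rtr (le_top : K ≤ ⊤)
  let B : Submodule (DH t K) D :=
    Submodule.span (DH t K) ((fun c : G => ((t c : Dˣ) : D)) '' {c | c ∈ Tr ∧ c ∉ K})
  let f : DH t K →ₗ[DH t K] (D ⧸ B) := LinearMap.toSpanSingleton (DH t K) (D ⧸ B) (B.mkQ 1)
  have hf : ∀ x : DH t K, f x = B.mkQ (x : D) := by
    intro x
    show x • B.mkQ 1 = _
    rw [← map_smul]
    congr 1
    show (x : D) * 1 = x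
    rw [mul_one]
  have hker : LinearMap.ker f = ⊥ := by
    rw [LinearMap.ker_eq_bot']
    intro x hx
    rw [hf, Submodule.mkQ_apply, Submodule.Quotient.mk_eq_zero] at hx
    exact Subtype.ext (span_inter hF hT x.2 hx)
  obtain ⟨g, hg⟩ := LinearMap.exists_leftInverse_of_injective f hker
  have hg' : ∀ x ∈ DH t K, ((g (B.mkQ x) : DH t K) : D) = x := by
    intro x hx
    have h1 := congrArg (fun φ => φ (⟨x, hx⟩ : DH t K)) hg
    have h2 : g (f ⟨x, hx⟩) = ⟨x, hx⟩ := h1
    rw [hf] at h2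
    exact congrArg Subtype.val h2
  refine ⟨(DH t K).subtype.toAddMonoidHom.comp ((g.comp B.mkQ).toAddMonoidHom), ?_⟩
  intro x hx h
  show ((g (B.mkQ (x * ((t h : Dˣ) : D))) : DH t K) : D) = _
  split_ifs with hh
  · exact hg' _ (mul_mem hx (mem_DH t hh))
  · obtain ⟨c, hc, hk⟩ := hT.ex h (Subgroup.mem_top h)
    have hcK : c ∉ K := by
      intro hc'
      have := K.mul_mem hk hc'
      rw [inv_mul_cancel_right] at this
      exact hh this
    have e : x * ((t h : Dˣ) : D) =
        (⟨x * ((t (h * c⁻¹) : Dˣ) : D), mul_mem hx (mem_DH t hk)⟩ : DH t K) •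
          ((t c : Dˣ) : D) := by
      show _ = x * ((t (h * c⁻¹) : Dˣ) : D) * ((t c : Dˣ) : D)
      rw [mul_assoc, ← Units.val_mul, ← map_mul, inv_mul_cancel_right]
    have h0 : B.mkQ (x * ((t h : Dˣ) : D)) = 0 := by
      rw [Submodule.mkQ_apply, Submodule.Quotient.mk_eq_zero, e]
      exact B.smul_mem _ (Submodule.subset_span ⟨c, ⟨hc, hcK⟩, rfl⟩)
    rw [h0, map_zero]
    rfl

variable [Algebra (ZMod 2) D] {P : Type} [DecidableEq P] [MulAction G P] {X : Set (Finset P)}

/-- Multiplication by `t g` on the right, on a generator. -/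
private theorem rho2_gen (g h : G) (x b : D) :
    rho2 (rhoD t) g ((x * ((t h : Dˣ) : D)) ⊗ₜ[ZMod 2] b) =
      (x * ((t (h * g⁻¹) : Dˣ) : D)) ⊗ₜ[ZMod 2] (b * (((t g)⁻¹ : Dˣ) : D)) := by
  rw [rho2_tmul, rhoD_apply, rhoD_apply, mul_assoc, ← Units.val_mul, ← map_inv, ← map_mul]

/-- The map `π ⊗ 1`. -/
private noncomputable def pi2 (π : D →+ D) : (D ⊗[ZMod 2] D) →ₗ[ZMod 2] (D ⊗[ZMod 2] D) :=
  TensorProduct.map (π.toZModLinearMap 2) LinearMap.id

private theorem pi2_tmul (π : D →+ D) (a b : D) :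
    pi2 π (a ⊗ₜ[ZMod 2] b) = (π a) ⊗ₜ[ZMod 2] b := rfl

open scoped Classical in
private theorem pi2_gen {K : Subgroup G} {π : D →+ D} (hπ : ∀ x ∈ DH t K, ∀ h : G,
    π (x * ((t h : Dˣ) : D)) = if h ∈ K then x * ((t h : Dˣ) : D) else 0)
    {x : D} (hx : x ∈ DH t K) (h : G) (b : D) :
    pi2 π ((x * ((t h : Dˣ) : D)) ⊗ₜ[ZMod 2] b) =
      if h ∈ K then (x * ((t h : Dˣ) : D)) ⊗ₜ[ZMod 2] b else 0 := by
  rw [pi2_tmul, hπ x hx h]
  split_ifs
  · rfl
  · exact TensorProduct.zero_tmul _ _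

open scoped Classical in
private theorem pi2_eqv {K H : Subgroup G} {L : List (PE G)} (hL : ∀ p ∈ L, p.In K)
    {π : D →+ D} (hπ : ∀ x ∈ DH t K, ∀ h : G,
      π (x * ((t h : Dˣ) : D)) = if h ∈ K then x * ((t h : Dˣ) : D) else 0)
    {k : G} (hk : k ∈ K) {v : D ⊗[ZMod 2] D} (hv : v ∈ MV t H L Set.univ) :
    pi2 π (rho2 (rhoD t) k v) = rho2 (rhoD t) k (pi2 π v) := by
  unfold MV at hv
  induction hv using Submodule.span_induction with
  | mem v hv =>
    obtain ⟨p, hp, h, hh, b, _, rfl⟩ := hv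
    rw [rho2_gen, pi2_gen hπ (PE.val_mem t (hL p hp)), pi2_gen hπ (PE.val_mem t (hL p hp))]
    by_cases hhK : h ∈ K
    · rw [if_pos (K.mul_mem hhK (K.inv_mem hk)), if_pos hhK, rho2_gen]
    · rw [if_neg, if_neg hhK, map_zero]
      intro h1
      have h2 := K.mul_mem h1 hk
      rw [inv_mul_cancel_right] at h2
      exact hhK h2
  | zero => rw [map_zero, map_zero, map_zero]
  | add v w _ _ hv hw => rw [map_add, map_add, map_add, map_add, hv, hw]
  | smul r v _ hv => rw [map_smul, map_smul, map_smul, map_smul, hv]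

open scoped Classical in
private theorem pi2_mem {K H : Subgroup G} {L : List (PE G)} (hL : ∀ p ∈ L, p.In K)
    {π : D →+ D} (hπ : ∀ x ∈ DH t K, ∀ h : G,
      π (x * ((t h : Dˣ) : D)) = if h ∈ K then x * ((t h : Dˣ) : D) else 0)
    {v : D ⊗[ZMod 2] D} (hv : v ∈ MV t H L Set.univ) : pi2 π v ∈ MV t K L Set.univ := by
  unfold MV at hv
  induction hv using Submodule.span_induction with
  | mem v hv =>
    obtain ⟨p, hp, h, hh, b, _, rfl⟩ := hv
    rw [pi2_gen hπ (PE.val_mem t (hL p hp))]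
    split_ifs with h1
    · exact Submodule.subset_span ⟨p, hp, h, h1, b, Set.mem_univ b, rfl⟩
    · exact zero_mem _
  | zero => rw [map_zero]; exact zero_mem _
  | add v w _ _ hv hw => rw [map_add]; exact add_mem hv hw
  | smul r v _ hv => rw [map_smul]; exact Submodule.smul_mem _ r hv

open scoped Classical in
private theorem pi2_fin {K H : Subgroup G} {L : List (PE G)} (hL : ∀ p ∈ L, p.In K)
    {π : D →+ D} (hπ : ∀ x ∈ DH t K, ∀ h : G,
      π (x * ((t h : Dˣ) : D)) = if h ∈ K then x * ((t h : Dˣ) : D) else 0)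
    {v : D ⊗[ZMod 2] D} (hv : v ∈ MV t H L Set.univ) :
    ∃ E : Finset G, ∀ g : G, pi2 π (rho2 (rhoD t) g v) ≠ 0 → ∃ e ∈ E, g * e⁻¹ ∈ K := by
  unfold MV at hv
  induction hv using Submodule.span_induction with
  | mem v hv =>
    obtain ⟨p, hp, h, hh, b, _, rfl⟩ := hv
    refine ⟨{h}, fun g hg => ⟨h, Finset.mem_singleton_self h, ?_⟩⟩
    rw [rho2_gen, pi2_gen hπ (PE.val_mem t (hL p hp))] at hg
    by_cases h1 : h * g⁻¹ ∈ K
    · have h2 := K.inv_mem h1
      rw [mul_inv_rev, inv_inv] at h2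
      exact h2
    · exact absurd (if_neg h1) hg
  | zero => exact ⟨∅, fun g hg => absurd (by rw [map_zero, map_zero]) hg⟩
  | add v w _ _ hv hw =>
    obtain ⟨E, hE⟩ := hv
    obtain ⟨E', hE'⟩ := hw
    refine ⟨E ∪ E', fun g hg => ?_⟩
    by_cases h1 : pi2 π (rho2 (rhoD t) g v) = 0
    · rw [map_add, map_add, h1, zero_add] at hg
      obtain ⟨e, he, h2⟩ := hE' g hg
      exact ⟨e, Finset.mem_union_right _ he, h2⟩
    · obtain ⟨e, he, h2⟩ := hE g h1
      exact ⟨e, Finset.mem_union_left _ he, h2⟩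
  | smul r v _ hv =>
    obtain ⟨E, hE⟩ := hv
    refine ⟨E, fun g hg => hE g fun h0 => hg ?_⟩
    rw [map_smul, map_smul, h0, smul_zero]

open scoped Classical in
/-- The reconstruction of an element from its components. -/
private theorem pi2_rec {K H : Subgroup G} {L : List (PE G)} (hL : ∀ p ∈ L, p.In K)
    {π : D →+ D} (hπ : ∀ x ∈ DH t K, ∀ h : G,
      π (x * ((t h : Dˣ) : D)) = if h ∈ K then x * ((t h : Dˣ) : D) else 0)
    {Tr : Set G} (hT : RTr K H Tr) {v : D ⊗[ZMod 2] D} (hv : v ∈ MV t H L Set.univ) :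
    (Function.support fun c : Tr =>
      rho2 (rhoD t) (c : G)⁻¹ (pi2 π (rho2 (rhoD t) (c : G) v))).Finite ∧
    ∑ᶠ c : Tr, rho2 (rhoD t) (c : G)⁻¹ (pi2 π (rho2 (rhoD t) (c : G) v)) = v := by
  unfold MV at hv
  induction hv using Submodule.span_induction with
  | mem v hv =>
    obtain ⟨p, hp, h, hh, b, _, rfl⟩ := hv
    obtain ⟨c₀, hc₀, hk⟩ := hT.ex h hh
    have h1 : ∀ c : Tr, rho2 (rhoD t) (c : G)⁻¹ (pi2 π (rho2 (rhoD t) (c : G)
        ((p.val t * ((t h : Dˣ) : D)) ⊗ₜ[ZMod 2] b))) =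
        if c = ⟨c₀, hc₀⟩ then (p.val t * ((t h : Dˣ) : D)) ⊗ₜ[ZMod 2] b else 0 := by
      intro c
      rw [rho2_gen, pi2_gen hπ (PE.val_mem t (hL p hp))]
      by_cases hc : c = ⟨c₀, hc₀⟩
      · rw [if_pos hc, hc, if_pos hk, rho2_gen, inv_inv, inv_mul_cancel_right, mul_assoc,
          ← Units.val_mul, map_inv, inv_inv, inv_mul_cancel, Units.val_one, mul_one]
      · rw [if_neg hc, if_neg, map_zero]
        intro h2
        apply hc
        refine Subtype.ext (hT.uniq c c.2 c₀ hc₀ ?_)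
        have h3 := K.mul_mem (K.inv_mem h2) hk
        rw [mul_inv_rev, inv_inv, mul_assoc, inv_mul_cancel_left] at h3
        exact h3
    constructor
    · refine (Set.finite_singleton (⟨c₀, hc₀⟩ : Tr)).subset fun c hc => ?_
      rw [Function.mem_support, h1] at hc
      by_contra h2
      exact hc (if_neg h2)
    · rw [finsum_congr h1, finsum_eq_single _ (⟨c₀, hc₀⟩ : Tr) fun c hc => if_neg hc, if_pos rfl]
  | zero =>
    have h1 : ∀ c : Tr, rho2 (rhoD t) (c : G)⁻¹ (pi2 π (rho2 (rhoD t) (c : G)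
        (0 : D ⊗[ZMod 2] D))) = 0 := fun c => by rw [map_zero, map_zero, map_zero]
    constructor
    · refine Set.finite_empty.subset fun c hc => ?_
      rw [Function.mem_support, h1] at hc
      exact absurd rfl hc
    · rw [finsum_congr h1, finsum_zero]
  | add v w _ _ hv hw =>
    have h1 : ∀ c : Tr, rho2 (rhoD t) (c : G)⁻¹ (pi2 π (rho2 (rhoD t) (c : G) (v + w))) =
        rho2 (rhoD t) (c : G)⁻¹ (pi2 π (rho2 (rhoD t) (c : G) v)) +
          rho2 (rhoD t) (c : G)⁻¹ (pi2 π (rho2 (rhoD t) (c : G) w)) := fun c => by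
      rw [map_add, map_add, map_add]
    constructor
    · refine (hv.1.union hw.1).subset fun c hc => ?_
      rw [Function.mem_support, h1] at hc
      by_contra h2
      rw [Set.mem_union, not_or, Function.mem_support, Function.mem_support, not_not,
        not_not] at h2
      rw [h2.1, h2.2, add_zero] at hc
      exact hc rfl
    · rw [finsum_congr h1, finsum_add_distrib hv.1 hw.1, hv.2, hw.2]
  | smul r v _ hv =>
    have h1 : ∀ c : Tr, rho2 (rhoD t) (c : G)⁻¹ (pi2 π (rho2 (rhoD t) (c : G) (r • v))) =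
        r • rho2 (rhoD t) (c : G)⁻¹ (pi2 π (rho2 (rhoD t) (c : G) v)) := fun c => by
      rw [map_smul, map_smul, map_smul]
    constructor
    · refine hv.1.subset fun c hc => ?_
      rw [Function.mem_support, h1] at hc
      rw [Function.mem_support]
      intro h2
      rw [h2, smul_zero] at hc
      exact hc rfl
    · rw [finsum_congr h1, ← smul_finsum' r hv.1, hv.2]

private theorem dl_map_lin {N N' : Type} [AddCommGroup N] [Module (ZMod 2) N] [AddCommGroup N']
    [Module (ZMod 2) N'] (X : Set (Finset P)) (f : N →ₗ[ZMod 2] N') (c : Finset P → N) :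
    dl X (fun σ => f (c σ)) = fun σ => f (dl X c σ) := by
  funext σ
  by_cases hσ : σ ∈ X
  · rw [dl_apply hσ, dl_apply hσ, map_sum]
  · rw [dl_apply_not hσ, dl_apply_not hσ, map_zero]

theorem tor_coset (hF : FEb t) (hX : FreeCx G X) {K H : Subgroup G} (hKH : K ≤ H)
    (L : List (PE G)) (hL : ∀ p ∈ L, p.In K) {k : ℕ} (ih : ExF t X K (MV t K L Set.univ) k) :
    ExF t X H (MV t H L Set.univ) k := by
  classical
  obtain ⟨π, hπ⟩ := exists_pi hF K
  obtain ⟨Tr, hT⟩ := exists_rtr hKH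
  intro z hz hdz hM
  obtain ⟨hz1, hz2, F, hz3⟩ := mem_CoF.mp hz
  -- the component `zK`
  have hzK : (fun σ => pi2 π (z σ)) ∈ CoF K (rho2 (rhoD t)) X k := by
    rw [mem_CoF]
    refine ⟨fun σ hσ => by rw [hz1 σ hσ, map_zero], fun g hg σ hσ => ?_, ?_⟩
    · show pi2 π (z (g • σ)) = rho2 (rhoD t) g (pi2 π (z σ))
      rw [hz2 g (hKH hg) σ hσ, pi2_eqv hL hπ hg (hM σ)]
    · choose E hE using fun τ : Finset P => pi2_fin hL hπ (hM τ)
      refine ⟨F.biUnion fun τ => (E τ).image fun e => e • τ, fun σ hσ => ?_⟩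
      have h0 : z σ ≠ 0 := fun h => hσ (by
        show pi2 π (z σ) = 0
        rw [h, map_zero])
      obtain ⟨g, hg, τ, hτ, rfl⟩ := hz3 σ h0
      have h1 : g • τ ∈ X := by
        by_contra h
        exact h0 (hz1 _ fun h2 => h h2.1)
      have h2 : τ ∈ X := (hX.smul_mem_iff g τ).mp h1
      have h3 : pi2 π (rho2 (rhoD t) g (z τ)) ≠ 0 := by
        rw [← hz2 g hg τ h2]
        exact hσ
      obtain ⟨e, he, h4⟩ := hE τ g h3
      refine ⟨g * e⁻¹, h4, e • τ, Finset.mem_biUnion.mpr ⟨τ, hτ, Finset.mem_image_of_mem _ he⟩, ?_⟩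
      rw [mul_smul, inv_smul_smul]
  have hdK : dl X (fun σ => pi2 π (z σ)) = 0 := by
    rw [dl_map_lin X (pi2 π) z, hdz]
    funext σ
    exact map_zero _
  obtain ⟨w, hw, hdw⟩ := ih _ hzK hdK fun σ => pi2_mem hL hπ (hM σ)
  refine ⟨ind (rho2 (rhoD t)) Tr w, ind_mem hX hKH hT hw, ?_⟩
  rw [ind_dl hX hT hw, hdw]
  funext σ
  show ∑ᶠ c : Tr, rho2 (rhoD t) (c : G)⁻¹ (pi2 π (z ((c : G) • σ))) = z σ
  by_cases hσ : σ ∈ X
  · rw [← (pi2_rec hL hπ hT (hM σ)).2]
    refine finsum_congr fun c => ?_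
    rw [hz2 c (hT.sub c c.2) σ hσ]
  · have h1 : ∀ c : Tr, rho2 (rhoD t) (c : G)⁻¹ (pi2 π (z ((c : G) • σ))) = 0 := by
      intro c
      rw [hz1 ((c : G) • σ) fun h => hσ ((hX.smul_mem_iff _ σ).mp h.1), map_zero, map_zero]
    rw [finsum_congr h1, finsum_zero, hz1 σ fun h => hσ h.1]

end SingerBO
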