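import Mathlib
import Pool.Agent.Lib_MP_394d50_bo.TDefs

/-!
# Piece TSEC: reduction of the second tensor factor (about 180 lines)

`exists_rbasis`: `D` is a right vector space over the division subring `K`: a module over `Kᵐᵒᵖ` by
`Module.compHom D (K.subtype.op : (K)ᵐᵒᵖ →+* Dᵐᵒᵖ)` (or work with a maximal right independent family). Take a basis
`Module.Basis.ofVectorSpace` and the coordinates.

`tor_second`: let `z` be as in `ExF` for `MV t H L univ`; `e`, `q` from `exists_rbasis` for `K = DH t H`;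
`q₂ i = TensorProduct.map id (q i)`, `e₂ i = TensorProduct.map id (e i * ·)` (`ZMod 2`-linear maps). For every `v ∈ D ⊗ D`
there is a finite set `s` with `q₂ i v = 0` for `i ∉ s` and `v = ∑ i ∈ s, e₂ i (q₂ i v)` (tensor induction). `z i σ = q₂ i (z σ)`
is in `CoF H` (equivariance: `q i (b * t h⁻¹) = q i b * t h⁻¹`), `dl X (z i) = 0`, with values in `MV t H L (DH t H)` (span
induction). Let `s` be a finite set which works for all `z τ`, `τ` in the finite set of `z`; it works for all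
`z σ` (`z (h • τ) = rho2 h (z τ)`, `q₂ i (rho2 h v) = rho2 h (q₂ i v)`). With `dl X (w i) = z i` let
`w = ∑ i ∈ s, e₂ i (w i)`: in `CoF H` since `e₂ i` commutes with `rho2 h`.
-/

namespace SingerBO

open SingerVS SingerRA
open scoped TensorProduct Pointwise

theorem exists_rbasis {D : Type} [DivisionRing D] (K : Subfield D) :
    ∃ (ι : Type) (e : ι → D) (q : ι → D →+ D), (∀ i x, q i x ∈ K) ∧
      (∀ i x, ∀ k ∈ K, q i (x * k) = q i x * k) ∧
      ∀ x, ∃ s : Finset ι, (∀ i, i ∉ s → q i x = 0) ∧ x = ∑ i ∈ s, e i * q i x := by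
  classical
  let _ : Module (K)ᵐᵒᵖ D := Module.compHom D (RingHom.op K.subtype)
  have hsm : ∀ (c : (K)ᵐᵒᵖ) (x : D), c • x = x * ((c.unop : K) : D) := fun c x => rfl
  let b := Module.Basis.ofVectorSpace (K)ᵐᵒᵖ D
  refine ⟨Module.Basis.ofVectorSpaceIndex (K)ᵐᵒᵖ D, fun i => b i, fun i =>
    { toFun := fun x => (((b.repr x i).unop : K) : D)
      map_zero' := by rw [map_zero]; rfl
      map_add' := fun x y => by rw [map_add]; rfl }, fun i x => (b.repr x i).unop.2, ?_, ?_⟩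
  · intro i x k hk
    have h1 : x * k = (MulOpposite.op (⟨k, hk⟩ : K)) • x := rfl
    show (((b.repr (x * k) i).unop : K) : D) = (((b.repr x i).unop : K) : D) * k
    rw [h1, map_smul]
    rfl
  · intro x
    refine ⟨(b.repr x).support, ?_, ?_⟩
    · intro i hi
      show (((b.repr x i).unop : K) : D) = 0
      rw [Finsupp.notMem_support_iff.mp hi]
      rfl
    · have h1 := b.linearCombination_repr x
      rw [Finsupp.linearCombination_apply, Finsupp.sum] at h1
      exact h1.symm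

variable {G D : Type} [Group G] [DivisionRing D] {t : G →* Dˣ}
  [Algebra (ZMod 2) D] {P : Type} [DecidableEq P] [MulAction G P] {X : Set (Finset P)}

private theorem ts_dl (f : D ⊗[ZMod 2] D →ₗ[ZMod 2] D ⊗[ZMod 2] D)
    (c : Finset P → D ⊗[ZMod 2] D) :
    dl X (fun σ => f (c σ)) = fun σ => f (dl X c σ) := by
  funext σ
  by_cases hσ : σ ∈ X
  · rw [dl_apply hσ, dl_apply hσ, map_sum]
  · rw [dl_apply_not hσ, dl_apply_not hσ, map_zero]

/-- Equivariant linear maps act on the cochains. -/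
private theorem ts_cof {H : Subgroup G} {k : ℕ} {f : D ⊗[ZMod 2] D →ₗ[ZMod 2] D ⊗[ZMod 2] D}
    (hf : ∀ h ∈ H, ∀ v, f (rho2 (rhoD t) h v) = rho2 (rhoD t) h (f v))
    {c : Finset P → D ⊗[ZMod 2] D} (hc : c ∈ CoF H (rho2 (rhoD t)) X k) :
    (fun σ => f (c σ)) ∈ CoF H (rho2 (rhoD t)) X k := by
  obtain ⟨h1, h2, F, h3⟩ := hc
  refine ⟨fun σ hσ => ?_, fun h hh σ hσ => ?_, F, fun σ hσ => h3 σ fun h => hσ ?_⟩
  · show f (c σ) = 0
    rw [h1 σ hσ, map_zero]
  · show f (c (h • σ)) = rho2 (rhoD t) h (f (c σ))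
    rw [h2 h hh σ hσ, hf h hh]
  · show f (c σ) = 0
    rw [h, map_zero]

private theorem ts_sum {H : Subgroup G} {k : ℕ} {ι : Type} (s : Finset ι)
    (w : ι → Finset P → D ⊗[ZMod 2] D) (hw : ∀ i ∈ s, w i ∈ CoF H (rho2 (rhoD t)) X k) :
    ∑ i ∈ s, w i ∈ CoF H (rho2 (rhoD t)) X k := sum_mem hw

theorem tor_second (hX : FreeCx G X) {H : Subgroup G} (L : List (PE G)) {k : ℕ}
    (ih : ExF t X H (MV t H L (DH t H : Set D)) k) : ExF t X H (MV t H L Set.univ) k := by
  classical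
  intro z hz hdz hzM
  obtain ⟨ι, e, q, hq1, hq2, hq3⟩ := exists_rbasis (DH t H)
  obtain ⟨Q, hQ⟩ : ∃ Q : ι → (D ⊗[ZMod 2] D →ₗ[ZMod 2] D ⊗[ZMod 2] D),
      ∀ i a b, Q i (a ⊗ₜ[ZMod 2] b) = a ⊗ₜ[ZMod 2] (q i b) :=
    ⟨fun i => TensorProduct.map LinearMap.id ((q i).toZModLinearMap 2), fun i a b => rfl⟩
  obtain ⟨E, hE⟩ : ∃ E : ι → (D ⊗[ZMod 2] D →ₗ[ZMod 2] D ⊗[ZMod 2] D),
      ∀ i a b, E i (a ⊗ₜ[ZMod 2] b) = a ⊗ₜ[ZMod 2] (e i * b) :=
    ⟨fun i => TensorProduct.map LinearMap.id (LinearMap.mulLeft (ZMod 2) (e i)), fun i a b => rfl⟩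
  -- equivariance
  have hQr : ∀ i, ∀ h ∈ H, ∀ v, Q i (rho2 (rhoD t) h v) = rho2 (rhoD t) h (Q i v) := by
    intro i h hh v
    induction v using TensorProduct.induction_on with
    | zero => simp
    | tmul a b =>
      rw [rho2_tmul, rhoD_apply, rhoD_apply, hQ, hQ, rho2_tmul, rhoD_apply, rhoD_apply,
        hq2 i b _ (by rw [← map_inv]; exact mem_DH t (H.inv_mem hh))]
    | add x y hx hy => rw [map_add, map_add, hx, hy, map_add, map_add]
  have hEr : ∀ i, ∀ h ∈ H, ∀ v, E i (rho2 (rhoD t) h v) = rho2 (rhoD t) h (E i v) := by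
    intro i h _ v
    induction v using TensorProduct.induction_on with
    | zero => simp
    | tmul a b =>
      rw [rho2_tmul, rhoD_apply, rhoD_apply, hE, hE, rho2_tmul, rhoD_apply, rhoD_apply, mul_assoc]
    | add x y hx hy => rw [map_add, map_add, hx, hy, map_add, map_add]
  -- decomposition
  have hdec : ∀ v : D ⊗[ZMod 2] D, ∃ s : Finset ι, ∀ s', s ⊆ s' → v = ∑ i ∈ s', E i (Q i v) := by
    intro v
    induction v using TensorProduct.induction_on with
    | zero => exact ⟨∅, fun s' _ => by simp⟩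
    | tmul a b =>
      obtain ⟨s, hs1, hs2⟩ := hq3 b
      refine ⟨s, fun s' hs' => ?_⟩
      have h1 : ∑ i ∈ s', E i (Q i (a ⊗ₜ[ZMod 2] b)) =
          ∑ i ∈ s', a ⊗ₜ[ZMod 2] (e i * q i b) :=
        Finset.sum_congr rfl fun i _ => by rw [hQ, hE]
      rw [h1, ← TensorProduct.tmul_sum,
        ← Finset.sum_subset hs' (fun i _ hi => by rw [hs1 i hi, mul_zero]), ← hs2]
    | add x y hx hy =>
      obtain ⟨s, hs⟩ := hx
      obtain ⟨s', hs'⟩ := hy
      refine ⟨s ∪ s', fun u hu => ?_⟩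
      have h1 := hs u (Finset.union_subset_left hu)
      have h2 := hs' u (Finset.union_subset_right hu)
      conv_lhs => rw [h1, h2]
      rw [← Finset.sum_add_distrib]
      exact Finset.sum_congr rfl fun i _ => by rw [map_add, map_add]
  -- values
  have hQM : ∀ i, ∀ v ∈ MV t H L (Set.univ : Set D), Q i v ∈ MV t H L (DH t H : Set D) := by
    intro i v hv
    have h1 : MV t H L (Set.univ : Set D) ≤ (MV t H L (DH t H : Set D)).comap (Q i) := by
      unfold MV
      rw [Submodule.span_le]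
      rintro x ⟨p, hp, h, hh, b, _, rfl⟩
      show Q i _ ∈ MV t H L (DH t H : Set D)
      rw [hQ]
      exact Submodule.subset_span ⟨p, hp, h, hh, q i b, hq1 i b, rfl⟩
    exact h1 hv
  -- a finite set which works for all values of `z`
  obtain ⟨h1, h2, F, h3⟩ := hz
  have hz' : z ∈ CoF H (rho2 (rhoD t)) X k := ⟨h1, h2, F, h3⟩
  choose S hS using hdec
  obtain ⟨s, hs⟩ : ∃ s : Finset ι, ∀ σ, z σ = ∑ i ∈ s, E i (Q i (z σ)) := by
    refine ⟨F.biUnion fun τ => S (z τ), fun σ => ?_⟩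
    by_cases h0 : z σ = 0
    · rw [h0]
      simp
    · obtain ⟨h, hh, τ, hτ, rfl⟩ := h3 σ h0
      have hτX : τ ∈ X := by
        by_contra hc
        refine h0 (h1 _ fun hc' => hc ?_)
        exact (hX.smul_mem_iff h τ).mp hc'.1
      rw [h2 h hh τ hτX]
      have h4 := hS (z τ) (F.biUnion fun τ => S (z τ))
        (Finset.subset_biUnion_of_mem (fun τ => S (z τ)) hτ)
      conv_lhs => rw [h4]
      rw [map_sum]
      exact Finset.sum_congr rfl fun i _ => by rw [hQr i h hh, hEr i h hh]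
  -- the primitives
  have hw : ∀ i, ∃ w ∈ CoF H (rho2 (rhoD t)) X (k - 1), dl X w = fun σ => Q i (z σ) := by
    intro i
    refine ih _ (ts_cof (hQr i) hz') ?_ fun σ => hQM i _ (hzM σ)
    rw [ts_dl, hdz]
    funext σ
    exact map_zero _
  choose w hw1 hw2 using hw
  refine ⟨∑ i ∈ s, fun σ => E i (w i σ), ts_sum s _ fun i _ => ts_cof (hEr i) (hw1 i), ?_⟩
  rw [map_sum]
  funext σ
  rw [Finset.sum_apply]
  conv_rhs => rw [hs σ]
  refine Finset.sum_congr rfl fun i _ => ?_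
  rw [ts_dl, hw2 i]

end SingerBO
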