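import Mathlib
import Pool.Agent.Lib_MP_394d50_rn.PDC
import Pool.Agent.Lib_MP_394d50_bo.TChi
import Pool.Agent.Lib_MP_394d50_bo.TCos
import Pool.Agent.Lib_MP_394d50_bo.TSec
import Pool.Agent.Lib_MP_394d50_bo.KKey

/-!
# Piece TMAIN: exactness with coefficients in `D ⊗ D` (about 250 lines)

`tor_zero`: `CoF ⊥` consists of functions with finite support (`h ∈ ⊥` is `1`, `one_smul`); `pd_fin_dl` (rn/PDC).

`list_lt`: the multiset of the complexities decreases: let `L' ` be a list such that every `p' ∈ L'` satisfies one of: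
`p'.cx < p.cx` for some `p ∈ L` with `¬ p.In N`. In `tor_list` we use the list
`L'' = (L.filter (In N)) ++ L'`: with `X = ` the complexities of `L.filter (In N)`, `Y = ` those of `L'`,
`Z = ` those of `L.filter (¬ In N) ≠ []` (`PE.exists_not_in`): `Multiset.IsDershowitzMannaLT` is
`∃ X Y Z, Z ≠ ∅ ∧ M = X + Y ∧ N = X + Z ∧ ∀ y ∈ Y, ∃ z ∈ Z, y < z`.

`tor_list`: induction on the multiset `(L.map PE.cx : Multiset Ordinal)` (`wellFounded_isDershowitzMannaLT`), for all
`H`, `L` at once. By `tor_coset` with `K = PE.clo L ≤ H` (`PE.clo_le`) we may assume `H = PE.clo L`. If `PE.clo L = ⊥`: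
`tor_zero`. Otherwise `hLI` gives `N`, `χ`, `s`. By `tor_second` the values are in `MV t H L (DH t H) ≤ UU (DH t H) (DH t H)`
(`PE.val_mem`). `θ`, `θ'` from `theta_exists` (for `hc` and `hc.neg`), `φ`, `φ'` from `exists_cmp`. By `tor_chi` we have to solve
`dl X w = z r`, `z r = cA φ φ' 0 r ∘ z ∈ CoF N` (`zr_mem`), `dl X (z r) = 0`. We claim that there is a list `L'` as above with
`z r σ ∈ MV t N (L.filter (In N) ++ L') univ` for all `σ`; then the induction hypothesis for `N` and this list gives `w`. Proof of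
the claim: for `p ∈ L`, `h ∈ H`, `b`: `cA 0 r (p t h ⊗ b) = lc (θ (p t h)) 0 ⊗ _` and `lc (θ (p t h)) 0 = lc (θ p) (- χ h) * t h`
(`Th.mul_grp`). If `p.In N`: it is `p * t h` if `χ h = 0` (`h ∈ N`), and `0` otherwise (`Th.of_ker`). If not: by `kl` it is
`t γ * q * t h = (conj γ q) * t (γ h)`, with `γ h ∈ N` and `q.cx < p.cx`, `q` depends only on `p` and the degree `m = - χ h`: choose for
every `p` and `m` such `γ`, `q` and let `L'` consist of the `conj γ q` for `p ∈ L`, `¬ p.In N`, `m ∈ [-a, a]` for a suitable `a`. To see that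
finitely many `m` suffice: let `E` be the finite set of `z`; `z τ`, `τ ∈ E`, is in the span of finitely many `p t h ⊗ b`. For
`σ = g • τ`, `z r (g • τ) = cA 0 r (rho2 g (z τ))`, and it vanishes unless `χ g` is in a finite set (see `zr_mem`,
`cA_finite`); for these `g` the elements `p t (h g⁻¹) ⊗ b t g⁻¹` have `χ (h g⁻¹)` in a finite set. Equivalently: by the
equivariance under `N` it is enough that `z r (s ^ m • τ)` is in the span for the finitely many pairs `(m, τ)` of the finite set of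
`z r` (`MV t N L'' univ` is invariant under `rho2 n`, `n ∈ N`), and each of these finitely many elements lies in
`MV t N (L.filter (In N) ++ L') univ` for some finite list `L'` (`exists_list`: for `v ∈ MV t H L (DH t H)` there is `L'`, all `p' ∈ L'`
in `N` with complexity less than that of some `p ∈ L` not in `N`, with `cA 0 r v ∈ MV t N (L.filter (In N) ++ L') univ`; by span
induction; `MV` is monotone in `L`).

`tor_main`: every `z ∈ Co ρ X k` is in `CoF ⊤` (`hX.fin`). The values at the finitely many representatives are sums of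
`a ⊗ b`, `a = p t γ` by `exists_rep_right` for `H = ⊤` (`hFE.gen`); let `L` be the list of all these `p`; `MV t ⊤ L univ` is
invariant under `rho2 h`. Then `tor_list`.
-/

namespace SingerBO

open SingerVS SingerRA SingerRN
open scoped TensorProduct Pointwise

variable {G D : Type} [Group G] [DivisionRing D] [Algebra (ZMod 2) D]
  {P : Type} [DecidableEq P] [MulAction G P] {X : Set (Finset P)} {t : G →* Dˣ}

theorem tor_zero (hX : FreeCx G X) {n : ℕ} (hlf : PdR n X) {k : ℕ} (hk : k ≠ n + 1)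
    (M : Submodule (ZMod 2) (D ⊗[ZMod 2] D)) : ExF t X ⊥ M k := by
  intro z hz hdz _
  obtain ⟨hz1, _, F, hz3⟩ := mem_CoF.mp hz
  have hfin : (Function.support z).Finite := by
    refine F.finite_toSet.subset fun σ hσ => ?_
    obtain ⟨h, hh, τ, hτ, e⟩ := hz3 σ hσ
    rw [Subgroup.mem_bot] at hh
    rw [hh, one_smul] at e
    rw [e]
    exact hτ
  obtain ⟨b, hb, hbf, hdb⟩ := pd_fin_dl hX hlf hk (c := z) hz1 hfin hdz
  refine ⟨b, mem_CoF.mpr ⟨hb, fun h hh σ _ => ?_, hbf.toFinset, fun σ hσ => ?_⟩, hdb⟩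
  · rw [Subgroup.mem_bot] at hh
    rw [hh, one_smul, map_one]
    rfl
  · exact ⟨1, Subgroup.one_mem _, σ, (Set.Finite.mem_toFinset hbf).mpr hσ, (one_smul G σ).symm⟩

omit [DecidableEq P] [MulAction G P] in
private theorem tm_gen (g h : G) (x b : D) :
    rho2 (rhoD t) g ((x * ((t h : Dˣ) : D)) ⊗ₜ[ZMod 2] b) =
      (x * ((t (h * g⁻¹) : Dˣ) : D)) ⊗ₜ[ZMod 2] (b * (((t g)⁻¹ : Dˣ) : D)) := by
  rw [rho2_tmul, rhoD_apply, rhoD_apply, mul_assoc, ← Units.val_mul, ← map_inv, ← map_mul]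

omit [DecidableEq P] [MulAction G P] in
/-- `MV` is monotone in the list. -/
private theorem mv_mono (H : Subgroup G) {L L' : List (PE G)} (h : ∀ p ∈ L, p ∈ L') (B : Set D) :
    MV t H L B ≤ MV t H L' B := by
  unfold MV
  refine Submodule.span_mono ?_
  rintro x ⟨p, hp, g, hg, b, hb, rfl⟩
  exact ⟨p, h p hp, g, hg, b, hb, rfl⟩

omit [DecidableEq P] [MulAction G P] in
/-- `MV` is invariant under `H`. -/
private theorem mv_inv {H : Subgroup G} {L : List (PE G)} {g : G} (hg : g ∈ H)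
    {v : D ⊗[ZMod 2] D} (hv : v ∈ MV t H L Set.univ) :
    rho2 (rhoD t) g v ∈ MV t H L Set.univ := by
  unfold MV at hv
  induction hv using Submodule.span_induction with
  | mem v hv =>
    obtain ⟨p, hp, h, hh, b, _, rfl⟩ := hv
    rw [tm_gen]
    exact Submodule.subset_span ⟨p, hp, h * g⁻¹, H.mul_mem hh (H.inv_mem hg), _,
      Set.mem_univ _, rfl⟩
  | zero => rw [map_zero]; exact zero_mem _
  | add v w _ _ hv hw => rw [map_add]; exact add_mem hv hw
  | smul r v _ hv => rw [map_smul]; exact Submodule.smul_mem _ r hv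

open scoped Classical in
theorem exists_list (H N : Subgroup G) {χ : G → ℤ} {s : G} {θ : D → LS D}
    {φ φ' : ℤ → (D →ₗ[ZMod 2] D)} (hc : Chi H N χ s) (hθ : Th t H χ θ)
    (hφ : Cmp t H θ φ) (r : ℤ) (L : List (PE G)) (hL : ∀ p ∈ L, p.In H)
    {v : D ⊗[ZMod 2] D} (hv : v ∈ MV t H L (DH t H : Set D)) :
    ∃ L' : List (PE G), (∀ p' ∈ L', p'.In N ∧ ∃ p ∈ L, ¬ p.In N ∧ p'.cx < p.cx) ∧
      cA φ φ' 0 r v ∈ MV t N (L.filter (fun p => p.In N) ++ L') Set.univ := by
  unfold MV at hv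
  induction hv using Submodule.span_induction with
  | mem v hv =>
    obtain ⟨p, hp, h, hh, b, _, rfl⟩ := hv
    have hpH : p.val t ∈ DH t H := PE.val_mem t (hL p hp)
    have e1 : cA φ φ' 0 r ((p.val t * ((t h : Dˣ) : D)) ⊗ₜ[ZMod 2] b) =
        (lc (θ (p.val t)) (0 - χ h) * ((t h : Dˣ) : D)) ⊗ₜ[ZMod 2] (φ' (-(0 + r)) b) := by
      show (φ 0 (p.val t * ((t h : Dˣ) : D))) ⊗ₜ[ZMod 2] (φ' (-(0 + r)) b) = _
      rw [hφ 0 _ (mul_mem hpH (mem_DH t hh)), hθ.mul_grp hpH hh]
    rw [e1]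
    by_cases hpN : p.In N
    · refine ⟨[], fun p' hp' => absurd hp' List.not_mem_nil, ?_⟩
      rw [hθ.of_ker hc (PE.val_mem t hpN), lc_lsg]
      by_cases h0 : 0 - χ h = 0
      · rw [if_pos h0]
        refine Submodule.subset_span ⟨p, ?_, h, (hc.ker h).mpr ⟨hh, by omega⟩, _,
          Set.mem_univ _, rfl⟩
        rw [List.append_nil, List.mem_filter]
        exact ⟨hp, decide_eq_true hpN⟩
      · rw [if_neg h0, zero_mul, TensorProduct.zero_tmul]
        exact zero_mem _
    · obtain ⟨γ, hγ, hχ, q, hq, hqc, e2⟩ := kl hc hθ p (hL p hp) hpN (0 - χ h)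
      refine ⟨[PE.conj γ q], fun p' hp' => ?_, ?_⟩
      · rw [List.mem_singleton] at hp'
        rw [hp']
        refine ⟨PE.in_conj (fun x hx => hc.conj hx hγ) hq, p, hp, hpN, ?_⟩
        rw [PE.cx_conj]
        exact hqc
      · have e3 : ((t γ : Dˣ) : D) * q.val t * ((t h : Dˣ) : D) =
            (PE.conj γ q).val t * ((t (γ * h) : Dˣ) : D) := by
          rw [PE.val_conj, map_mul, Units.val_mul]
          have h2 : (((t γ)⁻¹ : Dˣ) : D) * ((t γ : Dˣ) : D) = 1 := by
            rw [← Units.val_mul, inv_mul_cancel, Units.val_one]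
          calc ((t γ : Dˣ) : D) * q.val t * ((t h : Dˣ) : D)
              = ((t γ : Dˣ) : D) * q.val t * (1 * ((t h : Dˣ) : D)) := by rw [one_mul]
            _ = _ := by rw [← h2]; simp only [mul_assoc]
        rw [e2, e3]
        refine Submodule.subset_span ⟨PE.conj γ q, ?_, γ * h, (hc.ker _).mpr
          ⟨H.mul_mem hγ hh, ?_⟩, _, Set.mem_univ _, rfl⟩
        · exact List.mem_append_right _ (List.mem_singleton.mpr rfl)
        · rw [hc.mul γ hγ h hh, hχ]
          omega
  | zero => exact ⟨[], fun p' hp' => absurd hp' List.not_mem_nil, by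
      rw [map_zero]; exact zero_mem _⟩
  | add v w _ _ hv hw =>
    obtain ⟨L1, h1, h2⟩ := hv
    obtain ⟨L2, h3, h4⟩ := hw
    refine ⟨L1 ++ L2, fun p' hp' => ?_, ?_⟩
    · rcases List.mem_append.mp hp' with h5 | h5
      · exact h1 p' h5
      · exact h3 p' h5
    · rw [map_add]
      refine add_mem (mv_mono N (fun p hp => ?_) _ h2) (mv_mono N (fun p hp => ?_) _ h4)
      · rcases List.mem_append.mp hp with h5 | h5
        · exact List.mem_append_left _ h5
        · exact List.mem_append_right _ (List.mem_append_left _ h5)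
      · rcases List.mem_append.mp hp with h5 | h5
        · exact List.mem_append_left _ h5
        · exact List.mem_append_right _ (List.mem_append_right _ h5)
  | smul c v _ hv =>
    obtain ⟨L1, h1, h2⟩ := hv
    refine ⟨L1, h1, ?_⟩
    rw [map_smul]
    exact Submodule.smul_mem _ c h2

open scoped Classical in
/-- The complexities decrease. -/
private theorem list_lt {N : Subgroup G} {L L' : List (PE G)}
    (h1 : ∃ p ∈ L, ¬ p.In N)
    (h2 : ∀ p' ∈ L', p'.In N ∧ ∃ p ∈ L, ¬ p.In N ∧ p'.cx < p.cx) :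
    Multiset.IsDershowitzMannaLT
      (((L.filter (fun p => p.In N) ++ L').map PE.cx : List Ordinal.{0}) : Multiset Ordinal.{0})
      ((L.map PE.cx : List Ordinal.{0}) : Multiset Ordinal.{0}) := by
  refine ⟨(((L.filter (fun p => p.In N)).map PE.cx : List Ordinal.{0}) : Multiset Ordinal.{0}),
    ((L'.map PE.cx : List Ordinal.{0}) : Multiset Ordinal.{0}),
    (((L.filter (fun p => ¬ p.In N)).map PE.cx : List Ordinal.{0}) : Multiset Ordinal.{0}),
    ?_, ?_, ?_, ?_⟩
  · obtain ⟨p, hp, hn⟩ := h1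
    intro h0
    have h3 : p.cx ∈ (((L.filter (fun p => ¬ p.In N)).map PE.cx : List Ordinal.{0}) :
        Multiset Ordinal.{0}) := by
      rw [Multiset.mem_coe, List.mem_map]
      exact ⟨p, List.mem_filter.mpr ⟨hp, decide_eq_true hn⟩, rfl⟩
    rw [h0] at h3
    exact absurd h3 (Multiset.notMem_zero _)
  · rw [List.map_append, Multiset.coe_add]
  · have h3 := Multiset.filter_add_not (fun p : PE G => p.In N) (L : Multiset (PE G))
    have h4 := congrArg (Multiset.map PE.cx) h3
    rw [Multiset.map_add, Multiset.filter_coe, Multiset.filter_coe, Multiset.map_coe,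
      Multiset.map_coe, Multiset.map_coe] at h4
    exact h4.symm
  · intro y hy
    rw [Multiset.mem_coe, List.mem_map] at hy
    obtain ⟨p', hp', rfl⟩ := hy
    obtain ⟨_, p, hp, hn, hlt⟩ := h2 p' hp'
    refine ⟨p.cx, ?_, hlt⟩
    rw [Multiset.mem_coe, List.mem_map]
    exact ⟨p, List.mem_filter.mpr ⟨hp, decide_eq_true hn⟩, rfl⟩

private theorem tm_dl (X : Set (Finset P)) (f : (D ⊗[ZMod 2] D) →ₗ[ZMod 2] (D ⊗[ZMod 2] D))
    (c : Finset P → D ⊗[ZMod 2] D) : dl X (fun σ => f (c σ)) = fun σ => f (dl X c σ) := by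
  funext σ
  by_cases hσ : σ ∈ X
  · rw [dl_apply hσ, dl_apply hσ, map_sum]
  · rw [dl_apply_not hσ, dl_apply_not hσ, map_zero]

theorem tor_list (hF : FEb t) (hLI : LocInd G) (hX : FreeCx G X) {n : ℕ} (hlf : PdR n X) {k : ℕ}
    (hk : k ≠ n + 1) (H : Subgroup G) (L : List (PE G)) (hL : ∀ p ∈ L, p.In H) :
    ExF t X H (MV t H L Set.univ) k := by
  classical
  have key : ∀ m : Multiset Ordinal.{0}, ∀ (H : Subgroup G) (L : List (PE G)),
      ((L.map PE.cx : List Ordinal.{0}) : Multiset Ordinal.{0}) = m → (∀ p ∈ L, p.In H) →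
      ExF t X H (MV t H L Set.univ) k := by
    intro m
    induction m using (Multiset.wellFounded_isDershowitzMannaLT
      (α := Ordinal.{0})).induction with
    | _ m ih =>
    intro H L hm hL
    refine tor_coset hF hX (PE.clo_le hL) L (fun p hp => PE.in_clo hp) ?_
    have hLK : ∀ p ∈ L, p.In (PE.clo L) := fun p hp => PE.in_clo hp
    by_cases hK : PE.clo L = ⊥
    · rw [hK]
      exact tor_zero hX hlf hk _
    obtain ⟨N, χ, s, hc⟩ := hLI (PE.clo L) (PE.clo_fg L) hK
    refine tor_second hX L ?_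
    intro z hz hdz hM
    obtain ⟨θ, hθ⟩ := theta_exists hF hc
    obtain ⟨θ', hθ'⟩ := theta_exists hF hc.neg
    obtain ⟨φ, hφ⟩ := exists_cmp hθ
    obtain ⟨φ', hφ'⟩ := exists_cmp hθ'
    have hle : MV t (PE.clo L) L (DH t (PE.clo L) : Set D) ≤
        UU (DH t (PE.clo L) : Set D) (DH t (PE.clo L) : Set D) := by
      unfold MV UU
      refine Submodule.span_mono ?_
      rintro x ⟨p, hp, h, hh, b, hb, rfl⟩
      exact ⟨_, mul_mem (PE.val_mem t (hLK p hp)) (mem_DH t hh), b, hb, rfl⟩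
    have hv : ∀ σ, z σ ∈ UU (DH t (PE.clo L) : Set D) (DH t (PE.clo L) : Set D) :=
      fun σ => hle (hM σ)
    refine tor_chi hF hX hc hθ hθ' hφ hφ' hz hdz hv fun r => ?_
    have hzr := zr_mem hX hc hθ hθ' hφ hφ' hz hv r
    have hdr : dl X (fun σ => cA φ φ' 0 r (z σ)) = 0 := by
      rw [tm_dl X (cA φ φ' 0 r) z, hdz]
      funext σ
      exact map_zero _
    obtain ⟨hz1, hz2, F, hz3⟩ := mem_CoF.mp hzr
    choose L' hL1 hL2 using fun τ =>
      exists_list (φ' := φ') (PE.clo L) N hc hθ hφ r L hLK (hM τ)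
    have hmem : ∀ p' ∈ F.toList.flatMap L',
        p'.In N ∧ ∃ p ∈ L, ¬ p.In N ∧ p'.cx < p.cx := by
      intro p' hp'
      obtain ⟨τ, _, h1⟩ := List.mem_flatMap.mp hp'
      exact hL1 τ p' h1
    have hval : ∀ σ, cA φ φ' 0 r (z σ) ∈
        MV t N (L.filter (fun p => p.In N) ++ F.toList.flatMap L') Set.univ := by
      intro σ
      by_cases h0 : cA φ φ' 0 r (z σ) = 0
      · rw [h0]
        exact zero_mem _
      · obtain ⟨h, hh, τ, hτ, rfl⟩ := hz3 σ h0
        have h1 : h • τ ∈ X := by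
          by_contra h2
          exact h0 (hz1 _ fun h3 => h2 h3.1)
        have h2 : τ ∈ X := (hX.smul_mem_iff h τ).mp h1
        have h3 : cA φ φ' 0 r (z (h • τ)) = rho2 (rhoD t) h (cA φ φ' 0 r (z τ)) :=
          hz2 h hh τ h2
        rw [h3]
        refine mv_inv hh (mv_mono N (fun p hp => ?_) _ (hL2 τ))
        rcases List.mem_append.mp hp with h5 | h5
        · exact List.mem_append_left _ h5
        · exact List.mem_append_right _
            (List.mem_flatMap.mpr ⟨τ, Finset.mem_toList.mpr hτ, h5⟩)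
    refine ih _ ?_ N (L.filter (fun p => p.In N) ++ F.toList.flatMap L') rfl ?_ _ hzr hdr hval
    · rw [← hm]
      exact list_lt (PE.exists_not_in hc) hmem
    · intro p hp
      rcases List.mem_append.mp hp with h5 | h5
      · exact of_decide_eq_true (List.mem_filter.mp h5).2
      · exact (hmem p h5).1
  exact key _ H L rfl hL

omit [DecidableEq P] [MulAction G P] in
/-- Every tensor lies in some `MV t ⊤ L univ`. -/
private theorem tm_exists (hF : FE t) (v : D ⊗[ZMod 2] D) :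
    ∃ L : List (PE G), v ∈ MV t ⊤ L Set.univ := by
  induction v using TensorProduct.induction_on with
  | zero => exact ⟨[], zero_mem _⟩
  | tmul a b =>
    obtain ⟨γ, hγ, p, _, e⟩ := exists_rep_right ⊤ (hF.gen a)
    refine ⟨[p], Submodule.subset_span ⟨p, List.mem_singleton.mpr rfl, γ, hγ, b,
      Set.mem_univ _, ?_⟩⟩
    rw [← e]
  | add v w hv hw =>
    obtain ⟨L1, h1⟩ := hv
    obtain ⟨L2, h2⟩ := hw
    exact ⟨L1 ++ L2, add_mem (mv_mono ⊤ (fun p hp => List.mem_append_left _ hp) _ h1)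
      (mv_mono ⊤ (fun p hp => List.mem_append_right _ hp) _ h2)⟩

theorem tor_main (hF : FE t) (hLI : LocInd G) (hX : FreeCx G X) {n : ℕ} (hlf : PdR n X) {k : ℕ}
    (hk : k ≠ n + 1) : ExCo (rho2 (rhoD t)) X k := by
  classical
  intro z hz hdz
  obtain ⟨hz1, hz2⟩ := mem_Co.mp hz
  obtain ⟨R, _, hR⟩ := hX.fin
  have hzF : z ∈ CoF ⊤ (rho2 (rhoD t)) X k := by
    refine mem_CoF.mpr ⟨hz1, fun h _ σ hσ => hz2 h σ hσ, R, fun σ hσ => ?_⟩
    have h1 : σ ∈ X := by
      by_contra h2
      exact hσ (hz1 σ fun h3 => h2 h3.1)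
    obtain ⟨h, τ, hτ, e⟩ := hR σ h1
    exact ⟨h, Subgroup.mem_top h, τ, hτ, e⟩
  choose L hL using fun τ => tm_exists hF (z τ)
  have hval : ∀ σ, z σ ∈ MV t ⊤ (R.toList.flatMap L) Set.univ := by
    intro σ
    by_cases h0 : z σ = 0
    · rw [h0]
      exact zero_mem _
    · have h1 : σ ∈ X := by
        by_contra h2
        exact h0 (hz1 σ fun h3 => h2 h3.1)
      obtain ⟨h, τ, hτ, rfl⟩ := hR σ h1
      rw [hz2 h τ ((hX.smul_mem_iff h τ).mp h1)]
      exact mv_inv (Subgroup.mem_top h) (mv_mono ⊤ (fun p hp =>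
        List.mem_flatMap.mpr ⟨τ, Finset.mem_toList.mpr hτ, hp⟩) _ (hL τ))
  obtain ⟨w, hw, hdw⟩ := tor_list hF.toFEb hLI hX hlf hk ⊤ (R.toList.flatMap L)
    (fun p _ g _ => Subgroup.mem_top g) z hzF hdz hval
  obtain ⟨hw1, hw2, _⟩ := mem_CoF.mp hw
  exact ⟨w, mem_Co.mpr ⟨hw1, fun h σ hσ => hw2 h (Subgroup.mem_top h) σ hσ⟩, hdw⟩

end SingerBO
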