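import Mathlib
import Pool.Agent.Lib_MP_394d50_vs.TDescV
import Pool.Agent.Lib_MP_394d50_bo.TDefs

/-!
# Piece TTATE: the Tate argument without an involution (about 650 lines, mechanical)

This is `SingerVS.tateV` (Lib_MP_394d50_vs/TDescV.lean) with an arbitrary `F₂[H]`-module `N` in place of `D`, with `tau (a ⊗ b) = b ⊗ a`
(`TensorProduct.comm`) in place of `star b ⊗ star a`, `z ⊗ z` in place of `z ⊗ star z`, and `rho2 ρ` in place of `rhoT t`. Copy the four
sources and remove `star` everywhere (in a new namespace or with new names):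
1. Lib_MP_394d50_all/TTens.lean: `tau_tau`, `tens_inv`: `tau x = x → ∃ z e, x = z ⊗ z + (e + tau e)`, `tens_zero`:
   `z ⊗ z = e + tau e → z = 0`, `act_tau`: `tau (rho2 ρ h x) = rho2 ρ h (tau x)` (now without hypothesis). The basis of `N ⊗ N` is
   `b.tensorProduct b`.
2. Lib_MP_394d50_vs/TXi.lean, the second half (from `## Tensors`): `xiS a ρ = ∑ A, ∑ B, if A ∪ B = ρ then epS A B • (a A ⊗ a B) else 0`,
   `tau_xiS`, `xiS_bd`, `xiS_low`, `xiS_eq`, `xiS_high` (`txi_main`, `epS`, `patS` can be used as they are: they are about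
   an arbitrary module).
3. Lib_MP_394d50_vs/TTateV.lean: `NT`, `sq_sum`, `sq_add`, `co_NT`, `xiS_smul`, `xc`, `xc_mem`, `xc_dl`, ... (`OrdInv`, `patS_smul`,
   `powerset_smul`, `dl_comp`, `co_comp` can be used as they are, if their types allow it).
4. Lib_MP_394d50_vs/TDescV.lean: `sym_decompV`, `sq_dl`, `tate_climbV`, `tate_descV`, `tateV`.
-/

namespace SingerBO

open SingerVS SingerRA
open scoped TensorProduct Pointwise

/-! ## Symmetric tensors -/

section

variable {N : Type} [AddCommGroup N] [Module (ZMod 2) N]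

/-- The swap of the factors of `N ⊗ N`. -/
private noncomputable def tg_tau : (N ⊗[ZMod 2] N) →ₗ[ZMod 2] (N ⊗[ZMod 2] N) :=
  (TensorProduct.comm (ZMod 2) N N).toLinearMap

private theorem tg_tau_tmul (a b : N) :
    tg_tau (a ⊗ₜ[ZMod 2] b) = b ⊗ₜ[ZMod 2] a := rfl

private theorem tg_tau_tau (x : N ⊗[ZMod 2] N) : tg_tau (tg_tau x) = x := by
  induction x using TensorProduct.induction_on with
  | zero => simp
  | tmul a b => rw [tg_tau_tmul, tg_tau_tmul]
  | add x y hx hy => rw [map_add, map_add, hx, hy]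

/-- The basis of `N`. -/
private noncomputable def tg_b (N : Type) [AddCommGroup N] [Module (ZMod 2) N] :
    Module.Basis (Module.Basis.ofVectorSpaceIndex (ZMod 2) N) (ZMod 2) N :=
  Module.Basis.ofVectorSpace (ZMod 2) N

/-- The basis of `N ⊗ N`. -/
private noncomputable def tg_B (N : Type) [AddCommGroup N] [Module (ZMod 2) N] :
    Module.Basis (Module.Basis.ofVectorSpaceIndex (ZMod 2) N ×
      Module.Basis.ofVectorSpaceIndex (ZMod 2) N) (ZMod 2) (N ⊗[ZMod 2] N) :=
  (tg_b N).tensorProduct (tg_b N)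

private theorem tg_B_tmul (a c : N) (i j : Module.Basis.ofVectorSpaceIndex (ZMod 2) N) :
    (tg_B N).repr (a ⊗ₜ[ZMod 2] c) (i, j) = (tg_b N).repr a i * (tg_b N).repr c j := by
  unfold tg_B
  rw [Module.Basis.tensorProduct_repr_tmul_apply, smul_eq_mul, mul_comm]

private theorem tg_B_tau (x : N ⊗[ZMod 2] N)
    (i j : Module.Basis.ofVectorSpaceIndex (ZMod 2) N) :
    (tg_B N).repr (tg_tau x) (i, j) = (tg_B N).repr x (j, i) := by
  induction x using TensorProduct.induction_on with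
  | zero => simp
  | tmul a b => rw [tg_tau_tmul, tg_B_tmul, tg_B_tmul, mul_comm]
  | add x y hx hy =>
    rw [map_add, map_add, map_add, Finsupp.add_apply, Finsupp.add_apply, hx, hy]

private theorem tg_cases (x : ZMod 2) : x = 0 ∨ x = 1 := by
  revert x
  decide

private theorem tg_inv (x : N ⊗[ZMod 2] N) (hx : tg_tau x = x) :
    ∃ (z : N) (e : N ⊗[ZMod 2] N), x = z ⊗ₜ[ZMod 2] z + (e + tg_tau e) := by
  classical
  let _ : LinearOrder (Module.Basis.ofVectorSpaceIndex (ZMod 2) N) :=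
    linearOrderOfSTO WellOrderingRel
  have hsym : ∀ i j, (tg_B N).repr x (i, j) = (tg_B N).repr x (j, i) := by
    intro i j
    conv_lhs => rw [← hx]
    exact tg_B_tau x i j
  have hinj : Function.Injective
      (fun i : Module.Basis.ofVectorSpaceIndex (ZMod 2) N => (i, i)) := fun i j h =>
    congrArg Prod.fst h
  set z : N := (tg_b N).repr.symm
    (Finsupp.comapDomain (fun i => (i, i)) ((tg_B N).repr x) hinj.injOn) with hz
  have hzi : ∀ i, (tg_b N).repr z i = (tg_B N).repr x (i, i) := by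
    intro i
    rw [hz, LinearEquiv.apply_symm_apply, Finsupp.comapDomain_apply]
  set e : N ⊗[ZMod 2] N := (tg_B N).repr.symm
    (((tg_B N).repr (x - z ⊗ₜ[ZMod 2] z)).filter (fun p => p.1 < p.2)) with he
  have hy : ∀ i j, (tg_B N).repr (x - z ⊗ₜ[ZMod 2] z) (i, j) =
      (tg_B N).repr x (i, j) - (tg_B N).repr x (i, i) * (tg_B N).repr x (j, j) := by
    intro i j
    rw [map_sub, Finsupp.sub_apply, tg_B_tmul, hzi, hzi]
  refine ⟨z, e, ?_⟩
  apply (tg_B N).repr.injective
  ext ⟨i, j⟩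
  rw [map_add, map_add, Finsupp.add_apply, Finsupp.add_apply, tg_B_tau, tg_B_tmul,
    hzi, hzi, he, LinearEquiv.apply_symm_apply]
  rw [Finsupp.filter_apply, Finsupp.filter_apply]
  rcases lt_trichotomy i j with h | h | h
  · rw [if_pos h, if_neg (not_lt.2 h.le), hy]
    ring
  · subst h
    rw [if_neg (lt_irrefl i)]
    rcases tg_cases ((tg_B N).repr x (i, i)) with h | h <;> rw [h] <;> simp
  · rw [if_neg (not_lt.2 h.le), if_pos h, hy, hsym j i]
    ring

private theorem tg_zero (z : N) (e : N ⊗[ZMod 2] N) (h : z ⊗ₜ[ZMod 2] z = e + tg_tau e) :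
    z = 0 := by
  have hi : ∀ i, (tg_b N).repr z i = 0 := by
    intro i
    have h1 : (tg_B N).repr (z ⊗ₜ[ZMod 2] z) (i, i) =
        (tg_B N).repr (e + tg_tau e) (i, i) := by rw [h]
    rw [tg_B_tmul, map_add, Finsupp.add_apply, tg_B_tau,
      CharTwo.add_self_eq_zero] at h1
    exact mul_self_eq_zero.1 h1
  apply (tg_b N).repr.injective
  rw [map_zero]
  ext i
  rw [hi i]
  rfl

private theorem tg_act_tau {H : Type} [Group H] (ρ : H →* Module.End (ZMod 2) N) (h : H)
    (x : N ⊗[ZMod 2] N) : tg_tau (rho2 ρ h x) = rho2 ρ h (tg_tau x) := by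
  induction x using TensorProduct.induction_on with
  | zero => simp
  | tmul a b => rw [rho2_tmul, tg_tau_tmul, tg_tau_tmul, rho2_tmul]
  | add x y hx hy => rw [map_add, map_add, hx, hy, map_add, map_add]

end

/-! ## The cup-i squares -/

section

variable {P : Type} [LinearOrder P] {N : Type} [AddCommGroup N] [Module (ZMod 2) N]



open scoped Classical in
/-- The `cup-i` squares: the sum over `A ∪ B = θ`, `patS A B`, of `a A ⊗ (a B)`. -/
private noncomputable def tg_xiS (a : Finset P → N) (θ : Finset P) : N ⊗[ZMod 2] N :=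
  ∑ A ∈ θ.powerset, ∑ B ∈ θ.powerset,
    if A ∪ B = θ then epS A B • (a A ⊗ₜ[ZMod 2] (a B)) else 0

open scoped Classical in
private theorem tg_tau_xiS (a : Finset P → N) (θ : Finset P) :
    tg_tau (tg_xiS a θ) = ∑ A ∈ θ.powerset, ∑ B ∈ θ.powerset,
      if A ∪ B = θ then epS B A • (a A ⊗ₜ[ZMod 2] (a B)) else 0 := by
  unfold tg_xiS
  rw [map_sum]
  have h1 : ∀ A ∈ θ.powerset, tg_tau (∑ B ∈ θ.powerset,
      if A ∪ B = θ then epS A B • (a A ⊗ₜ[ZMod 2] (a B)) else 0) =
      ∑ B ∈ θ.powerset, if B ∪ A = θ then epS A B • (a B ⊗ₜ[ZMod 2] (a A)) else 0 := by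
    intro A _
    rw [map_sum]
    refine Finset.sum_congr rfl fun B _ => ?_
    rw [Finset.union_comm]
    split_ifs
    · rw [map_smul, tg_tau_tmul]
    · rw [map_zero]
  rw [Finset.sum_congr rfl h1, Finset.sum_comm]

/-- Steenrod's formula. -/
private theorem tg_xiS_bd (a : Finset P → N) (θ : Finset P)
    (h : ∀ C ⊆ θ, ∑ p ∈ C, a (C.erase p) = 0) :
    ∑ p ∈ θ, tg_xiS a (θ.erase p) = tg_xiS a θ + tg_tau (tg_xiS a θ) := by
  classical
  have h1 := txi_main (fun A B => a A ⊗ₜ[ZMod 2] (a B)) θ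
    (fun C hC B _ => by
      rw [← TensorProduct.sum_tmul, h C (Finset.mem_powerset.mp hC), TensorProduct.zero_tmul])
    (fun C hC A _ => by
      rw [← TensorProduct.tmul_sum, h C (Finset.mem_powerset.mp hC),
        TensorProduct.tmul_zero])
  rw [tg_tau_xiS]
  unfold tg_xiS
  rw [h1, ← Finset.sum_add_distrib]
  refine Finset.sum_congr rfl fun A _ => ?_
  rw [← Finset.sum_add_distrib]
  refine Finset.sum_congr rfl fun B _ => ?_
  split_ifs
  · rw [add_smul]
  · rw [add_zero]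

/-- The bottom: for a function supported on the sets with `k` elements, `tg_xiS` vanishes on the sets
with less than `k` elements. -/
private theorem tg_xiS_low (a : Finset P → N) (k : ℕ) (ha : ∀ σ, σ.card ≠ k → a σ = 0) (θ : Finset P)
    (h : θ.card < k) : tg_xiS a θ = 0 := by
  classical
  unfold tg_xiS
  refine Finset.sum_eq_zero fun A hA => Finset.sum_eq_zero fun B _ => ?_
  have h1 : A.card ≠ k := by
    have := Finset.card_le_card (Finset.mem_powerset.mp hA)
    omega
  rw [ha A h1, TensorProduct.zero_tmul, smul_zero, ite_self]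

/-- On the sets with `k` elements it is the square. -/
private theorem tg_xiS_eq (a : Finset P → N) (k : ℕ) (ha : ∀ σ, σ.card ≠ k → a σ = 0) (θ : Finset P)
    (h : θ.card = k) : tg_xiS a θ = a θ ⊗ₜ[ZMod 2] (a θ) := by
  classical
  unfold tg_xiS
  rw [Finset.sum_eq_single_of_mem θ (Finset.mem_powerset_self θ),
    Finset.sum_eq_single_of_mem θ (Finset.mem_powerset_self θ)]
  · rw [if_pos (Finset.union_self θ)]
    unfold epS
    rw [if_pos (patS_self θ), one_smul]
  · intro B hB hne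
    have h1 : B.card ≠ k := fun h2 => hne (Finset.eq_of_subset_of_card_le
      (Finset.mem_powerset.mp hB) (by rw [h, h2]))
    rw [ha B h1, TensorProduct.tmul_zero, smul_zero, ite_self]
  · intro A hA hne
    have h1 : A.card ≠ k := fun h2 => hne (Finset.eq_of_subset_of_card_le
      (Finset.mem_powerset.mp hA) (by rw [h, h2]))
    refine Finset.sum_eq_zero fun B _ => ?_
    rw [ha A h1, TensorProduct.zero_tmul, smul_zero, ite_self]

/-- The top: `tg_xiS` vanishes on the sets with at least `2 k` elements (`k ≥ 1`). -/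
private theorem tg_xiS_high (a : Finset P → N) (k : ℕ) (hk : 1 ≤ k) (ha : ∀ σ, σ.card ≠ k → a σ = 0)
    (θ : Finset P) (h : 2 * k ≤ θ.card) : tg_xiS a θ = 0 := by
  classical
  unfold tg_xiS
  refine Finset.sum_eq_zero fun A _ => Finset.sum_eq_zero fun B _ => ?_
  by_cases hA : A.card = k
  · by_cases hB : B.card = k
    · split_ifs with hU
      · have h1 : ¬ patS A B := by
          intro hp
          have h2 : (A ∩ B).card = 0 := by
            have := Finset.card_union_add_card_inter A B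
            rw [hU] at this
            omega
          have h3 : A ∩ B = ∅ := Finset.card_eq_zero.mp h2
          obtain ⟨x, hx⟩ : B.Nonempty := Finset.card_pos.mp (by omega)
          have h4 : x ∈ B \ A := by
            rw [Finset.mem_sdiff]
            refine ⟨hx, fun hxA => ?_⟩
            have : x ∈ A ∩ B := Finset.mem_inter.mpr ⟨hxA, hx⟩
            rw [h3] at this
            exact Finset.notMem_empty x this
          have h5 := hp.2 x h4
          rw [h3] at h5
          simp at h5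
        unfold epS
        rw [if_neg h1, zero_smul]
      · rfl
    · rw [ha B hB, TensorProduct.tmul_zero, smul_zero, ite_self]
  · rw [ha A hA, TensorProduct.zero_tmul, smul_zero, ite_self]



end

/-! ## The norm -/

section

variable {N : Type} [AddCommGroup N] [Module (ZMod 2) N]

/-- `1 + tau`. -/
private noncomputable def tg_NT : (N ⊗[ZMod 2] N) →ₗ[ZMod 2] (N ⊗[ZMod 2] N) :=
  LinearMap.id + tg_tau

private theorem tg_NT_apply (x : N ⊗[ZMod 2] N) : tg_NT x = x + tg_tau x := rfl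

private theorem tg_NT_NT (x : N ⊗[ZMod 2] N) : tg_NT (tg_NT x) = 0 := by
  rw [tg_NT_apply, tg_NT_apply, map_add, tg_tau_tau, add_comm (tg_tau x) x]
  exact tt_two _

/-- The square of a sum. -/
private theorem tg_sq_sum {ι : Type} (s : Finset ι) (x : ι → N) : ∃ e : N ⊗[ZMod 2] N,
    (∑ i ∈ s, x i) ⊗ₜ[ZMod 2] (∑ i ∈ s, x i) =
      ∑ i ∈ s, (x i ⊗ₜ[ZMod 2] (x i)) + tg_NT e := by
  classical
  induction s using Finset.induction_on with
  | empty => exact ⟨0, by simp⟩
  | insert a s ha ih =>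
    obtain ⟨e, he⟩ := ih
    refine ⟨e + x a ⊗ₜ[ZMod 2] (∑ i ∈ s, x i), ?_⟩
    rw [Finset.sum_insert ha, Finset.sum_insert ha, TensorProduct.tmul_add,
      TensorProduct.add_tmul, TensorProduct.add_tmul, he, map_add,
      tg_NT_apply (x a ⊗ₜ[ZMod 2] _), tg_tau_tmul]
    abel

private theorem tg_sq_add (x y : N) : ∃ e : N ⊗[ZMod 2] N, (x + y) ⊗ₜ[ZMod 2] (x + y) =
    x ⊗ₜ[ZMod 2] x + y ⊗ₜ[ZMod 2] y + tg_NT e := by
  refine ⟨x ⊗ₜ[ZMod 2] y, ?_⟩
  rw [TensorProduct.tmul_add, TensorProduct.add_tmul, TensorProduct.add_tmul, tg_NT_apply,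
    tg_tau_tmul]
  abel

end

section

variable {H : Type} [Group H] {P : Type} [LinearOrder P] [MulAction H P] {X : Set (Finset P)}
  {N : Type} [AddCommGroup N] [Module (ZMod 2) N] (ρ : H →* Module.End (ZMod 2) N)

private theorem tg_NT_rho (h : H) (x : N ⊗[ZMod 2] N) :
    tg_NT (rho2 ρ h x) = rho2 ρ h (tg_NT x) := by
  rw [tg_NT_apply, tg_NT_apply, map_add, tg_act_tau]

private theorem tg_co_NT {k : ℕ} {c : Finset P → N ⊗[ZMod 2] N} (hc : c ∈ Co (rho2 ρ) X k) :
    (fun σ => tg_NT (c σ)) ∈ Co (rho2 ρ) X k := co_comp tg_NT (tg_NT_rho ρ) hc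

private theorem tg_xiS_smul (hX : FreeCx H X) (ho : OrdInv H X) {k : ℕ} {a : Finset P → N}
    (ha : a ∈ Co ρ X k) {θ : Finset P} (hθ : θ ∈ X) (h : H) :
    tg_xiS a (h • θ) = rho2 ρ h (tg_xiS a θ) := by
  classical
  unfold tg_xiS
  rw [powerset_smul, Finset.sum_image (fun A _ B _ e => MulAction.injective h e), map_sum]
  refine Finset.sum_congr rfl fun A hA => ?_
  rw [Finset.sum_image (fun A _ B _ e => MulAction.injective h e), map_sum]
  refine Finset.sum_congr rfl fun B hB => ?_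
  have h1 : (h • A ∪ h • B = h • θ) ↔ A ∪ B = θ := by
    rw [← Finset.smul_finset_union]
    exact smul_left_cancel_iff h
  have h2 : epS (h • A) (h • B) = epS A B := by
    unfold epS
    simp only [patS_smul ho hθ h (Finset.mem_powerset.mp hA) (Finset.mem_powerset.mp hB)]
  by_cases h3 : A ∪ B = θ
  · rw [if_pos (h1.mpr h3), if_pos h3, h2, map_smul, rho2_tmul, hX.co_eqv ha, hX.co_eqv ha]
  · rw [if_neg (fun h4 => h3 (h1.mp h4)), if_neg h3, map_zero]

open scoped Classical in
/-- The component of card `j` of `tg_xiS a`. -/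
private noncomputable def tg_xc (X : Set (Finset P)) (a : Finset P → N) (j : ℕ) :
    Finset P → N ⊗[ZMod 2] N :=
  fun θ => if θ ∈ X ∧ θ.card = j then tg_xiS a θ else 0

private theorem tg_xc_mem (hX : FreeCx H X) (ho : OrdInv H X) {k : ℕ} {a : Finset P → N}
    (ha : a ∈ Co ρ X k) (j : ℕ) : tg_xc X a j ∈ Co (rho2 ρ) X j := by
  classical
  refine ⟨fun σ hσ => if_neg hσ, fun h σ hσ => ?_⟩
  unfold tg_xc
  by_cases h1 : σ.card = j
  · rw [if_pos ⟨hX.inv h σ hσ, (card_smul h σ).trans h1⟩, if_pos ⟨hσ, h1⟩]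
    exact tg_xiS_smul ρ hX ho ha hσ h
  · rw [if_neg (fun h2 => h1 ((card_smul h σ).symm.trans h2.2)), if_neg (fun h2 => h1 h2.2),
      map_zero]

private theorem tg_xc_dl (hX : FreeCx H X) {k : ℕ} {a : Finset P → N}
    (ha : a ∈ Co ρ X k) (hd : dl X a = 0) (j : ℕ) :
    dl X (tg_xc X a j) = fun σ => tg_NT (tg_xc X a (j + 1) σ) := by
  classical
  have h0 : a ∅ = 0 := ha.1 ∅ fun h => hX.empty_notMem h.1
  funext θ
  by_cases hθ : θ ∈ X
  · rw [dl_apply hθ]
    by_cases hc : θ.card = j + 1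
    · have h1 : ∀ p ∈ θ, tg_xc X a j (θ.erase p) = tg_xiS a (θ.erase p) := by
        intro p hp
        unfold tg_xc
        by_cases hne : (θ.erase p).Nonempty
        · rw [if_pos]
          refine ⟨hX.down θ hθ _ (Finset.erase_subset p θ) hne, ?_⟩
          rw [Finset.card_erase_of_mem hp, hc]
          rfl
        · have h2 : θ.erase p = ∅ := Finset.not_nonempty_iff_eq_empty.mp hne
          rw [h2, if_neg (fun h => hX.empty_notMem h.1)]
          unfold tg_xiS
          rw [Finset.powerset_empty, Finset.sum_singleton, Finset.sum_singleton, h0]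
          simp
      rw [Finset.sum_congr rfl h1, tg_xiS_bd a θ]
      · unfold tg_xc
        rw [if_pos ⟨hθ, hc⟩, tg_NT_apply]
      · intro C hC
        rcases C.eq_empty_or_nonempty with rfl | hne
        · rfl
        · have h3 := congrFun hd C
          rwa [dl_apply (hX.down θ hθ C hC hne)] at h3
    · have h1 : tg_xc X a (j + 1) θ = 0 := if_neg fun h => hc h.2
      rw [h1, map_zero]
      refine Finset.sum_eq_zero fun p hp => if_neg fun h => hc ?_
      rw [← h.2, Finset.card_erase_of_mem hp]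
      have := Finset.card_pos.mpr (hX.ne θ hθ)
      omega
  · rw [dl_apply_not hθ]
    have h1 : tg_xc X a (j + 1) θ = 0 := if_neg fun h => hθ h.1
    rw [h1, map_zero]

private theorem tg_xc_low {k : ℕ} {a : Finset P → N} (ha : a ∈ Co ρ X k) {j : ℕ}
    (hj : j < k) : tg_xc X a j = 0 := by
  funext θ
  unfold tg_xc
  split_ifs with h
  · exact tg_xiS_low a k (fun σ hσ => co_card ha σ hσ) θ (by omega)
  · rfl

private theorem tg_xc_high {k : ℕ} (hk : 1 ≤ k) {a : Finset P → N} (ha : a ∈ Co ρ X k)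
    {j : ℕ} (hj : 2 * k ≤ j) : tg_xc X a j = 0 := by
  funext θ
  unfold tg_xc
  split_ifs with h
  · exact tg_xiS_high a k hk (fun σ hσ => co_card ha σ hσ) θ (by omega)
  · rfl

private theorem tg_xc_eq {k : ℕ} {a : Finset P → N} (ha : a ∈ Co ρ X k) (θ : Finset P) :
    tg_xc X a k θ = a θ ⊗ₜ[ZMod 2] (a θ) := by
  unfold tg_xc
  split_ifs with h
  · exact tg_xiS_eq a k (fun σ hσ => co_card ha σ hσ) θ h.2
  · rw [ha.1 θ h, TensorProduct.zero_tmul]

/-! ## Climbing and descending -/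

private theorem tg_sym_decomp (hX : FreeCx H X) {m : ℕ} {w : Finset P → N ⊗[ZMod 2] N}
    (hw : w ∈ Co (rho2 ρ) X m) (h0 : ∀ σ, tg_NT (w σ) = 0) :
    ∃ β ∈ Co ρ X m, ∃ u ∈ Co (rho2 ρ) X m,
      ∀ σ, w σ = β σ ⊗ₜ[ZMod 2] (β σ) + tg_NT (u σ) := by
  obtain ⟨R, hR⟩ := hX.exists_reps
  have h1 : ∀ σ, ∃ (z : N) (e : N ⊗[ZMod 2] N), w σ = z ⊗ₜ[ZMod 2] z + tg_NT e := by
    intro σ
    have h2 : tg_tau (w σ) = w σ := (tt_eq_of_add (h0 σ)).symm
    exact tg_inv (w σ) h2
  choose z e hze using h1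
  refine ⟨coE ρ hR m z, hX.coE_mem hR m z, coE (rho2 ρ) hR m e, hX.coE_mem hR m e,
    fun σ => ?_⟩
  by_cases hσ : σ ∈ X ∧ σ.card = m
  · unfold coE
    rw [if_pos hσ, if_pos hσ, tg_NT_rho ρ]
    have h2 := hze (hR.rep σ)
    have h3 := hw.2 (hR.el σ) (hR.rep σ) (hR.mem _ (hR.rep_mem hσ.1))
    rw [hR.el_rep hσ.1] at h3
    rw [h3, h2, map_add, rho2_tmul]
  · rw [hw.1 σ hσ]
    unfold coE
    rw [if_neg hσ, if_neg hσ]
    simp

/-- A square in the image of `1 + tau` vanishes. -/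
private theorem tg_sq_zero {z : N} {e : N ⊗[ZMod 2] N} (h : z ⊗ₜ[ZMod 2] z = tg_NT e) :
    z = 0 := tg_zero z e h

/-- The squares of a cochain and the coboundary. -/
private theorem tg_sq_dl (c : Finset P → N) (σ : Finset P) : ∃ e : N ⊗[ZMod 2] N,
    (dl X c σ) ⊗ₜ[ZMod 2] (dl X c σ) =
      dl X (fun τ => c τ ⊗ₜ[ZMod 2] (c τ)) σ + tg_NT e := by
  by_cases hσ : σ ∈ X
  · rw [dl_apply hσ, dl_apply hσ]
    exact tg_sq_sum σ _
  · rw [dl_apply_not hσ, dl_apply_not hσ]
    exact ⟨0, by simp⟩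

private theorem tg_climb (hX : FreeCx H X) (ho : OrdInv H X) {n : ℕ}
    (hE : ∀ i, 1 ≤ i → i ≤ n → ExCo (rho2 ρ) X i) {k : ℕ} (hk : 1 ≤ k)
    (hkn : 2 * k - 1 ≤ n) {a : Finset P → N} (ha : a ∈ Co ρ X k) (hd : dl X a = 0)
    (i : ℕ) (hi : i ≤ 2 * k - 1) :
    ∃ w : ℕ → Finset P → N ⊗[ZMod 2] N, (∀ m, w m ∈ Co (rho2 ρ) X m) ∧
      ∀ m, 2 * k - i ≤ m → m ≤ 2 * k →
        dl X (w (m - 1)) = fun σ => tg_xc X a m σ + tg_NT (w m σ) := by
  induction i with
  | zero =>
    refine ⟨fun _ => 0, fun m => Submodule.zero_mem _, fun m h1 h2 => ?_⟩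
    have h3 : m = 2 * k := by omega
    subst h3
    rw [tg_xc_high ρ hk ha le_rfl, map_zero]
    funext σ
    simp
  | succ i ih =>
    obtain ⟨w, hw, hE'⟩ := ih (by omega)
    obtain ⟨m0, hm0⟩ : ∃ m0, m0 + 1 + i = 2 * k := ⟨2 * k - 1 - i, by omega⟩
    have hc : (fun σ => tg_xc X a m0 σ + tg_NT (w m0 σ)) ∈ Co (rho2 ρ) X m0 :=
      Submodule.add_mem _ (tg_xc_mem ρ hX ho ha m0) (tg_co_NT ρ (hw m0))
    have hcoc : dl X (fun σ => tg_xc X a m0 σ + tg_NT (w m0 σ)) = 0 := by
      have e1 : (fun σ => tg_xc X a m0 σ + tg_NT (w m0 σ)) =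
          tg_xc X a m0 + fun σ => tg_NT (w m0 σ) := rfl
      rw [e1, map_add, tg_xc_dl ρ hX ha hd, dl_comp]
      have h2 := hE' (m0 + 1) (by omega) (by omega)
      rw [Nat.add_sub_cancel] at h2
      rw [h2]
      funext σ
      show tg_NT (tg_xc X a (m0 + 1) σ) + tg_NT (tg_xc X a (m0 + 1) σ + tg_NT (w (m0 + 1) σ)) = 0
      rw [map_add, tg_NT_NT, add_zero]
      exact tt_two _
    obtain ⟨y, hy, hy'⟩ := hE m0 (by omega) (by omega) _ hc hcoc
    refine ⟨Function.update w (m0 - 1) y, fun m => ?_, fun m h1 h2 => ?_⟩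
    · by_cases hm : m = m0 - 1
      · subst hm
        rw [Function.update_self]
        exact hy
      · rw [Function.update_of_ne hm]
        exact hw m
    · by_cases hm : m = m0
      · subst hm
        rw [Function.update_self, Function.update_of_ne (by omega)]
        exact hy'
      · rw [Function.update_of_ne (by omega), Function.update_of_ne (by omega)]
        exact hE' m (by omega) h2

private theorem tg_desc (hX : FreeCx H X) (ho : OrdInv H X) {k : ℕ}
    {a : Finset P → N} (ha : a ∈ Co ρ X k)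
    (h : ∃ w : ℕ → Finset P → N ⊗[ZMod 2] N, (∀ m, w m ∈ Co (rho2 ρ) X m) ∧
      ∀ m, 1 ≤ m → m ≤ k → dl X (w (m - 1)) = fun σ => tg_xc X a m σ + tg_NT (w m σ))
    (m : ℕ) (hm : m + 2 ≤ k) :
    ∃ w : ℕ → Finset P → N ⊗[ZMod 2] N, (∀ m, w m ∈ Co (rho2 ρ) X m) ∧
      (∀ m, 1 ≤ m → m ≤ k → dl X (w (m - 1)) = fun σ => tg_xc X a m σ + tg_NT (w m σ)) ∧
      ∀ j, j ≤ m → w j = 0 := by
  classical
  induction m with
  | zero =>
    obtain ⟨w, h1, h2⟩ := h
    refine ⟨w, h1, h2, fun j hj => ?_⟩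
    have h3 : j = 0 := by omega
    subst h3
    exact hX.co_zero (h1 0)
  | succ m ih =>
    obtain ⟨w, h1, h2, h3⟩ := ih (by omega)
    -- `w (m+1)` is symmetric
    have h4 : ∀ σ, tg_NT (w (m + 1) σ) = 0 := by
      intro σ
      have h5 := congrFun (h2 (m + 1) (by omega) (by omega)) σ
      rw [Nat.add_sub_cancel, h3 m le_rfl, map_zero, tg_xc_low ρ ha (by omega : m + 1 < k)] at h5
      simpa using h5.symm
    obtain ⟨β, hβ, u, hu, hw⟩ := tg_sym_decomp ρ hX (h1 (m + 1)) h4
    -- `β` is a cocycle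
    have hdw : dl X (w (m + 1)) = fun σ => dl X (fun τ => β τ ⊗ₜ[ZMod 2] (β τ)) σ +
        tg_NT (dl X u σ) := by
      have e1 : w (m + 1) = (fun τ => β τ ⊗ₜ[ZMod 2] (β τ)) + fun τ => tg_NT (u τ) :=
        funext hw
      rw [e1, map_add, dl_comp]
      rfl
    have h6' : dl X (w (m + 1)) = fun σ => tg_NT (w (m + 2) σ) := by
      have h6 := h2 (m + 2) (by omega) (by omega)
      have h7 : m + 2 - 1 = m + 1 := rfl
      rw [h7, tg_xc_low ρ ha (by omega : m + 2 < k)] at h6
      rw [h6]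
      funext σ
      simp
    have hβd : dl X β = 0 := by
      funext σ
      obtain ⟨e, he⟩ := tg_sq_dl (X := X) β σ
      have h8 : dl X (fun τ => β τ ⊗ₜ[ZMod 2] (β τ)) σ =
          tg_NT (w (m + 2) σ + dl X u σ) := by
        have h9 := congrFun (hdw.symm.trans h6') σ
        rw [map_add, ← h9, add_assoc, tt_two, add_zero]
      rw [h8, ← map_add] at he
      exact tg_sq_zero he
    have hκ : (fun τ => β τ ⊗ₜ[ZMod 2] (β τ)) = tg_xc X β (m + 1) :=
      funext fun τ => (tg_xc_eq ρ hβ τ).symm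
    have hdκ : dl X (tg_xc X β (m + 1)) = fun σ => tg_NT (tg_xc X β (m + 2) σ) :=
      tg_xc_dl ρ hX hβ hβd (m + 1)
    refine ⟨fun j => if j ≤ m + 1 then 0 else w j + tg_xc X β j +
      (if j = m + 2 then dl X u else 0), fun j => ?_, fun j hj1 hj2 => ?_, fun j hj => if_pos hj⟩
    · beta_reduce
      by_cases hj : j ≤ m + 1
      · rw [if_pos hj]
        exact Submodule.zero_mem _
      · rw [if_neg hj]
        refine Submodule.add_mem _ (Submodule.add_mem _ (h1 j) (tg_xc_mem ρ hX ho hβ j)) ?_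
        by_cases hj' : j = m + 2
        · rw [if_pos hj']
          subst hj'
          exact hX.co_dl hu
        · rw [if_neg hj']
          exact Submodule.zero_mem _
    · beta_reduce
      by_cases hj : j ≤ m + 1
      · rw [if_pos hj, if_pos (by omega : j - 1 ≤ m + 1), tg_xc_low ρ ha (by omega : j < k),
          map_zero]
        funext σ
        simp
      · rw [if_neg hj]
        by_cases hj' : j = m + 2
        · subst hj'
          have h7 : m + 2 - 1 = m + 1 := rfl
          rw [h7, if_pos le_rfl, if_pos rfl, map_zero, tg_xc_low ρ ha (by omega : m + 2 < k)]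
          funext σ
          have h9 := congrFun (hdw.symm.trans h6') σ
          rw [hκ] at h9
          have h10 := congrFun hdκ σ
          show (0 : N ⊗[ZMod 2] N) = 0 + tg_NT (w (m + 2) σ + tg_xc X β (m + 2) σ + dl X u σ)
          rw [zero_add, map_add, map_add, ← h10, ← h9]
          have h11 : ∀ x y : N ⊗[ZMod 2] N, 0 = x + y + x + y := by
            intro x y
            have : x + y + x + y = (x + x) + (y + y) := by abel
            rw [this, tt_two, tt_two, add_zero]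
          exact h11 _ _
        · rw [if_neg hj', if_neg (by omega : ¬ j - 1 ≤ m + 1), add_zero]
          have hE := h2 j hj1 hj2
          have hb := tg_xc_dl ρ hX hβ hβd (j - 1)
          rw [show j - 1 + 1 = j by omega] at hb
          have hu0 : dl X (if j - 1 = m + 2 then dl X u else 0) = 0 := by
            split_ifs
            · exact hX.dl_dl u
            · exact map_zero _
          rw [map_add, map_add, hu0, add_zero, hE, hb]
          funext σ
          show tg_xc X a j σ + tg_NT (w j σ) + tg_NT (tg_xc X β j σ) =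
            tg_xc X a j σ + tg_NT (w j σ + tg_xc X β j σ)
          rw [map_add, add_assoc]

end

variable {H : Type} [Group H] {P : Type} [LinearOrder P] [MulAction H P] {X : Set (Finset P)}
  {N : Type} [AddCommGroup N] [Module (ZMod 2) N]

/-- The Tate argument. -/
theorem tateG (ρ : H →* Module.End (ZMod 2) N) (hX : FreeCx H X) (ho : OrdInv H X) {n : ℕ}
    (hE : ∀ i, 1 ≤ i → i ≤ n → ExCo (rho2 ρ) X i) (k : ℕ) (hk : 1 ≤ k)
    (hkn : 2 * (k - 1) < n) : ExCo ρ X k := by
  classical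
  intro a ha hd
  obtain ⟨w, hw1, hw2⟩ := tg_climb ρ hX ho hE hk (by omega) ha hd (2 * k - 1) le_rfl
  have h0 : ∃ w : ℕ → Finset P → N ⊗[ZMod 2] N, (∀ m, w m ∈ Co (rho2 ρ) X m) ∧
      ∀ m, 1 ≤ m → m ≤ k → dl X (w (m - 1)) = fun σ => tg_xc X a m σ + tg_NT (w m σ) :=
    ⟨w, hw1, fun m h1 h2 => hw2 m (by omega) (by omega)⟩
  -- a sequence with `tg_NT (w (k-1)) = 0`
  obtain ⟨w, h1, h2, h4⟩ : ∃ w : ℕ → Finset P → N ⊗[ZMod 2] N, (∀ m, w m ∈ Co (rho2 ρ) X m) ∧
      (∀ m, 1 ≤ m → m ≤ k → dl X (w (m - 1)) = fun σ => tg_xc X a m σ + tg_NT (w m σ)) ∧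
      ∀ σ, tg_NT (w (k - 1) σ) = 0 := by
    by_cases hk1 : k = 1
    · subst hk1
      obtain ⟨w, h1, h2⟩ := h0
      refine ⟨w, h1, h2, fun σ => ?_⟩
      rw [hX.co_zero (h1 0)]
      exact map_zero _
    · obtain ⟨w, h1, h2, h3⟩ := tg_desc ρ hX ho ha h0 (k - 2) (by omega)
      refine ⟨w, h1, h2, fun σ => ?_⟩
      have h5 := congrFun (h2 (k - 1) (by omega) (by omega)) σ
      rw [show k - 1 - 1 = k - 2 by omega, h3 (k - 2) le_rfl, map_zero,
        tg_xc_low ρ ha (by omega : k - 1 < k)] at h5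
      simpa using h5.symm
  obtain ⟨β, hβ, u, hu, hw⟩ := tg_sym_decomp ρ hX (h1 (k - 1)) h4
  refine ⟨β, hβ, ?_⟩
  have hdw : dl X (w (k - 1)) = fun σ => dl X (fun τ => β τ ⊗ₜ[ZMod 2] (β τ)) σ +
      tg_NT (dl X u σ) := by
    have e1 : w (k - 1) = (fun τ => β τ ⊗ₜ[ZMod 2] (β τ)) + fun τ => tg_NT (u τ) :=
      funext hw
    rw [e1, map_add, dl_comp]
    rfl
  have h6 := h2 k hk le_rfl
  funext σ
  obtain ⟨e, he⟩ := tg_sq_dl (X := X) β σ
  obtain ⟨e', he'⟩ := tg_sq_add (dl X β σ) (a σ)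
  have h7 := congrFun (hdw.symm.trans h6) σ
  beta_reduce at h7
  rw [tg_xc_eq ρ ha σ] at h7
  have h8 : dl X (fun τ => β τ ⊗ₜ[ZMod 2] (β τ)) σ =
      a σ ⊗ₜ[ZMod 2] (a σ) + tg_NT (w k σ + dl X u σ) := by
    rw [map_add, ← add_assoc, ← h7, add_assoc, tt_two, add_zero]
  rw [he, h8] at he'
  have h9 : (dl X β σ + a σ) ⊗ₜ[ZMod 2] (dl X β σ + a σ) =
      tg_NT (w k σ + dl X u σ + e + e') := by
    rw [he']
    simp only [map_add]
    have h10 : ∀ x y z v q : N ⊗[ZMod 2] N, x + (y + z) + v + x + q = y + z + v + q := by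
      intro x y z v q
      have : x + (y + z) + v + x + q = (x + x) + (y + z + v + q) := by abel
      rw [this, tt_two, zero_add]
    exact h10 _ _ _ _ _
  have h11 := tg_sq_zero h9
  have h12 : a σ + a σ = 0 := tt_two _
  calc dl X β σ = dl X β σ + (a σ + a σ) := by rw [h12, add_zero]
    _ = (dl X β σ + a σ) + a σ := by rw [add_assoc]
    _ = a σ := by rw [h11, zero_add]

end SingerBO
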